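import Mathlib

-- merged part: Pool.Agent.Work.MP_e10cd8_co.Four.Defs
section
/-!
Definitions for the lower bound on digraphs without a transitive tournament on four vertices.
Paper: team store file h81_e10cd8_paper.md.
-/

namespace Pool.Agent.Work.MP_e10cd8_co.Four

open Finset

noncomputable section

/-! ## Classical selectors -/

open Classical in
/-- indicator of a proposition -/
def ind (p : Prop) : ℝ := if p then 1 else 0

theorem ind_pos {p : Prop} (h : p) : ind p = 1 := by simp [ind, h]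
theorem ind_neg {p : Prop} (h : ¬ p) : ind p = 0 := by simp [ind, h]
theorem ind_nonneg (p : Prop) : 0 ≤ ind p := by unfold ind; split_ifs <;> norm_num
theorem ind_le_one (p : Prop) : ind p ≤ 1 := by unfold ind; split_ifs <;> norm_num

open Classical in
/-- elements of `X` with property `p` -/
def selIn {α : Type} (X : Finset α) (p : α → Prop) : Finset α := X.filter p

@[simp] theorem mem_selIn {α : Type} {X : Finset α} {p : α → Prop} {a : α} :
    a ∈ selIn X p ↔ a ∈ X ∧ p a := by simp [selIn]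

theorem selIn_subset {α : Type} (X : Finset α) (p : α → Prop) : selIn X p ⊆ X :=
  fun _ h => (mem_selIn.1 h).1

theorem card_selIn {α : Type} (X : Finset α) (p : α → Prop) :
    ((selIn X p).card : ℝ) = ∑ a ∈ X, ind (p a) := by
  classical
  simp only [selIn, ind, Finset.card_filter]
  push_cast
  exact Finset.sum_congr rfl fun a _ => by split_ifs <;> simp

/-- all elements with property `p` -/
def sel {α : Type} [Fintype α] (p : α → Prop) : Finset α := selIn univ p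

@[simp] theorem mem_sel {α : Type} [Fintype α] {p : α → Prop} {a : α} : a ∈ sel p ↔ p a := by
  simp [sel]

theorem card_sel {α : Type} [Fintype α] (p : α → Prop) :
    ((sel p).card : ℝ) = ∑ a, ind (p a) := card_selIn _ _

/-! ## Bernoulli subsets of a finite set -/

section Prob
variable {ι : Type} [DecidableEq ι]

/-- expectation over a random subset of `Ω`, each element taken with probability `η` -/
def Ex (η : ℝ) (Ω : Finset ι) (f : Finset ι → ℝ) : ℝ :=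
  ∑ T ∈ Ω.powerset, η ^ T.card * (1 - η) ^ (Ω.card - T.card) * f T

def Pr (η : ℝ) (Ω : Finset ι) (p : Finset ι → Prop) : ℝ := Ex η Ω fun T => ind (p T)

def Vr (η : ℝ) (Ω : Finset ι) (f : Finset ι → ℝ) : ℝ := Ex η Ω fun T => (f T - Ex η Ω f) ^ 2

/-- probability over the coordinates outside the block `B` that the block variance exceeds `v`
or some configuration of the block lies more than `M` below the block mean -/
def badp (η : ℝ) (Ω B : Finset ι) (f : Finset ι → ℝ) (v M : ℝ) : ℝ :=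
  Pr η (Ω \ B) fun T => ¬ (Vr η B (fun S => f (S ∪ T)) ≤ v ∧
    ∀ S ⊆ B, -M ≤ f (S ∪ T) - Ex η B fun S' => f (S' ∪ T))

/-- `1` if the sample misses `A` -/
def emp (T A : Finset ι) : ℝ := ind (Disjoint T A)

/-- the flat emptiness statistic: groups `4, …, c + 3` kill, groups `0, …, 3` are centred -/
def xi {α : Type} [DecidableEq α] (c : ℕ) (γ : ℝ) (T : Finset (ℕ × α)) (A A' : Finset α) : ℝ :=
  emp T (Ico 4 (c + 4) ×ˢ A) * ∏ j ∈ range 4, (emp T ({j} ×ˢ A') - γ)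

end Prob

/-! ## The projective space of dimension three, abstractly -/

/-- points and planes are the same type; `pl b` is the set of points on the plane `b` and the set
of planes through the point `b` -/
structure PG (q : ℕ) (Pt : Type) [Fintype Pt] [DecidableEq Pt] where
  pl : Pt → Finset Pt
  two_le : 2 ≤ q
  symm : ∀ a b, a ∈ pl b ↔ b ∈ pl a
  card_pt : Fintype.card Pt = q ^ 3 + q ^ 2 + q + 1
  deg : ∀ a, (pl a).card = q ^ 2 + q + 1
  codeg : ∀ a y, a ≠ y → (pl a ∩ pl y).card = q + 1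
  tri : ∀ a y z, a ≠ y → ¬ (pl a ∩ pl y ⊆ pl z) → (pl a ∩ pl y ∩ pl z).card = 1

/-- sampling rate attached to a set -/
def eta {Pt : Type} (q : ℕ) (P : Finset Pt) : ℝ := (q : ℝ) / P.card

def sig {Pt : Type} (q : ℕ) (P : Finset Pt) : ℝ := (q : ℝ) ^ 2 / P.card

/-- numerical side conditions of the reconstruction step -/
structure Par (q : ℕ) (w : ℝ) (c : ℕ) : Prop where
  hw : (2 : ℝ) ^ 30 ≤ w
  hL : Real.log q ≤ w
  hc1 : 2 ^ 23 * Real.log w ≤ c
  hc2 : (c : ℝ) ≤ 2 ^ 23 * Real.log w + 1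
  hq : w ^ 100 ≤ q

/-- numerical side conditions of the final count -/
structure FPar (q R r k : ℕ) : Prop where
  hq : 1000 ≤ q
  hR : 3 * Real.log q ≤ 2 ^ R
  hr : r = 4000 * 2 ^ 28 * (R + 2)
  hrq : 25 * r ^ 2 ≤ q
  hk1 : 2000 * r * q * Real.log q ≤ k
  hk2 : (k : ℝ) ≤ 10000 * r * q * Real.log q

/-- weight of a cover -/
def wtC {φ : Type} (p : ℝ) (w0 : ℕ) (C : Finset (Finset φ × Finset φ)) : ℝ :=
  ∑ x ∈ C, p ^ x.1.card * (x.2.card.choose w0 : ℝ) * p ^ w0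

def hits {φ : Type} [DecidableEq φ] (C : Finset (Finset φ × Finset φ)) (w0 : ℕ) (I : Finset φ) :
    Prop :=
  ∃ x ∈ C, x.1 ⊆ I ∧ w0 ≤ ((I ∩ x.2) \ x.1).card

namespace PG

variable {q : ℕ} {Pt : Type} [Fintype Pt] [DecidableEq Pt] (G : PG q Pt)

/-- the points on all planes of `A` -/
def perp (A : Finset Pt) : Finset Pt := sel fun z => A ⊆ G.pl z

/-- lines, read either as pencils of planes or as sets of points -/
def lines : Finset (Finset Pt) := sel fun A => ∃ a y, a ≠ y ∧ A = G.pl a ∩ G.pl y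

def cnt (X : Finset Pt) (b : Pt) : ℕ := (G.pl b ∩ X).card

def low (x : ℝ) (X : Finset Pt) : Finset Pt := sel fun b => (G.cnt X b : ℝ) ≤ x * X.card / q

/-- `P` has nearly the largest possible number of planes almost missing it -/
def Ext (x : ℝ) (P : Finset Pt) (Om : ℝ) : Prop :=
  P.Nonempty ∧ (q : ℝ) ^ 4 ≤ (G.low x P).card * P.card * Om

def tb (P : Finset Pt) (b : Pt) : ℝ := eta q P * G.cnt P b

/-- normalised number of points of `P` on the line through `a` and `y` -/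
def dl (P : Finset Pt) (a y : Pt) : ℝ := eta q P * (G.perp (G.pl a ∩ G.pl y) ∩ P).card

def single (H : Finset Pt) (a : Pt) : Prop := (H ∩ G.pl a).card ≤ 1

/-- the points on the planes of `H` through `a` -/
def th (H : Finset Pt) (a : Pt) : Finset Pt := (H ∩ G.pl a).biUnion G.pl

def nuT (P H : Finset Pt) (a : Pt) : ℕ := (P \ G.th H a).card / q

def Wf (P H : Finset Pt) (a : Pt) : ℝ :=
  eta q P * ∑ y ∈ P.erase a \ G.th H a, (min 1 (G.dl P a y)) ^ 2

def Wr (P : Finset Pt) (d0 : ℝ) (a : Pt) : ℝ :=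
  eta q P * ∑ y ∈ selIn (P.erase a) (fun y => d0 ≤ G.dl P a y ∧
    ∀ b ∈ G.pl a ∩ G.pl y, (G.cnt P b : ℝ) < d0 * P.card / 8), (min 1 (G.dl P a y)) ^ 2

/-- what the reconstruction needs from the set `H` of heavy planes -/
structure HOK (w : ℝ) (P H : Finset Pt) : Prop where
  half : ∀ b ∈ H, 2 * G.cnt P b ≤ P.card
  notD : ∀ b ∈ H, b ∉ G.low (1 / 4) P
  sum2 : ∑ b ∈ H, G.cnt P b ≤ 2 * P.card
  multi : 100 * (sel fun a => ¬ G.single H a).card ≤ P.card
  wf : 100 * (sel fun a => G.single H a ∧ sig q P ^ 2 * w ^ 20 < G.Wf P H a).card ≤ P.card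
  rich : 4 * w ^ 5 ≤ sig q P ∨ ((sel fun a => G.single H a ∧
    ∃ y ∈ P.erase a \ G.th H a, 1 / 16 < G.dl P a y).card : ℝ) ≤ w ^ 22 * P.card

def Zs (c : ℕ) (P S : Finset Pt) : ℝ :=
  ∑ b ∈ G.low (1 / 4) P ∩ S, (1 - eta q P) ^ (c * G.cnt P b)

def gb (P : Finset Pt) (b : Pt) : ℝ := min 1 |G.tb P b - 1|

/-- deviation of the trace of `b` on the point set `U` -/
def hb (P U : Finset Pt) (b : Pt) : ℝ :=
  min 1 |eta q P * (G.pl b ∩ U ∩ P).card - ((U ∩ P).card : ℝ) / P.card|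

def om (P : Finset Pt) (b : Pt) : ℝ := min 1 (1 / G.tb P b)

def ub (P H : Finset Pt) (a b : Pt) : ℝ := min 1 (G.gb P b + G.hb P (G.th H a) b + 2 * eta q P)

def psi (P H : Finset Pt) (a y : Pt) : ℝ :=
  ∑ b ∈ ((G.pl a ∩ G.pl y) \ H) \ G.low (1 / 4) P, G.om P b * G.ub P H a b ^ 2

def vT (w : ℝ) (c : ℕ) (P H : Finset Pt) (a : Pt) : ℝ :=
  40000 * (c + 4) * ((1 / w ^ 20) ^ 2 * (eta q P * ∑ y ∈ P.erase a, G.psi P H a y ^ 2) +
    20 * (q : ℝ) ^ 2 * (1 / w ^ 20) * Real.log q + (1 / w ^ 20) ^ 2 * (q : ℝ) ^ 2 * G.Wf P H a)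

/-- the statistic at the point `a`, summed over the planes of `B` -/
def Sst (c : ℕ) (γ : ℝ) (H B : Finset Pt) (a : Pt) (T : Finset (ℕ × Pt)) : ℝ :=
  ∑ b ∈ (G.pl a \ H) ∩ B, xi c γ T ((G.pl b).erase a) ((G.pl b).erase a \ G.th H a)

/-- the decoder of the main case -/
def dec (c : ℕ) (β : ℝ) (ν : Pt → ℕ) (H : Finset Pt) (v : ℕ) (T : Finset (ℕ × Pt)) : Finset Pt :=
  sel fun a => G.single H a ∧ G.Sst c (β ^ ν a) H univ a T < v

/-- number of planes of `B` through `a` and `y` -/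
def Phi (B : Finset Pt) (a y : Pt) : ℝ := ((G.pl a ∩ G.pl y ∩ B).card : ℝ)

def bigs (w : ℝ) (P : Finset Pt) (a : Pt) : Finset Pt :=
  selIn (P.erase a) fun y => sig q P * q / (2 * w ^ 5) < G.Phi (G.low (1 / 4) P) a y

/-- planes through `x` that do not contain the line `l` -/
def pen (l : Finset Pt) (x : Pt) : Finset Pt := selIn (G.pl x) fun b => ¬ l ⊆ G.pl b

/-- the decoder of the planar case; `y` is the size of the sampled set of planes -/
def decP (c : ℕ) (π : Pt) (y v : ℕ) (T : Finset (ℕ × Pt)) : Finset Pt :=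
  sel fun b => b ≠ π ∧ ∑ x ∈ G.pl b ∩ G.pl π, xi c ((1 - (q : ℝ) / y) ^ (y / q)) T
    (G.pen (G.pl b ∩ G.pl π) x) (G.pen (G.pl b ∩ G.pl π) x) < v

/-! ## Flags -/

def flags : Finset (Pt × Pt) := sel fun z => z.1 ∈ G.pl z.2

def arc (u v : Pt × Pt) : Prop := u.1 ∈ G.pl v.2 ∧ v.1 ∉ G.pl u.2

def indep (I : Finset (Pt × Pt)) : Prop :=
  I ⊆ G.flags ∧ ∀ u ∈ I, ∀ v ∈ I, (u.1 ∈ G.pl v.2 ↔ v.1 ∈ G.pl u.2)

def mutl (z z' : Pt × Pt) : Prop := z ≠ z' ∧ z.1 ∈ G.pl z'.2 ∧ z'.1 ∈ G.pl z.2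

/-- flags whose point is on the line `l` and whose plane contains it -/
def Fl (l : Finset Pt) : Finset (Pt × Pt) := sel fun z => z.1 ∈ l ∧ l ⊆ G.pl z.2

def det (T : Finset (Pt × Pt)) : Finset (Pt × Pt) :=
  sel fun z => z.1 ∈ G.pl z.2 ∧ (∀ t ∈ T, (z.1 ∈ G.pl t.2 ↔ t.1 ∈ G.pl z.2)) ∧
    ∃ t1 ∈ T, ∃ t2 ∈ T, ∃ l ∈ G.lines, G.mutl z t1 ∧ G.mutl z t2 ∧
      z ∈ G.Fl l ∧ t1 ∈ G.Fl l ∧ t2 ∉ G.Fl l

def sparse (d : ℕ) (Z : Finset (Pt × Pt)) : Prop :=
  Z ⊆ G.flags ∧ ∀ z ∈ Z, (selIn Z fun u => z.1 ∈ G.pl u.2).card ≤ d ∧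
    (selIn Z fun u => u.1 ∈ G.pl z.2).card ≤ d

def Pof (m : ℝ) (T : Finset (Pt × Pt)) : Finset Pt :=
  sel fun a => ((selIn T fun u => a ∈ G.pl u.2).card : ℝ) ≤ 2 * m

def Pio (m : ℝ) (T : Finset (Pt × Pt)) : Finset Pt :=
  sel fun b => ((selIn T fun u => u.1 ∈ G.pl b).card : ℝ) ≤ 2 * m

def bad (x m : ℝ) (T : Finset (Pt × Pt)) : Finset (Pt × Pt) :=
  sel fun z => z.1 ∈ G.pl z.2 ∧ z.1 ∈ G.Pof m T ∧ z.2 ∈ G.Pio m T ∧
    z.2 ∈ G.low x (G.Pof m T) ∧ z.1 ∈ G.low x (G.Pio m T)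

def pool (X Y : Finset Pt) : Finset (Pt × Pt) := sel fun z => z.1 ∈ G.pl z.2 ∧ z.1 ∈ X ∧ z.2 ∈ Y

/-- `F` contains a small container for the low planes of each extremal set -/
def Cont (x Om : ℝ) (F : Finset (Finset Pt)) : Prop :=
  ∀ P, G.Ext x P Om → ∃ Y ∈ F, G.low x P ⊆ Y ∧ (Y.card : ℝ) * P.card ≤ 16 * (q : ℝ) ^ 4

end PG

end

end Pool.Agent.Work.MP_e10cd8_co.Four
end

-- merged part: Pool.Agent.Work.MP_e10cd8_co.Mid.Defs
section
/-!
Definitions for the lower bound with exponential precision for growing tournament size.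
Paper: team store file h81_e10cd8_mid.md.
-/

namespace Pool.Agent.Work.MP_e10cd8_co.Mid

open Finset Four

noncomputable section

abbrev V (q s : ℕ) : Type := Fin s → ZMod q

/-- uniform mean -/
def av {β : Type} [Fintype β] (f : β → ℝ) : ℝ := (∑ b, f b) / Fintype.card β

section Vec
variable {q s : ℕ} [Fact q.Prime]

def psi (a b : V q s) : ℝ := q * ind (a ⬝ᵥ b = 0) - 1

/-- relations with all coefficients nonzero -/
def rel {ι : Type} [Fintype ι] [DecidableEq ι] (b : ι → V q s) : Finset (ι → ZMod q) :=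
  sel fun l => (∀ i, l i ≠ 0) ∧ ∑ i, l i • b i = 0

def pl (b : V q s) : Finset (V q s) := sel fun a => a ⬝ᵥ b = 0

def cnt (X : Finset (V q s)) (b : V q s) : ℕ := (pl b ∩ X).card

def low (x : ℝ) (X : Finset (V q s)) : Finset (V q s) :=
  sel fun b => (cnt X b : ℝ) ≤ x * X.card / q

/-- the elements whose image lies on the hyperplane `b` -/
def hp {α : Type} [Fintype α] (v : α → V q s) (b : V q s) : Finset α := sel fun a => v a ⬝ᵥ b = 0

/-- groups below `40 om + 1` are centred, the next `1600 om` groups kill -/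
def stF {α : Type} [Fintype α] [DecidableEq α] (v : α → V q s) (om : ℕ) (γ : ℝ)
    (T : Finset (ℕ × α)) (b : V q s) : ℝ :=
  emp T (Ico (40 * om + 1) (1640 * om + 1) ×ˢ hp v b) *
    ∏ j ∈ range (40 * om + 1), (emp T ({j} ×ˢ hp v b) - γ)

def stN {α : Type} [Fintype α] [DecidableEq α] (v : α → V q s) (om : ℕ) (γ : ℝ)
    (T : Finset (ℕ × α)) (a : V q s) : ℝ := av fun b => stF v om γ T b * psi a b

end Vec

def ka (η : ℝ) : ℝ := -Real.log (1 - η) / η

def gam (η : ℝ) : ℝ := Real.exp (-ka η)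

/-- numerical side conditions of the reconstruction step -/
structure CP (q s om r G : ℕ) (nb ζ : ℝ) : Prop where
  z1 : 8 ≤ ζ * q
  z2 : 4 ^ (r + 1) * ζ ≤ 1
  z3 : ζ ^ (10 * om) * nb ≤ 1
  z4 : 16 * (q : ℝ) ^ 2 ≤ Real.exp om ^ 3 * ζ ^ 2
  z5 : q * (4 / ζ) ^ G * (Real.exp om ^ 263 * nb) ≤ (q : ℝ) ^ s
  n1 : Real.exp om ^ 500 ≤ nb
  n2 : nb ^ 2 ≤ 8 * (q : ℝ) ^ (s + 2)
  n3 : nb ≤ (q : ℝ) ^ om
  g1 : s ≤ G
  g2 : q ≤ 2 ^ (G - s)
  g3 : G ≤ 2 * om
  r1 : Even r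
  r2 : 2 ≤ r
  r3 : r ≤ om
  r4 : 40 * (r : ℝ) * 2 ^ r ≤ Real.exp om ^ 2
  r5 : nb * Real.exp om ^ 523 ≤ Real.exp om ^ (107 * r)
  o1 : (q : ℝ) ≤ Real.exp om
  o2 : 500 ≤ om

/-- a spread finite family of vectors with small fibres, with the parameters -/
structure Dat (q s : ℕ) (α : Type) where
  Ω : Finset α
  v : α → V q s
  om : ℕ
  r : ℕ
  G : ℕ
  nb : ℝ
  ζ : ℝ
  ne : Ω.Nonempty
  fib : ∀ z, ((selIn Ω fun a => v a = z).card : ℝ) * nb ≤ Ω.card
  spr : ∀ U : Submodule (ZMod q) (V q s), (selIn Ω fun a => v a ∈ U).card * 2 ^ s ≤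
    Ω.card * 2 ^ Module.finrank (ZMod q) U
  num : CP q s om r G nb ζ

namespace Dat
variable {q s : ℕ} [Fact q.Prime] {α : Type} [Fintype α] [DecidableEq α] (D : Dat q s α)

def w : ℝ := Real.exp D.om
def eps : ℝ := 1 / (D.w ^ 260 * D.nb)
def sig : ℝ := 1 / (D.w ^ 150 * D.nb)
def Lam : ℝ := 1 / (D.w ^ 263 * D.nb)
def k0 : ℝ := 256 ^ (10 * D.om) / D.w ^ 800
def eta : ℝ := q / D.Ω.card

def mu (K : Finset α) : ℝ := K.card / D.Ω.card
def on (b : V q s) : Finset α := hp D.v b ∩ D.Ω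
def t (b : V q s) : ℝ := q * D.mu (D.on b)
def X (b b' : V q s) : ℝ := q * D.mu (D.on b ∩ D.on b')
def A0 (b : V q s) : Prop := D.ζ / 4 < |D.t b - 1|
def two (b b' : V q s) : Prop := ∃ l l' : ZMod q, l ≠ l' ∧ D.A0 (b' + l • b) ∧ D.A0 (b' + l' • b)
def Typ (b : V q s) : Prop := ¬ D.A0 b ∧ av (fun b' => ind (D.two b b')) ≤ D.Lam
def lk (b b' : V q s) : Prop := D.ζ ≤ D.X b b'
def th (b b' : V q s) : ℝ := ind (D.Typ b ∧ D.lk b b') * min 1 (D.X b b') ^ D.G
def thb (b : V q s) : ℝ := av (D.th b)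

/-- elements on all hyperplanes indexed by `E` -/
def KE {ι : Type} (b : ι → V q s) (E : Finset ι) : Finset α :=
  selIn D.Ω fun a => ∀ j ∈ E, a ∈ D.on (b j)

def rat {ι : Type} (b : ι → V q s) (E : Finset ι) (z : V q s) : ℝ :=
  D.mu (D.KE b E ∩ D.on z) ^ (D.om + E.card + 1) / D.mu (D.KE b E) ^ (D.om + E.card)

/-- the five kernels: constant, block member, start of a pair, partner, child -/
def ker {ι : Type} (k : Fin 5 × ι × Finset ι) (b : ι → V q s) (z : V q s) : ℝ :=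
  ![D.eps, D.k0 * q * D.rat b k.2.2 z, D.k0 * 2 ^ D.G * D.thb z / D.eps,
    D.eps * D.th (b k.2.1) z / D.thb (b k.2.1), 2 ^ D.G * ind (D.Typ (b k.2.1) ∧ D.lk (b k.2.1) z)]
    k.1

/-- the sample space -/
def grd : Finset (ℕ × α) := range (1640 * D.om + 1) ×ˢ D.Ω

def F (T : Finset (ℕ × α)) (b : V q s) : ℝ := stF D.v D.om (gam D.eta) T b
def N (T : Finset (ℕ × α)) (a : V q s) : ℝ := stN D.v D.om (gam D.eta) T a
def NA (T : Finset (ℕ × α)) (a : V q s) : ℝ := av fun b => ind (¬ D.Typ b) * D.F T b * psi a b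
def NT (T : Finset (ℕ × α)) (a : V q s) : ℝ := av fun b => ind (D.Typ b) * D.F T b * psi a b

end Dat

/-- the indices a kernel depends on -/
def dep {ι : Type} (k : Fin 5 × ι × Finset ι) : Finset ι := ![∅, k.2.2, ∅, {k.2.1}, {k.2.1}] k.1

/-- the kernels point to indices of lower rank and never to `i0` -/
def Adm {ι : Type} [Fintype ι] [DecidableEq ι] (i0 i1 : ι) (σ : ι → Fin 5 × ι × Finset ι) : Prop :=
  ∃ ρ : ι → ℕ, ∀ i ∈ (univ.erase i0).erase i1, i0 ∉ dep (σ i) ∧ ∀ j ∈ dep (σ i), ρ j < ρ i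

section Sys
variable {α ι : Type} [DecidableEq α] [Fintype ι] [DecidableEq ι]

/-- private and shared points of a set system -/
def prv (B : ι → Finset α) (i : ι) : Finset α := B i \ (univ.erase i).biUnion B
def shr (B : ι → Finset α) (i : ι) : Finset α := B i ∩ (univ.erase i).biUnion B

def Phi (η γ : ℝ) (Ω : Finset α) (B : ι → Finset α) (I : Finset ι) : ℝ :=
  Ex η Ω fun T => ∏ i ∈ I, (|(1 - η) ^ (prv B i).card - γ| + ind (¬ Disjoint T (shr B i)))

end Sys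

section Host
variable {q d : ℕ} [Fact q.Prime]

/-- one side of a reduced pair -/
structure Side (q d s : ℕ) [Fact q.Prime] where
  W : Submodule (ZMod q) (V q d)
  B : V q d →ₗ[ZMod q] V q s
  φ : ℕ
  Z : Finset (V q d)
  ne : Z.Nonempty
  sub : ∀ a ∈ Z, a ∈ W
  fib : ∀ z, (sel fun a => a ∈ W ∧ B a = z).card ≤ φ
  spr : ∀ U : Submodule (ZMod q) (V q s), (selIn Z fun a => B a ∈ U).card * 2 ^ s ≤
    Z.card * 2 ^ Module.finrank (ZMod q) U

/-- the family `F` holds containers for all nearly extremal pairs of level `om` -/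
def KLp (om : ℕ) (F : Finset (Finset (V q d) × Finset (V q d))) : Prop :=
  (∀ XY ∈ F, (XY.1.card : ℝ) * XY.2.card ≤ (q : ℝ) ^ d * Real.exp om ^ 585) ∧
  ∀ P S : Finset (V q d), S ⊆ low (1 / 256) P → (q : ℝ) ^ d ≤ P.card * S.card * Real.exp om →
    ∃ XY ∈ F, ∃ P' ⊆ P, ∃ S' ⊆ S, P'.Nonempty ∧ S'.Nonempty ∧ low (1 / 8) P' ⊆ XY.2 ∧
      low (1 / 8) S' ⊆ XY.1

def verts : Finset (V q d × V q d) := sel fun z => z.1 ⬝ᵥ z.2 ≠ 0

def indep (I : Finset (V q d × V q d)) : Prop := ∀ u ∈ I, ∀ v ∈ I, u.1 ⬝ᵥ v.2 ≠ 0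

def PP (T : Finset (V q d × V q d)) : Finset (V q d) := sel fun a => ∀ z ∈ T, a ⬝ᵥ z.2 ≠ 0

def QQ (T : Finset (V q d × V q d)) : Finset (V q d) := sel fun b => ∀ z ∈ T, z.1 ⬝ᵥ b ≠ 0

def Bad (T : Finset (V q d × V q d)) : Finset (V q d × V q d) :=
  (PP T ∩ low (1 / 256) (QQ T)) ×ˢ (QQ T ∩ low (1 / 256) (PP T))

/-- `T` is a valid sample of `Z` -/
structure Valid (k : ℕ) (Z T : Finset (V q d × V q d)) : Prop where
  sub : T ⊆ Z
  card : (T.card : ℝ) ≤ k / 5000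
  lp : ∀ P' ⊆ PP T, P'.Nonempty → ((selIn Z fun z => z.2 ∉ low (1 / 256) P').card : ℝ) ≤ k / 20
  lq : ∀ Q' ⊆ QQ T, Q'.Nonempty → ((selIn Z fun z => z.1 ∉ low (1 / 256) Q').card : ℝ) ≤ k / 20

/-- the cover of level `j` over the family `F` of container pairs -/
def Cov (k o j : ℕ) (F : Finset (Finset (V q d) × Finset (V q d))) :
    Finset (Finset (V q d × V q d) × Finset (V q d × V q d)) :=
  sel fun y => ∃ XY ∈ F, ∃ T1 T0 : Finset (V q d × V q d), T1 ⊆ XY.1 ×ˢ XY.2 ∧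
    (XY.1.card : ℝ) * XY.2.card ≤ (q : ℝ) ^ d * Real.exp (o + j : ℕ) ^ 585 ∧
    (T1.card : ℝ) ≤ k / 5000 ∧ T0 ⊆ PP T1 ×ˢ QQ T1 ∧
    ((PP T1).card : ℝ) * (QQ T1).card ≤ 16 * (q : ℝ) ^ (d + 4) * Real.exp j ∧
    (T0.card : ℝ) ≤ k / 5000 ∧ Disjoint T1 T0 ∧ y.1 = T1 ∪ T0 ∧ (y.2 = Bad T1 ∨ y.2 = Bad T0) ∧
    (y.2.card : ℝ) * Real.exp j ≤ 12 * (q : ℝ) ^ (d + 2)

end Host

/-- side conditions of the final count -/
structure HP (q d k o : ℕ) : Prop where
  hL : 500 ≤ Real.log q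
  hd : 1 ≤ d
  ho : o = d + ⌈Real.log q⌉₊
  hk : 2 * 10 ^ 8 * (d : ℝ) * q * Real.log q ≤ k

end

end Pool.Agent.Work.MP_e10cd8_co.Mid
end

-- merged part: Pool.Agent.Work.MP_e10cd8_co.Mid.Av
section
/-! Uniform means and integration by decreasing rank. -/

namespace Pool.Agent.Work.MP_e10cd8_co.Mid
open Finset Four

section
variable {β γ : Type} [Fintype β] [Fintype γ]

theorem av_nonneg {f : β → ℝ} (h : ∀ b, 0 ≤ f b) : 0 ≤ av f :=
  div_nonneg (sum_nonneg fun b _ => h b) (Nat.cast_nonneg _)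

theorem av_mono {f g : β → ℝ} (h : ∀ b, f b ≤ g b) : av f ≤ av g :=
  div_le_div_of_nonneg_right (sum_le_sum fun b _ => h b) (Nat.cast_nonneg _)

theorem av_add (f g : β → ℝ) : av (fun b => f b + g b) = av f + av g := by
  simp only [av, sum_add_distrib, add_div]

theorem av_sub (f g : β → ℝ) : av (fun b => f b - g b) = av f - av g := by
  simp only [av, sum_sub_distrib, sub_div]

theorem av_mul_left (r : ℝ) (f : β → ℝ) : av (fun b => r * f b) = r * av f := by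
  simp only [av, ← mul_sum, mul_div_assoc]

theorem av_mul_right (r : ℝ) (f : β → ℝ) : av (fun b => f b * r) = av f * r := by
  simp only [mul_comm _ r, av_mul_left]

theorem av_div (r : ℝ) (f : β → ℝ) : av (fun b => f b / r) = av f / r := by
  simp only [div_eq_mul_inv, av_mul_right]

theorem av_const [Nonempty β] (r : ℝ) : av (fun _ : β => r) = r := by
  have : (Fintype.card β : ℝ) ≠ 0 := Nat.cast_ne_zero.2 Fintype.card_ne_zero
  simp only [av, sum_const, card_univ, nsmul_eq_mul]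
  field_simp

theorem av_sum {κ : Type} (I : Finset κ) (f : κ → β → ℝ) :
    av (fun b => ∑ i ∈ I, f i b) = ∑ i ∈ I, av (f i) := by
  simp only [av, ← sum_div]
  rw [sum_comm]

theorem av_comm (f : β → γ → ℝ) : av (fun b => av (f b)) = av fun c => av fun b => f b c := by
  simp only [av, ← sum_div]
  rw [sum_comm, div_right_comm]

theorem av_equiv (e : β ≃ γ) (f : γ → ℝ) : av (fun b => f (e b)) = av f := by
  rw [av, av, e.sum_comp, Fintype.card_congr e]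

theorem abs_av_le (f : β → ℝ) : |av f| ≤ av fun b => |f b| := by
  rw [av, av, abs_div, Nat.abs_cast]
  exact div_le_div_of_nonneg_right (abs_sum_le_sum_abs _ _) (Nat.cast_nonneg _)

theorem av_ind (p : β → Prop) : av (fun b => ind (p b)) = (sel p).card / Fintype.card β := by
  rw [av, card_sel]

theorem Ex_av {ι : Type} [DecidableEq ι] (η : ℝ) (Ω : Finset ι) (f : β → Finset ι → ℝ) :
    Ex η Ω (fun T => av fun b => f b T) = av fun b => Ex η Ω (f b) := by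
  simp only [Ex, av, ← mul_div_assoc, ← sum_div, mul_sum]
  rw [sum_comm]

end

section
variable {ι β : Type} [Fintype ι] [DecidableEq ι] [Fintype β]

/-- resampling one coordinate; `Equiv.funSplitAt` -/
theorem av_update [Nonempty β] (i : ι) (g : (ι → β) → ℝ) :
    av g = av fun b => av fun z => g (Function.update b i z) := by
  have c : (Fintype.card β : ℝ) ≠ 0 := Nat.cast_ne_zero.2 Fintype.card_ne_zero
  have e : ∑ b : ι → β, ∑ z, g (Function.update b i z) = ∑ b : ι → β, ∑ _z : β, g b := by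
    rw [← sum_product', ← sum_product']
    refine sum_bij' (fun x _ => (Function.update x.1 i x.2, x.1 i))
      (fun x _ => (Function.update x.1 i x.2, x.1 i)) (by simp) (by simp) (by simp) (by simp)
      fun _ _ => rfl
  simp only [av, ← sum_div]
  rw [e]
  simp only [sum_const, card_univ, nsmul_eq_mul, ← mul_sum]
  rw [mul_div_cancel_left₀ _ c]

/-- `Finset.prod_univ_sum`, `Fintype.piFinset_univ` -/
theorem prod_av (f : ι → β → ℝ) : ∏ i, av (f i) = av fun b : ι → β => ∏ i, f i (b i) := by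
  simp only [av]
  rw [prod_div_distrib, prod_univ_sum, Fintype.piFinset_univ, prod_const, card_univ,
    Fintype.card_fun, Nat.cast_pow]

/-- Induction on `I`, removing an index of largest rank (`Finset.exists_max_image`), `av_update`. -/
theorem seq [Nonempty β] (f : ι → (ι → β) → β → ℝ) (dp : ι → Finset ι) (ρ : ι → ℕ) {ε : ℝ}
    (hε : 0 ≤ ε) (I : Finset ι) (h0 : ∀ i b z, 0 ≤ f i b z)
    (hc : ∀ i b b', (∀ j ∈ dp i, b j = b' j) → f i b = f i b')
    (hρ : ∀ i ∈ I, ∀ j ∈ dp i, ρ j < ρ i) (hm : ∀ i b, av (f i b) ≤ ε) :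
    av (fun b : ι → β => ∏ i ∈ I, f i b (b i)) ≤ ε ^ I.card := by
  induction' e : I.card with n ih generalizing I
  · rw [card_eq_zero.1 e]
    simp only [prod_empty, av_const, pow_zero, le_refl]
  obtain ⟨i, hi, hx⟩ := exists_max_image I ρ (card_pos.1 (e ▸ Nat.succ_pos n))
  have nd : ∀ j ∈ I, ∀ b z, f j (Function.update b i z) = f j b := fun j hj b z =>
    hc j _ _ fun l hl => Function.update_of_ne (fun k : l = i => (hρ j hj l hl).not_ge
      (k ▸ hx j hj)) _ _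
  rw [av_update i, pow_succ]
  refine le_trans (av_mono fun b => ?_) ((av_mul_right ε _).trans_le (mul_le_mul_of_nonneg_right
    (ih (I.erase i) (fun j hj => hρ j (mem_of_mem_erase hj)) (by rw [card_erase_of_mem hi, e]; rfl))
    hε))
  have k : ∀ z, ∏ j ∈ I, f j (Function.update b i z) (Function.update b i z j) =
      (∏ j ∈ I.erase i, f j b (b j)) * f i b z := fun z => by
    rw [← prod_erase_mul _ _ hi, nd i hi, Function.update_self]
    refine congrArg (· * _) (prod_congr rfl fun j hj => ?_)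
    rw [nd j (mem_of_mem_erase hj), Function.update_of_ne (ne_of_mem_erase hj)]
  simp only [k, av_mul_left]
  exact mul_le_mul_of_nonneg_left (hm i b) (prod_nonneg fun j _ => h0 _ _ _)

end

end Pool.Agent.Work.MP_e10cd8_co.Mid
end

-- merged part: Pool.Agent.Work.MP_e10cd8_co.Mid.Char
section
/-! Relations, the mixing bound, low hyperplanes (paper: REL, MIX). -/

namespace Pool.Agent.Work.MP_e10cd8_co.Mid
open Finset Four

variable {q s : ℕ} [Fact q.Prime]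

theorem card_V : Fintype.card (V q s) = q ^ s := by
  simp [V, ZMod.card]

theorem psi_comm (a b : V q s) : psi a b = psi b a := by
  rw [psi, psi, dotProduct_comm]

theorem av_shift (f : V q s → ℝ) (c : V q s) : av (fun b => f (b + c)) = av f :=
  av_equiv (Equiv.addRight c) f

theorem av_smul (f : V q s → ℝ) {l : ZMod q} (hl : l ≠ 0) : av (fun b => f (l • b)) = av f :=
  av_equiv (MulAction.toPerm (Units.mk0 l hl)) f

section
variable {ι : Type} [Fintype ι] [DecidableEq ι]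

theorem Char_sum {κ : Type} (χ : AddChar (ZMod q) ℂ) (I : Finset κ) (x : κ → ZMod q) :
    χ (∑ i ∈ I, x i) = ∏ i ∈ I, χ (x i) := by
  classical
  induction I using Finset.induction_on with
  | empty => simp
  | insert a s ha ih => rw [sum_insert ha, prod_insert ha, AddChar.map_add_eq_mul, ih]

theorem card_rel (b : ι → V q s) : ((rel b).card : ℝ) =
    ∑ l ∈ sel fun l : ι → ZMod q => ∀ i, l i ≠ 0, ind (∑ i, l i • b i = 0) := by
  rw [← card_selIn]
  congr 2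
  ext l
  simp [rel]

/-- REL. Cast to the complex numbers, `psi a b` is the sum over `l ≠ 0` of `χ (l * (a ⬝ᵥ b))` for
`χ = ZMod.stdAddChar` (`AddChar.sum_mulShift`, `ZMod.isPrimitive_stdAddChar`), and the sum over `a`
of `χ (a ⬝ᵥ c)` is `q ^ s` for `c = 0` and zero otherwise. -/
theorem sum_psi (b : ι → V q s) : ∑ a, ∏ i, psi a (b i) = (q : ℝ) ^ s * (rel b).card := by
  have hp := ZMod.isPrimitive_stdAddChar q
  have e1 : ∀ x : ZMod q, ((q * ind (x = 0) - 1 : ℝ) : ℂ) =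
      ∑ l ∈ univ.erase (0 : ZMod q), ZMod.stdAddChar (l * x) := fun x => by
    rw [sum_erase_eq_sub (mem_univ _), AddChar.sum_mulShift x hp, zero_mul, AddChar.map_zero_eq_one,
      ZMod.card]
    by_cases h : x = 0
    · simp [h, ind_pos]
    · simp [h, ind_neg]
  have e2 : ∀ c : V q s, ∑ a : V q s, ZMod.stdAddChar (a ⬝ᵥ c) =
      (((q : ℝ) ^ s * ind (c = 0) : ℝ) : ℂ) := fun c => by
    simp only [dotProduct]
    have : ∀ a : V q s, ZMod.stdAddChar (∑ i, a i * c i) = ∏ i, ZMod.stdAddChar (a i * c i) :=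
      fun a => Char_sum _ _ _
    simp only [this]
    rw [← Fintype.piFinset_univ, ← prod_univ_sum (fun _ => univ)
      fun i (x : ZMod q) => ZMod.stdAddChar (x * c i)]
    simp only [AddChar.sum_mulShift _ hp, ZMod.card]
    by_cases h : c = 0
    · simp [h, ind_pos]
    · obtain ⟨i, hi⟩ := Function.ne_iff.1 h
      rw [prod_eq_zero (mem_univ i) (by rw [if_neg (show ¬ c i = 0 from hi), Nat.cast_zero]), ind_neg h]
      simp
  apply Complex.ofReal_injective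
  rw [card_rel, mul_sum, Complex.ofReal_sum, Complex.ofReal_sum]
  simp only [← e2, psi, Complex.ofReal_prod, e1, prod_univ_sum]
  rw [sum_comm]
  refine sum_congr (by ext l; simp) fun l _ => sum_congr rfl fun a _ => ?_
  rw [dotProduct_sum, Char_sum]
  simp only [dotProduct_smul, smul_eq_mul]

theorem card_coef : ((sel fun l : ι → ZMod q => ∀ i, l i ≠ 0).card : ℝ) ≤
    (q : ℝ) ^ Fintype.card ι := by
  have := card_le_univ (sel fun l : ι → ZMod q => ∀ i, l i ≠ 0)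
  rw [Fintype.card_fun, ZMod.card] at this
  exact_mod_cast this

/-- the relation fixes the coordinate `i0`; `av_update` -/
theorem av_rel {l : ι → ZMod q} {i0 : ι} (hl : l i0 ≠ 0) (g : (ι → V q s) → ℝ)
    (hg : ∀ b z, g (Function.update b i0 z) = g b) :
    av (fun b => g b * ind (∑ i, l i • b i = 0)) = av g / (q : ℝ) ^ s := by
  rw [av_update i0, ← av_div]
  congr 1
  funext b
  simp only [hg, av_mul_left]
  rw [div_eq_mul_one_div, av_ind, card_V, Nat.cast_pow]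
  congr 2
  have e : ∀ z, ∑ i, l i • Function.update b i0 z i = l i0 • z + ∑ i ∈ univ.erase i0, l i • b i :=
    fun z => by
      rw [← add_sum_erase _ _ (mem_univ i0), Function.update_self]
      exact congrArg _ (sum_congr rfl fun i hi => by
        rw [Function.update_of_ne (ne_of_mem_erase hi)])
  rw [Nat.cast_eq_one, card_eq_one]
  refine ⟨(l i0)⁻¹ • -∑ i ∈ univ.erase i0, l i • b i, ?_⟩
  ext z
  rw [mem_sel, e, mem_singleton, eq_inv_smul_iff₀ hl, eq_neg_iff_add_eq_zero]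

end

/-- `prod_av` and `sum_psi` -/
theorem sum_pow_av (f : V q s → ℝ) (r : ℕ) : ∑ a, (av fun b => f b * psi a b) ^ r =
    (q : ℝ) ^ s * av fun b : Fin r → V q s => (∏ i, f (b i)) * (rel b).card := by
  have e : ∀ a, (av fun b => f b * psi a b) ^ r =
      av fun b : Fin r → V q s => (∏ i, f (b i)) * ∏ i, psi a (b i) := fun a => by
    simp only [← prod_mul_distrib]
    rw [← prod_av fun _ b => f b * psi a b, prod_const, card_fin]
  simp only [e]
  rw [← av_sum, ← av_mul_left]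
  congr 1
  funext b
  rw [← mul_sum, sum_psi, mul_left_comm]

/-- `sum_pow_av` with `r = 2`, bound the second factor by one, `card_rel`, `av_rel` -/
theorem parseval (f : V q s → ℝ) (h : ∀ b, |f b| ≤ 1) :
    ∑ a, (av fun b => f b * psi a b) ^ 2 ≤ (q : ℝ) ^ 2 * av fun b => |f b| := by
  have q0 : (0 : ℝ) < (q : ℝ) ^ s := pow_pos (Nat.cast_pos.2 (Fact.out : q.Prime).pos) _
  rw [sum_pow_av]
  refine (mul_le_mul_of_nonneg_left (av_mono (g := fun b : Fin 2 → V q s =>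
    ∑ l ∈ sel fun l : Fin 2 → ZMod q => ∀ i, l i ≠ 0, |f (b 0)| * ind (∑ i, l i • b i = 0))
    fun b => ?_) q0.le).trans ?_
  · rw [← mul_sum, ← card_rel, Fin.prod_univ_two]
    refine mul_le_mul_of_nonneg_right ((le_abs_self _).trans ?_) (Nat.cast_nonneg _)
    rw [abs_mul]
    exact mul_le_of_le_one_right (abs_nonneg _) (h _)
  have e : av (fun b : Fin 2 → V q s => |f (b 0)|) = av fun b => |f b| := by
    rw [av_update 0]
    simp only [Function.update_self, av_const]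
  have e' : ∀ l ∈ sel fun l : Fin 2 → ZMod q => ∀ i, l i ≠ 0, _ := fun l hl =>
    av_rel (i0 := 1) (mem_sel.1 hl 1) (fun b : Fin 2 → V q s => |f (b 0)|)
      fun b z => by rw [Function.update_of_ne (by decide)]
  rw [av_sum, sum_congr rfl e', sum_const, nsmul_eq_mul, e,
    mul_left_comm, mul_div_cancel₀ _ q0.ne']
  refine mul_le_mul_of_nonneg_right (card_coef.trans_eq ?_) (av_nonneg fun _ => abs_nonneg _)
  rw [Fintype.card_fin]

/-- the mean of `psi (v a) b` over `Ω` -/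
theorem sum_psi_on {α : Type} [Fintype α] [DecidableEq α] (Ω : Finset α) (v : α → V q s)
    (b : V q s) : ∑ a ∈ Ω, psi (v a) b = q * ((hp v b ∩ Ω).card : ℝ) - Ω.card := by
  simp only [psi, sum_sub_distrib, ← mul_sum, ← card_selIn, sum_const, nsmul_eq_mul, mul_one]
  congr 4
  ext a
  simp [hp, and_comm]

/-- MIX. Expand the square with `sum_psi_on`, use `sum_psi` for the pair `![v a, v a']`; for fixed
`a` and coefficients the vector `v a'` is determined. -/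
theorem mix {α : Type} [Fintype α] [DecidableEq α] {Ω : Finset α} (hΩ : Ω.Nonempty)
    (v : α → V q s) {nb : ℝ} (h0 : 0 < nb)
    (h : ∀ z, ((selIn Ω fun a => v a = z).card : ℝ) * nb ≤ Ω.card) :
    av (fun b => (q * (((hp v b ∩ Ω).card : ℝ) / Ω.card) - 1) ^ 2) ≤ (q : ℝ) ^ 2 / nb := by
  have q0 : (0 : ℝ) < (q : ℝ) ^ s := pow_pos (Nat.cast_pos.2 (Fact.out : q.Prime).pos) _
  have c0 : (0 : ℝ) < Ω.card := Nat.cast_pos.2 hΩ.card_pos
  have e : ∀ b, (q * (((hp v b ∩ Ω).card : ℝ) / Ω.card) - 1) ^ 2 =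
      (∑ a ∈ Ω, ∑ a' ∈ Ω, ∏ i, psi b (![v a, v a'] i)) / (Ω.card : ℝ) ^ 2 := fun b => by
    simp only [Fin.prod_univ_two, Matrix.cons_val_zero, Matrix.cons_val_one, psi_comm b]
    rw [← sum_mul_sum, sum_psi_on]
    field_simp
  simp only [e, av_div, av_sum]
  simp only [av, sum_psi, card_V, Nat.cast_pow, mul_div_cancel_left₀ _ q0.ne', card_rel]
  rw [div_le_div_iff₀ (pow_pos c0 2) h0, sum_mul, sq (Ω.card : ℝ), mul_left_comm]
  refine (sum_le_card_nsmul _ _ ((q : ℝ) ^ 2 * Ω.card) fun a _ => ?_).trans_eq (nsmul_eq_mul _ _)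
  rw [sum_comm, sum_mul]
  refine (sum_le_card_nsmul _ _ (Ω.card : ℝ) fun l hl => ?_).trans ?_
  · rw [← card_selIn]
    refine le_trans (mul_le_mul_of_nonneg_right (Nat.cast_le.2 (card_le_card fun a' ha => ?_))
      h0.le) (h ((l 1)⁻¹ • -(l 0 • v a)))
    obtain ⟨k1, k2⟩ := mem_selIn.1 ha
    rw [Fin.sum_univ_two] at k2
    exact mem_selIn.2 ⟨k1, (eq_inv_smul_iff₀ (mem_sel.1 hl 1)).2 (eq_neg_of_add_eq_zero_right k2)⟩
  · rw [nsmul_eq_mul]
    refine mul_le_mul_of_nonneg_right (card_coef.trans_eq ?_) c0.le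
    rw [Fintype.card_fin]

/-- Chebyshev -/
theorem card_half_le {α : Type} [Fintype α] [DecidableEq α] {Ω : Finset α} (hΩ : Ω.Nonempty)
    (v : α → V q s) {nb : ℝ} (h0 : 0 < nb)
    (h : ∀ z, ((selIn Ω fun a => v a = z).card : ℝ) * nb ≤ Ω.card) :
    ((sel fun b => q * (((hp v b ∩ Ω).card : ℝ) / Ω.card) ≤ 1 / 2).card : ℝ) * nb ≤
      4 * (q : ℝ) ^ (s + 2) := by
  have q0 : (0 : ℝ) < (q : ℝ) ^ s := pow_pos (Nat.cast_pos.2 (Fact.out : q.Prime).pos) _
  have k := (av_mono (f := fun b => 1 / 4 * ind (q * (((hp v b ∩ Ω).card : ℝ) / Ω.card) ≤ 1 / 2))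
    fun b => ?_).trans (mix hΩ v h0 h)
  · rw [av_mul_left, av_ind, card_V, Nat.cast_pow, ← mul_div_assoc, div_le_div_iff₀ q0 h0] at k
    rw [pow_add]
    linarith
  · by_cases c : q * (((hp v b ∩ Ω).card : ℝ) / Ω.card) ≤ 1 / 2
    · rw [ind_pos c]
      nlinarith
    · rw [ind_neg c, mul_zero]
      exact sq_nonneg _

theorem mem_low {x : ℝ} {X : Finset (V q s)} {b : V q s} :
    b ∈ low x X ↔ (cnt X b : ℝ) ≤ x * X.card / q := mem_sel

theorem low_mono {x y : ℝ} (h : x ≤ y) (X : Finset (V q s)) : low x X ⊆ low y X := fun _ hb =>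
  mem_low.2 ((mem_low.1 hb).trans (by gcongr))

/-- `card_half_le` with `v = id` -/
theorem card_low_le {x : ℝ} (hx : x ≤ 1 / 2) (X : Finset (V q s)) :
    ((low x X).card : ℝ) * X.card ≤ 4 * (q : ℝ) ^ (s + 2) := by
  obtain rfl | hX := X.eq_empty_or_nonempty
  · rw [card_empty, Nat.cast_zero, mul_zero]
    positivity
  have c0 : (0 : ℝ) < X.card := Nat.cast_pos.2 hX.card_pos
  have q0 : (0 : ℝ) < q := Nat.cast_pos.2 (Fact.out : q.Prime).pos
  refine le_trans (mul_le_mul_of_nonneg_right (Nat.cast_le.2 (card_le_card fun b hb => ?_)) c0.le)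
    (card_half_le hX id c0 fun z => mul_le_of_le_one_left c0.le (Nat.cast_le_one.2
      (card_le_one.2 fun a ha a' ha' => (mem_selIn.1 ha).2.trans (mem_selIn.1 ha').2.symm)))
  have := mem_low.1 (low_mono hx X hb)
  rw [le_div_iff₀ q0, mul_comm] at this
  rw [mem_sel, ← mul_div_assoc, div_le_iff₀ c0]
  exact this

theorem sum_cnt (P S : Finset (V q s)) : ∑ b ∈ S, cnt P b = ∑ a ∈ P, cnt S a := by
  have e : ∀ (X : Finset (V q s)) b, cnt X b = ∑ a ∈ X, if a ⬝ᵥ b = 0 then 1 else 0 := fun X b => by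
    rw [← card_filter, cnt]
    congr 1
    ext a
    simp [pl, and_comm]
  simp only [e]
  rw [sum_comm]
  simp only [dotProduct_comm]

/-- Markov -/
theorem half_low {x : ℝ} (hx : 0 < x) {P S : Finset (V q s)}
    (h : ((∑ b ∈ S, cnt P b : ℕ) : ℝ) ≤ x * P.card * S.card / q) :
    S.card ≤ 2 * (S ∩ low (2 * x) P).card := by
  obtain rfl | hP := P.eq_empty_or_nonempty
  · rw [inter_eq_left.2 fun b _ => mem_low.2 (by simp [cnt])]
    omega
  have c0 : (0 : ℝ) < P.card := Nat.cast_pos.2 hP.card_pos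
  have q0 : (0 : ℝ) < q := Nat.cast_pos.2 (Fact.out : q.Prime).pos
  have k := (card_nsmul_le_sum (S \ low (2 * x) P) (fun b => (cnt P b : ℝ)) (2 * x * P.card / q)
    fun b hb => (not_le.1 (mem_low.not.1 (mem_sdiff.1 hb).2)).le).trans
    ((sum_le_sum_of_subset_of_nonneg sdiff_subset fun _ _ _ => Nat.cast_nonneg _).trans
      ((Nat.cast_sum _ _).ge.trans h))
  rw [nsmul_eq_mul, ← mul_div_assoc, div_le_div_iff_of_pos_right q0] at k
  have k2 : 2 * ((S \ low (2 * x) P).card : ℝ) ≤ S.card :=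
    le_of_mul_le_mul_left (by linarith) (mul_pos hx c0)
  have k3 : 2 * (S \ low (2 * x) P).card ≤ S.card := by exact_mod_cast k2
  have := card_sdiff_add_card_inter S (low (2 * x) P)
  omega

theorem sum_cnt_le {x : ℝ} {P S : Finset (V q s)} (h : S ⊆ low x P) :
    ((∑ b ∈ S, cnt P b : ℕ) : ℝ) ≤ x * P.card * S.card / q := by
  rw [Nat.cast_sum, mul_comm _ (S.card : ℝ), mul_div_assoc, ← nsmul_eq_mul]
  exact sum_le_card_nsmul _ _ _ fun b hb => mem_low.1 (h hb)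

end Pool.Agent.Work.MP_e10cd8_co.Mid
end

-- merged part: Pool.Agent.Work.MP_e10cd8_co.Four.Prob1
section
/-! Calculus of the finite Bernoulli expectation. -/

namespace Pool.Agent.Work.MP_e10cd8_co.Four
open Finset

variable {ι : Type} [DecidableEq ι] {η : ℝ} {Ω : Finset ι}

theorem Ex_empty (f : Finset ι → ℝ) : Ex η ∅ f = f ∅ := by
  simp [Ex]

theorem Ex_insert {x : ι} (hx : x ∉ Ω) (f : Finset ι → ℝ) :
    Ex η (insert x Ω) f = η * Ex η Ω (fun T => f (insert x T)) + (1 - η) * Ex η Ω f := by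
  unfold Ex
  rw [sum_powerset_insert hx, mul_sum, mul_sum, add_comm, card_insert_of_notMem hx]
  congr 1 <;> refine sum_congr rfl fun T hT => ?_
  · rw [card_insert_of_notMem fun h => hx (mem_powerset.1 hT h), Nat.add_sub_add_right]
    ring
  · rw [Nat.succ_sub (card_le_card (mem_powerset.1 hT)), pow_succ]
    ring

theorem Ex_const (r : ℝ) : Ex η Ω (fun _ => r) = r := by
  induction Ω using Finset.induction_on with
  | empty => exact Ex_empty _
  | insert x s hx ih => rw [Ex_insert hx, ih]; ring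

theorem Ex_congr {f g : Finset ι → ℝ} (h : ∀ T ⊆ Ω, f T = g T) : Ex η Ω f = Ex η Ω g :=
  sum_congr rfl fun T hT => by rw [h T (mem_powerset.1 hT)]

theorem Ex_add (f g : Finset ι → ℝ) : Ex η Ω (fun T => f T + g T) = Ex η Ω f + Ex η Ω g := by
  simp only [Ex, mul_add, sum_add_distrib]

theorem Ex_sub (f g : Finset ι → ℝ) : Ex η Ω (fun T => f T - g T) = Ex η Ω f - Ex η Ω g := by
  simp only [Ex, mul_sub, sum_sub_distrib]

theorem Ex_mul_left (r : ℝ) (f : Finset ι → ℝ) : Ex η Ω (fun T => r * f T) = r * Ex η Ω f := by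
  simp only [Ex, mul_sum]
  exact sum_congr rfl fun _ _ => by ring

theorem Ex_sum {κ : Type} (I : Finset κ) (f : κ → Finset ι → ℝ) :
    Ex η Ω (fun T => ∑ i ∈ I, f i T) = ∑ i ∈ I, Ex η Ω (f i) := by
  simp only [Ex, mul_sum]
  exact sum_comm

theorem Ex_mono (h0 : 0 ≤ η) (h1 : η ≤ 1) {f g : Finset ι → ℝ} (h : ∀ T ⊆ Ω, f T ≤ g T) :
    Ex η Ω f ≤ Ex η Ω g :=
  sum_le_sum fun T hT => mul_le_mul_of_nonneg_left (h T (mem_powerset.1 hT))
    (mul_nonneg (pow_nonneg h0 _) (pow_nonneg (sub_nonneg.2 h1) _))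

theorem Ex_nonneg (h0 : 0 ≤ η) (h1 : η ≤ 1) {f : Finset ι → ℝ} (h : ∀ T ⊆ Ω, 0 ≤ f T) :
    0 ≤ Ex η Ω f :=
  (Ex_const 0).ge.trans (Ex_mono h0 h1 h)

/-- Fubini for disjoint ground sets -/
theorem Ex_union {A B : Finset ι} (h : Disjoint A B) (f : Finset ι → ℝ) :
    Ex η (A ∪ B) f = Ex η A fun S => Ex η B fun T => f (S ∪ T) := by
  induction A using Finset.induction_on generalizing f with
  | empty => simp only [Ex_empty, empty_union]
  | insert x s hx ih =>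
    rw [disjoint_insert_left] at h
    rw [insert_union, Ex_insert (by simp [hx, h.1]), Ex_insert hx, ih h.2, ih h.2]
    simp only [insert_union]

theorem Ex_comm (A B : Finset ι) (f : Finset ι → Finset ι → ℝ) :
    (Ex η A fun S => Ex η B fun T => f S T) = Ex η B fun T => Ex η A fun S => f S T := by
  simp only [Ex, mul_sum]
  rw [sum_comm]
  exact sum_congr rfl fun _ _ => sum_congr rfl fun _ _ => by ring

theorem Prob1_split (A : Finset ι) (F : Finset ι → Finset ι → ℝ) :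
    Ex η Ω (fun T => F (T ∩ A) (T \ A)) = Ex η (Ω ∩ A) fun S => Ex η (Ω \ A) fun T => F S T := by
  conv_lhs => rw [← sdiff_union_inter Ω A, union_comm]
  rw [Ex_union (disjoint_sdiff_inter Ω A).symm]
  refine Ex_congr fun S hS => Ex_congr fun T hT => ?_
  have a : S ⊆ A := hS.trans inter_subset_right
  have b : Disjoint T A := (sdiff_disjoint (s := A) (t := Ω)).mono_left hT
  rw [union_inter_distrib_right, union_sdiff_distrib, inter_eq_left.2 a,
    disjoint_iff_inter_eq_empty.1 b, union_empty, sdiff_eq_empty_iff_subset.2 a, empty_union,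
    sdiff_eq_self_of_disjoint b]

theorem Prob1_mul {A B : Finset ι} (h : Disjoint A B) (f g : Finset ι → ℝ) :
    Ex η Ω (fun T => f (T ∩ A) * g (T ∩ B)) =
      Ex η Ω (fun T => f (T ∩ A)) * Ex η Ω fun T => g (T ∩ B) := by
  have e : ∀ T : Finset ι, T \ A ∩ B = T ∩ B := fun T => by
    rw [inter_comm, ← inter_sdiff_assoc, inter_comm B, inter_sdiff_assoc,
      sdiff_eq_self_of_disjoint h.symm]
  have h1 := Prob1_split (η := η) (Ω := Ω) A fun S T => f S * g (T ∩ B)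
  have h2 := Prob1_split (η := η) (Ω := Ω) A fun S _ => f S
  have h3 := Prob1_split (η := η) (Ω := Ω) A fun _ T => g (T ∩ B)
  simp only [e, Ex_const, Ex_mul_left] at h1 h2 h3
  rw [h1, h2, h3, mul_comm, ← Ex_mul_left]
  exact Ex_congr fun _ _ => mul_comm _ _

/-- marginal -/
theorem Ex_inter {B : Finset ι} (h : B ⊆ Ω) (f : Finset ι → ℝ) :
    Ex η Ω (fun T => f (T ∩ B)) = Ex η B f := by
  have := Prob1_split (η := η) (Ω := Ω) B fun S _ => f S
  simpa only [Ex_const, inter_eq_right.2 h] using this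

/-- independence of functions of disjoint blocks -/
theorem Ex_prod {κ : Type} (I : Finset κ) (B : κ → Finset ι)
    (hd : ∀ i ∈ I, ∀ j ∈ I, i ≠ j → Disjoint (B i) (B j)) (f : κ → Finset ι → ℝ) :
    Ex η Ω (fun T => ∏ i ∈ I, f i (T ∩ B i)) = ∏ i ∈ I, Ex η Ω fun T => f i (T ∩ B i) := by
  classical
  induction I using Finset.induction_on with
  | empty => simp only [prod_empty, Ex_const]
  | insert a I ha ih =>
    have d : Disjoint (B a) (I.biUnion B) := (disjoint_biUnion_right _ _ _).2 fun i hi =>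
      hd a (mem_insert_self _ _) i (mem_insert_of_mem hi) fun e => ha (e ▸ hi)
    have e : ∀ T : Finset ι, ∏ i ∈ I, f i (T ∩ I.biUnion B ∩ B i) = ∏ i ∈ I, f i (T ∩ B i) :=
      fun T => prod_congr rfl fun i hi => by
        rw [inter_assoc, inter_eq_right.2 (subset_biUnion_of_mem B hi)]
    have := Prob1_mul (η := η) (Ω := Ω) d (f a) fun S => ∏ i ∈ I, f i (S ∩ B i)
    simp only [e] at this
    simp only [prod_insert ha]
    rw [this, ih fun i hi j hj => hd i (mem_insert_of_mem hi) j (mem_insert_of_mem hj)]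

theorem Ex_mul_of_disjoint {A B : Finset ι} (h : Disjoint A B) (f g : Finset ι → ℝ) :
    Ex η Ω (fun T => f (T ∩ A) * g (T ∩ B)) =
      Ex η Ω (fun T => f (T ∩ A)) * Ex η Ω fun T => g (T ∩ B) :=
  Prob1_mul h f g

theorem Prob1_card {x : ι} {A T : Finset ι} (hx : x ∉ Ω) (h : x ∈ A) (hT : T ⊆ Ω) :
    (insert x T ∩ A).card = (T ∩ A).card + 1 := by
  rw [insert_inter_of_mem h, card_insert_of_notMem fun k => hx (hT (mem_inter.1 k).1)]

theorem Prob1_pow (A : Finset ι) (x : ℝ) :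
    Ex η Ω (fun T => x ^ (T ∩ A).card) = (1 - η + η * x) ^ (A ∩ Ω).card := by
  induction Ω using Finset.induction_on with
  | empty => simp [Ex_empty]
  | insert y s hy ih =>
    rw [Ex_insert hy]
    by_cases h : y ∈ A
    · rw [Ex_congr fun T hT => congrArg (x ^ ·) (Prob1_card hy h hT), inter_comm A,
        Prob1_card hy h subset_rfl, inter_comm s]
      simp only [pow_succ', Ex_mul_left, ih]
      ring
    · simp only [insert_inter_of_notMem h, inter_insert_of_notMem h, ih]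
      ring

theorem Ex_emp (A : Finset ι) : Ex η Ω (fun T => emp T A) = (1 - η) ^ (A ∩ Ω).card := by
  have e : ∀ T : Finset ι, emp T A = (0 : ℝ) ^ (T ∩ A).card := fun T => by
    by_cases h : Disjoint T A
    · rw [emp, ind_pos h, disjoint_iff_inter_eq_empty.1 h, card_empty, pow_zero]
    · rw [emp, ind_neg h, zero_pow fun k => h (disjoint_iff_inter_eq_empty.2 (card_eq_zero.1 k))]
  simp only [e, Prob1_pow, mul_zero, add_zero]

theorem Ex_card (A : Finset ι) : Ex η Ω (fun T => ((T ∩ A).card : ℝ)) = η * (A ∩ Ω).card := by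
  induction Ω using Finset.induction_on with
  | empty => simp [Ex_empty]
  | insert x s hx ih =>
    rw [Ex_insert hx]
    by_cases h : x ∈ A
    · rw [Ex_congr fun T hT => congrArg Nat.cast (Prob1_card hx h hT), inter_comm A,
        Prob1_card hx h subset_rfl, inter_comm s]
      simp only [Nat.cast_add, Nat.cast_one, Ex_add, Ex_const, ih]
      ring
    · simp only [insert_inter_of_notMem h, inter_insert_of_notMem h, ih]
      ring

/-- moment generating function of the count in `A` -/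
theorem Ex_pow_card (A : Finset ι) (x : ℝ) :
    Ex η Ω (fun T => x ^ (T ∩ A).card) = (1 - η + η * x) ^ (A ∩ Ω).card :=
  Prob1_pow A x

theorem Pr_subset {A : Finset ι} (h : A ⊆ Ω) : Pr η Ω (fun T => A ⊆ T) = η ^ A.card := by
  have e : ∀ T : Finset ι, ind (A ⊆ T) = ind (A ⊆ T ∩ A) := fun T => by
    simp only [subset_inter_iff, subset_refl, and_true]
  rw [Pr, funext e, Ex_inter h fun T => ind (A ⊆ T), Ex, sum_eq_single A]
  · simp [ind_pos]
  · intro T hT hne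
    rw [ind_neg fun k => hne (Subset.antisymm (mem_powerset.1 hT) k), mul_zero]
  · exact fun k => absurd (mem_powerset_self A) k

theorem Prob1_le {p : Prop} {r : ℝ} (h : p → 1 ≤ r) (h' : 0 ≤ r) : ind p ≤ r := by
  by_cases k : p
  · exact (ind_pos k).le.trans (h k)
  · exact (ind_neg k).le.trans h'

theorem Prob1_and (p q : Prop) : ind (p ∧ q) = ind p * ind q := by
  by_cases h : p <;> by_cases k : q <;> simp [ind, h, k]

theorem Pr_nonneg (h0 : 0 ≤ η) (h1 : η ≤ 1) (p : Finset ι → Prop) : 0 ≤ Pr η Ω p :=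
  Ex_nonneg h0 h1 fun _ _ => ind_nonneg _

theorem Pr_le_one (h0 : 0 ≤ η) (h1 : η ≤ 1) (p : Finset ι → Prop) : Pr η Ω p ≤ 1 :=
  (Ex_mono h0 h1 fun _ _ => ind_le_one _).trans (Ex_const 1).le

theorem Pr_mono (h0 : 0 ≤ η) (h1 : η ≤ 1) {p p' : Finset ι → Prop}
    (h : ∀ T ⊆ Ω, p T → p' T) : Pr η Ω p ≤ Pr η Ω p' :=
  Ex_mono h0 h1 fun T hT => Prob1_le (fun k => (ind_pos (h T hT k)).ge) (ind_nonneg _)

theorem Pr_not (p : Finset ι → Prop) : Pr η Ω (fun T => ¬ p T) = 1 - Pr η Ω p := by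
  have e : ∀ T, ind (¬ p T) = 1 - ind (p T) := fun T => by
    by_cases h : p T
    · rw [ind_neg (not_not.2 h), ind_pos h, sub_self]
    · rw [ind_pos h, ind_neg h, sub_zero]
  simp only [Pr, e, Ex_sub, Ex_const]

theorem Pr_or (h0 : 0 ≤ η) (h1 : η ≤ 1) (p p' : Finset ι → Prop) :
    Pr η Ω (fun T => p T ∨ p' T) ≤ Pr η Ω p + Pr η Ω p' := by
  refine (Ex_mono h0 h1 fun T _ => Prob1_le ?_ (add_nonneg (ind_nonneg _) (ind_nonneg _))).trans
    (Ex_add _ _).le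
  rintro (h | h) <;> rw [ind_pos h]
  exacts [le_add_of_nonneg_right (ind_nonneg _), le_add_of_nonneg_left (ind_nonneg _)]

theorem Pr_exists (h0 : 0 ≤ η) (h1 : η ≤ 1) {κ : Type} (I : Finset κ) (p : κ → Finset ι → Prop) :
    Pr η Ω (fun T => ∃ i ∈ I, p i T) ≤ ∑ i ∈ I, Pr η Ω (p i) := by
  refine (Ex_mono h0 h1 fun T _ => Prob1_le ?_ (sum_nonneg fun _ _ => ind_nonneg _)).trans
    (Ex_sum I fun i T => ind (p i T)).le
  rintro ⟨i, hi, h⟩
  exact (ind_pos h).ge.trans (single_le_sum (f := fun i => ind (p i T)) (fun _ _ => ind_nonneg _) hi)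

/-- the sample meets `A` with probability at most `η |A|` -/
theorem Pr_not_disjoint (h0 : 0 ≤ η) (h1 : η ≤ 1) (A : Finset ι) :
    Pr η Ω (fun T => ¬ Disjoint T A) ≤ η * (A ∩ Ω).card := by
  refine (Ex_mono h0 h1 fun T _ => Prob1_le (fun h => ?_) (Nat.cast_nonneg _)).trans (Ex_card A).le
  exact Nat.one_le_cast.2 (card_pos.2 (not_disjoint_iff_nonempty_inter.1 h))

theorem markov (h0 : 0 ≤ η) (h1 : η ≤ 1) {f : Finset ι → ℝ} (h : ∀ T ⊆ Ω, 0 ≤ f T) {t : ℝ}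
    (ht : 0 < t) : Pr η Ω (fun T => t ≤ f T) ≤ Ex η Ω f / t := by
  rw [div_eq_inv_mul, ← Ex_mul_left]
  exact Ex_mono h0 h1 fun T hT => Prob1_le (fun k => (one_le_inv_mul₀ ht).2 k)
    (mul_nonneg (inv_nonneg.2 ht.le) (h T hT))

theorem chebyshev (h0 : 0 ≤ η) (h1 : η ≤ 1) (f : Finset ι → ℝ) {t : ℝ} (ht : 0 < t) :
    Pr η Ω (fun T => Ex η Ω f + t ≤ f T) ≤ Vr η Ω f / t ^ 2 :=
  (Pr_mono h0 h1 fun _ _ k => pow_le_pow_left₀ ht.le (le_sub_iff_add_le'.2 k) 2).trans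
    (markov h0 h1 (fun _ _ => sq_nonneg _) (pow_pos ht 2))

theorem Vr_nonneg (h0 : 0 ≤ η) (h1 : η ≤ 1) (f : Finset ι → ℝ) : 0 ≤ Vr η Ω f :=
  Ex_nonneg h0 h1 fun _ _ => sq_nonneg _

/-- the variance is the least mean square deviation -/
theorem Vr_le (f : Finset ι → ℝ) (r : ℝ) : Vr η Ω f ≤ Ex η Ω fun T => (f T - r) ^ 2 := by
  have e : ∀ T, (f T - r) ^ 2 = (f T - Ex η Ω f) ^ 2 +
      (2 * (Ex η Ω f - r) * (f T - Ex η Ω f) + (Ex η Ω f - r) ^ 2) := fun T => by ring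
  simp only [e, Ex_add, Ex_mul_left, Ex_sub, Ex_const, sub_self, mul_zero, zero_add]
  exact le_add_of_nonneg_right (sq_nonneg _)

theorem Vr_add_const (f : Finset ι → ℝ) (r : ℝ) : Vr η Ω (fun T => f T + r) = Vr η Ω f := by
  simp only [Vr, Ex_add, Ex_const, add_sub_add_right_eq_sub]

theorem exists_of_Pr_lt_one {p : Finset ι → Prop} (h : Pr η Ω p < 1) : ∃ T ⊆ Ω, ¬ p T := by
  by_contra k
  push Not at k
  exact h.ne ((Ex_congr fun T hT => ind_pos (k T hT)).trans (Ex_const 1))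

theorem exists_ge_Ex (h0 : 0 ≤ η) (h1 : η ≤ 1) (f : Finset ι → ℝ) : ∃ T ⊆ Ω, Ex η Ω f ≤ f T := by
  obtain ⟨T, hT, h⟩ := exists_max_image Ω.powerset f ⟨∅, empty_mem_powerset _⟩
  exact ⟨T, mem_powerset.1 hT,
    (Ex_mono h0 h1 fun S hS => h S (mem_powerset.2 hS)).trans (Ex_const _).le⟩

theorem Ex_card_selIn {α : Type} (X : Finset α) (p : α → Finset ι → Prop) :
    Ex η Ω (fun T => ((selIn X fun a => p a T).card : ℝ)) = ∑ a ∈ X, Pr η Ω (p a) := by
  simp only [card_selIn]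
  exact Ex_sum X fun a T => ind (p a T)

/-! ## The flat statistic -/

section xi
variable {α : Type} [DecidableEq α]

omit [DecidableEq ι] in
theorem emp_nonneg (T A : Finset ι) : 0 ≤ emp T A := ind_nonneg _

omit [DecidableEq ι] in
theorem emp_le_one (T A : Finset ι) : emp T A ≤ 1 := ind_le_one _

theorem emp_union_left (S T A : Finset ι) : emp (S ∪ T) A = emp S A * emp T A := by
  rw [emp, disjoint_union_left, Prob1_and, emp, emp]

theorem emp_union_right (T A B : Finset ι) : emp T (A ∪ B) = emp T A * emp T B := by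
  rw [emp, disjoint_union_right, Prob1_and, emp, emp]

theorem Prob1_emp (T : Finset ι) {A W : Finset ι} (h : A ⊆ W) : emp (T ∩ W) A = emp T A := by
  rw [emp, emp, disjoint_iff_inter_eq_empty, disjoint_iff_inter_eq_empty, inter_assoc,
    inter_eq_right.2 h]

theorem emp_inter (T A : Finset ι) : emp (T ∩ A) A = emp T A :=
  Prob1_emp T subset_rfl

theorem abs_xi_le (c : ℕ) {γ : ℝ} (h0 : 0 ≤ γ) (h1 : γ ≤ 1) (T : Finset (ℕ × α))
    (A A' : Finset α) : |xi c γ T A A'| ≤ emp T (Ico 4 (c + 4) ×ˢ A) := by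
  rw [xi, abs_mul, abs_of_nonneg (emp_nonneg _ _), abs_prod]
  refine mul_le_of_le_one_right (emp_nonneg _ _) (prod_le_one (fun _ _ => abs_nonneg _) fun j _ => ?_)
  have a := emp_nonneg T ({j} ×ˢ A')
  have b := emp_le_one T ({j} ×ˢ A')
  rw [abs_le]
  constructor <;> linarith

/-- only the traces on the sampled set matter -/
theorem xi_congr (c : ℕ) (γ : ℝ) {P : Finset α} {T : Finset (ℕ × α)} {J : Finset ℕ}
    (hT : T ⊆ J ×ˢ P) {A A' B B' : Finset α} (h : A ∩ P = B ∩ P) (h' : A' ∩ P = B' ∩ P) :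
    xi c γ T A A' = xi c γ T B B' := by
  have e : ∀ (I : Finset ℕ) {A B : Finset α}, A ∩ P = B ∩ P → emp T (I ×ˢ A) = emp T (I ×ˢ B) := by
    intro I A B h
    rw [← inter_eq_left.2 hT, emp, emp, disjoint_iff_inter_eq_empty, disjoint_iff_inter_eq_empty,
      inter_assoc, inter_assoc, product_inter_product, product_inter_product, inter_comm P,
      inter_comm P, h]
  simp only [xi, e _ h, e _ h']

/-- the statistic depends only on the sample inside `range (c+4) ×ˢ U` when `A, A' ⊆ U` -/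
theorem xi_inter (c : ℕ) (γ : ℝ) (T : Finset (ℕ × α)) {A A' U : Finset α} (h : A ⊆ U)
    (h' : A' ⊆ U) : xi c γ (T ∩ range (c + 4) ×ˢ U) A A' = xi c γ T A A' := by
  rw [xi, xi, Prob1_emp T (product_subset_product (fun j hj => mem_range.2 (mem_Ico.1 hj).2) h)]
  refine congrArg _ (prod_congr rfl fun j hj => ?_)
  rw [Prob1_emp T (product_subset_product (singleton_subset_iff.2
    (mem_range.2 ((mem_range.1 hj).trans_le (Nat.le_add_left 4 c)))) h')]

theorem Ex_kill (c : ℕ) (P A : Finset α) :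
    Ex η (range (c + 4) ×ˢ P) (fun T => emp T (Ico 4 (c + 4) ×ˢ A)) =
      (1 - η) ^ (c * (A ∩ P).card) := by
  rw [Ex_emp, product_inter_product, card_product,
    inter_eq_left.2 fun j hj => mem_range.2 (mem_Ico.1 hj).2, Nat.card_Ico, Nat.add_sub_cancel]

theorem Ex_xi (c : ℕ) (γ : ℝ) (P A A' : Finset α) :
    Ex η (range (c + 4) ×ˢ P) (fun T => xi c γ T A A') =
      (1 - η) ^ (c * (A ∩ P).card) * ((1 - η) ^ (A' ∩ P).card - γ) ^ 4 := by
  have d : Disjoint (Ico 4 (c + 4) ×ˢ A) (range 4 ×ˢ A') := disjoint_product.2 (Or.inl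
    (disjoint_left.2 fun j a b => (mem_Ico.1 a).1.not_gt (mem_range.1 b)))
  have e : ∀ T : Finset (ℕ × α), ∏ j ∈ range 4, (emp (T ∩ range 4 ×ˢ A') ({j} ×ˢ A') - γ) =
      ∏ j ∈ range 4, (emp T ({j} ×ˢ A') - γ) := fun T => prod_congr rfl fun j hj => by
    rw [Prob1_emp T (product_subset_product_left (singleton_subset_iff.2 hj))]
  have h1 := Ex_mul_of_disjoint (η := η) (Ω := range (c + 4) ×ˢ P) d
    (fun T => emp T (Ico 4 (c + 4) ×ˢ A)) fun T => ∏ j ∈ range 4, (emp T ({j} ×ˢ A') - γ)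
  have h2 := Ex_prod (η := η) (Ω := range (c + 4) ×ˢ P) (range 4) (fun j => {j} ×ˢ A')
    (fun i _ j _ k => disjoint_product.2 (Or.inl (disjoint_singleton.2 k)))
    fun j T => emp T ({j} ×ˢ A') - γ
  simp only [e, emp_inter] at h1 h2
  simp only [xi]
  rw [h1, h2, Ex_kill, prod_congr rfl (g := fun _ => (1 - η) ^ (A' ∩ P).card - γ) fun j hj => ?_,
    prod_const, card_range]
  rw [Ex_sub, Ex_const, Ex_emp, product_inter_product, card_product, singleton_inter_of_mem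
    (mem_range.2 ((mem_range.1 hj).trans_le (Nat.le_add_left 4 c))), card_singleton, one_mul]

end xi

end Pool.Agent.Work.MP_e10cd8_co.Four
end

-- merged part: Pool.Agent.Work.MP_e10cd8_co.Mid.Basic
section
/-! Numerical consequences of the side conditions. -/

namespace Pool.Agent.Work.MP_e10cd8_co.Mid
open Finset Four

theorem ka_ge {η : ℝ} (h0 : 0 < η) (h1 : η ≤ 1 / 2) : 1 ≤ ka η := by
  rw [ka, le_div_iff₀ h0]
  linarith [Real.log_le_sub_one_of_pos (x := 1 - η) (by linarith)]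

theorem ka_le {η : ℝ} (h0 : 0 < η) (h1 : η ≤ 1 / 2) : ka η ≤ 2 := by
  rw [ka, div_le_iff₀ h0]
  have a : 0 < 1 - η := by linarith
  have b := Real.one_sub_inv_le_log_of_pos a
  have c : (1 - η)⁻¹ ≤ 1 + 2 * η := by
    rw [inv_le_iff_one_le_mul₀ a]
    nlinarith
  linarith

theorem pow_eq_exp {η : ℝ} (h0 : 0 < η) (h1 : η ≤ 1 / 2) (n : ℕ) :
    (1 - η) ^ n = Real.exp (-(ka η * (η * n))) := by
  rw [ka, ← mul_assoc, div_mul_cancel₀ _ h0.ne', neg_mul, neg_neg, mul_comm, Real.exp_nat_mul,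
    Real.exp_log (by linarith)]

theorem abs_exp_sub {x y : ℝ} (hx : 0 ≤ x) (hy : 0 ≤ y) :
    |Real.exp (-x) - Real.exp (-y)| ≤ |x - y| := by
  have k : ∀ {x y : ℝ}, 0 ≤ x → x ≤ y → Real.exp (-x) - Real.exp (-y) ≤ y - x := fun {x y} a b => by
    have e : Real.exp (-y) = Real.exp (-x) * Real.exp (x - y) := by
      rw [← Real.exp_add]
      congr 1
      ring
    have h1 := Real.add_one_le_exp (x - y)
    have h2 : Real.exp (-x) ≤ 1 := Real.exp_le_one_iff.2 (by linarith)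
    have h3 := Real.exp_pos (-x)
    rw [e]
    nlinarith
  rcases le_total x y with h | h
  · rw [abs_of_nonneg (sub_nonneg.2 (Real.exp_le_exp.2 (by linarith))), abs_sub_comm,
      abs_of_nonneg (sub_nonneg.2 h)]
    exact k hx h
  · rw [abs_sub_comm, abs_of_nonneg (sub_nonneg.2 (Real.exp_le_exp.2 (by linarith))),
      abs_of_nonneg (sub_nonneg.2 h)]
    exact k hy h

namespace Dat
variable {q s : ℕ} [Fact q.Prime] {α : Type} [Fintype α] [DecidableEq α] (D : Dat q s α)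

theorem w_ge : 1000 ≤ D.w := by
  have h : (500 : ℝ) ≤ D.om := by exact_mod_cast D.num.o2
  have := Real.quadratic_le_exp_of_nonneg (x := D.om) (by linarith)
  unfold w
  nlinarith

theorem w_pos : 0 < D.w := Real.exp_pos _

theorem om_le : 3 * (D.om : ℝ) ≤ D.w := by
  have h : (500 : ℝ) ≤ D.om := by exact_mod_cast D.num.o2
  have := Real.quadratic_le_exp_of_nonneg (x := D.om) (by linarith)
  unfold w
  nlinarith

theorem two_pow_le : (2 : ℝ) ^ (D.om + 1) ≤ D.w := by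
  have h : (500 : ℝ) ≤ D.om := by exact_mod_cast D.num.o2
  have := Real.log_two_lt_d9
  rw [← Real.exp_log (x := 2) two_pos, ← Real.exp_nat_mul, w, Real.exp_le_exp]
  push_cast
  nlinarith

theorem two_G_le : (2 : ℝ) ^ D.G ≤ D.w ^ 2 := by
  have := D.two_pow_le
  calc (2 : ℝ) ^ D.G ≤ 2 ^ ((D.om + 1) * 2) :=
        pow_le_pow_right₀ one_le_two (by have := D.num.g3; omega)
    _ ≤ _ := by rw [pow_mul]; gcongr

theorem four_G_le : (4 : ℝ) ^ D.G ≤ D.w ^ 3 := by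
  have := Real.log_two_lt_d9
  have h : (D.G : ℝ) ≤ 2 * D.om := by exact_mod_cast D.num.g3
  have h0 : (0 : ℝ) ≤ D.G := Nat.cast_nonneg _
  rw [show (4 : ℝ) = 2 ^ 2 by norm_num, ← pow_mul, ← Real.exp_log (x := 2) two_pos,
    ← Real.exp_nat_mul, w, ← Real.exp_nat_mul, Real.exp_le_exp]
  push_cast
  nlinarith

theorem q_pos : (0 : ℝ) < q := by
  exact Nat.cast_pos.2 (Fact.out : q.Prime).pos

theorem nb_pos : 0 < D.nb := by
  exact (pow_pos (Real.exp_pos _) _).trans_le D.num.n1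

theorem card_pos : (0 : ℝ) < D.Ω.card := by
  exact Nat.cast_pos.2 D.ne.card_pos

theorem nb_le : D.nb ≤ D.Ω.card := by
  obtain ⟨a, ha⟩ := D.ne
  refine le_trans (le_mul_of_one_le_left D.nb_pos.le ?_) (D.fib (D.v a))
  exact Nat.one_le_cast.2 (Finset.card_pos.2 ⟨a, mem_selIn.2 ⟨ha, rfl⟩⟩)

theorem ζ_pos : 0 < D.ζ := by
  exact (mul_pos_iff_of_pos_right q_pos).1 (lt_of_lt_of_le (by norm_num) D.num.z1)

theorem ζ_le : D.ζ ≤ 1 / 64 := by
  have h : (4 : ℝ) ^ 3 ≤ 4 ^ (D.r + 1) :=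
    pow_le_pow_right₀ (by norm_num) (by have := D.num.r2; omega)
  have := mul_le_mul_of_nonneg_right h D.ζ_pos.le
  linarith [D.num.z2]

theorem rζ_le : 4 * ((D.r : ℝ) + 1) ^ 2 * D.ζ ≤ 1 := by
  refine le_trans (mul_le_mul_of_nonneg_right ?_ D.ζ_pos.le) D.num.z2
  have h : (D.r : ℝ) + 1 ≤ 2 ^ D.r := by exact_mod_cast Nat.lt_two_pow_self
  calc 4 * ((D.r : ℝ) + 1) ^ 2 ≤ 4 * (2 ^ D.r) ^ 2 := by gcongr
    _ = _ := by rw [← pow_mul, mul_comm D.r, pow_mul]; norm_num [pow_succ, mul_comm]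

theorem eta_pos : 0 < D.eta := by
  exact div_pos q_pos D.card_pos

theorem eta_le : D.eta ≤ 1 / 2 := by
  rw [eta, div_le_iff₀ D.card_pos]
  have w1 := D.w_ge
  have h : D.w ^ 2 ≤ D.w ^ 500 := pow_le_pow_right₀ (by linarith) (by norm_num)
  have h1 : D.w ^ 500 ≤ D.nb := D.num.n1
  have h2 : (q : ℝ) ≤ D.w := D.num.o1
  nlinarith [D.nb_le]

theorem eta_mul (K : Finset α) : D.eta * K.card = q * D.mu K := by
  rw [eta, mu, div_mul_eq_mul_div, mul_div_assoc]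

theorem eps_pos : 0 < D.eps := by
  exact one_div_pos.2 (mul_pos (pow_pos D.w_pos _) D.nb_pos)

theorem eps_le : D.eps ≤ 1 := by
  have w1 : 1 ≤ D.w := le_trans (by norm_num) D.w_ge
  exact (div_le_one (mul_pos (pow_pos D.w_pos _) D.nb_pos)).2 (one_le_mul_of_one_le_of_one_le
    (one_le_pow₀ w1) ((one_le_pow₀ w1).trans D.num.n1))

theorem k0_pos : 0 < D.k0 := by
  exact div_pos (by positivity) (pow_pos D.w_pos _)

theorem k0_le : D.k0 ≤ 1 / D.w ^ 744 := by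
  have := Real.log_two_lt_d9
  have h0 : (0 : ℝ) ≤ D.om := Nat.cast_nonneg _
  have h : (256 : ℝ) ^ (10 * D.om) ≤ D.w ^ 56 := by
    rw [show (256 : ℝ) = 2 ^ 8 by norm_num, ← pow_mul, ← Real.exp_log (x := 2) two_pos,
      ← Real.exp_nat_mul, w, ← Real.exp_nat_mul, Real.exp_le_exp]
    push_cast
    nlinarith
  rw [k0, div_le_div_iff₀ (pow_pos D.w_pos _) (pow_pos D.w_pos _), one_mul,
    show 800 = 56 + 744 from rfl, pow_add]
  exact mul_le_mul_of_nonneg_right h (pow_pos D.w_pos _).le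

theorem gam_pos : 0 < gam D.eta := Real.exp_pos _

theorem gam_le : gam D.eta ≤ 1 := by
  exact Real.exp_le_one_iff.2 (by linarith [ka_ge D.eta_pos D.eta_le])

theorem mu_nonneg (K : Finset α) : 0 ≤ D.mu K := by
  exact div_nonneg (Nat.cast_nonneg _) (Nat.cast_nonneg _)

theorem mu_mono {K K' : Finset α} (h : K ⊆ K') : D.mu K ≤ D.mu K' := by
  exact div_le_div_of_nonneg_right (Nat.cast_le.2 (card_le_card h)) (Nat.cast_nonneg _)

theorem mu_le_one {K : Finset α} (h : K ⊆ D.Ω) : D.mu K ≤ 1 := by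
  exact (div_le_one D.card_pos).2 (Nat.cast_le.2 (card_le_card h))

theorem on_sub (b : V q s) : D.on b ⊆ D.Ω := inter_subset_right

theorem mem_on {a : α} {b : V q s} : a ∈ D.on b ↔ D.v a ⬝ᵥ b = 0 ∧ a ∈ D.Ω := by
  rw [on, mem_inter, hp, mem_sel]

theorem X_comm (b b' : V q s) : D.X b b' = D.X b' b := by
  rw [X, X, inter_comm]

theorem t_le {b : V q s} (h : ¬ D.A0 b) : D.t b ≤ 2 := by
  have := (abs_le.1 (not_lt.1 h)).2
  linarith [D.ζ_le]

theorem abs_F_le (T : Finset (ℕ × α)) (b : V q s) : |D.F T b| ≤ 1 := by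
  rw [F, stF, abs_mul, abs_of_nonneg (emp_nonneg _ _), abs_prod]
  refine mul_le_one₀ (emp_le_one _ _) (prod_nonneg fun _ _ => abs_nonneg _)
    (prod_le_one (fun _ _ => abs_nonneg _) fun j _ => abs_le.2 ⟨?_, ?_⟩)
  · linarith [emp_nonneg T ({j} ×ˢ hp D.v b), D.gam_le]
  · linarith [emp_le_one T ({j} ×ˢ hp D.v b), D.gam_pos]

theorem N_eq (T : Finset (ℕ × α)) (a : V q s) : D.N T a = D.NA T a + D.NT T a := by
  rw [N, NA, NT, ← av_add, stN]
  congr 1
  funext b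
  by_cases h : D.Typ b
  · rw [ind_pos h, ind_neg (not_not.2 h), F]
    ring
  · rw [ind_neg h, ind_pos h, F]
    ring

/-- small fibres -/
theorem sum_on_le (f : V q s → ℝ) (h : ∀ z, 0 ≤ f z) :
    (∑ a ∈ D.Ω, f (D.v a)) / D.Ω.card ≤ (∑ z, f z) / D.nb := by
  rw [div_le_div_iff₀ D.card_pos D.nb_pos, ← sum_fiberwise_of_maps_to (t := univ) (g := D.v)
    fun _ _ => mem_univ _, sum_mul, sum_mul]
  refine sum_le_sum fun z _ => ?_
  rw [sum_congr rfl fun a ha => congrArg f (mem_filter.1 ha).2, sum_const, nsmul_eq_mul,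
    mul_right_comm, mul_comm]
  refine mul_le_mul_of_nonneg_left (le_trans (le_of_eq ?_) (D.fib z)) (h z)
  congr 3
  ext a
  simp

end Dat

end Pool.Agent.Work.MP_e10cd8_co.Mid
end

-- merged part: Pool.Agent.Work.MP_e10cd8_co.Four.Geo
section
/-! Lines, the mixing inequality and its consequences. -/

namespace Pool.Agent.Work.MP_e10cd8_co.Four
namespace PG
open Finset

variable {q : ℕ} {Pt : Type} [Fintype Pt] [DecidableEq Pt] (G : PG q Pt)

theorem mem_perp {A : Finset Pt} {z : Pt} : z ∈ G.perp A ↔ A ⊆ G.pl z := by simp [perp]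

theorem mem_lines {A : Finset Pt} : A ∈ G.lines ↔ ∃ a y, a ≠ y ∧ A = G.pl a ∩ G.pl y := by
  simp [lines]

theorem mem_low {x : ℝ} {X : Finset Pt} {b : Pt} :
    b ∈ G.low x X ↔ (G.cnt X b : ℝ) ≤ x * X.card / q := by simp [low]

theorem inter_mem_lines {a y : Pt} (h : a ≠ y) : G.pl a ∩ G.pl y ∈ G.lines :=
  G.mem_lines.2 ⟨a, y, h, rfl⟩

theorem Geo_sum (X Y : Finset Pt) :
    ∑ b ∈ Y, (G.pl b ∩ X).card = ∑ a ∈ X, (G.pl a ∩ Y).card := by
  have h1 : ∀ (U : Finset Pt) (b : Pt), (G.pl b ∩ U).card =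
      ∑ a ∈ U, if a ∈ G.pl b then 1 else 0 := by
    intro U b
    rw [sum_boole, filter_mem_eq_inter, inter_comm]
    rfl
  simp only [h1]
  rw [sum_comm]
  refine sum_congr rfl fun a _ => sum_congr rfl fun b _ => ?_
  simp only [G.symm a b]

theorem Geo_sub {A : Finset Pt} {b : Pt} (hb : b ∈ A) : G.perp A ⊆ G.pl b :=
  fun z hz => (G.symm z b).2 (G.mem_perp.1 hz hb)

theorem Geo_ite (f : Pt → ℝ) (b : Pt) :
    ∑ x ∈ G.pl b, f x = ∑ x, (if b ∈ G.pl x then 1 else 0) * f x := by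
  simp only [ite_mul, one_mul, zero_mul, G.symm b]
  rw [← sum_filter]
  congr 1
  ext x
  simp

theorem Geo_lin (f : Pt → ℝ) :
    ∑ b, ∑ x ∈ G.pl b, f x = ((q : ℝ) ^ 2 + q + 1) * ∑ x, f x := by
  simp only [G.Geo_ite f]
  rw [sum_comm, mul_sum]
  refine sum_congr rfl fun x _ => ?_
  rw [← sum_mul, sum_boole, filter_mem_eq_inter, univ_inter, G.deg]
  push_cast
  rfl

theorem Geo_sq (f : Pt → ℝ) : ∑ b, (∑ x ∈ G.pl b, f x) ^ 2 =
    (q : ℝ) ^ 2 * ∑ x, f x ^ 2 + ((q : ℝ) + 1) * (∑ x, f x) ^ 2 := by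
  have h1 : ∀ x y : Pt, ∑ b, ((if b ∈ G.pl x then (1 : ℝ) else 0) * f x) *
      ((if b ∈ G.pl y then 1 else 0) * f y) =
      (if x = y then (q : ℝ) ^ 2 * f x ^ 2 else 0) + ((q : ℝ) + 1) * (f x * f y) := by
    intro x y
    have h2 : ∀ b, ((if b ∈ G.pl x then (1 : ℝ) else 0) * f x) *
        ((if b ∈ G.pl y then 1 else 0) * f y) =
        (if b ∈ G.pl x ∩ G.pl y then (1 : ℝ) else 0) * (f x * f y) := by
      intro b
      by_cases hx : b ∈ G.pl x <;> by_cases hy : b ∈ G.pl y <;> simp [hx, hy]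
    simp only [h2]
    rw [← sum_mul, sum_boole, filter_mem_eq_inter, univ_inter]
    by_cases e : x = y
    · subst e
      rw [inter_self, G.deg, if_pos rfl]
      push_cast
      ring
    · rw [G.codeg x y e, if_neg e]
      push_cast
      ring
  simp only [G.Geo_ite f, sq (∑ x, (if _ ∈ G.pl x then (1 : ℝ) else 0) * f x), sum_mul_sum]
  rw [sum_comm]
  rw [sum_congr rfl fun x _ => sum_comm]
  simp only [h1, sum_add_distrib, sum_ite_eq, mem_univ, if_true]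
  rw [sq (∑ x, f x), sum_mul_sum, mul_sum, mul_sum]
  simp only [mul_sum]

theorem card_line {A : Finset Pt} (hA : A ∈ G.lines) : A.card = q + 1 := by
  obtain ⟨a, y, h, rfl⟩ := G.mem_lines.1 hA
  exact G.codeg a y h

/-- a point off the line lies on exactly one plane of the pencil (field `tri`) -/
theorem card_inter_of_notMem_perp {A : Finset Pt} (hA : A ∈ G.lines) {z : Pt}
    (hz : z ∉ G.perp A) : (A ∩ G.pl z).card = 1 := by
  obtain ⟨a, y, h, rfl⟩ := G.mem_lines.1 hA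
  exact G.tri a y z h fun hh => hz (G.mem_perp.2 hh)

/-- count pairs `(z, b)`, `b ∈ A`, `z ∈ pl b`: `(q+1)(q^2+q+1) = |perp A| (q+1) + (Q - |perp A|)` -/
theorem card_perp {A : Finset Pt} (hA : A ∈ G.lines) : (G.perp A).card = q + 1 := by
  have h1 := G.Geo_sum A univ
  have h2 : ∑ a ∈ A, (G.pl a ∩ univ).card = (q + 1) * (q ^ 2 + q + 1) := by
    rw [sum_congr rfl (g := fun _ => q ^ 2 + q + 1) fun a _ => by rw [inter_univ, G.deg],
      sum_const, G.card_line hA, smul_eq_mul]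
  have h3 : ∑ b ∈ G.perp A, (G.pl b ∩ A).card = (G.perp A).card * (q + 1) := by
    rw [sum_congr rfl (g := fun _ => q + 1) fun b hb => by
      rw [inter_eq_right.2 (G.mem_perp.1 hb), G.card_line hA], sum_const, smul_eq_mul]
  have h4 : ∑ b ∈ (G.perp A)ᶜ, (G.pl b ∩ A).card = ((G.perp A)ᶜ).card := by
    rw [sum_congr rfl (g := fun _ => 1) fun b hb => by
      rw [inter_comm, G.card_inter_of_notMem_perp hA (mem_compl.1 hb)], sum_const, smul_eq_mul,
      mul_one]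
  have h5 := sum_add_sum_compl (G.perp A) fun b => (G.pl b ∩ A).card
  have h6 := card_add_card_compl (G.perp A)
  rw [G.card_pt] at h6
  rw [h3, h4, h1, h2] at h5
  have hq := G.two_le
  have h7 : (G.perp A).card * q = (q + 1) * q := by nlinarith
  exact Nat.eq_of_mul_eq_mul_right (by omega) h7

/-- `A ⊆ pl a ∩ pl y`, both have `q+1` elements -/
theorem line_eq {A : Finset Pt} (hA : A ∈ G.lines) {a y : Pt} (ha : a ∈ G.perp A)
    (hy : y ∈ G.perp A) (h : a ≠ y) : G.pl a ∩ G.pl y = A := by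
  symm
  refine eq_of_subset_of_card_le (subset_inter (G.mem_perp.1 ha) (G.mem_perp.1 hy)) ?_
  rw [G.codeg a y h, G.card_line hA]

theorem perp_eq {A : Finset Pt} (hA : A ∈ G.lines) {b b' : Pt} (hb : b ∈ A) (hb' : b' ∈ A)
    (h : b ≠ b') : G.perp A = G.pl b ∩ G.pl b' := by
  refine eq_of_subset_of_card_le (subset_inter (G.Geo_sub hb) (G.Geo_sub hb')) ?_
  rw [G.codeg b b' h, G.card_perp hA]

theorem perp_mem_lines {A : Finset Pt} (hA : A ∈ G.lines) : G.perp A ∈ G.lines := by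
  have h1 : 1 < A.card := by
    rw [G.card_line hA]
    have := G.two_le
    omega
  obtain ⟨b, hb, b', hb', h⟩ := one_lt_card.1 h1
  rw [G.perp_eq hA hb hb' h]
  exact G.inter_mem_lines h

theorem perp_perp {A : Finset Pt} (hA : A ∈ G.lines) : G.perp (G.perp A) = A := by
  symm
  refine eq_of_subset_of_card_le (fun b hb => G.mem_perp.2 (G.Geo_sub hb)) ?_
  rw [G.card_perp (G.perp_mem_lines hA), G.card_line hA]

theorem perp_subset_pl {A : Finset Pt} {b : Pt} (hb : b ∈ A) : G.perp A ⊆ G.pl b := by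
  exact G.Geo_sub hb

/-- two lines with two common elements are equal -/
theorem lines_eq_of_two {A A' : Finset Pt} (hA : A ∈ G.lines) (hA' : A' ∈ G.lines) {x y : Pt}
    (h : x ≠ y) (hx : x ∈ A) (hy : y ∈ A) (hx' : x ∈ A') (hy' : y ∈ A') : A = A' := by
  rw [← G.perp_perp hA, ← G.perp_perp hA', G.perp_eq hA hx hy h, G.perp_eq hA' hx' hy' h]

/-- a plane with two elements of a line contains the line -/
theorem line_subset_pl {l : Finset Pt} (hl : l ∈ G.lines) {x y b : Pt} (h : x ≠ y) (hx : x ∈ l)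
    (hy : y ∈ l) (hxb : x ∈ G.pl b) (hyb : y ∈ G.pl b) : l ⊆ G.pl b := by
  by_contra hn
  have h1 := G.card_inter_of_notMem_perp hl (z := b) fun hh => hn (G.mem_perp.1 hh)
  have h2 : 1 < (l ∩ G.pl b).card :=
    one_lt_card.2 ⟨x, mem_inter.2 ⟨hx, hxb⟩, y, mem_inter.2 ⟨hy, hyb⟩, h⟩
  omega

/-- two different pencils whose lines meet have exactly one common plane -/
theorem card_inter_lines {A A' : Finset Pt} (hA : A ∈ G.lines) (hA' : A' ∈ G.lines) (h : A ≠ A')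
    {a : Pt} (ha : a ∈ G.perp A) (ha' : a ∈ G.perp A') : (A ∩ A').card = 1 := by
  have h1 : ¬ G.perp A ⊆ G.perp A' := by
    intro hs
    apply h
    have h2 : G.perp A = G.perp A' :=
      eq_of_subset_of_card_le hs (by rw [G.card_perp hA, G.card_perp hA'])
    rw [← G.perp_perp hA, ← G.perp_perp hA', h2]
  obtain ⟨y, hy, hy'⟩ := not_subset.1 h1
  have hay : a ≠ y := fun e => hy' (e ▸ ha')
  have h3 := G.line_eq hA ha hy hay
  have h4 : A ∩ A' = A' ∩ G.pl y := by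
    rw [← h3]
    ext b
    simp only [mem_inter]
    exact ⟨fun hb => ⟨hb.2, hb.1.2⟩, fun hb => ⟨⟨G.mem_perp.1 ha' hb.1, hb.2⟩, hb.1⟩⟩
  rw [h4]
  exact G.card_inter_of_notMem_perp hA' hy'

theorem card_lines_le : G.lines.card ≤ (q ^ 3 + q ^ 2 + q + 1) ^ 2 := by
  have h1 : G.lines ⊆ (univ : Finset (Pt × Pt)).image fun p => G.pl p.1 ∩ G.pl p.2 := by
    intro A hA
    obtain ⟨a, y, _, rfl⟩ := G.mem_lines.1 hA
    exact mem_image.2 ⟨(a, y), mem_univ _, rfl⟩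
  refine (card_le_card h1).trans (card_image_le.trans ?_)
  rw [card_univ, Fintype.card_prod, G.card_pt, sq (q ^ 3 + q ^ 2 + q + 1)]

theorem card_pt_le (G : PG q Pt) : (Fintype.card Pt : ℝ) ≤ 2 * (q : ℝ) ^ 3 := by
  have hq : (2 : ℝ) ≤ q := by exact_mod_cast G.two_le
  rw [G.card_pt]
  push_cast
  nlinarith [mul_nonneg (sub_nonneg.2 hq) (sq_nonneg (q : ℝ)), mul_nonneg (sub_nonneg.2 hq)
    (show (0 : ℝ) ≤ q by linarith)]

theorem card_pl_le (a : Pt) : ((G.pl a).card : ℝ) ≤ 2 * (q : ℝ) ^ 2 := by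
  have hq : (2 : ℝ) ≤ q := by exact_mod_cast G.two_le
  rw [G.deg]
  push_cast
  nlinarith

/-- double counting of incidences -/
theorem sum_cnt_comm (X Y : Finset Pt) : ∑ b ∈ Y, G.cnt X b = ∑ a ∈ X, G.cnt Y a := by
  exact G.Geo_sum X Y

/-- MIX. Expand the square: `∑ b (∑ x ∈ pl b, f x)^2 = q^2 ∑ f^2 + (q+1) (∑ f)^2` and
`∑ b ∑ x ∈ pl b, f x = (q^2+q+1) ∑ f`; the remaining bracket is `-1/q + 1/q^2 ≤ 0`. -/
theorem mix (f : Pt → ℝ) :
    ∑ b, (∑ x ∈ G.pl b, f x - (∑ x, f x) / q) ^ 2 ≤ (q : ℝ) ^ 2 * ∑ x, f x ^ 2 := by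
  have hq : (2 : ℝ) ≤ q := by exact_mod_cast G.two_le
  have hq0 : (0 : ℝ) < q := by linarith
  have h1 := G.Geo_lin f
  have h2 := G.Geo_sq f
  set S := ∑ x, f x with hS
  have h3 : ∑ b, (∑ x ∈ G.pl b, f x - S / q) ^ 2 =
      ∑ b, (∑ x ∈ G.pl b, f x) ^ 2 - 2 * (S / q) * ∑ b, ∑ x ∈ G.pl b, f x +
        (Fintype.card Pt : ℝ) * (S / q) ^ 2 := by
    rw [mul_sum, ← sum_sub_distrib, ← card_univ, ← nsmul_eq_mul, ← sum_const, ← sum_add_distrib]
    exact sum_congr rfl fun b _ => by ring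
  rw [h3, h1, h2, G.card_pt]
  push_cast
  obtain ⟨u, hu⟩ : ∃ u, S = u * q := ⟨S / q, by field_simp⟩
  rw [hu, mul_div_cancel_right₀ u hq0.ne']
  nlinarith [mul_nonneg (sq_nonneg u) (show (0 : ℝ) ≤ q - 1 by linarith)]

theorem mix_cnt (X : Finset Pt) :
    ∑ b, ((G.cnt X b : ℝ) - X.card / q) ^ 2 ≤ (q : ℝ) ^ 2 * X.card := by
  have h := G.mix fun x => if x ∈ X then 1 else 0
  have h1 : ∀ b, ∑ x ∈ G.pl b, (if x ∈ X then (1 : ℝ) else 0) = G.cnt X b := by
    intro b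
    rw [sum_boole, filter_mem_eq_inter]
    rfl
  have h2 : ∑ x, (if x ∈ X then (1 : ℝ) else 0) = X.card := by simp
  have h3 : ∑ x, (if x ∈ X then (1 : ℝ) else 0) ^ 2 = X.card := by simp
  simp only [h1, h2, h3] at h
  exact h

theorem card_low_le {x : ℝ} (hx : x < 1) (X : Finset Pt) :
    ((G.low x X).card : ℝ) * X.card * (1 - x) ^ 2 ≤ (q : ℝ) ^ 4 := by
  have hq : (2 : ℝ) ≤ q := by exact_mod_cast G.two_le
  have hq0 : (0 : ℝ) < q := by linarith
  have hX0 : (0 : ℝ) ≤ X.card := Nat.cast_nonneg _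
  rcases hX0.eq_or_lt with h0 | h0
  · rw [← h0]
    simp only [mul_zero, zero_mul]
    positivity
  have h1 : ∑ b ∈ G.low x X, ((1 - x) * X.card / q) ^ 2 ≤
      ∑ b ∈ G.low x X, ((G.cnt X b : ℝ) - X.card / q) ^ 2 := by
    refine sum_le_sum fun b hb => ?_
    have hb' := G.mem_low.1 hb
    have h2 : 0 ≤ (1 - x) * X.card / q := by
      have : 0 ≤ 1 - x := by linarith
      positivity
    have h3 : (1 - x) * X.card / q ≤ X.card / q - (G.cnt X b : ℝ) := by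
      have : (1 - x) * X.card / q = X.card / q - x * X.card / q := by ring
      linarith
    calc ((1 - x) * X.card / q) ^ 2 ≤ (X.card / q - (G.cnt X b : ℝ)) ^ 2 := by gcongr
      _ = _ := by ring
  have h4 : ∑ b ∈ G.low x X, ((G.cnt X b : ℝ) - X.card / q) ^ 2 ≤ (q : ℝ) ^ 2 * X.card :=
    le_trans (sum_le_sum_of_subset_of_nonneg (subset_univ _) fun b _ _ => sq_nonneg _)
      (G.mix_cnt X)
  rw [sum_const, nsmul_eq_mul] at h1
  have h5 := h1.trans h4
  have h6 : ((G.low x X).card : ℝ) * ((1 - x) * X.card / q) ^ 2 =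
      ((G.low x X).card * X.card * (1 - x) ^ 2) * (X.card / (q : ℝ) ^ 2) := by
    field_simp
  have h7 : (q : ℝ) ^ 2 * X.card = (q : ℝ) ^ 4 * (X.card / (q : ℝ) ^ 2) := by
    field_simp
  rw [h6, h7] at h5
  exact le_of_mul_le_mul_right h5 (by positivity)

theorem low_mono {x x' : ℝ} (h : x ≤ x') (X : Finset Pt) : G.low x X ⊆ G.low x' X := by
  intro b hb
  rw [mem_low] at hb ⊢
  refine hb.trans ?_
  gcongr

/-- a plane low for `P` is low for a large part of `P` -/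
theorem low_subset_low {x x' t : ℝ} {P X : Finset Pt} (hX : X ⊆ P) (hx : 0 ≤ x)
    (hc : (P.card : ℝ) ≤ t * X.card) (h : x * t ≤ x') : G.low x P ⊆ G.low x' X := by
  intro b hb
  rw [mem_low] at hb ⊢
  have h1 : (G.cnt X b : ℝ) ≤ G.cnt P b := by
    exact_mod_cast card_le_card (inter_subset_inter_left hX)
  refine h1.trans (hb.trans ?_)
  have h2 : x * P.card ≤ x' * X.card := by
    calc x * P.card ≤ x * (t * X.card) := mul_le_mul_of_nonneg_left hc hx
      _ = x * t * X.card := by ring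
      _ ≤ x' * X.card := mul_le_mul_of_nonneg_right h (Nat.cast_nonneg _)
  gcongr

/-- Markov: if all of `Y` is low for `P` then half of `P` is low for `Y` at twice the level -/
theorem half_low {x : ℝ} (hx : 0 < x) {P Y : Finset Pt} (hY : Y ⊆ G.low x P) :
    P.card ≤ 2 * (P ∩ G.low (2 * x) Y).card := by
  have hq : (2 : ℝ) ≤ q := by exact_mod_cast G.two_le
  have hq0 : (0 : ℝ) < q := by linarith
  rcases Y.eq_empty_or_nonempty with rfl | hne
  · have h0 : P ∩ G.low (2 * x) ∅ = P := by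
      refine inter_eq_left.2 fun a _ => ?_
      rw [mem_low]
      simp [cnt]
    rw [h0]
    omega
  have hY0 : (0 : ℝ) < Y.card := by exact_mod_cast hne.card_pos
  have h1 : ∑ b ∈ Y, (G.cnt P b : ℝ) ≤ Y.card * (x * P.card / q) := by
    rw [← nsmul_eq_mul, ← sum_const]
    exact sum_le_sum fun b hb => G.mem_low.1 (hY hb)
  have h2 : ∑ b ∈ Y, (G.cnt P b : ℝ) = ∑ a ∈ P, (G.cnt Y a : ℝ) := by
    exact_mod_cast G.sum_cnt_comm P Y
  have h3 : ((P \ G.low (2 * x) Y).card : ℝ) * (2 * x * Y.card / q) ≤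
      ∑ a ∈ P, (G.cnt Y a : ℝ) := by
    rw [← nsmul_eq_mul, ← sum_const]
    refine le_trans (sum_le_sum fun a ha => ?_)
      (sum_le_sum_of_subset_of_nonneg (sdiff_subset (t := G.low (2 * x) Y))
        fun a _ _ => Nat.cast_nonneg _)
    have := (mem_sdiff.1 ha).2
    rw [mem_low, not_le] at this
    exact this.le
  have h4 : (2 * ((P \ G.low (2 * x) Y).card : ℝ)) * (x * Y.card / q) ≤
      P.card * (x * Y.card / q) := by
    calc (2 * ((P \ G.low (2 * x) Y).card : ℝ)) * (x * Y.card / q)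
        = ((P \ G.low (2 * x) Y).card : ℝ) * (2 * x * Y.card / q) := by ring
      _ ≤ Y.card * (x * P.card / q) := by linarith
      _ = _ := by ring
  have h5 := le_of_mul_le_mul_right h4 (by positivity)
  have h6 : 2 * (P \ G.low (2 * x) Y).card ≤ P.card := by exact_mod_cast h5
  have h7 := card_sdiff_add_card_inter P (G.low (2 * x) Y)
  omega

/-- incidences, by Cauchy-Schwarz from `mix_cnt` -/
theorem card_pool_le (X Y : Finset Pt) :
    ((G.pool X Y).card : ℝ) ≤ X.card * Y.card / q + q * Real.sqrt (X.card * Y.card) := by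
  have hq : (2 : ℝ) ≤ q := by exact_mod_cast G.two_le
  have hq0 : (0 : ℝ) < q := by linarith
  have h1 : (G.pool X Y).card = ∑ b ∈ Y, G.cnt X b := by
    have hmap : Set.MapsTo (fun z : Pt × Pt => z.2) (G.pool X Y : Set (Pt × Pt)) (Y : Set Pt) := by
      intro z hz
      simp only [pool, mem_coe, mem_sel] at hz
      exact hz.2.2
    rw [card_eq_sum_card_fiberwise hmap]
    refine sum_congr rfl fun b hb => ?_
    unfold cnt
    refine card_bij (fun z _ => z.1) ?_ ?_ ?_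
    · intro z hz
      simp only [pool, mem_filter, mem_sel] at hz
      rw [mem_inter, ← hz.2]
      exact ⟨hz.1.1, hz.1.2.1⟩
    · intro z hz z' hz' e
      simp only [mem_filter] at hz hz'
      exact Prod.ext e (hz.2.trans hz'.2.symm)
    · intro a ha
      rw [mem_inter] at ha
      refine ⟨(a, b), ?_, rfl⟩
      simp only [pool, mem_filter, mem_sel, and_true]
      exact ⟨ha.1, ha.2, hb⟩
  have h2 : ((G.pool X Y).card : ℝ) =
      X.card * Y.card / q + ∑ b ∈ Y, ((G.cnt X b : ℝ) - X.card / q) := by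
    rw [h1, sum_sub_distrib, sum_const, nsmul_eq_mul]
    push_cast
    ring
  have h3 : (∑ b ∈ Y, ((G.cnt X b : ℝ) - X.card / q)) ^ 2 ≤
      Y.card * ∑ b ∈ Y, ((G.cnt X b : ℝ) - X.card / q) ^ 2 := sq_sum_le_card_mul_sum_sq
  have h4 : ∑ b ∈ Y, ((G.cnt X b : ℝ) - X.card / q) ^ 2 ≤ (q : ℝ) ^ 2 * X.card :=
    le_trans (sum_le_sum_of_subset_of_nonneg (subset_univ _) fun b _ _ => sq_nonneg _)
      (G.mix_cnt X)
  have h5 : (∑ b ∈ Y, ((G.cnt X b : ℝ) - X.card / q)) ^ 2 ≤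
      (q * Real.sqrt (X.card * Y.card)) ^ 2 := by
    rw [mul_pow, Real.sq_sqrt (by positivity)]
    calc _ ≤ (Y.card : ℝ) * ((q : ℝ) ^ 2 * X.card) :=
          h3.trans (mul_le_mul_of_nonneg_left h4 (Nat.cast_nonneg _))
      _ = _ := by ring
  have h6 := (abs_le_of_sq_le_sq' h5 (by positivity)).2
  rw [h2]
  linarith

theorem card_flags : (q : ℝ) ^ 5 ≤ G.flags.card ∧ (G.flags.card : ℝ) ≤ 4 * (q : ℝ) ^ 5 := by
  have hq : (2 : ℝ) ≤ q := by exact_mod_cast G.two_le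
  have h1 : G.flags.card = ∑ b : Pt, (G.pl b).card := by
    have hmap : Set.MapsTo (fun z : Pt × Pt => z.2) (G.flags : Set (Pt × Pt))
        ((univ : Finset Pt) : Set Pt) := fun z _ => mem_coe.2 (mem_univ _)
    rw [card_eq_sum_card_fiberwise hmap]
    refine sum_congr rfl fun b _ => ?_
    refine card_bij (fun z _ => z.1) ?_ ?_ ?_
    · intro z hz
      simp only [flags, mem_filter, mem_sel] at hz
      rw [← hz.2]
      exact hz.1
    · intro z hz z' hz' e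
      simp only [mem_filter] at hz hz'
      exact Prod.ext e (hz.2.trans hz'.2.symm)
    · intro a ha
      refine ⟨(a, b), ?_, rfl⟩
      simp only [flags, mem_filter, mem_sel, and_true]
      exact ha
  have h2 : G.flags.card = (q ^ 3 + q ^ 2 + q + 1) * (q ^ 2 + q + 1) := by
    rw [h1, sum_congr rfl (g := fun _ => q ^ 2 + q + 1) fun b _ => G.deg b, sum_const, card_univ,
      G.card_pt, smul_eq_mul]
  have h3 : (q : ℝ) ^ 3 + q ^ 2 + q + 1 ≤ 2 * (q : ℝ) ^ 3 := by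
    have := G.card_pt_le
    rw [G.card_pt] at this
    exact_mod_cast this
  have h4 : (q : ℝ) ^ 2 + q + 1 ≤ 2 * (q : ℝ) ^ 2 := by nlinarith
  rw [h2]
  push_cast
  constructor
  · calc (q : ℝ) ^ 5 = q ^ 3 * q ^ 2 := by ring
      _ ≤ _ := by
        refine mul_le_mul ?_ ?_ (by positivity) (by positivity)
        · nlinarith [sq_nonneg (q : ℝ)]
        · linarith
  · calc _ ≤ (2 * (q : ℝ) ^ 3) * (2 * (q : ℝ) ^ 2) :=
          mul_le_mul h3 h4 (by positivity) (by positivity)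
      _ = _ := by ring

/-- no transitive tournament on four flags -/
theorem no_tt4 {v1 v2 v3 v4 : Pt × Pt} (h2 : v2 ∈ G.flags) (h3 : v3 ∈ G.flags)
    (h1 : v1 ∈ G.flags) (h4 : v4 ∈ G.flags)
    (a12 : G.arc v1 v2) (a13 : G.arc v1 v3) (a14 : G.arc v1 v4) (a23 : G.arc v2 v3)
    (a24 : G.arc v2 v4) (a34 : G.arc v3 v4) : False := by
  simp only [flags, mem_sel] at h1 h2 h3 h4
  have e34 : v3.2 ≠ v4.2 := fun e => a34.2 (e ▸ h4)
  have e12 : v1.1 ≠ v2.1 := fun e => a12.2 (e ▸ h1)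
  have hl := G.line_subset_pl (G.inter_mem_lines e34) e12 (mem_inter.2 ⟨a13.1, a14.1⟩)
    (mem_inter.2 ⟨a23.1, a24.1⟩) a12.1 h2
  exact a23.2 (hl (mem_inter.2 ⟨h3, a34.1⟩))

end PG
end Pool.Agent.Work.MP_e10cd8_co.Four
end

-- merged part: Pool.Agent.Work.MP_e10cd8_co.Four.Prob2
section
/-! Efron-Stein, a one-sided Freedman inequality with bad events, Bernstein. All three by induction
on the set of blocks, exposing one block `B i` first (`Ex_union`); generalise over `f` and `t`. -/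

namespace Pool.Agent.Work.MP_e10cd8_co.Four
open Finset

variable {ι κ : Type} [DecidableEq ι] [DecidableEq κ] {η : ℝ}

theorem Prob2_sq (Ω : Finset ι) (f : Finset ι → ℝ) (r : ℝ) :
    Ex η Ω (fun T => (f T - r) ^ 2) = Vr η Ω f + (Ex η Ω f - r) ^ 2 := by
  have e : Ex η Ω (fun T => (f T - r) ^ 2) = Ex η Ω fun T => ((f T - Ex η Ω f) ^ 2 +
      2 * (Ex η Ω f - r) * f T) + (r ^ 2 - Ex η Ω f ^ 2) := Ex_congr fun T _ => by ring
  rw [e, Ex_add, Ex_add, Ex_mul_left, Ex_const, Vr]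
  ring

theorem Prob2_vr_congr {Ω : Finset ι} {f g : Finset ι → ℝ} (h : ∀ T ⊆ Ω, f T = g T) :
    Vr η Ω f = Vr η Ω g := by
  rw [Vr, Vr, Ex_congr h]
  exact Ex_congr fun T hT => by rw [h T hT]

theorem Prob2_dev (A C : Finset ι) (F : Finset ι → Finset ι → ℝ) (S : Finset ι) :
    Ex η C (F S) - Ex η A (fun S' => Ex η C (F S')) =
      Ex η C fun T => F S T - Ex η A fun S' => F S' T := by
  rw [Ex_sub, ← Ex_comm A C F]

theorem Prob2_vr_avg (h0 : 0 ≤ η) (h1 : η ≤ 1) (A C : Finset ι) (F : Finset ι → Finset ι → ℝ) :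
    Vr η A (fun S => Ex η C (F S)) ≤ Ex η C fun T => Vr η A fun S => F S T := by
  unfold Vr
  rw [← Ex_comm A C fun S T => (F S T - Ex η A fun S' => F S' T) ^ 2]
  refine Ex_mono h0 h1 fun S _ => ?_
  have e := Prob2_sq (η := η) C (fun T => F S T - Ex η A fun S' => F S' T) 0
  have e2 := Vr_nonneg (Ω := C) h0 h1 fun T => F S T - Ex η A fun S' => F S' T
  simp only [sub_zero] at e
  rw [Prob2_dev, e]
  linarith

theorem Prob2_vr_union {A C : Finset ι} (h : Disjoint A C) (f : Finset ι → ℝ) :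
    Vr η (A ∪ C) f = Vr η A (fun S => Ex η C fun T => f (S ∪ T)) +
      Ex η A fun S => Vr η C fun T => f (S ∪ T) := by
  rw [Vr, Ex_union h, Ex_union h f, add_comm, Vr, ← Ex_add]
  exact Ex_congr fun S _ => Prob2_sq C (fun T => f (S ∪ T)) _

theorem Prob2_disj {I : Finset κ} {B : κ → Finset ι} {i : κ} (hi : i ∉ I)
    (hd : ∀ j ∈ insert i I, ∀ k ∈ insert i I, j ≠ k → Disjoint (B j) (B k)) :
    Disjoint (B i) (I.biUnion B) :=
  (disjoint_biUnion_right _ _ _).2 fun j hj =>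
    hd i (mem_insert_self _ _) j (mem_insert_of_mem hj) fun e => hi (e ▸ hj)

theorem Prob2_block {A C D : Finset ι} (h : Disjoint A C) (hD : Disjoint A D) (f : Finset ι → ℝ)
    (Φ : (Finset ι → ℝ) → ℝ) :
    Ex η ((A ∪ C) \ D) (fun T => Φ fun S' => f (S' ∪ T)) =
      Ex η A fun S => Ex η (C \ D) fun T => Φ fun S' => f (S ∪ (S' ∪ T)) := by
  rw [union_sdiff_distrib, sdiff_eq_self_of_disjoint hD,
    Ex_union (h.mono_right sdiff_subset)]
  simp only [union_left_comm]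

theorem Prob2_vr_bad (h0 : 0 ≤ η) (h1 : η ≤ 1) {Ω A : Finset ι} (hA : A ⊆ Ω) (f : Finset ι → ℝ)
    {d : ℝ} (hf : ∀ T ⊆ Ω, |f T| ≤ d) {v : ℝ} (M : ℝ) (hv : 0 ≤ v) :
    Ex η (Ω \ A) (fun T => Vr η A fun S => f (S ∪ T)) ≤ v + d ^ 2 * badp η Ω A f v M := by
  rw [badp, Pr, ← Ex_mul_left, ← Ex_const (η := η) (Ω := Ω \ A) v, ← Ex_add]
  simp only [Ex_const]
  refine Ex_mono h0 h1 fun T hT => ?_
  by_cases hb : Vr η A (fun S => f (S ∪ T)) ≤ v ∧
      ∀ S ⊆ A, -M ≤ f (S ∪ T) - Ex η A fun S' => f (S' ∪ T)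
  · rw [ind_neg (not_not.2 hb), mul_zero, add_zero]
    exact hb.1
  · rw [ind_pos hb, mul_one]
    refine (Vr_le _ 0).trans (le_trans ?_ (le_add_of_nonneg_left hv))
    rw [← Ex_const (η := η) (Ω := A) (d ^ 2)]
    refine Ex_mono h0 h1 fun S hS => ?_
    rw [sub_zero]
    exact sq_le_sq' (abs_le.1 (hf _ (union_subset (hS.trans hA) (hT.trans sdiff_subset)))).1
      (abs_le.1 (hf _ (union_subset (hS.trans hA) (hT.trans sdiff_subset)))).2

theorem Prob2_exp {y : ℝ} (h : y ≤ 1) : Real.exp y ≤ 1 + y + y ^ 2 := by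
  by_cases k : -1 ≤ y
  · have := (abs_le.1 (Real.abs_exp_sub_one_sub_id_le (abs_le.2 ⟨k, h⟩))).2
    linarith
  · have k1 : y < -1 := not_le.1 k
    have k2 : Real.exp y ≤ 1 := Real.exp_le_one_iff.2 (by linarith)
    have k3 : 0 ≤ (-y) * (-(1 + y)) := mul_nonneg (by linarith) (by linarith)
    linarith

theorem Prob2_mgf (h0 : 0 ≤ η) (h1 : η ≤ 1) (A : Finset ι) (g : Finset ι → ℝ) {lam V : ℝ}
    (hV : Vr η A g ≤ V) (hl : ∀ S ⊆ A, -(lam * (g S - Ex η A g)) ≤ 1) :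
    Ex η A (fun S => Real.exp (-(lam * (g S - Ex η A g)))) ≤ Real.exp (lam ^ 2 * V) := by
  have e : Ex η A (fun S => (1 + lam * Ex η A g) + (-lam) * g S +
      lam ^ 2 * (g S - Ex η A g) ^ 2) = 1 + lam ^ 2 * Vr η A g := by
    rw [Ex_add, Ex_add, Ex_const, Ex_mul_left, Ex_mul_left, Vr]
    ring
  refine le_trans (Ex_mono h0 h1 fun S hS => (Prob2_exp (hl S hS)).trans (le_of_eq ?_))
    (e.le.trans ?_)
  · ring
  · have := Real.add_one_le_exp (lam ^ 2 * V)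
    have := mul_le_mul_of_nonneg_left hV (sq_nonneg lam)
    linarith

theorem Prob2_step (h0 : 0 ≤ η) (h1 : η ≤ 1) {A C : Finset ι} (h : Disjoint A C)
    (f : Finset ι → ℝ) {lam V W : ℝ} (R : Finset ι → ℝ)
    (hV : Vr η A (fun S => Ex η C fun T => f (S ∪ T)) ≤ V)
    (hl : ∀ S ⊆ A, -(lam * ((Ex η C fun T => f (S ∪ T)) -
      Ex η A fun S => Ex η C fun T => f (S ∪ T))) ≤ 1)
    (hI : ∀ S ⊆ A, ∀ t, Pr η C (fun T => f (S ∪ T) ≤ (Ex η C fun T => f (S ∪ T)) - t) ≤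
      Real.exp (-(lam * t) + lam ^ 2 * W) + R S) (t : ℝ) :
    Pr η (A ∪ C) (fun T => f T ≤ Ex η (A ∪ C) f - t) ≤
      Real.exp (-(lam * t) + lam ^ 2 * (V + W)) + Ex η A R := by
  have e := Prob2_mgf h0 h1 A (fun S => Ex η C fun T => f (S ∪ T)) hV hl
  rw [Pr, Ex_union h, Ex_union h f]
  generalize (Ex η A fun S => Ex η C fun T => f (S ∪ T)) = m at e ⊢
  have e2 : Real.exp (-(lam * t) + lam ^ 2 * (V + W)) =
      Real.exp (-(lam * t) + lam ^ 2 * W) * Real.exp (lam ^ 2 * V) := by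
    rw [← Real.exp_add]
    exact congrArg _ (by ring)
  rw [e2]
  refine le_trans ?_ (add_le_add_left (mul_le_mul_of_nonneg_left e (Real.exp_pos _).le) _)
  rw [← Ex_mul_left, ← Ex_add]
  refine Ex_mono h0 h1 fun S hS => ?_
  have k := hI S hS (t + ((Ex η C fun T => f (S ∪ T)) - m))
  rw [← Real.exp_add]
  generalize (Ex η C fun T => f (S ∪ T)) = x at k ⊢
  have k1 : x - (t + (x - m)) = m - t := by ring
  have k2 : -(lam * (t + (x - m))) + lam ^ 2 * W =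
    -(lam * t) + lam ^ 2 * W + -(lam * (x - m)) := by ring
  rw [k1, k2] at k
  exact k

theorem Prob2_base (f : Finset ι → ℝ) {lam : ℝ} (hlam : 0 ≤ lam) (t : ℝ) :
    Pr η ∅ (fun T => f T ≤ Ex η ∅ f - t) ≤ Real.exp (-(lam * t)) := by
  rw [Pr, Ex_empty, Ex_empty]
  by_cases k : f ∅ ≤ f ∅ - t
  · rw [ind_pos k]
    exact Real.one_le_exp (neg_nonneg.2 (mul_nonpos_of_nonneg_of_nonpos hlam (by linarith)))
  · rw [ind_neg k]
    exact (Real.exp_pos _).le

/-- Efron-Stein. `Var f = Var_S g + E_S Var_T f (S ∪ T)` with `g S = E_T f (S ∪ T)`, and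
`Var_S g ≤ E_T Var_S f (S ∪ T)` by convexity. -/
theorem efron_stein (h0 : 0 ≤ η) (h1 : η ≤ 1) (I : Finset κ) (B : κ → Finset ι)
    (hd : ∀ i ∈ I, ∀ j ∈ I, i ≠ j → Disjoint (B i) (B j)) (f : Finset ι → ℝ) :
    Vr η (I.biUnion B) f ≤
      ∑ i ∈ I, Ex η (I.biUnion B \ B i) fun T => Vr η (B i) fun S => f (S ∪ T) := by
  induction I using Finset.induction_on generalizing f with
  | empty => rw [biUnion_empty, sum_empty, Vr, Ex_empty, Ex_empty, sub_self]; norm_num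
  | insert i I hi ih =>
    have hD := Prob2_disj hi hd
    rw [biUnion_insert, sum_insert hi, Prob2_vr_union hD, union_sdiff_cancel_left hD]
    refine add_le_add (Prob2_vr_avg h0 h1 _ _ fun S T => f (S ∪ T)) ?_
    rw [sum_congr rfl fun j hj => Prob2_block hD (hd i (mem_insert_self _ _) j
      (mem_insert_of_mem hj) fun e => hi (e ▸ hj)) f (Vr η (B j)), ← Ex_sum]
    exact Ex_mono h0 h1 fun S _ => ih (fun j hj k hk =>
      hd j (mem_insert_of_mem hj) k (mem_insert_of_mem hk)) fun T => f (S ∪ T)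

/-- Efron-Stein with bad events: off the bad event the block variance is at most `v i`, on it at
most `d ^ 2` -/
theorem efron_stein_bad (h0 : 0 ≤ η) (h1 : η ≤ 1) (I : Finset κ) (B : κ → Finset ι)
    (hd : ∀ i ∈ I, ∀ j ∈ I, i ≠ j → Disjoint (B i) (B j)) (f : Finset ι → ℝ) {d : ℝ}
    (hf : ∀ T ⊆ I.biUnion B, |f T| ≤ d) (v M : κ → ℝ) (hv : ∀ i ∈ I, 0 ≤ v i) :
    Vr η (I.biUnion B) f ≤
      ∑ i ∈ I, (v i + d ^ 2 * badp η (I.biUnion B) (B i) f (v i) (M i)) := by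
  exact (efron_stein h0 h1 I B hd f).trans (sum_le_sum fun i hi =>
    Prob2_vr_bad h0 h1 (subset_biUnion_of_mem B hi) f hf (M i) (hv i hi))

/-- TF. Step: if `badp` of the first block exceeds `γ` the right side is at least `1`. Otherwise
`g S = E_T f (S ∪ T)` has `Var g ≤ v i + 4 γ d ^ 2` and `g - E g ≥ -(M + 2 γ d)`; use
`exp y ≤ 1 + y + y ^ 2` for `y ≤ 1`, and that the average over `S` of the `badp` of
`T ↦ f (S ∪ T)` is the `badp` of `f`. -/
theorem freedman (h0 : 0 ≤ η) (h1 : η ≤ 1) (I : Finset κ) (B : κ → Finset ι)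
    (hd : ∀ i ∈ I, ∀ j ∈ I, i ≠ j → Disjoint (B i) (B j)) (f : Finset ι → ℝ) {d M γ lam : ℝ}
    (hf : ∀ T ⊆ I.biUnion B, |f T| ≤ d) (v : κ → ℝ) (hv : ∀ i ∈ I, 0 ≤ v i) (hM : 0 ≤ M)
    (hγ : 0 < γ) (hlam : 0 ≤ lam) (hl : lam * (M + 2 * γ * d) ≤ 1) (t : ℝ) :
    Pr η (I.biUnion B) (fun T => f T ≤ Ex η (I.biUnion B) f - t) ≤
      Real.exp (-(lam * t) + lam ^ 2 * ∑ i ∈ I, (v i + 4 * γ * d ^ 2)) +
        (∑ i ∈ I, badp η (I.biUnion B) (B i) f (v i) M) / γ := by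
  induction I using Finset.induction_on generalizing f t with
  | empty =>
    simp only [biUnion_empty, sum_empty, mul_zero, add_zero, zero_div]
    exact Prob2_base f hlam t
  | insert i I hi ih =>
    have hD := Prob2_disj hi hd
    have hd0 : 0 ≤ d := (abs_nonneg _).trans (hf ∅ (empty_subset _))
    have hb := Prob2_vr_bad h0 h1 (subset_biUnion_of_mem B (mem_insert_self i I)) f hf M
      (hv i (mem_insert_self _ _))
    rw [biUnion_insert] at hf hb ⊢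
    rw [sum_insert hi, sum_insert hi, add_div]
    have n1 : 0 ≤ (∑ j ∈ I, badp η (B i ∪ I.biUnion B) (B j) f (v j) M) / γ :=
      div_nonneg (sum_nonneg fun j _ => Pr_nonneg h0 h1 _) hγ.le
    have n2 : 0 ≤ badp η (B i ∪ I.biUnion B) (B i) f (v i) M := Pr_nonneg h0 h1 _
    by_cases k : γ ≤ badp η (B i ∪ I.biUnion B) (B i) f (v i) M
    · have k1 := (one_le_div hγ).2 k
      refine (Pr_le_one h0 h1 _).trans ?_
      have := Real.exp_pos (-(lam * t) + lam ^ 2 *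
        (v i + 4 * γ * d ^ 2 + ∑ j ∈ I, (v j + 4 * γ * d ^ 2)))
      linarith
    have k1 := (not_le.1 k).le
    refine (Prob2_step h0 h1 hD f (fun S =>
      (∑ j ∈ I, badp η (I.biUnion B) (B j) (fun T => f (S ∪ T)) (v j) M) / γ) ?_ (fun S hS => ?_)
      (fun S hS t => ih (fun j hj k hk => hd j (mem_insert_of_mem hj) k (mem_insert_of_mem hk))
        (fun T => f (S ∪ T)) (fun T hT => hf _ (union_subset_union hS hT))
        (fun j hj => hv j (mem_insert_of_mem hj)) t) t).trans (add_le_add_right ?_ _)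
    · rw [union_sdiff_cancel_left hD] at hb
      refine (Prob2_vr_avg h0 h1 _ _ fun S T => f (S ∪ T)).trans (hb.trans ?_)
      have := mul_le_mul_of_nonneg_left k1 (sq_nonneg d)
      have := mul_nonneg hγ.le (sq_nonneg d)
      linarith
    · have e : -M + -(2 * d) * badp η (B i ∪ I.biUnion B) (B i) f (v i) M ≤
          Ex η (I.biUnion B) fun T => f (S ∪ T) - Ex η (B i) fun S' => f (S' ∪ T) := by
        rw [badp, Pr, union_sdiff_cancel_left hD, ← Ex_mul_left,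
          ← Ex_const (η := η) (Ω := I.biUnion B) (-M), ← Ex_add]
        simp only [Ex_const]
        refine Ex_mono h0 h1 fun T hT => ?_
        by_cases hb : Vr η (B i) (fun S => f (S ∪ T)) ≤ v i ∧
            ∀ S ⊆ B i, -M ≤ f (S ∪ T) - Ex η (B i) fun S' => f (S' ∪ T)
        · rw [ind_neg (not_not.2 hb), mul_zero, add_zero]
          exact hb.2 S hS
        · have l1 := (abs_le.1 (hf _ (union_subset_union hS hT))).1
          have l2 : (Ex η (B i) fun S' => f (S' ∪ T)) ≤ d :=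
            (Ex_mono h0 h1 fun S' hS' =>
              (abs_le.1 (hf _ (union_subset_union hS' hT))).2).trans (Ex_const d).le
          rw [ind_pos hb]
          linarith
      rw [Prob2_dev (B i) (I.biUnion B) (fun S T => f (S ∪ T)) S]
      have l3 := mul_le_mul_of_nonneg_left k1 hd0
      refine le_trans ?_ hl
      rw [← mul_neg]
      exact mul_le_mul_of_nonneg_left (by linarith) hlam
    · refine le_trans (le_of_eq ?_) (le_add_of_nonneg_left (div_nonneg n2 hγ.le))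
      simp only [div_eq_inv_mul]
      rw [Ex_mul_left, Ex_sum]
      refine congrArg _ (sum_congr rfl fun j hj => ?_)
      exact (Prob2_block hD (hd i (mem_insert_self _ _) j (mem_insert_of_mem hj)
        fun e => hi (e ▸ hj)) f fun u => ind (¬ (Vr η (B j) u ≤ v j ∧
          ∀ S ⊆ B j, -M ≤ u S - Ex η (B j) u))).symm

/-- the case without bad events -/
theorem freedman0 (h0 : 0 ≤ η) (h1 : η ≤ 1) (I : Finset κ) (B : κ → Finset ι)
    (hd : ∀ i ∈ I, ∀ j ∈ I, i ≠ j → Disjoint (B i) (B j)) (f : Finset ι → ℝ) {M lam : ℝ}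
    (v : κ → ℝ)
    (hv : ∀ i ∈ I, ∀ T ⊆ I.biUnion B \ B i, Vr η (B i) (fun S => f (S ∪ T)) ≤ v i ∧
      ∀ S ⊆ B i, -M ≤ f (S ∪ T) - Ex η (B i) fun S' => f (S' ∪ T))
    (hlam : 0 ≤ lam) (hl : lam * M ≤ 1) (t : ℝ) :
    Pr η (I.biUnion B) (fun T => f T ≤ Ex η (I.biUnion B) f - t) ≤
      Real.exp (-(lam * t) + lam ^ 2 * ∑ i ∈ I, v i) := by
  induction I using Finset.induction_on generalizing f t with
  | empty =>
    simp only [biUnion_empty, sum_empty, mul_zero, add_zero]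
    exact Prob2_base f hlam t
  | insert i I hi ih =>
    have hD := Prob2_disj hi hd
    rw [biUnion_insert] at hv ⊢
    have hb := hv i (mem_insert_self _ _)
    rw [union_sdiff_cancel_left hD] at hb
    rw [sum_insert hi]
    refine (Prob2_step h0 h1 hD f (V := v i) (fun _ => 0) ?_ (fun S hS => ?_)
      (fun S hS t => (ih (fun j hj k hk => hd j (mem_insert_of_mem hj) k (mem_insert_of_mem hk))
        (fun T => f (S ∪ T)) (fun j hj T hT => ?_) t).trans (add_zero _).ge) t).trans ?_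
    · exact (Prob2_vr_avg h0 h1 _ _ fun S T => f (S ∪ T)).trans
        ((Ex_mono h0 h1 fun T hT => (hb T hT).1).trans (Ex_const _).le)
    · rw [Prob2_dev (B i) (I.biUnion B) (fun S T => f (S ∪ T)) S]
      have e : -M ≤ Ex η (I.biUnion B) fun T => f (S ∪ T) - Ex η (B i) fun S' => f (S' ∪ T) :=
        (Ex_const (-M)).ge.trans (Ex_mono h0 h1 fun T hT => (hb T hT).2 S hS)
      refine le_trans ?_ hl
      rw [← mul_neg]
      exact mul_le_mul_of_nonneg_left (by linarith) hlam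
    · have l1 : S ∪ T ⊆ (B i ∪ I.biUnion B) \ B j := by
        rw [union_sdiff_distrib, sdiff_eq_self_of_disjoint (hd i (mem_insert_self _ _) j
          (mem_insert_of_mem hj) fun e => hi (e ▸ hj))]
        exact union_subset_union hS hT
      have l2 := hv j (mem_insert_of_mem hj) (S ∪ T) l1
      simpa only [union_left_comm _ S T] using l2
    · rw [Ex_const, add_zero]

theorem Prob2_bern (h0 : 0 ≤ η) (h1 : η ≤ 1) (Ω : Finset ι) (I : Finset κ) (B : κ → Finset ι)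
    (hd : ∀ i ∈ I, ∀ j ∈ I, i ≠ j → Disjoint (B i) (B j)) (g : κ → Finset ι → ℝ)
    (hg : ∀ i ∈ I, ∀ T, g i (T ∩ B i) = g i T) (hb : ∀ i ∈ I, ∀ T, |g i T| ≤ 1) {V lam : ℝ}
    (hV : ∑ i ∈ I, Ex η Ω (fun T => g i T ^ 2) ≤ V) (hlam : 0 ≤ lam) (hl : lam ≤ 1 / 2) (t : ℝ) :
    Pr η Ω (fun T => ∑ i ∈ I, g i T ≤ ∑ i ∈ I, Ex η Ω (g i) - t) ≤
      Real.exp (-(lam * t) + lam ^ 2 * V) := by
  have hg' : ∀ i ∈ I, ∀ T T', T ∩ B i = T' ∩ B i → g i T = g i T' := fun i hi T T' e => by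
    rw [← hg i hi T, e, hg i hi]
  have hc : ∀ i ∈ I, ∀ U, B i ∩ Ω ⊆ U → ∀ T ⊆ Ω, g i (T ∩ U) = g i T := fun i hi U hU T hT =>
    hg' i hi _ _ (Subset.antisymm (inter_subset_inter_right inter_subset_left) fun x hx =>
      mem_inter.2 ⟨mem_inter.2 ⟨(mem_inter.1 hx).1,
        hU (mem_inter.2 ⟨(mem_inter.1 hx).2, hT (mem_inter.1 hx).1⟩)⟩, (mem_inter.1 hx).2⟩)
  have hs : I.biUnion (fun i => B i ∩ Ω) ⊆ Ω := biUnion_subset.2 fun i _ => inter_subset_right
  have hsum : ∀ T ⊆ Ω, ∑ i ∈ I, g i (T ∩ I.biUnion fun i => B i ∩ Ω) = ∑ i ∈ I, g i T :=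
    fun T hT => sum_congr rfl fun i hi =>
      hc i hi _ (subset_biUnion_of_mem (fun i => B i ∩ Ω) hi) T hT
  have key := freedman0 h0 h1 I (fun i => B i ∩ Ω) (fun i hi j hj e =>
    (hd i hi j hj e).mono inter_subset_left inter_subset_left) (fun T => ∑ i ∈ I, g i T) (M := 2)
    (fun i => Ex η Ω fun T => g i T ^ 2) (fun i hi T hT => ?_) hlam (by linarith) t
  · rw [← Ex_inter hs, Ex_congr hsum, Ex_sum, Pr, ← Ex_inter hs] at key
    refine le_trans (le_of_eq (Ex_congr fun T hT => by rw [hsum T hT])) (key.trans ?_)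
    exact Real.exp_le_exp.2 (add_le_add_right (mul_le_mul_of_nonneg_left hV (sq_nonneg lam)) _)
  · have e : ∀ S ⊆ B i ∩ Ω, ∑ j ∈ I, g j (S ∪ T) = g i S + ∑ j ∈ I.erase i, g j T := fun S hS => by
      rw [← add_sum_erase I _ hi]
      refine congrArg₂ _ (hg' i hi _ _ ?_) (sum_congr rfl fun j hj => hg' j (mem_of_mem_erase hj)
        _ _ ?_)
      · rw [union_inter_distrib_right]
        exact union_eq_left.2 fun x hx => absurd (mem_inter.2 ⟨(mem_inter.1 hx).2,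
          hs (mem_sdiff.1 (hT (mem_inter.1 hx).1)).1⟩) (mem_sdiff.1 (hT (mem_inter.1 hx).1)).2
      · rw [union_inter_distrib_right]
        exact union_eq_right.2 fun x hx => absurd (mem_inter.1 hx).2 (disjoint_left.1
          (hd i hi j (mem_of_mem_erase hj) (ne_of_mem_erase hj).symm)
          (mem_inter.1 (hS (mem_inter.1 hx).1)).1)
    refine ⟨?_, fun S hS => ?_⟩
    · rw [Prob2_vr_congr e, Vr_add_const]
      refine (Vr_le _ 0).trans (le_of_eq ?_)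
      rw [← Ex_inter (inter_subset_right : B i ∩ Ω ⊆ Ω)]
      exact Ex_congr fun U hU => by rw [hc i hi _ Subset.rfl U hU, sub_zero]
    · rw [Ex_congr e, e S hS, Ex_add, Ex_const]
      have l1 := (abs_le.1 (hb i hi S)).1
      have l2 : Ex η (B i ∩ Ω) (g i) ≤ 1 :=
        (Ex_mono h0 h1 fun U _ => (abs_le.1 (hb i hi U)).2).trans (Ex_const 1).le
      linarith

/-- Bernstein for a sum of bounded functions of disjoint blocks, both tails; the ground set `Ω` is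
arbitrary (replace `B i` by `B i ∩ Ω`, use `Ex_inter`) -/
theorem bernstein (h0 : 0 ≤ η) (h1 : η ≤ 1) (Ω : Finset ι) (I : Finset κ) (B : κ → Finset ι)
    (hd : ∀ i ∈ I, ∀ j ∈ I, i ≠ j → Disjoint (B i) (B j)) (g : κ → Finset ι → ℝ)
    (hg : ∀ i ∈ I, ∀ T, g i (T ∩ B i) = g i T) (hb : ∀ i ∈ I, ∀ T, |g i T| ≤ 1) {V lam : ℝ}
    (hV : ∑ i ∈ I, Ex η Ω (fun T => g i T ^ 2) ≤ V) (hlam : 0 ≤ lam) (hl : lam ≤ 1 / 2) (t : ℝ) :
    Pr η Ω (fun T => t ≤ |∑ i ∈ I, g i T - ∑ i ∈ I, Ex η Ω (g i)|) ≤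
      2 * Real.exp (-(lam * t) + lam ^ 2 * V) := by
  have a1 := Prob2_bern h0 h1 Ω I B hd g hg hb hV hlam hl t
  have a2 := Prob2_bern h0 h1 Ω I B hd (fun i T => (-1) * g i T)
    (fun i hi T => by simp only [hg i hi T])
    (fun i hi T => by simpa only [neg_one_mul, abs_neg] using hb i hi T)
    (V := V) (by simpa only [neg_one_mul, neg_sq] using hV) hlam hl t
  refine le_trans (Pr_mono h0 h1 fun T _ hT => ?_) ((Pr_or h0 h1 _ _).trans
    ((add_le_add a1 a2).trans (two_mul _).ge))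
  simp only [Ex_mul_left, ← mul_sum]
  rcases le_abs.1 hT with k | k
  · exact Or.inr (by linarith)
  · exact Or.inl (by linarith)

end Pool.Agent.Work.MP_e10cd8_co.Four
end

-- merged part: Pool.Agent.Work.MP_e10cd8_co.Four.Lab
section
/-! Blocks at a point `a`: the points of a set `U` not containing `a` are grouped by the line
joining them to `a`, recorded as the pencil `pl a ∩ pl y`. -/

namespace Pool.Agent.Work.MP_e10cd8_co.Four
namespace PG
open Finset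

variable {q : ℕ} {Pt : Type} [Fintype Pt] [DecidableEq Pt] (G : PG q Pt)

/-- the pencils of the lines joining `a` to points of `U` -/
noncomputable def labs (a : Pt) (U : Finset Pt) : Finset (Finset Pt) :=
  U.image fun y => G.pl a ∩ G.pl y

/-- the points of `U` on the line with pencil `A` -/
noncomputable def fib (U A : Finset Pt) : Finset Pt := G.perp A ∩ U

theorem labs_subset_lines {a : Pt} {U : Finset Pt} (ha : a ∉ U) : G.labs a U ⊆ G.lines := by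
  intro A hA
  obtain ⟨y, hy, rfl⟩ := mem_image.1 hA
  exact G.inter_mem_lines fun e => ha (e ▸ hy)

theorem mem_perp_of_mem_labs {a : Pt} {U A : Finset Pt} (hA : A ∈ G.labs a U) : a ∈ G.perp A := by
  obtain ⟨y, -, rfl⟩ := mem_image.1 hA
  exact G.mem_perp.2 inter_subset_left

theorem subset_pl_of_mem_labs {a : Pt} {U A : Finset Pt} (hA : A ∈ G.labs a U) : A ⊆ G.pl a := by
  exact G.mem_perp.1 (G.mem_perp_of_mem_labs hA)

theorem mem_fib_iff {a : Pt} {U A : Finset Pt} (ha : a ∉ U) (hA : A ∈ G.labs a U) {y : Pt} :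
    y ∈ G.fib U A ↔ y ∈ U ∧ G.pl a ∩ G.pl y = A := by
  rw [fib, mem_inter]
  constructor
  · rintro ⟨h1, h2⟩
    exact ⟨h2, G.line_eq (G.labs_subset_lines ha hA) (G.mem_perp_of_mem_labs hA) h1
      fun e => ha (e ▸ h2)⟩
  · rintro ⟨h1, h2⟩
    exact ⟨G.mem_perp.2 (h2 ▸ inter_subset_right), h1⟩

theorem fib_disjoint {a : Pt} {U : Finset Pt} (ha : a ∉ U) (J : Finset ℕ) :
    ∀ A ∈ G.labs a U, ∀ A' ∈ G.labs a U, A ≠ A' →
      Disjoint (J ×ˢ G.fib U A) (J ×ˢ G.fib U A') := by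
  intro A hA A' hA' h
  refine disjoint_left.2 fun x h1 h2 => h ?_
  exact ((G.mem_fib_iff ha hA).1 (mem_product.1 h1).2).2.symm.trans
    ((G.mem_fib_iff ha hA').1 (mem_product.1 h2).2).2

theorem biUnion_fib {a : Pt} {U : Finset Pt} (ha : a ∉ U) (J : Finset ℕ) :
    (G.labs a U).biUnion (fun A => J ×ˢ G.fib U A) = J ×ˢ U := by
  refine Subset.antisymm (biUnion_subset.2 fun A _ =>
    product_subset_product_right inter_subset_right) fun x hx => ?_
  have h1 : G.pl a ∩ G.pl x.2 ∈ G.labs a U := mem_image_of_mem _ (mem_product.1 hx).2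
  exact mem_biUnion.2 ⟨_, h1, mem_product.2 ⟨(mem_product.1 hx).1,
    (G.mem_fib_iff ha h1).2 ⟨(mem_product.1 hx).2, rfl⟩⟩⟩

theorem sum_labs {a : Pt} {U : Finset Pt} (ha : a ∉ U) (φ : Finset Pt → ℝ) :
    ∑ A ∈ G.labs a U, ((G.fib U A).card : ℝ) * φ A = ∑ y ∈ U, φ (G.pl a ∩ G.pl y) := by
  rw [← sum_fiberwise_of_maps_to (s := U) (t := G.labs a U) (g := fun y => G.pl a ∩ G.pl y)
    fun y hy => mem_image_of_mem _ hy]
  refine sum_congr rfl fun A hA => ?_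
  have e : U.filter (fun y => G.pl a ∩ G.pl y = A) = G.fib U A := by
    ext y
    rw [mem_filter, G.mem_fib_iff ha hA]
  rw [sum_congr rfl (g := fun _ => φ A) fun y hy => by rw [(mem_filter.1 hy).2], sum_const, e,
    nsmul_eq_mul]

theorem card_labs_le (a : Pt) (U : Finset Pt) : (G.labs a U).card ≤ U.card := card_image_le

/-- a plane through `a` outside the pencil has no point of the fibre -/
theorem disjoint_pl_fib {a : Pt} {U A : Finset Pt} (ha : a ∉ U) (hA : A ∈ G.labs a U) {b : Pt}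
    (hb : b ∈ G.pl a) (hbA : b ∉ A) : Disjoint (G.pl b) (G.fib U A) := by
  refine disjoint_left.2 fun y h1 h2 => hbA ?_
  rw [← ((G.mem_fib_iff ha hA).1 h2).2]
  exact mem_inter.2 ⟨hb, (G.symm b y).2 h1⟩

theorem fib_subset_pl {U A : Finset Pt} {b : Pt} (hb : b ∈ A) : G.fib U A ⊆ G.pl b := by
  exact inter_subset_left.trans (G.perp_subset_pl hb)

/-- two planes of the pencil share only points of the line -/
theorem disjoint_off {A : Finset Pt} (hA : A ∈ G.lines) (U : Finset Pt) {b b' : Pt} (hb : b ∈ A)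
    (hb' : b' ∈ A) (h : b ≠ b') :
    Disjoint ((G.pl b ∩ U) \ G.fib U A) ((G.pl b' ∩ U) \ G.fib U A) := by
  refine disjoint_left.2 fun y h1 h2 => (mem_sdiff.1 h1).2 (mem_inter.2 ⟨?_,
    (mem_inter.1 (mem_sdiff.1 h1).1).2⟩)
  rw [G.perp_eq hA hb hb' h]
  exact mem_inter.2 ⟨(mem_inter.1 (mem_sdiff.1 h1).1).1, (mem_inter.1 (mem_sdiff.1 h2).1).1⟩

theorem th_cases {H : Finset Pt} {a : Pt} (h : G.single H a) :
    (H ∩ G.pl a = ∅ ∧ G.th H a = ∅) ∨ ∃ π, H ∩ G.pl a = {π} ∧ G.th H a = G.pl π := by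
  rcases (H ∩ G.pl a).eq_empty_or_nonempty with e | e
  · exact Or.inl ⟨e, by rw [th, e, biUnion_empty]⟩
  · obtain ⟨π, e'⟩ := card_eq_one.1 (le_antisymm h e.card_pos)
    exact Or.inr ⟨π, e', by rw [th, e', singleton_biUnion]⟩

/-- a line through a single point lies in its heavy plane or meets it only in the point -/
theorem fib_th {H : Finset Pt} {a : Pt} (h : G.single H a) {U A : Finset Pt} (ha : a ∉ U)
    (hA : A ∈ G.labs a U) :
    G.fib U A ⊆ G.th H a ∨ Disjoint (G.fib U A) (G.th H a) := by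
  rcases G.th_cases h with ⟨-, e⟩ | ⟨π, e1, e⟩
  · rw [e]
    exact Or.inr (disjoint_empty_right _)
  · rw [e]
    by_cases k : π ∈ A
    · exact Or.inl (G.fib_subset_pl k)
    · exact Or.inr (G.disjoint_pl_fib ha hA
        (mem_inter.1 (e1 ▸ mem_singleton_self π : π ∈ H ∩ G.pl a)).2 k).symm

/-- Resampling one block changes only the terms of the planes in the pencil: the statistic splits
into the part over the pencil and a part that ignores the block. -/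
theorem Sst_split (c : ℕ) (γ : ℝ) (H B : Finset Pt) {a : Pt} {U A : Finset Pt} (ha : a ∉ U)
    (hA : A ∈ G.labs a U) {S : Finset (ℕ × Pt)} (hS : S ⊆ range (c + 4) ×ˢ G.fib U A)
    (T : Finset (ℕ × Pt)) :
    G.Sst c γ H B a (S ∪ T) =
      ∑ b ∈ (A \ H) ∩ B, xi c γ (S ∪ T) ((G.pl b).erase a) ((G.pl b).erase a \ G.th H a) +
      ∑ b ∈ ((G.pl a \ A) \ H) ∩ B, xi c γ T ((G.pl b).erase a) ((G.pl b).erase a \ G.th H a) := by
  have e : (G.pl a \ H) ∩ B = ((A \ H) ∩ B) ∪ (((G.pl a \ A) \ H) ∩ B) := by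
    rw [← union_inter_distrib_right, ← union_sdiff_distrib,
      union_sdiff_of_subset (G.subset_pl_of_mem_labs hA)]
  rw [Sst, e, sum_union (disjoint_left.2 fun b h1 h2 => (mem_sdiff.1 (mem_sdiff.1
    (mem_inter.1 h2).1).1).2 (mem_sdiff.1 (mem_inter.1 h1).1).1)]
  refine congrArg _ (sum_congr rfl fun b hb => ?_)
  have h1 := mem_sdiff.1 (mem_sdiff.1 (mem_inter.1 hb).1).1
  have h2 : (S ∪ T) ∩ range (c + 4) ×ˢ G.pl b = T ∩ range (c + 4) ×ˢ G.pl b := by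
    rw [union_inter_distrib_right]
    exact union_eq_right.2 fun x hx => absurd (mem_product.1 (hS (mem_inter.1 hx).1)).2
      (disjoint_left.1 (G.disjoint_pl_fib ha hA h1.1 h1.2) (mem_product.1 (mem_inter.1 hx).2).2)
  have h3 : (G.pl b).erase a \ G.th H a ⊆ G.pl b := sdiff_subset.trans (erase_subset _ _)
  rw [← xi_inter c γ (S ∪ T) (erase_subset _ _) h3, h2, xi_inter c γ T (erase_subset _ _) h3]

/-- the statistic ignores the coordinates of `a` -/
theorem Sst_inter (c : ℕ) (γ : ℝ) (H B : Finset Pt) (a : Pt) {P : Finset Pt}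
    {T : Finset (ℕ × Pt)} (hT : T ⊆ range (c + 4) ×ˢ P) :
    G.Sst c γ H B a (T ∩ range (c + 4) ×ˢ P.erase a) = G.Sst c γ H B a T := by
  refine sum_congr rfl fun b _ => ?_
  have h2 : (T ∩ range (c + 4) ×ˢ P.erase a) ∩ range (c + 4) ×ˢ (G.pl b).erase a =
      T ∩ range (c + 4) ×ˢ (G.pl b).erase a :=
    Subset.antisymm (inter_subset_inter_right inter_subset_left) fun x hx =>
      mem_inter.2 ⟨mem_inter.2 ⟨(mem_inter.1 hx).1, mem_product.2
        ⟨(mem_product.1 (mem_inter.1 hx).2).1, mem_erase.2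
          ⟨(mem_erase.1 (mem_product.1 (mem_inter.1 hx).2).2).1,
            (mem_product.1 (hT (mem_inter.1 hx).1)).2⟩⟩⟩, (mem_inter.1 hx).2⟩
  rw [← xi_inter c γ (T ∩ range (c + 4) ×ˢ P.erase a) Subset.rfl sdiff_subset, h2,
    xi_inter c γ T Subset.rfl sdiff_subset]

theorem Sst_univ (c : ℕ) (γ : ℝ) (H B : Finset Pt) (a : Pt) (T : Finset (ℕ × Pt)) :
    G.Sst c γ H univ a T = G.Sst c γ H B a T + G.Sst c γ H Bᶜ a T := by
  rw [Sst, Sst, Sst, inter_univ, ← sdiff_eq_inter_compl, sum_inter_add_sum_sdiff]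

theorem abs_Sst_le (c : ℕ) {γ : ℝ} (h0 : 0 ≤ γ) (h1 : γ ≤ 1) (H B : Finset Pt) (a : Pt)
    (T : Finset (ℕ × Pt)) : |G.Sst c γ H B a T| ≤ 2 * (q : ℝ) ^ 2 := by
  refine (abs_sum_le_sum_abs _ _).trans ((sum_le_card_nsmul _ _ 1 fun b _ =>
    (abs_xi_le c h0 h1 T _ _).trans (emp_le_one _ _)).trans ?_)
  rw [nsmul_eq_mul, mul_one]
  exact (Nat.cast_le.2 (card_le_card (inter_subset_left.trans sdiff_subset))).trans
    (G.card_pl_le a)

/-- `badp` does not see a summand that ignores the block, nor values off the ground set -/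
theorem badp_congr {ι : Type} [DecidableEq ι] {η : ℝ} {Ω B : Finset ι} {f g : Finset ι → ℝ}
    (r : Finset ι → ℝ) (h : ∀ S ⊆ B, ∀ T ⊆ Ω \ B, f (S ∪ T) = g (S ∪ T) + r T) (v M : ℝ) :
    badp η Ω B f v M = badp η Ω B g v M := by
  refine Ex_congr fun T hT => congrArg ind (propext (not_congr ?_))
  have e1 : (Ex η B fun S => f (S ∪ T)) = (Ex η B fun S => g (S ∪ T)) + r T := by
    rw [Ex_congr fun S hS => h S hS T hT, Ex_add, Ex_const]
  have e2 : Vr η B (fun S => f (S ∪ T)) = Vr η B fun S => g (S ∪ T) := by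
    unfold Vr
    rw [e1]
    exact Ex_congr fun S hS => by
      beta_reduce
      rw [h S hS T hT, add_sub_add_right_eq_sub]
  rw [e1, e2]
  exact and_congr Iff.rfl (forall₂_congr fun S hS => by
    rw [h S hS T hT, add_sub_add_right_eq_sub])

theorem badp_mono {ι : Type} [DecidableEq ι] {η : ℝ} (h0 : 0 ≤ η) (h1 : η ≤ 1) {Ω B : Finset ι}
    (f : Finset ι → ℝ) {v v' M M' : ℝ} (hv : v ≤ v') (hM : M ≤ M') :
    badp η Ω B f v' M' ≤ badp η Ω B f v M := by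
  exact Pr_mono h0 h1 fun T _ k l => k ⟨l.1.trans hv, fun S hS => (neg_le_neg hM).trans (l.2 S hS)⟩

end PG
end Pool.Agent.Work.MP_e10cd8_co.Four
end

-- merged part: Pool.Agent.Work.MP_e10cd8_co.Four.ParF
section
/-! Numerical consequences of the side conditions. -/

namespace Pool.Agent.Work.MP_e10cd8_co.Four

namespace Par
variable {q c : ℕ} {w : ℝ}

theorem w_pos (h : Par q w c) : 0 < w := lt_of_lt_of_le (by norm_num) h.hw

theorem one_le_w (h : Par q w c) : 1 ≤ w := le_trans (by norm_num) h.hw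

theorem q_pos (h : Par q w c) : (0 : ℝ) < q := lt_of_lt_of_le (pow_pos h.w_pos _) h.hq

theorem twenty_le_log (h : Par q w c) : 20 ≤ Real.log w := by
  have h1 : Real.log ((2 : ℝ) ^ 30) ≤ Real.log w := Real.log_le_log (by norm_num) h.hw
  rw [Real.log_pow] at h1
  have h2 := Real.log_two_gt_d9
  push_cast at h1
  linarith

theorem c_le (h : Par q w c) : (c : ℝ) + 4 ≤ w := by
  have h0 := h.w_pos
  have h1 : Real.log (w / 2 ^ 30) ≤ w / 2 ^ 30 - 1 := Real.log_le_sub_one_of_pos (by positivity)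
  rw [Real.log_div h0.ne' (by norm_num), Real.log_pow] at h1
  have h2 := Real.log_two_lt_d9
  have h3 := h.hc2
  have h4 := h.hw
  push_cast at h1
  linarith

theorem le_c (h : Par q w c) : 1000 ≤ c := by
  have h1 := h.twenty_le_log
  have h2 := h.hc1
  have h3 : (1000 : ℝ) ≤ c := by linarith
  exact_mod_cast h3

theorem thousand_le_q (h : Par q w c) : 1000 ≤ q := by
  have h1 : w ≤ w ^ 100 := le_self_pow₀ h.one_le_w (by norm_num)
  have h2 := h.hq
  have h3 := h.hw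
  have h4 : (1000 : ℝ) ≤ q := by linarith
  exact_mod_cast h4

theorem one_le_L (h : Par q w c) : 1 ≤ Real.log q := by
  have h1 : (1000 : ℝ) ≤ q := by exact_mod_cast h.thousand_le_q
  rw [Real.le_log_iff_exp_le h.q_pos]
  have := Real.exp_one_lt_d9
  linarith

theorem exp20 (h : Par q w c) : Real.exp (-(c : ℝ) / 20) ≤ 1 / w ^ 20 := by
  have h1 := h.twenty_le_log
  have h2 := h.hc1
  rw [one_div, ← Real.exp_log (pow_pos h.w_pos 20), ← Real.exp_neg, Real.log_pow]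
  apply Real.exp_le_exp.2
  push_cast
  linarith

theorem exp21 (h : Par q w c) : Real.exp (-(c : ℝ) / 2 ^ 21) ≤ 1 / w ^ 4 := by
  have h2 := h.hc1
  rw [one_div, ← Real.exp_log (pow_pos h.w_pos 4), ← Real.exp_neg, Real.log_pow]
  apply Real.exp_le_exp.2
  push_cast
  linarith

theorem exp24 (h : Par q w c) : 1 / w ≤ Real.exp (-(c : ℝ) / 2 ^ 24) := by
  have h1 := h.twenty_le_log
  have h2 := h.hc2
  have h3 : 1 / w = Real.exp (-Real.log w) := by
    rw [Real.exp_neg, Real.exp_log h.w_pos, one_div]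
  rw [h3]
  apply Real.exp_le_exp.2
  linarith

end Par

section
variable {Pt : Type} {q c : ℕ} {P : Finset Pt}

theorem eta_pos (hq : 0 < q) (hP : P.Nonempty) : 0 < eta q P := by
  have h1 : (0 : ℝ) < P.card := by exact_mod_cast hP.card_pos
  have h2 : (0 : ℝ) < q := by exact_mod_cast hq
  exact div_pos h2 h1

theorem eta_mul_card (hP : P.Nonempty) : eta q P * P.card = q := by
  have h1 : (0 : ℝ) < P.card := by exact_mod_cast hP.card_pos
  exact div_mul_cancel₀ _ h1.ne'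

theorem sig_mul_card (hP : P.Nonempty) : sig q P * P.card = (q : ℝ) ^ 2 := by
  have h1 : (0 : ℝ) < P.card := by exact_mod_cast hP.card_pos
  exact div_mul_cancel₀ _ h1.ne'

theorem eta_mul_q : eta q P * q = sig q P := by
  unfold eta sig
  ring

theorem one_le_sig (hP : P.Nonempty) (hn : P.card ≤ q ^ 2) : 1 ≤ sig q P := by
  have h1 : (0 : ℝ) < P.card := by exact_mod_cast hP.card_pos
  have h2 : (P.card : ℝ) ≤ (q : ℝ) ^ 2 := by exact_mod_cast hn
  exact (one_le_div h1).2 h2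

theorem eta_le (hq : 0 < q) (hn : 4 * (c + 4) * q ≤ P.card) : eta q P * (4 * (c + 4)) ≤ 1 := by
  have h0 : 0 < P.card := lt_of_lt_of_le (by positivity) hn
  have h1 : (0 : ℝ) < P.card := by exact_mod_cast h0
  have h2 : 4 * ((c : ℝ) + 4) * q ≤ P.card := by exact_mod_cast hn
  unfold eta
  rw [div_mul_eq_mul_div, div_le_one h1]
  linarith

theorem nonempty_of_le (hq : 0 < q) (hn : 4 * (c + 4) * q ≤ P.card) : P.Nonempty := by
  exact Finset.card_pos.1 (lt_of_lt_of_le (by positivity) hn)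

end

/-- `β ^ x` is `η`-Lipschitz in `x` -/
theorem abs_pow_sub_pow_le {η : ℝ} (h0 : 0 ≤ η) (h1 : η ≤ 1) (x y : ℕ) :
    |(1 - η) ^ x - (1 - η) ^ y| ≤ η * |(x : ℝ) - y| := by
  have key : ∀ a b : ℕ, a ≤ b → |(1 - η) ^ a - (1 - η) ^ b| ≤ η * |(a : ℝ) - b| := by
    intro a b hab
    obtain ⟨d, rfl⟩ := Nat.exists_eq_add_of_le hab
    have b0 : 0 ≤ 1 - η := sub_nonneg.2 h1
    have b1 : 1 - η ≤ 1 := by linarith
    have e1 : (1 - η) ^ a ≤ 1 := pow_le_one₀ b0 b1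
    have e2 : (1 - η) ^ d ≤ 1 := pow_le_one₀ b0 b1
    have e3 : 0 ≤ (1 - η) ^ a := pow_nonneg b0 a
    have e4 : 1 + (d : ℝ) * (-η) ≤ (1 + -η) ^ d := one_add_mul_le_pow (by linarith) d
    rw [← sub_eq_add_neg] at e4
    have e5 : ((a : ℝ) - ((a + d : ℕ) : ℝ)) = -(d : ℝ) := by
      push_cast
      ring
    rw [e5, abs_neg, Nat.abs_cast, pow_add, abs_of_nonneg (by nlinarith)]
    nlinarith
  rcases le_total x y with h | h
  · exact key x y h
  · rw [abs_sub_comm, abs_sub_comm (x : ℝ)]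
    exact key y x h

theorem one_sub_pow_le_exp {η : ℝ} (h1 : η ≤ 1) (x : ℕ) : (1 - η) ^ x ≤ Real.exp (-(η * x)) := by
  have e : 1 - η ≤ Real.exp (-η) := by
    have := Real.add_one_le_exp (-η)
    linarith
  calc (1 - η) ^ x ≤ Real.exp (-η) ^ x := pow_le_pow_left₀ (sub_nonneg.2 h1) e x
    _ = Real.exp (-(η * x)) := by
      rw [← Real.exp_nat_mul]
      congr 1
      ring

theorem exp_le_one_sub_pow {η : ℝ} (h0 : 0 ≤ η) (h1 : η ≤ 1 / 2) (x : ℕ) :
    Real.exp (-(2 * η * x)) ≤ (1 - η) ^ x := by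
  have e : Real.exp (-(2 * η)) ≤ 1 - η := by
    have a1 := Real.add_one_le_exp (2 * η)
    have a2 : 0 < Real.exp (2 * η) := Real.exp_pos _
    rw [Real.exp_neg, inv_le_iff_one_le_mul₀ a2]
    nlinarith
  calc Real.exp (-(2 * η * x)) = Real.exp (-(2 * η)) ^ x := by
        rw [← Real.exp_nat_mul]
        congr 1
        ring
    _ ≤ (1 - η) ^ x := pow_le_pow_left₀ (Real.exp_pos _).le e x

end Pool.Agent.Work.MP_e10cd8_co.Four
end

-- merged part: Pool.Agent.Work.MP_e10cd8_co.Four.Means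
section
/-! Deterministic estimates from the mixing inequality (paper 5.2, 5.3). No upper bound on the size
of `P` is assumed unless stated: the planar case uses these lemmas for a large set of planes. -/

namespace Pool.Agent.Work.MP_e10cd8_co.Four
namespace PG
open Finset

variable {q : ℕ} {Pt : Type} [Fintype Pt] [DecidableEq Pt] (G : PG q Pt)

theorem Means_q (G : PG q Pt) : (0 : ℝ) < q := by
  have hq : (2 : ℝ) ≤ q := by exact_mod_cast G.two_le
  linarith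

omit [Fintype Pt] [DecidableEq Pt] in
theorem Means_eta (P : Finset Pt) : 0 ≤ eta q P := by
  unfold eta
  positivity

omit [Fintype Pt] [DecidableEq Pt] in
theorem Means_sig (P : Finset Pt) : 0 ≤ sig q P := by
  unfold sig
  positivity

theorem Means_tb (P : Finset Pt) (b : Pt) : 0 ≤ G.tb P b :=
  mul_nonneg (Means_eta P) (Nat.cast_nonneg _)

theorem card_D_le {P : Finset Pt} (hP : P.Nonempty) :
    ((G.low (1 / 4) P).card : ℝ) ≤ 2 * (q : ℝ) ^ 2 * sig q P := by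
  have hn : (0 : ℝ) < P.card := by exact_mod_cast hP.card_pos
  have h1 := G.card_low_le (x := 1 / 4) (by norm_num) P
  have h2 := sig_mul_card (q := q) hP
  refine le_of_mul_le_mul_right ?_ hn
  rw [mul_assoc, h2]
  have h3 : (0 : ℝ) ≤ (q : ℝ) ^ 4 := by positivity
  have h4 : 2 * (q : ℝ) ^ 2 * (q : ℝ) ^ 2 = 2 * (q : ℝ) ^ 4 := by ring
  rw [h4]
  linarith

theorem mem_low_iff_tb {P : Finset Pt} (hP : P.Nonempty) {x : ℝ} {b : Pt} :
    b ∈ G.low x P ↔ G.tb P b ≤ x := by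
  have hn : (0 : ℝ) < P.card := by exact_mod_cast hP.card_pos
  rw [mem_low, tb, eta, le_div_iff₀ G.Means_q, div_mul_eq_mul_div, div_le_iff₀ hn, mul_comm]

theorem gb_nonneg (P : Finset Pt) (b : Pt) : 0 ≤ G.gb P b :=
  le_min zero_le_one (abs_nonneg _)

theorem gb_le_one (P : Finset Pt) (b : Pt) : G.gb P b ≤ 1 := min_le_left _ _

theorem hb_nonneg (P U : Finset Pt) (b : Pt) : 0 ≤ G.hb P U b :=
  le_min zero_le_one (abs_nonneg _)

theorem hb_le_one (P U : Finset Pt) (b : Pt) : G.hb P U b ≤ 1 := min_le_left _ _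

theorem hb_empty (P : Finset Pt) (b : Pt) : G.hb P ∅ b = 0 := by
  simp [hb]

theorem om_nonneg (P : Finset Pt) (b : Pt) : 0 ≤ G.om P b :=
  le_min zero_le_one (one_div_nonneg.2 (G.Means_tb P b))

theorem om_le_one (P : Finset Pt) (b : Pt) : G.om P b ≤ 1 := min_le_left _ _

theorem tb_mul_om_le (P : Finset Pt) (b : Pt) : G.tb P b * G.om P b ≤ 1 := by
  refine (mul_le_mul_of_nonneg_left (min_le_right _ _) (G.Means_tb P b)).trans ?_
  rw [mul_one_div]
  exact div_self_le_one _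

theorem ub_nonneg (P H : Finset Pt) (a b : Pt) : 0 ≤ G.ub P H a b :=
  le_min zero_le_one (add_nonneg (add_nonneg (G.gb_nonneg _ _) (G.hb_nonneg _ _ _))
    (mul_nonneg zero_le_two (Means_eta P)))

theorem ub_sq_le (P H : Finset Pt) (a b : Pt) :
    G.ub P H a b ^ 2 ≤ 3 * (G.gb P b ^ 2 + G.hb P (G.th H a) b ^ 2 + 4 * eta q P ^ 2) := by
  refine (pow_le_pow_left₀ (G.ub_nonneg P H a b) (min_le_right _ _) 2).trans ?_
  generalize G.gb P b = x
  generalize G.hb P (G.th H a) b = y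
  generalize eta q P = z
  nlinarith [sq_nonneg (x - y), sq_nonneg (x - 2 * z), sq_nonneg (y - 2 * z)]

theorem Means_min_sq (x : ℝ) : (min 1 |x|) ^ 2 ≤ x ^ 2 := by
  rw [← sq_abs x]
  exact pow_le_pow_left₀ (le_min zero_le_one (abs_nonneg _)) (min_le_right _ _) 2

theorem Means_dev {P : Finset Pt} (hP : P.Nonempty) (X : Finset Pt) :
    ∑ b, (min 1 |eta q P * G.cnt X b - (X.card : ℝ) / P.card|) ^ 2 ≤
      (q : ℝ) ^ 2 * sig q P * (X.card / P.card) := by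
  have hn : (0 : ℝ) < P.card := by exact_mod_cast hP.card_pos
  have hq := G.Means_q
  have h1 : ∀ b, (min 1 |eta q P * G.cnt X b - (X.card : ℝ) / P.card|) ^ 2 ≤
      eta q P ^ 2 * ((G.cnt X b : ℝ) - X.card / q) ^ 2 := fun b => by
    refine (Means_min_sq _).trans (le_of_eq ?_)
    rw [← mul_pow, eta]
    congr 1
    field_simp
  refine (sum_le_sum fun b _ => h1 b).trans ?_
  rw [← mul_sum]
  refine (mul_le_mul_of_nonneg_left (G.mix_cnt X) (sq_nonneg _)).trans (le_of_eq ?_)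
  rw [eta, sig]
  field_simp

theorem sum_gb_sq {P : Finset Pt} (hP : P.Nonempty) :
    ∑ b, G.gb P b ^ 2 ≤ (q : ℝ) ^ 2 * sig q P := by
  have hn : (0 : ℝ) < P.card := by exact_mod_cast hP.card_pos
  have h := G.Means_dev hP P
  rw [div_self hn.ne', mul_one] at h
  exact h

/-- `mix_cnt` for `U ∩ P` -/
theorem sum_hb_sq {P : Finset Pt} (hP : P.Nonempty) (U : Finset Pt) :
    ∑ b, G.hb P U b ^ 2 ≤ (q : ℝ) ^ 2 * sig q P * ((U ∩ P).card / P.card) := by
  have h := G.Means_dev hP (U ∩ P)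
  simp only [hb, inter_assoc]
  exact h

/-- damping off the low planes: `N ≥ cnt - sh`, `η sh ≤ 1/20`, `tb > 1/4` give `η N ≥ 4 tb / 5`, so
the left side is at most `exp (-0.4 c tb) ≤ exp (-c/20) exp (-0.2 c tb)` -/
theorem damp {P : Finset Pt} (hP : P.Nonempty) (hη : eta q P ≤ 1) {c : ℕ} (hc : 10 ≤ c) {b : Pt}
    (hb : b ∉ G.low (1 / 4) P) {N : ℕ} (hN : G.tb P b - 1 / 20 ≤ eta q P * N) :
    Real.sqrt ((1 - eta q P) ^ (c * N)) ≤ Real.exp (-(c : ℝ) / 20) * G.om P b := by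
  rw [G.mem_low_iff_tb hP, not_le] at hb
  have hc' : (10 : ℝ) ≤ c := by exact_mod_cast hc
  have h1 := one_sub_pow_le_exp hη (c * N)
  unfold om
  generalize G.tb P b = t at *
  have ht : 0 < t := by linarith
  have h2 : Real.exp (-(c * t / 5)) ≤ min 1 (1 / t) := by
    refine le_min (Real.exp_le_one_iff.2 (neg_nonpos.2 (by positivity))) ?_
    rw [Real.exp_neg, ← one_div]
    refine one_div_le_one_div_of_le ht ?_
    have := Real.add_one_le_exp (c * t / 5)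
    nlinarith
  refine le_trans ?_ (mul_le_mul_of_nonneg_left h2 (Real.exp_pos _).le)
  rw [← Real.exp_add]
  refine Real.sqrt_le_iff.2 ⟨(Real.exp_pos _).le, h1.trans ?_⟩
  rw [sq, ← Real.exp_add]
  refine Real.exp_le_exp.2 ?_
  push_cast
  have h3 : c * (t - 1 / 20) ≤ c * (eta q P * N) := mul_le_mul_of_nonneg_left hN (by linarith)
  have h4 : c * (1 / 4) ≤ c * t := mul_le_mul_of_nonneg_left hb.le (by linarith)
  nlinarith

theorem Zs_lower {P : Finset Pt} (hP : P.Nonempty) (hη : eta q P ≤ 1 / 2) (c : ℕ) {x : ℝ}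
    (hx : x ≤ 1 / 4) {S Y : Finset Pt} (hY : Y ⊆ G.low x P) (hS : Y ⊆ S) :
    (Y.card : ℝ) * Real.exp (-(2 * c * x)) ≤ G.Zs c P S := by
  have h0 : 0 ≤ 1 - eta q P := by linarith
  rw [← nsmul_eq_mul, ← sum_const]
  refine le_trans (sum_le_sum fun b hb => ?_) (sum_le_sum_of_subset_of_nonneg
    (subset_inter (hY.trans (G.low_mono hx P)) hS) fun b _ _ => pow_nonneg h0 _)
  refine le_trans (Real.exp_le_exp.2 ?_) (exp_le_one_sub_pow (Means_eta P) hη _)
  have h1 : eta q P * G.cnt P b ≤ x := (G.mem_low_iff_tb hP).1 (hY hb)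
  have h2 := mul_le_mul_of_nonneg_left h1 (Nat.cast_nonneg (α := ℝ) c)
  push_cast
  nlinarith

theorem Zs_upper {P : Finset Pt} (hη0 : 0 ≤ eta q P) (hη : eta q P ≤ 1) (c : ℕ) (S : Finset Pt) :
    G.Zs c P S ≤ (G.low (1 / 4) P ∩ S).card := by
  rw [card_eq_sum_ones]
  push_cast
  exact sum_le_sum fun b _ => pow_le_one₀ (by linarith) (by linarith)

/-- `mix` for a function in `[0, 1]` restricted to a set -/
theorem Means_mix (φ : Pt → ℝ) (h0 : ∀ b, 0 ≤ φ b) (h1 : ∀ b, φ b ≤ 1) (B : Finset Pt) :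
    ∑ a, (∑ b ∈ G.pl a ∩ B, φ b - (∑ b ∈ B, φ b) / q) ^ 2 ≤ (q : ℝ) ^ 2 * ∑ b ∈ B, φ b := by
  have h := G.mix fun b => if b ∈ B then φ b else 0
  simp only [sum_ite_mem, univ_inter] at h
  refine h.trans (mul_le_mul_of_nonneg_left ?_ (sq_nonneg _))
  rw [← univ_inter B, ← sum_ite_mem, univ_inter]
  refine sum_le_sum fun b _ => ?_
  split_ifs
  · nlinarith [h0 b, h1 b]
  · norm_num

omit [DecidableEq Pt] in
/-- Markov -/
theorem Means_markov (p : Pt → Prop) (A : Pt → ℝ) (h0 : ∀ a, 0 ≤ A a) {L : ℝ}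
    (h : ∀ a, p a → L ≤ A a) : ((sel p).card : ℝ) * L ≤ ∑ a, A a := by
  rw [← nsmul_eq_mul, ← sum_const]
  exact (sum_le_sum fun a ha => h a (mem_sel.1 ha)).trans
    (sum_le_sum_of_subset_of_nonneg (subset_univ _) fun a _ _ => h0 a)

/-- `mix` for the weights `β ^ (c cnt)` on `low (1/4) P ∩ S`, whose squares sum to at most `Zs` -/
theorem card_mean_small {P : Finset Pt} (hη0 : 0 ≤ eta q P) (hη : eta q P ≤ 1) (c : ℕ)
    (S : Finset Pt) :
    ((sel fun a => ∑ b ∈ G.pl a ∩ (G.low (1 / 4) P ∩ S), (1 - eta q P) ^ (c * G.cnt P b) ≤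
      3 / 4 * (G.Zs c P S / q)).card : ℝ) * G.Zs c P S ≤ 16 * (q : ℝ) ^ 4 := by
  have hq := G.Means_q
  have h0 : ∀ b, 0 ≤ (1 - eta q P) ^ (c * G.cnt P b) := fun b => pow_nonneg (by linarith) _
  have h1 := G.Means_mix (fun b => (1 - eta q P) ^ (c * G.cnt P b)) h0
    (fun b => pow_le_one₀ (by linarith) (by linarith)) (G.low (1 / 4) P ∩ S)
  have hZ : 0 ≤ G.Zs c P S := sum_nonneg fun b _ => h0 b
  change ∑ a, (_ - G.Zs c P S / q) ^ 2 ≤ (q : ℝ) ^ 2 * G.Zs c P S at h1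
  have h2 := Means_markov (fun a => ∑ b ∈ G.pl a ∩ (G.low (1 / 4) P ∩ S),
      (1 - eta q P) ^ (c * G.cnt P b) ≤ 3 / 4 * (G.Zs c P S / q))
    (fun a => (∑ b ∈ G.pl a ∩ (G.low (1 / 4) P ∩ S), (1 - eta q P) ^ (c * G.cnt P b) -
      G.Zs c P S / q) ^ 2) (fun a => sq_nonneg _) (L := (G.Zs c P S / q / 4) ^ 2) fun a ha => by
      rw [← neg_sq (_ - G.Zs c P S / q)]
      exact pow_le_pow_left₀ (by positivity) (by linarith) 2
  have h3 := h2.trans h1
  generalize G.Zs c P S = Z at *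
  generalize ((sel (α := Pt) _).card : ℝ) = m at *
  rcases hZ.eq_or_lt with rfl | hZ
  · rw [mul_zero]
    positivity
  have h4 : m * (Z / q / 4) ^ 2 = m * Z * (Z / (16 * (q : ℝ) ^ 2)) := by
    field_simp
    ring
  have h5 : (q : ℝ) ^ 2 * Z = 16 * (q : ℝ) ^ 4 * (Z / (16 * (q : ℝ) ^ 2)) := by
    field_simp
  rw [h4, h5] at h3
  exact le_of_mul_le_mul_right h3 (by positivity)

/-- split at `tb = 2 ^ (-21)` -/
theorem sum_tb_low {P : Finset Pt} (hP : P.Nonempty) (hη : eta q P ≤ 1) (c : ℕ) (S : Finset Pt) :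
    ∑ b ∈ G.low (1 / 4) P ∩ S, G.tb P b * (1 - eta q P) ^ (c * G.cnt P b) ≤
      G.Zs c P S / 2 ^ 21 + (q : ℝ) ^ 2 * sig q P * Real.exp (-(c : ℝ) / 2 ^ 21) / 2 := by
  have hE := Real.exp_pos (-(c : ℝ) / 2 ^ 21)
  have h1 : ∀ b ∈ G.low (1 / 4) P ∩ S, G.tb P b * (1 - eta q P) ^ (c * G.cnt P b) ≤
      (1 - eta q P) ^ (c * G.cnt P b) / 2 ^ 21 + Real.exp (-(c : ℝ) / 2 ^ 21) / 4 := by
    intro b hb
    have a0 : 0 ≤ (1 - eta q P) ^ (c * G.cnt P b) := pow_nonneg (by linarith) _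
    have a1 := (G.mem_low_iff_tb hP).1 (mem_inter.1 hb).1
    rcases le_total (G.tb P b) (1 / 2 ^ 21) with h | h
    · have := mul_le_mul_of_nonneg_right h a0
      linarith
    · have a2 : (1 - eta q P) ^ (c * G.cnt P b) ≤ Real.exp (-(c : ℝ) / 2 ^ 21) := by
        refine (one_sub_pow_le_exp hη _).trans (Real.exp_le_exp.2 ?_)
        have a3 : (c : ℝ) * (1 / 2 ^ 21) ≤ c * (eta q P * G.cnt P b) :=
          mul_le_mul_of_nonneg_left h (Nat.cast_nonneg _)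
        push_cast
        linarith
      have a4 := mul_le_mul_of_nonneg_right a1 a0
      have a5 : 0 ≤ (1 - eta q P) ^ (c * G.cnt P b) / 2 ^ 21 := by positivity
      linarith
  refine (sum_le_sum h1).trans ?_
  rw [sum_add_distrib, ← sum_div, sum_const, nsmul_eq_mul]
  have h2 : ((G.low (1 / 4) P ∩ S).card : ℝ) ≤ 2 * (q : ℝ) ^ 2 * sig q P :=
    le_trans (by exact_mod_cast card_le_card inter_subset_left) (G.card_D_le hP)
  have h3 := mul_le_mul_of_nonneg_right h2 hE.le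
  unfold Zs
  linarith

/-- summing a function of planes over the planes through the points of `P` -/
theorem sum_sum_pl (P : Finset Pt) (φ : Pt → ℝ) :
    ∑ a ∈ P, ∑ b ∈ G.pl a, φ b = ∑ b, (G.cnt P b : ℝ) * φ b := by
  simp only [G.Geo_ite φ]
  rw [sum_comm]
  refine sum_congr rfl fun b _ => ?_
  rw [← sum_mul, sum_boole, filter_mem_eq_inter, inter_comm]
  rfl

theorem Means_sq (x y : ℝ) : x ^ 2 ≤ 2 * (x - y) ^ 2 + 2 * y ^ 2 := by
  nlinarith [sq_nonneg (x - 2 * y)]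

theorem Means_N {P : Finset Pt} (hP : P.Nonempty) (φ : Pt → ℝ) (h0 : ∀ b, 0 ≤ φ b)
    (h1 : ∀ b, φ b ≤ 1) (hs : ∑ b, φ b ≤ 2 * (q : ℝ) ^ 2 * sig q P) :
    eta q P * ∑ y ∈ P, ((∑ b ∈ G.pl y, φ b) / q) ^ 2 ≤ 12 * q * sig q P ^ 2 := by
  have hq := G.Means_q
  have hn : (0 : ℝ) < P.card := by exact_mod_cast hP.card_pos
  have hσ := Means_sig (q := q) P
  have a1 := G.Means_mix φ h0 h1 univ
  simp only [inter_univ] at a1
  have a2 : (∑ b, φ b) / q ≤ 2 * q * sig q P := by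
    rw [div_le_iff₀ hq]
    linarith
  have a3 : ((∑ b, φ b) / q) ^ 2 ≤ (2 * q * sig q P) ^ 2 :=
    pow_le_pow_left₀ (div_nonneg (sum_nonneg fun b _ => h0 b) hq.le) a2 2
  have a4 : ∑ y ∈ P, (∑ b ∈ G.pl y, φ b) ^ 2 ≤
      2 * ((q : ℝ) ^ 2 * (2 * (q : ℝ) ^ 2 * sig q P)) + P.card * (2 * (2 * q * sig q P) ^ 2) := by
    refine (sum_le_sum fun y _ => Means_sq _ ((∑ b, φ b) / q)).trans ?_
    rw [sum_add_distrib, ← mul_sum, sum_const, nsmul_eq_mul]
    have b1 : ∑ y ∈ P, (∑ b ∈ G.pl y, φ b - (∑ b, φ b) / q) ^ 2 ≤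
        (q : ℝ) ^ 2 * (2 * (q : ℝ) ^ 2 * sig q P) :=
      (sum_le_sum_of_subset_of_nonneg (subset_univ _) fun b _ _ => sq_nonneg _).trans
        (a1.trans (mul_le_mul_of_nonneg_left hs (sq_nonneg _)))
    have b2 := mul_le_mul_of_nonneg_left a3 hn.le
    linarith
  simp only [div_pow]
  rw [← sum_div]
  refine (mul_le_mul_of_nonneg_left (div_le_div_of_nonneg_right a4 (sq_nonneg _))
    (Means_eta P)).trans (le_of_eq ?_)
  rw [eta, sig]
  field_simp
  ring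

/-- E2, both forms. For `y ∈ P` let `N y = ∑ b ∈ pl y, φ b`; `mix` for `φ` restricted to `pl y`
gives `∑ a, (Φ a y - N y / q)^2 ≤ q^2 N y`; `η ∑ y ∈ P, N y = ∑ b, tb b φ b ≤ Ξ`; `mix` for `φ`
gives `∑ y ∈ P, N y ^ 2 ≤ 12 n q^2 σ^2`, so `η ∑ y ∈ P, (N y / q)^2 ≤ 12 q σ^2`. -/
theorem e2 {P : Finset Pt} (hP : P.Nonempty) (φ : Pt → ℝ) (h0 : ∀ b, 0 ≤ φ b) (h1 : ∀ b, φ b ≤ 1)
    (hs : ∑ b, φ b ≤ 2 * (q : ℝ) ^ 2 * sig q P) {Xi : ℝ} (hX : ∑ b, G.tb P b * φ b ≤ Xi) :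
    (∀ Lm : ℝ, 0 < Lm → ((sel fun a => 24 * q * sig q P ^ 2 + 2 * Lm ≤
        eta q P * ∑ y ∈ P.erase a, (∑ b ∈ G.pl a ∩ G.pl y, φ b) ^ 2).card : ℝ) ≤
          (q : ℝ) ^ 2 * Xi / Lm) ∧
    ∑ a, eta q P * ∑ y ∈ P.erase a, (∑ b ∈ G.pl a ∩ G.pl y, φ b) ^ 2 ≤
      2 * (q : ℝ) ^ 2 * Xi + 48 * (q : ℝ) ^ 4 * sig q P ^ 2 := by
  have hq := G.Means_q
  have hη := Means_eta (q := q) P
  obtain ⟨A, hA⟩ : ∃ A : Pt → ℝ, ∀ a, A a = eta q P *
      ∑ y ∈ P, (∑ b ∈ G.pl a ∩ G.pl y, φ b - (∑ b ∈ G.pl y, φ b) / q) ^ 2 := ⟨_, fun _ => rfl⟩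
  have a0 : ∀ a, 0 ≤ A a := fun a => by
    rw [hA]
    exact mul_nonneg hη (sum_nonneg fun y _ => sq_nonneg _)
  have a1 : ∑ a, A a ≤ (q : ℝ) ^ 2 * Xi := by
    simp only [hA]
    rw [← mul_sum, sum_comm]
    refine (mul_le_mul_of_nonneg_left
      (sum_le_sum fun y _ => G.Means_mix φ h0 h1 (G.pl y)) hη).trans ?_
    rw [← mul_sum, G.sum_sum_pl, mul_left_comm, mul_sum univ _ (eta q P)]
    refine mul_le_mul_of_nonneg_left (le_trans (le_of_eq ?_) hX) (sq_nonneg _)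
    exact sum_congr rfl fun b _ => (mul_assoc _ _ _).symm
  have a2 := G.Means_N hP φ h0 h1 hs
  have a3 : ∀ a, eta q P * ∑ y ∈ P.erase a, (∑ b ∈ G.pl a ∩ G.pl y, φ b) ^ 2 ≤
      2 * A a + 24 * q * sig q P ^ 2 := fun a => by
    have b1 : ∑ y ∈ P.erase a, (∑ b ∈ G.pl a ∩ G.pl y, φ b) ^ 2 ≤
        2 * ∑ y ∈ P, (∑ b ∈ G.pl a ∩ G.pl y, φ b - (∑ b ∈ G.pl y, φ b) / q) ^ 2 +
          2 * ∑ y ∈ P, ((∑ b ∈ G.pl y, φ b) / q) ^ 2 := by
      rw [mul_sum, mul_sum, ← sum_add_distrib]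
      exact (sum_le_sum_of_subset_of_nonneg (erase_subset _ _) fun y _ _ => sq_nonneg _).trans
        (sum_le_sum fun y _ => Means_sq _ _)
    have b2 := mul_le_mul_of_nonneg_left b1 hη
    rw [hA]
    linarith
  refine ⟨fun Lm hL => ?_, ?_⟩
  · rw [le_div_iff₀ hL]
    exact (Means_markov _ A a0 fun a ha => by linarith [a3 a]).trans a1
  · refine (sum_le_sum fun a _ => a3 a).trans ?_
    rw [sum_add_distrib, ← mul_sum, sum_const, card_univ, nsmul_eq_mul]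
    have b1 := mul_le_mul_of_nonneg_right G.card_pt_le
      (show 0 ≤ 24 * q * sig q P ^ 2 by positivity)
    linarith

end PG
end Pool.Agent.Work.MP_e10cd8_co.Four
end

-- merged part: Pool.Agent.Work.MP_e10cd8_co.Four.Hair
section
/-! The hairbrush bound for rich lines in no heavy plane (paper 5.1). -/

namespace Pool.Agent.Work.MP_e10cd8_co.Four
namespace PG
open Finset

variable {q : ℕ} {Pt : Type} [Fintype Pt] [DecidableEq Pt] (G : PG q Pt)

theorem Hair_sel {α : Type} (X : Finset α) (p : α → Prop) (f : α → ℝ) :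
    ∑ a ∈ selIn X p, f a = ∑ a ∈ X, ind (p a) * f a := by
  classical
  simp only [selIn, ind, Finset.sum_filter]
  exact Finset.sum_congr rfl fun a _ => by split_ifs <;> simp

theorem Hair_inter_le {A A' : Finset Pt} (hA : A ∈ G.lines) (hA' : A' ∈ G.lines) (h : A' ≠ A) :
    (G.perp A ∩ G.perp A').card ≤ 1 := by
  refine card_le_one.2 fun x hx y hy => ?_
  by_contra hxy
  rw [mem_inter] at hx hy
  have h1 := G.lines_eq_of_two (G.perp_mem_lines hA) (G.perp_mem_lines hA') hxy hx.1 hy.1 hx.2 hy.2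
  apply h
  rw [← G.perp_perp hA, ← G.perp_perp hA', h1]

/-- two different lines that meet -/
def Hair_R (A A' : Finset Pt) : Prop := A' ≠ A ∧ (G.perp A ∩ G.perp A').Nonempty

theorem Hair_R_symm (A A' : Finset Pt) : G.Hair_R A A' = G.Hair_R A' A := by
  unfold Hair_R
  rw [inter_comm, ne_comm]

omit [Fintype Pt] in
theorem Hair_cnt (U Y : Finset Pt) (c : ℝ) :
    ∑ y ∈ Y, (if y ∈ U then c else 0) = c * ((U ∩ Y).card : ℝ) := by
  rw [sum_ite_mem, sum_const, nsmul_eq_mul, inter_comm, mul_comm]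

theorem Hair_sq {L : Finset (Finset Pt)} (hL : L ⊆ G.lines) (x : Finset Pt → ℝ)
    (hx : ∀ A, 0 ≤ x A) (Y : Finset Pt) :
    ∑ y ∈ Y, (∑ A ∈ L, if y ∈ G.perp A then x A else 0) ^ 2 ≤
      ∑ A ∈ L, x A ^ 2 * ((G.perp A ∩ Y).card : ℝ) +
        ∑ A ∈ L, ∑ A' ∈ L, ind (G.Hair_R A A') * (x A * x A') := by
  have h1 : ∀ y, (∑ A ∈ L, if y ∈ G.perp A then x A else 0) ^ 2 =
      ∑ A ∈ L, ∑ A' ∈ L, if y ∈ G.perp A ∩ G.perp A' then x A * x A' else 0 := by
    intro y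
    rw [sq, sum_mul_sum]
    refine sum_congr rfl fun A _ => sum_congr rfl fun A' _ => ?_
    by_cases h : y ∈ G.perp A <;> by_cases h' : y ∈ G.perp A' <;> simp [h, h']
  rw [sum_congr rfl fun y _ => h1 y, sum_comm, ← sum_add_distrib]
  refine sum_le_sum fun A hA => ?_
  rw [sum_comm]
  have h2 : x A ^ 2 * ((G.perp A ∩ Y).card : ℝ) =
      ∑ A' ∈ L, if A = A' then x A ^ 2 * ((G.perp A ∩ Y).card : ℝ) else 0 := by
    rw [sum_ite_eq, if_pos hA]
  rw [h2, ← sum_add_distrib]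
  refine sum_le_sum fun A' hA' => ?_
  rw [Hair_cnt]
  have h3 : 0 ≤ x A * x A' := mul_nonneg (hx A) (hx A')
  by_cases e : A = A'
  · subst e
    rw [if_pos rfl, inter_self, ← sq]
    have := mul_nonneg (ind_nonneg (G.Hair_R A A)) (sq_nonneg (x A))
    linarith
  · rw [if_neg e, zero_add, mul_comm]
    refine mul_le_mul_of_nonneg_right ?_ h3
    by_cases hR : G.Hair_R A A'
    · rw [ind_pos hR]
      have h4 := (card_le_card (inter_subset_left (s₂ := Y))).trans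
        (G.Hair_inter_le (hL hA) (hL hA') hR.1)
      exact_mod_cast h4
    · have h4 : G.perp A ∩ G.perp A' = ∅ := by
        by_contra h5
        exact hR ⟨fun h6 => e h6.symm, nonempty_iff_ne_empty.2 h5⟩
      rw [h4, empty_inter, card_empty, ind_neg hR]
      simp

theorem Hair_pairs {L : Finset (Finset Pt)} (x w δ : Finset Pt → ℝ) {K : ℝ}
    (hw : ∀ A, 0 ≤ w A) (hx : ∀ A A', δ A' ≤ δ A → x A * x A' ≤ w A * δ A' ^ 2)
    (hK : ∀ A ∈ L, ∑ A' ∈ L, ind (G.Hair_R A A') * δ A' ^ 2 ≤ K) :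
    ∑ A ∈ L, ∑ A' ∈ L, ind (G.Hair_R A A') * (x A * x A') ≤ 2 * K * ∑ A ∈ L, w A := by
  have h1 : ∑ A ∈ L, ∑ A' ∈ L, ind (G.Hair_R A A') * (w A * δ A' ^ 2) ≤ K * ∑ A ∈ L, w A := by
    rw [mul_sum]
    refine sum_le_sum fun A hA => ?_
    have h2 : ∑ A' ∈ L, ind (G.Hair_R A A') * (w A * δ A' ^ 2) =
        (∑ A' ∈ L, ind (G.Hair_R A A') * δ A' ^ 2) * w A := by
      rw [sum_mul]
      exact sum_congr rfl fun A' _ => by ring
    rw [h2]
    exact mul_le_mul_of_nonneg_right (hK A hA) (hw A)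
  have h2 : ∑ A ∈ L, ∑ A' ∈ L, ind (G.Hair_R A A') * (w A' * δ A ^ 2) =
      ∑ A ∈ L, ∑ A' ∈ L, ind (G.Hair_R A A') * (w A * δ A' ^ 2) := by
    rw [sum_comm]
    exact sum_congr rfl fun A _ => sum_congr rfl fun A' _ => by rw [G.Hair_R_symm A' A]
  have h3 : ∑ A ∈ L, ∑ A' ∈ L, ind (G.Hair_R A A') * (x A * x A') ≤
      ∑ A ∈ L, ∑ A' ∈ L, ind (G.Hair_R A A') * (w A * δ A' ^ 2) +
        ∑ A ∈ L, ∑ A' ∈ L, ind (G.Hair_R A A') * (w A' * δ A ^ 2) := by
    rw [← sum_add_distrib]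
    refine sum_le_sum fun A _ => ?_
    rw [← sum_add_distrib]
    refine sum_le_sum fun A' _ => ?_
    rw [← mul_add]
    refine mul_le_mul_of_nonneg_left ?_ (ind_nonneg _)
    have h4 := mul_nonneg (hw A) (sq_nonneg (δ A'))
    have h5 := mul_nonneg (hw A') (sq_nonneg (δ A))
    rcases le_total (δ A') (δ A) with h | h
    · have := hx A A' h
      linarith
    · have := hx A' A h
      rw [mul_comm] at this
      linarith
  linarith

/-- one plane of the hairbrush -/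
theorem Hair_plane {P : Finset Pt} {L : Finset (Finset Pt)} (hL : L ⊆ G.lines)
    (hr : ∀ A' ∈ L, 2 ≤ (G.perp A' ∩ P).card)
    (hc : ∀ A' ∈ L, ∀ b ∈ A', (G.cnt P b : ℝ) ≤ q * ((G.perp A' ∩ P).card : ℝ) / 8)
    {A : Finset Pt} (hA : A ∈ G.lines) (π : Pt) :
    ∑ A' ∈ selIn L (fun A' => A' ≠ A ∧ π ∈ A'), ((G.perp A' ∩ P).card : ℝ) ^ 2 ≤
      8 * q * (((G.pl π ∩ P) \ G.perp A).card : ℝ) := by
  have hq : (2 : ℝ) ≤ q := by exact_mod_cast G.two_le
  have hq0 : (0 : ℝ) < q := by linarith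
  obtain ⟨X, hX⟩ : ∃ X, X = (G.pl π ∩ P) \ G.perp A := ⟨_, rfl⟩
  rw [← hX]
  obtain ⟨N, hN⟩ : ∃ N, N = selIn L (fun A' => A' ≠ A ∧ π ∈ A') := ⟨_, rfl⟩
  rw [← hN]
  have hm : ∀ A' ∈ N, A' ∈ L ∧ A' ≠ A ∧ π ∈ A' := fun A' h => by
    rw [hN] at h
    exact mem_selIn.1 h
  have h1 : ∀ A' ∈ N, (q : ℝ) * (3 / 8 * ((G.perp A' ∩ P).card : ℝ)) ^ 2 ≤
      ∑ b ∈ A'.erase π, ((G.cnt X b : ℝ) - X.card / q) ^ 2 := by
    intro A' hA'
    obtain ⟨h2, h3, h4⟩ := hm A' hA'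
    have h5 : (A'.erase π).card = q := by
      rw [card_erase_of_mem h4, G.card_line (hL h2)]
      rfl
    have h6 : (q : ℝ) = ((A'.erase π).card : ℝ) := by rw [h5]
    rw [show (q : ℝ) * (3 / 8 * ((G.perp A' ∩ P).card : ℝ)) ^ 2 =
      ((A'.erase π).card : ℝ) * (3 / 8 * ((G.perp A' ∩ P).card : ℝ)) ^ 2 by rw [h5],
      ← nsmul_eq_mul]
    refine card_nsmul_le_sum _ _ _ fun b hb => ?_
    have hb' : b ∈ A' := mem_of_mem_erase hb
    have h7 : G.perp A' ∩ P ⊆ (G.pl b ∩ X) ∪ (G.perp A ∩ G.perp A') := by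
      intro z hz
      rw [mem_inter] at hz
      by_cases hzA : z ∈ G.perp A
      · exact mem_union_right _ (mem_inter.2 ⟨hzA, hz.1⟩)
      · refine mem_union_left _ (mem_inter.2 ⟨G.perp_subset_pl hb' hz.1, ?_⟩)
        rw [hX]
        exact mem_sdiff.2 ⟨mem_inter.2 ⟨G.perp_subset_pl h4 hz.1, hz.2⟩, hzA⟩
    have h8 : (G.perp A' ∩ P).card ≤ G.cnt X b + 1 :=
      (card_le_card h7).trans ((card_union_le _ _).trans
        (Nat.add_le_add_left (G.Hair_inter_le hA (hL h2) h3) _))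
    have h9 : ((G.perp A' ∩ P).card : ℝ) ≤ G.cnt X b + 1 := by exact_mod_cast h8
    have h10 : (2 : ℝ) ≤ ((G.perp A' ∩ P).card : ℝ) := by exact_mod_cast hr A' h2
    have h11 : (X.card : ℝ) ≤ G.cnt P π := by
      rw [hX]
      exact_mod_cast card_le_card (sdiff_subset (s := G.pl π ∩ P) (t := G.perp A))
    have h12 : (X.card : ℝ) / q ≤ ((G.perp A' ∩ P).card : ℝ) / 8 := by
      rw [div_le_iff₀ hq0]
      have := hc A' h2 π h4
      linarith
    exact pow_le_pow_left₀ (by positivity) (by linarith) 2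
  have h2 : (N : Set (Finset Pt)).PairwiseDisjoint fun A' => A'.erase π := by
    intro A1 hA1 A2 hA2 hne
    obtain ⟨a1, -, a3⟩ := hm A1 hA1
    obtain ⟨b1, -, b3⟩ := hm A2 hA2
    refine disjoint_left.2 fun b hb hb' => hne ?_
    exact G.lines_eq_of_two (hL a1) (hL b1) (ne_of_mem_erase hb) (mem_of_mem_erase hb) a3
      (mem_of_mem_erase hb') b3
  have h3 := sum_le_sum h1
  rw [← sum_biUnion h2] at h3
  have h4 := h3.trans ((sum_le_sum_of_subset_of_nonneg (subset_univ _)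
    fun b _ _ => sq_nonneg _).trans (G.mix_cnt X))
  have h5 : ∑ A' ∈ N, (q : ℝ) * (3 / 8 * ((G.perp A' ∩ P).card : ℝ)) ^ 2 =
      q * (9 / 64 * ∑ A' ∈ N, ((G.perp A' ∩ P).card : ℝ) ^ 2) := by
    rw [mul_sum, mul_sum]
    exact sum_congr rfl fun A' _ => by ring
  rw [h5, sq, mul_assoc] at h4
  have h6 := le_of_mul_le_mul_left h4 hq0
  have h7 : (0 : ℝ) ≤ q * X.card := by positivity
  linarith

/-- the hairbrush of one line -/
theorem Hair_brush {P : Finset Pt} {L : Finset (Finset Pt)} (hL : L ⊆ G.lines)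
    (hr : ∀ A' ∈ L, 2 ≤ (G.perp A' ∩ P).card)
    (hc : ∀ A' ∈ L, ∀ b ∈ A', (G.cnt P b : ℝ) ≤ q * ((G.perp A' ∩ P).card : ℝ) / 8)
    {A : Finset Pt} (hA : A ∈ G.lines) :
    ∑ A' ∈ L, ind (G.Hair_R A A') * ((G.perp A' ∩ P).card : ℝ) ^ 2 ≤ 8 * q * (P.card : ℝ) := by
  have h1 : ∑ A' ∈ L, ind (G.Hair_R A A') * ((G.perp A' ∩ P).card : ℝ) ^ 2 ≤
      ∑ A' ∈ L, ∑ π ∈ A, ind (A' ≠ A ∧ π ∈ A') * ((G.perp A' ∩ P).card : ℝ) ^ 2 := by
    refine sum_le_sum fun A' hA' => ?_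
    have h2 : ∀ π ∈ A, 0 ≤ ind (A' ≠ A ∧ π ∈ A') * ((G.perp A' ∩ P).card : ℝ) ^ 2 :=
      fun π _ => mul_nonneg (ind_nonneg _) (sq_nonneg _)
    by_cases hR : G.Hair_R A A'
    · obtain ⟨a, ha⟩ := hR.2
      rw [mem_inter] at ha
      have h3 := G.card_inter_lines hA (hL hA') hR.1.symm ha.1 ha.2
      obtain ⟨π, hπ⟩ : (A ∩ A').Nonempty := card_pos.1 (by omega)
      rw [mem_inter] at hπ
      have h4 := single_le_sum h2 hπ.1
      rw [ind_pos ⟨hR.1, hπ.2⟩] at h4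
      rw [ind_pos hR]
      exact h4
    · rw [ind_neg hR, zero_mul]
      exact sum_nonneg h2
  rw [sum_comm] at h1
  have h2 : ∑ π ∈ A, ∑ A' ∈ L, ind (A' ≠ A ∧ π ∈ A') * ((G.perp A' ∩ P).card : ℝ) ^ 2 ≤
      ∑ π ∈ A, 8 * q * (((G.pl π ∩ P) \ G.perp A).card : ℝ) := by
    refine sum_le_sum fun π _ => ?_
    rw [← Hair_sel L (fun A' => A' ≠ A ∧ π ∈ A') fun A' => ((G.perp A' ∩ P).card : ℝ) ^ 2]
    exact G.Hair_plane hL hr hc hA π
  have h3 : (A : Set Pt).PairwiseDisjoint fun π => (G.pl π ∩ P) \ G.perp A := by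
    intro π hπ π' hπ' hne
    refine disjoint_left.2 fun z hz hz' => ?_
    rw [mem_sdiff, mem_inter] at hz hz'
    apply hz.2
    rw [G.perp_eq hA hπ hπ' hne]
    exact mem_inter.2 ⟨hz.1.1, hz'.1.1⟩
  have h4 : ∑ π ∈ A, ((G.pl π ∩ P) \ G.perp A).card ≤ P.card := by
    rw [← card_biUnion h3]
    refine card_le_card fun z hz => ?_
    obtain ⟨π, -, h5⟩ := mem_biUnion.1 hz
    exact (mem_inter.1 (mem_sdiff.1 h5).1).2
  have h5 : ∑ π ∈ A, (((G.pl π ∩ P) \ G.perp A).card : ℝ) ≤ P.card := by exact_mod_cast h4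
  rw [← mul_sum] at h2
  exact h1.trans (h2.trans (mul_le_mul_of_nonneg_left h5 (by positivity)))

/-- group the points by the pencil -/
theorem Hair_Wr (P : Finset Pt) (d0 : ℝ) (a : Pt) :
    G.Wr P d0 a ≤ ∑ A ∈ selIn G.lines (fun A => d0 ≤ eta q P * (G.perp A ∩ P).card ∧
      ∀ b ∈ A, (G.cnt P b : ℝ) < d0 * P.card / 8),
      if a ∈ G.perp A then eta q P * (G.perp A ∩ P).card *
        (min 1 (eta q P * (G.perp A ∩ P).card)) ^ 2 else 0 := by
  have hη : 0 ≤ eta q P := by unfold eta; positivity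
  unfold Wr
  obtain ⟨S, hS⟩ : ∃ S, S = selIn (P.erase a) (fun y => d0 ≤ G.dl P a y ∧
    ∀ b ∈ G.pl a ∩ G.pl y, (G.cnt P b : ℝ) < d0 * P.card / 8) := ⟨_, rfl⟩
  obtain ⟨L, hL⟩ : ∃ L, L = selIn G.lines (fun A => d0 ≤ eta q P * (G.perp A ∩ P).card ∧
      ∀ b ∈ A, (G.cnt P b : ℝ) < d0 * P.card / 8) := ⟨_, rfl⟩
  rw [← hS, ← hL]
  have hmap : ∀ y ∈ S, G.pl a ∩ G.pl y ∈ L := by
    intro y hy
    rw [hS, mem_selIn] at hy
    rw [hL, mem_selIn]
    exact ⟨G.inter_mem_lines (ne_of_mem_erase hy.1).symm, hy.2.1, hy.2.2⟩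
  rw [← sum_fiberwise_of_maps_to hmap, mul_sum]
  refine sum_le_sum fun A _ => ?_
  have h1 : ∑ y ∈ S with G.pl a ∩ G.pl y = A, (min 1 (G.dl P a y)) ^ 2 =
      ((S.filter fun y => G.pl a ∩ G.pl y = A).card : ℝ) *
        (min 1 (eta q P * (G.perp A ∩ P).card)) ^ 2 := by
    rw [← nsmul_eq_mul, ← sum_const]
    refine sum_congr rfl fun y hy => ?_
    rw [← (mem_filter.1 hy).2]
    rfl
  rw [h1]
  by_cases ha : a ∈ G.perp A
  · rw [if_pos ha, mul_assoc]
    refine mul_le_mul_of_nonneg_left (mul_le_mul_of_nonneg_right ?_ (sq_nonneg _)) hη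
    refine Nat.cast_le.2 (card_le_card fun y hy => ?_)
    rw [mem_filter, hS, mem_selIn] at hy
    refine mem_inter.2 ⟨G.mem_perp.2 ?_, mem_of_mem_erase hy.1.1⟩
    rw [← hy.2]
    exact inter_subset_right
  · have h2 : (S.filter fun y => G.pl a ∩ G.pl y = A) = ∅ := by
      refine filter_eq_empty_iff.2 fun y _ h => ha (G.mem_perp.2 ?_)
      rw [← h]
      exact inter_subset_left
    rw [if_neg ha, h2]
    simp

theorem Hair_min1 {s t : ℝ} (ht : 0 ≤ t) (h : t ≤ s) :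
    (min 1 s) ^ 3 * (min 1 t) ^ 3 ≤ s * (min 1 s) ^ 3 * t ^ 2 := by
  have h1 : 0 ≤ min 1 t := le_min zero_le_one ht
  have h2 : min 1 t ≤ t := min_le_right _ _
  have h3 : 0 ≤ min 1 s := le_min zero_le_one (ht.trans h)
  have h4 : (min 1 t) ^ 3 ≤ s * t ^ 2 := by
    calc (min 1 t) ^ 3 ≤ t ^ 3 := pow_le_pow_left₀ h1 h2 3
      _ = t * t ^ 2 := by ring
      _ ≤ s * t ^ 2 := mul_le_mul_of_nonneg_right h (sq_nonneg t)
  calc (min 1 s) ^ 3 * (min 1 t) ^ 3 ≤ (min 1 s) ^ 3 * (s * t ^ 2) :=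
        mul_le_mul_of_nonneg_left h4 (pow_nonneg h3 3)
    _ = _ := by ring

theorem Hair_min2 {s t : ℝ} (ht : 0 ≤ t) (h : t ≤ s) :
    s * (min 1 s) ^ 2 * (t * (min 1 t) ^ 2) ≤ s * (min 1 s) ^ 3 * t ^ 2 := by
  have h1 : 0 ≤ min 1 t := le_min zero_le_one ht
  have h2 : min 1 t ≤ t := min_le_right _ _
  have h3 : 0 ≤ min 1 s := le_min zero_le_one (ht.trans h)
  have h4 : min 1 t ≤ min 1 s := min_le_min_left _ h
  have h5 : min 1 t * min 1 t ≤ min 1 s * t := mul_le_mul h4 h2 h1 h3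
  have h6 : 0 ≤ s * (min 1 s) ^ 2 * t := mul_nonneg (mul_nonneg (ht.trans h) (sq_nonneg _)) ht
  calc s * (min 1 s) ^ 2 * (t * (min 1 t) ^ 2)
      = s * (min 1 s) ^ 2 * t * (min 1 t * min 1 t) := by ring
    _ ≤ s * (min 1 s) ^ 2 * t * (min 1 s * t) := mul_le_mul_of_nonneg_left h5 h6
    _ = _ := by ring

/-- Let `Ls` be the pencils `A ∈ lines` with `δ A = eta * |perp A ∩ P| ≥ d0` all of whose planes
have `cnt < d0 n / 8`; `μ = min 1 δ`, `r = |perp A ∩ P| ≥ 2`. Grouping `y` by the pencil,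
`Wr a ≤ ∑ A ∈ Ls with a ∈ perp A, δ μ^2`.
(1) For `A ∈ Ls`: `∑ A' ∈ Ls, A' ≠ A, perp A ∩ perp A' ≠ ∅, δ'^2 ≤ 8 q σ`: such `A'` shares a plane
`π ∈ A` (`card_inter_lines`); `X π = P ∩ pl π \ perp A` are disjoint for `π ∈ A`; each `A' ∋ π`
gives the `q` planes `b ∈ A' \ {π}` with `cnt (X π) b ≥ r' - 1 ≥ r'/2`, `|X π| / q ≤ r'/8`, and
different `A'` give different `b`; `mix_cnt` gives `q ∑ (3 r'/8)^2 ≤ q^2 |X π|`.
(2) For `δ' ≤ δ`: `μ^3 μ'^3 ≤ δ μ^3 δ'^2` and `(δ μ^2)(δ' μ'^2) ≤ δ μ^3 δ'^2`.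
(3) `A0 = ∑ Ls δ μ^3`; Cauchy-Schwarz over `y ∈ P` for `∑ A ∋ y, μ^3` (two lines share at most one
point, `lines_eq_of_two` for the perps): `(n/q)^2 A0^2 ≤ n ((n/q) A0 + 16 q σ A0)`, so
`A0 ≤ q + 16 q σ^2 ≤ 17 q σ^2`.
(4) `∑ a, Wr a ^ 2 ≤ (q+1) ∑ δ^2 μ^4 + 16 q σ A0 ≤ (4 q σ + 16 q σ) A0` since `δ ≤ 2 σ`. -/
theorem hair {P : Finset Pt} (hP : P.Nonempty) (hn : P.card ≤ q ^ 2) {d0 : ℝ}
    (hd : 2 * eta q P ≤ d0) :
    ∑ a, G.Wr P d0 a ^ 2 ≤ 340 * (q : ℝ) ^ 2 * sig q P ^ 3 := by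
  have hq : (2 : ℝ) ≤ q := by exact_mod_cast G.two_le
  have hq0 : (0 : ℝ) < q := by linarith
  have hn0 : (0 : ℝ) < P.card := by exact_mod_cast hP.card_pos
  have hn' : (P.card : ℝ) ≤ (q : ℝ) ^ 2 := by exact_mod_cast hn
  have hW := G.Hair_Wr P d0
  have hW0 : ∀ a, 0 ≤ G.Wr P d0 a := fun a => by
    unfold Wr eta
    exact mul_nonneg (by positivity) (sum_nonneg fun y _ => sq_nonneg _)
  have hη : 0 < eta q P := div_pos hq0 hn0
  have hηn : eta q P * P.card = q := div_mul_cancel₀ _ hn0.ne'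
  have hσ : sig q P = eta q P * q := by
    unfold sig eta
    ring
  have hσ1 : 1 ≤ sig q P := by
    unfold sig
    rw [le_div_iff₀ hn0]
    linarith
  obtain ⟨L, hL⟩ : ∃ L, L = selIn G.lines (fun A => d0 ≤ eta q P * (G.perp A ∩ P).card ∧
      ∀ b ∈ A, (G.cnt P b : ℝ) < d0 * P.card / 8) := ⟨_, rfl⟩
  rw [← hL] at hW
  have hLl : L ⊆ G.lines := hL ▸ selIn_subset _ _
  have hm : ∀ A ∈ L, d0 ≤ eta q P * (G.perp A ∩ P).card ∧
      ∀ b ∈ A, (G.cnt P b : ℝ) < d0 * P.card / 8 := fun A h => by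
    rw [hL] at h
    exact (mem_selIn.1 h).2
  generalize eta q P = η at *
  generalize sig q P = σ at *
  have hr : ∀ A ∈ L, 2 ≤ (G.perp A ∩ P).card := by
    intro A hA
    have h1 : η * 2 ≤ η * (G.perp A ∩ P).card := by linarith [(hm A hA).1]
    exact_mod_cast le_of_mul_le_mul_left h1 hη
  have hc : ∀ A ∈ L, ∀ b ∈ A, (G.cnt P b : ℝ) ≤ q * ((G.perp A ∩ P).card : ℝ) / 8 := by
    intro A hA b hb
    have h1 := mul_le_mul_of_nonneg_right (hm A hA).1 hn0.le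
    have h2 : η * (G.perp A ∩ P).card * P.card = q * ((G.perp A ∩ P).card : ℝ) := by
      rw [← hηn]
      ring
    linarith [(hm A hA).2 b hb]
  obtain ⟨δ, hδ⟩ : ∃ δ : Finset Pt → ℝ, ∀ A, δ A = η * (G.perp A ∩ P).card := ⟨_, fun _ => rfl⟩
  simp only [← hδ] at hW
  have hδ0 : ∀ A, 0 ≤ δ A := fun A => by rw [hδ]; positivity
  have hμ0 : ∀ A, 0 ≤ min 1 (δ A) := fun A => le_min zero_le_one (hδ0 A)
  have hK : ∀ A ∈ L, ∑ A' ∈ L, ind (G.Hair_R A A') * δ A' ^ 2 ≤ 8 * q * σ := by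
    intro A hA
    have h1 := mul_le_mul_of_nonneg_left (G.Hair_brush hLl hr hc (hLl hA)) (sq_nonneg η)
    rw [mul_sum] at h1
    have h2 : η ^ 2 * (8 * q * (P.card : ℝ)) = 8 * q * σ := by
      rw [hσ]
      calc η ^ 2 * (8 * q * (P.card : ℝ)) = 8 * q * (η * (η * P.card)) := by ring
        _ = _ := by rw [hηn]
    rw [h2] at h1
    refine le_trans (le_of_eq (sum_congr rfl fun A' _ => ?_)) h1
    rw [hδ]
    ring
  have hw0 : ∀ A, 0 ≤ δ A * (min 1 (δ A)) ^ 3 := fun A => mul_nonneg (hδ0 A) (pow_nonneg (hμ0 A) 3)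
  obtain ⟨A0, hA0⟩ : ∃ A0, A0 = ∑ A ∈ L, δ A * (min 1 (δ A)) ^ 3 := ⟨_, rfl⟩
  have hA00 : 0 ≤ A0 := hA0 ▸ sum_nonneg fun A _ => hw0 A
  have hp1 := G.Hair_pairs (fun A => (min 1 (δ A)) ^ 3) (fun A => δ A * (min 1 (δ A)) ^ 3) δ hw0
    (fun A A' h => Hair_min1 (hδ0 A') h) hK
  have hp2 := G.Hair_pairs (fun A => δ A * (min 1 (δ A)) ^ 2) (fun A => δ A * (min 1 (δ A)) ^ 3) δ
    hw0 (fun A A' h => Hair_min2 (hδ0 A') h) hK
  rw [← hA0] at hp1 hp2
  have hs1 := G.Hair_sq hLl (fun A => (min 1 (δ A)) ^ 3) (fun A => pow_nonneg (hμ0 A) 3) P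
  have hs2 := G.Hair_sq hLl (fun A => δ A * (min 1 (δ A)) ^ 2)
    (fun A => mul_nonneg (hδ0 A) (sq_nonneg _)) univ
  have hA17 : A0 ≤ 17 * q * σ ^ 2 := by
    have h1 : η * ∑ y ∈ P, ∑ A ∈ L, (if y ∈ G.perp A then (min 1 (δ A)) ^ 3 else 0) = A0 := by
      rw [sum_comm, hA0, mul_sum]
      refine sum_congr rfl fun A _ => ?_
      rw [Hair_cnt]
      calc η * ((min 1 (δ A)) ^ 3 * ((G.perp A ∩ P).card : ℝ))
          = η * ((G.perp A ∩ P).card : ℝ) * (min 1 (δ A)) ^ 3 := by ring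
        _ = _ := by rw [← hδ]
    have h2 : η * ∑ A ∈ L, ((min 1 (δ A)) ^ 3) ^ 2 * ((G.perp A ∩ P).card : ℝ) ≤ A0 := by
      rw [hA0, mul_sum]
      refine sum_le_sum fun A _ => ?_
      have h3 : (min 1 (δ A)) ^ 3 ≤ 1 := pow_le_one₀ (hμ0 A) (min_le_left _ _)
      calc η * (((min 1 (δ A)) ^ 3) ^ 2 * ((G.perp A ∩ P).card : ℝ))
          = η * ((G.perp A ∩ P).card : ℝ) * (min 1 (δ A)) ^ 3 * (min 1 (δ A)) ^ 3 := by ring
        _ = δ A * (min 1 (δ A)) ^ 3 * (min 1 (δ A)) ^ 3 := by rw [← hδ]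
        _ ≤ δ A * (min 1 (δ A)) ^ 3 * 1 := mul_le_mul_of_nonneg_left h3 (hw0 A)
        _ = _ := mul_one _
    have h3 : (∑ y ∈ P, ∑ A ∈ L, (if y ∈ G.perp A then (min 1 (δ A)) ^ 3 else 0)) ^ 2 ≤
        P.card * ∑ y ∈ P, (∑ A ∈ L, (if y ∈ G.perp A then (min 1 (δ A)) ^ 3 else 0)) ^ 2 :=
      sq_sum_le_card_mul_sum_sq
    have h4 := h3.trans (mul_le_mul_of_nonneg_left (hs1.trans (add_le_add le_rfl hp1)) hn0.le)
    generalize ∑ y ∈ P, ∑ A ∈ L, (if y ∈ G.perp A then (min 1 (δ A)) ^ 3 else 0) = S at h1 h4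
    generalize ∑ A ∈ L, ((min 1 (δ A)) ^ 3) ^ 2 * ((G.perp A ∩ P).card : ℝ) = D at h2 h4
    have h5 : A0 * A0 ≤ (q + 16 * q * σ ^ 2) * A0 := by
      calc A0 * A0 = η ^ 2 * S ^ 2 := by rw [← h1]; ring
        _ ≤ η ^ 2 * (P.card * (D + 2 * (8 * q * σ) * A0)) :=
          mul_le_mul_of_nonneg_left h4 (sq_nonneg η)
        _ = η * P.card * (η * D) + η * (η * P.card) * (16 * q * σ * A0) := by ring
        _ = q * (η * D) + σ * (16 * q * σ * A0) := by rw [hηn, ← hσ]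
        _ ≤ q * A0 + σ * (16 * q * σ * A0) :=
          add_le_add (mul_le_mul_of_nonneg_left h2 hq0.le) le_rfl
        _ = _ := by ring
    have h6 : (q : ℝ) * 1 ≤ q * σ ^ 2 := mul_le_mul_of_nonneg_left (one_le_pow₀ hσ1) hq0.le
    rcases hA00.eq_or_lt with h0 | h0
    · rw [← h0]
      positivity
    · have := le_of_mul_le_mul_right h5 h0
      linarith
  have h1 : ∑ a, G.Wr P d0 a ^ 2 ≤
      ∑ a, (∑ A ∈ L, if a ∈ G.perp A then δ A * (min 1 (δ A)) ^ 2 else 0) ^ 2 :=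
    sum_le_sum fun a _ => pow_le_pow_left₀ (hW0 a) (hW a) 2
  have h2 : ∑ A ∈ L, (δ A * (min 1 (δ A)) ^ 2) ^ 2 * ((G.perp A ∩ univ).card : ℝ) ≤
      4 * q * σ * A0 := by
    rw [hA0, mul_sum]
    refine sum_le_sum fun A hA => ?_
    have h3 : ((G.perp A).card : ℝ) ≤ 2 * q := by
      rw [G.card_perp (hLl hA)]
      push_cast
      linarith
    have h4 : ((G.perp A ∩ P).card : ℝ) ≤ 2 * q :=
      le_trans (Nat.cast_le.2 (card_le_card inter_subset_left)) h3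
    have h5 : δ A ≤ 2 * σ := by
      rw [hδ, hσ]
      have := mul_le_mul_of_nonneg_left h4 hη.le
      linarith
    have h6 : δ A * min 1 (δ A) ≤ 2 * σ * 1 :=
      mul_le_mul h5 (min_le_left _ _) (hμ0 A) (by linarith)
    have h7 : δ A * min 1 (δ A) * ((G.perp A).card : ℝ) ≤ 2 * σ * 1 * (2 * q) :=
      mul_le_mul h6 h3 (Nat.cast_nonneg _) (by linarith)
    rw [inter_univ]
    calc (δ A * (min 1 (δ A)) ^ 2) ^ 2 * ((G.perp A).card : ℝ)
        = δ A * min 1 (δ A) * ((G.perp A).card : ℝ) * (δ A * (min 1 (δ A)) ^ 3) := by ring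
      _ ≤ 2 * σ * 1 * (2 * q) * (δ A * (min 1 (δ A)) ^ 3) :=
        mul_le_mul_of_nonneg_right h7 (hw0 A)
      _ = _ := by ring
  calc ∑ a, G.Wr P d0 a ^ 2 ≤ 4 * q * σ * A0 + 2 * (8 * q * σ) * A0 :=
        h1.trans (hs2.trans (add_le_add h2 hp2))
    _ = 20 * q * σ * A0 := by ring
    _ ≤ 20 * q * σ * (17 * q * σ ^ 2) :=
        mul_le_mul_of_nonneg_left hA17 (by positivity)
    _ = _ := by ring

end PG
end Pool.Agent.Work.MP_e10cd8_co.Four
end

-- merged part: Pool.Agent.Work.MP_e10cd8_co.Four.PlanA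
section
/-! The planar statistic at one test plane (paper 5.4). `Y` is the sampled set of planes. -/

namespace Pool.Agent.Work.MP_e10cd8_co.Four
namespace PG
open Finset

variable {q : ℕ} {Pt : Type} [Fintype Pt] [DecidableEq Pt] (G : PG q Pt)

/-- the planar statistic -/
noncomputable def Spl (c : ℕ) (π : Pt) (y : ℕ) (b : Pt) (T : Finset (ℕ × Pt)) : ℝ :=
  ∑ x ∈ G.pl b ∩ G.pl π, xi c ((1 - (q : ℝ) / y) ^ (y / q)) T
    (G.pen (G.pl b ∩ G.pl π) x) (G.pen (G.pl b ∩ G.pl π) x)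

/-- the weight of the low points on the trace of `b` -/
noncomputable def Apl (c : ℕ) (π : Pt) (Y : Finset Pt) (b : Pt) : ℝ :=
  ∑ x ∈ G.pl b ∩ (G.low (1 / 4) Y ∩ G.pl π), (1 - eta q Y) ^ (c * G.cnt Y x)

theorem mem_decP {c : ℕ} {π : Pt} {y v : ℕ} {T : Finset (ℕ × Pt)} {b : Pt} :
    b ∈ G.decP c π y v T ↔ b ≠ π ∧ G.Spl c π y b T < v := by
  simp [decP, Spl]

theorem PlanA_eta {w : ℝ} {c : ℕ} (hp : Par q w c) {Y : Finset Pt}
    (hY : 4 * (c + 4) * (q * (q + 1)) ≤ Y.card) :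
    Y.Nonempty ∧ 0 ≤ eta q Y ∧ eta q Y * c * (q + 1) ≤ 1 / 4 ∧ eta q Y * (q + 1) ≤ 1 / 20 ∧
      eta q Y ≤ 1 / 20 ∧ 1 - eta q Y ≤ eta q Y * (Y.card / q : ℕ) ∧
      eta q Y * (Y.card / q : ℕ) ≤ 1 := by
  have q0 : 0 < q := lt_of_lt_of_le (by norm_num) hp.thousand_le_q
  have hne : Y.Nonempty := card_pos.1 (lt_of_lt_of_le (by positivity) hY)
  have y0 : (0 : ℝ) < Y.card := by exact_mod_cast hne.card_pos
  have e0 := (eta_pos q0 hne).le
  have e1 := eta_mul_card (q := q) hne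
  have c0 : (1000 : ℝ) ≤ c := by exact_mod_cast hp.le_c
  have h1 : 4 * ((c : ℝ) + 4) * (q * (q + 1)) ≤ Y.card := by exact_mod_cast hY
  have h2 : eta q Y * (q + 1) * (4 * (c + 4)) ≤ 1 := by
    refine le_of_mul_le_mul_right ?_ y0
    calc _ = eta q Y * Y.card * ((q + 1) * (4 * (c + 4))) := by ring
      _ ≤ _ := by rw [e1]; linarith
  have h3 : 0 ≤ eta q Y * (q + 1) := by positivity
  have h4 := mul_le_mul_of_nonneg_left c0 h3
  have h5 : 0 ≤ eta q Y * q := by positivity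
  have h6 : (q : ℝ) * (Y.card / q : ℕ) ≤ Y.card := by exact_mod_cast Nat.mul_div_le Y.card q
  have h7 : (Y.card : ℝ) ≤ q * ((Y.card / q : ℕ) + 1) := by
    exact_mod_cast (Nat.lt_mul_div_succ Y.card q0).le
  refine ⟨hne, e0, by linarith, by linarith, by linarith, le_of_mul_le_mul_right ?_ y0,
    le_of_mul_le_mul_right ?_ y0⟩
  · calc _ = Y.card - eta q Y * Y.card := by ring
      _ ≤ eta q Y * Y.card * (Y.card / q : ℕ) := by rw [e1]; linarith
      _ = _ := by ring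
  · calc _ = eta q Y * Y.card * (Y.card / q : ℕ) := by ring
      _ ≤ _ := by rw [e1]; linarith

theorem PlanA_m {l : Finset Pt} (hl : l ∈ G.lines) (Y : Finset Pt) (x : Pt) :
    (G.pen l x ∩ Y).card ≤ G.cnt Y x ∧ G.cnt Y x ≤ (G.pen l x ∩ Y).card + (q + 1) := by
  refine ⟨card_le_card (inter_subset_inter_right (selIn_subset _ _)), ?_⟩
  rw [← G.card_perp hl]
  refine le_trans (card_le_card fun z hz => ?_) (card_union_le _ _)
  by_cases h : l ⊆ G.pl z
  · exact mem_union_right _ (G.mem_perp.2 h)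
  · exact mem_union_left _ (mem_inter.2 ⟨mem_selIn.2 ⟨(mem_inter.1 hz).1, h⟩, (mem_inter.1 hz).2⟩)

theorem PlanA_mean (c : ℕ) (Y : Finset Pt) (π b : Pt) :
    Ex (eta q Y) (range (c + 4) ×ˢ Y) (G.Spl c π Y.card b) =
      ∑ x ∈ G.pl b ∩ G.pl π, (1 - eta q Y) ^ (c * (G.pen (G.pl b ∩ G.pl π) x ∩ Y).card) *
        ((1 - eta q Y) ^ (G.pen (G.pl b ∩ G.pl π) x ∩ Y).card - (1 - eta q Y) ^ (Y.card / q)) ^ 4 :=
  (Ex_sum _ _).trans (sum_congr rfl fun _ _ => Ex_xi _ _ _ _ _)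

theorem PlanA_apl (c : ℕ) (π : Pt) (Y : Finset Pt) (b : Pt) :
    G.Apl c π Y b = ∑ x ∈ G.pl b ∩ G.pl π,
      if x ∈ G.low (1 / 4) Y then (1 - eta q Y) ^ (c * G.cnt Y x) else 0 := by
  rw [sum_ite_mem, Apl, inter_comm (G.low (1 / 4) Y), inter_assoc]

theorem PlanA_low {w : ℝ} {c : ℕ} (hp : Par q w c) {Y : Finset Pt}
    (hY : 4 * (c + 4) * (q * (q + 1)) ≤ Y.card) {m n : ℕ} (h : n ≤ m + (q + 1)) :
    (1 - eta q Y) ^ (c * m) ≤ 2 * (1 - eta q Y) ^ (c * n) := by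
  obtain ⟨-, e0, e1, -, e3, -⟩ := PlanA_eta hp hY
  have b0 : 0 ≤ 1 - eta q Y := by linarith
  have h1 := pow_le_pow_of_le_one b0 (by linarith) (Nat.mul_le_mul_left c h)
  have h2 := one_add_mul_le_pow (a := -eta q Y) (by linarith) (c * (q + 1))
  rw [← sub_eq_add_neg] at h2
  push_cast at h2
  rw [mul_add, pow_add] at h1
  have h3 := mul_le_mul_of_nonneg_left (show 1 / 2 ≤ (1 - eta q Y) ^ (c * (q + 1)) by linarith)
    (pow_nonneg b0 (c * m))
  linarith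

theorem PlanA_high {w : ℝ} {c : ℕ} (hp : Par q w c) {Y : Finset Pt}
    (hY : 4 * (c + 4) * (q * (q + 1)) ≤ Y.card) {x : Pt} (hx : x ∉ G.low (1 / 4) Y) {m : ℕ}
    (h : G.cnt Y x ≤ m + (q + 1)) : (1 - eta q Y) ^ (c * m) ≤ 1 / w ^ 20 * G.om Y x := by
  obtain ⟨hne, e0, -, e2, e3, -⟩ := PlanA_eta hp hY
  have b0 : 0 ≤ 1 - eta q Y := by linarith
  have h1 : (G.cnt Y x : ℝ) ≤ m + (q + 1) := by exact_mod_cast h
  have h2 := mul_le_mul_of_nonneg_left h1 e0
  have h3 := G.damp hne (by linarith) (c := c) (le_trans (by norm_num) hp.le_c) hx (N := m)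
    (by rw [tb]; linarith)
  refine le_trans (Real.le_sqrt_of_sq_le ?_)
    (h3.trans (mul_le_mul_of_nonneg_right hp.exp20 (G.om_nonneg Y x)))
  rw [sq]
  exact mul_le_of_le_one_left (pow_nonneg b0 _) (pow_le_one₀ b0 (by linarith))

/-- `l = pl b ∩ pl π`, `m' x = |pen l x ∩ Y|` lies between `cnt Y x - (q+1)` and `cnt Y x` (planes
containing `l` form `perp l`). `Ex_xi`; for low `x`: `β^m' ≥ 3/4`, `γ = β^(y/q) ≤ 5/8`; all terms
are nonnegative. -/
theorem pl_mean_lower {w : ℝ} {c : ℕ} (hp : Par q w c) {Y : Finset Pt}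
    (hY : 4 * (c + 4) * (q * (q + 1)) ≤ Y.card) {π b : Pt} (hb : b ≠ π) :
    G.Apl c π Y b / 2 ^ 12 ≤ Ex (eta q Y) (range (c + 4) ×ˢ Y) (G.Spl c π Y.card b) := by
  obtain ⟨hne, e0, -, -, e3, e4, -⟩ := PlanA_eta hp hY
  have b0 : 0 ≤ 1 - eta q Y := by linarith
  have g : (1 - eta q Y) ^ (Y.card / q) ≤ 5 / 8 := by
    refine (one_sub_pow_le_exp (by linarith) _).trans ?_
    have := Real.add_one_le_exp (eta q Y * (Y.card / q : ℕ))
    rw [Real.exp_neg, inv_le_comm₀ (Real.exp_pos _) (by norm_num)]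
    linarith
  rw [PlanA_mean, PlanA_apl, sum_div]
  refine sum_le_sum fun x _ => ?_
  split_ifs with hx
  · have h1 := (G.PlanA_m (G.inter_mem_lines hb) Y x).1
    have h2 := (G.mem_low_iff_tb hne).1 hx
    generalize (G.pen (G.pl b ∩ G.pl π) x ∩ Y).card = m at h1
    have h3 : (m : ℝ) ≤ G.cnt Y x := by exact_mod_cast h1
    have h4 := mul_le_mul_of_nonneg_left h3 e0
    have h5 := one_add_mul_le_pow (a := -eta q Y) (by linarith) m
    rw [← sub_eq_add_neg] at h5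
    rw [tb] at h2
    have h6 := pow_le_pow_left₀ (by norm_num)
      (show 1 / 8 ≤ (1 - eta q Y) ^ m - (1 - eta q Y) ^ (Y.card / q) by linarith) 4
    rw [div_eq_mul_one_div]
    exact mul_le_mul (pow_le_pow_of_le_one b0 (by linarith) (Nat.mul_le_mul_left c h1))
      (le_trans (by norm_num) h6) (by norm_num) (pow_nonneg b0 _)
  · rw [zero_div]
    exact mul_nonneg (pow_nonneg b0 _) (Even.pow_nonneg (by norm_num) _)

/-- low `x`: `β^(c m') ≤ 2 β^(c cnt)`; other `x`: `damp`, and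
`|β^m' - γ| ≤ min 1 (|tb - 1| + η (q+2))` by `abs_pow_sub_pow_le` -/
theorem pl_mean_upper {w : ℝ} {c : ℕ} (hp : Par q w c) {Y : Finset Pt}
    (hY : 4 * (c + 4) * (q * (q + 1)) ≤ Y.card) {π b : Pt} (hb : b ≠ π) :
    Ex (eta q Y) (range (c + 4) ×ˢ Y) (G.Spl c π Y.card b) ≤ 2 * G.Apl c π Y b +
      1 / w ^ 20 * ∑ x ∈ G.pl b ∩ G.pl π,
        G.om Y x * (2 * G.gb Y x ^ 2 + 2 * (eta q Y * (q + 2)) ^ 2) := by
  obtain ⟨-, e0, -, -, e3, e4, e5⟩ := PlanA_eta hp hY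
  have b0 : 0 ≤ 1 - eta q Y := by linarith
  have b1 : 1 - eta q Y ≤ 1 := by linarith
  have w0 : 0 ≤ 1 / w ^ 20 := one_div_nonneg.2 (pow_pos hp.w_pos _).le
  rw [PlanA_mean, PlanA_apl, mul_sum, mul_sum, ← sum_add_distrib]
  refine sum_le_sum fun x _ => ?_
  obtain ⟨h1, h2⟩ := G.PlanA_m (G.inter_mem_lines hb) Y x
  generalize (G.pen (G.pl b ∩ G.pl π) x ∩ Y).card = m at h1 h2
  have a1 : |(1 - eta q Y) ^ m - (1 - eta q Y) ^ (Y.card / q)| ≤ 1 :=
    abs_le.2 ⟨by linarith [pow_nonneg b0 m, pow_le_one₀ (n := Y.card / q) b0 b1],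
      by linarith [pow_nonneg b0 (Y.card / q), pow_le_one₀ (n := m) b0 b1]⟩
  have a2 := abs_pow_sub_pow_le e0 (by linarith) m (Y.card / q)
  generalize (1 - eta q Y) ^ m - (1 - eta q Y) ^ (Y.card / q) = z at a1 a2
  have a3 : z ^ 2 ≤ 1 := (sq_le_one_iff_abs_le_one z).2 a1
  have a4 : z ^ 4 ≤ z ^ 2 := by
    rw [show z ^ 4 = z ^ 2 * z ^ 2 by ring]
    exact mul_le_of_le_one_left (sq_nonneg z) a3
  split_ifs with hx
  · refine le_trans ?_ (le_add_of_nonneg_right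
      (mul_nonneg w0 (mul_nonneg (G.om_nonneg Y x) (by positivity))))
    exact (mul_le_of_le_one_right (pow_nonneg b0 _) (a4.trans a3)).trans (PlanA_low hp hY h2)
  · rw [mul_zero, zero_add, ← mul_assoc]
    refine mul_le_mul (G.PlanA_high hp hY hx h2) (a4.trans ?_) (Even.pow_nonneg (by norm_num) _)
      (mul_nonneg w0 (G.om_nonneg Y x))
    have k1 : (m : ℝ) ≤ G.cnt Y x := by exact_mod_cast h1
    have k2 : (G.cnt Y x : ℝ) ≤ m + (q + 1) := by exact_mod_cast h2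
    have k3 := mul_le_mul_of_nonneg_left k1 e0
    have k4 := mul_le_mul_of_nonneg_left k2 e0
    have k5 : 0 ≤ eta q Y * q := by positivity
    have k6 : |z| ≤ G.gb Y x + eta q Y * (q + 2) := by
      rw [gb, ← sub_le_iff_le_add]
      refine le_min (by linarith) (sub_le_iff_le_add.2 (a2.trans ?_))
      rw [← abs_of_nonneg e0, ← abs_mul, abs_of_nonneg e0, tb]
      have := le_abs_self (eta q Y * G.cnt Y x - 1)
      have := neg_abs_le (eta q Y * G.cnt Y x - 1)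
      exact abs_le.2 ⟨by linarith, by linarith⟩
    have k7 := pow_le_pow_left₀ (abs_nonneg z) k6 2
    rw [sq_abs] at k7
    linarith [sq_nonneg (G.gb Y x - eta q Y * (q + 2))]

/-- `bernstein` with the blocks `range (c+4) ×ˢ pen l x`, disjoint for different `x ∈ l`
(`line_subset_pl`); `xi_inter`, `abs_xi_le`, `Ex_kill` -/
theorem pl_tail {w : ℝ} {c : ℕ} (hp : Par q w c) {Y : Finset Pt}
    (hY : 4 * (c + 4) * (q * (q + 1)) ≤ Y.card) {π b : Pt} (hb : b ≠ π) {lam : ℝ}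
    (h0 : 0 ≤ lam) (h1 : lam ≤ 1 / 2) (t : ℝ) :
    Pr (eta q Y) (range (c + 4) ×ˢ Y) (fun T => t ≤
      |G.Spl c π Y.card b T - Ex (eta q Y) (range (c + 4) ×ˢ Y) (G.Spl c π Y.card b)|) ≤
      2 * Real.exp (-(lam * t) + lam ^ 2 * (2 * q * (1 / w ^ 20) + 2 * G.Apl c π Y b)) := by
  obtain ⟨-, e0, -, -, e3, -⟩ := PlanA_eta hp hY
  have b0 : 0 ≤ 1 - eta q Y := by linarith
  have b1 : 1 - eta q Y ≤ 1 := by linarith
  have w0 : 0 ≤ 1 / w ^ 20 := one_div_nonneg.2 (pow_pos hp.w_pos _).le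
  have hl := G.inter_mem_lines hb
  have hx : ∀ (T : Finset (ℕ × Pt)) (A : Finset Pt),
      |xi c ((1 - eta q Y) ^ (Y.card / q)) T A A| ≤ emp T (Ico 4 (c + 4) ×ˢ A) := fun T A =>
    abs_xi_le c (pow_nonneg b0 _) (pow_le_one₀ b0 b1) T A A
  have key := bernstein e0 (by linarith) (range (c + 4) ×ˢ Y) (G.pl b ∩ G.pl π)
    (fun x => range (c + 4) ×ˢ G.pen (G.pl b ∩ G.pl π) x) (fun x hx y hy e => ?_)
    (fun x T => xi c ((1 - eta q Y) ^ (Y.card / q)) T (G.pen (G.pl b ∩ G.pl π) x)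
      (G.pen (G.pl b ∩ G.pl π) x))
    (fun x _ T => xi_inter _ _ _ Subset.rfl Subset.rfl)
    (fun x _ T => (hx T _).trans (emp_le_one _ _))
    (V := 2 * q * (1 / w ^ 20) + 2 * G.Apl c π Y b) ?_ h0 h1 t
  · rw [← Ex_sum] at key
    exact key
  · refine disjoint_left.2 fun z h h' => ?_
    have k := mem_selIn.1 (mem_product.1 h).2
    exact k.2 (G.line_subset_pl hl e hx hy ((G.symm _ _).1 k.1)
      ((G.symm _ _).1 (mem_selIn.1 (mem_product.1 h').2).1))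
  · have k : ∑ _x ∈ G.pl b ∩ G.pl π, 1 / w ^ 20 ≤ 2 * q * (1 / w ^ 20) := by
      rw [sum_const, G.card_line hl, nsmul_eq_mul]
      have : (1000 : ℝ) ≤ q := by exact_mod_cast hp.thousand_le_q
      exact mul_le_mul_of_nonneg_right (by push_cast; linarith) w0
    refine le_trans ?_ (add_le_add_left k _)
    rw [PlanA_apl, mul_sum, ← sum_add_distrib]
    refine sum_le_sum fun x _ => ?_
    refine (Ex_mono e0 (by linarith) (g := fun T =>
      emp T (Ico 4 (c + 4) ×ˢ G.pen (G.pl b ∩ G.pl π) x)) fun T _ => ?_).trans ?_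
    · rw [← sq_abs, sq]
      exact (mul_le_of_le_one_left (abs_nonneg _) ((hx T _).trans (emp_le_one _ _))).trans (hx T _)
    rw [Ex_kill]
    have h2 := (G.PlanA_m hl Y x).2
    split_ifs with h
    · exact (PlanA_low hp hY h2).trans (le_add_of_nonneg_left w0)
    · rw [mul_zero, add_zero]
      exact (G.PlanA_high hp hY h h2).trans (mul_le_of_le_one_right w0 (G.om_le_one Y x))

end PG
end Pool.Agent.Work.MP_e10cd8_co.Four
end

-- merged part: Pool.Agent.Work.MP_e10cd8_co.Exact.XDefs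
section
/-!
Definitions for the exact order. Paper: team store file h81_e10cd8_exact.md.
-/

namespace Pool.Agent.Work.MP_e10cd8_co.Four

open Finset

noncomputable section

/-- side conditions of the reconstruction of small sets; no bound of `log q` by `w` -/
structure Par0 (q : ℕ) (w : ℝ) (c : ℕ) : Prop where
  hw : (2 : ℝ) ^ 30 ≤ w
  hc1 : 2 ^ 23 * Real.log w ≤ c
  hc2 : (c : ℝ) ≤ 2 ^ 23 * Real.log w + 1
  hq : w ^ 100 ≤ q
  hL : Real.log q ^ 20 ≤ q

/-- side conditions of the final count -/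
structure XPar (q D k : ℕ) : Prop where
  hq : 1000 ≤ q
  hbig : (2 ^ 36 * Real.log q ^ 2) ^ 100 ≤ q
  hD1 : (D : ℝ) ^ 2 ≤ Real.log q
  hD2 : Real.log q ≤ 4 * (D : ℝ) ^ 2
  hD3 : 10 ^ 9 * (Real.log (Real.log q) + 10) ^ 2 ≤ D
  hk1 : 13 * 10 ^ 6 * 2 ^ 50 * q * Real.log q ≤ k
  hk2 : (k : ℝ) ≤ 65 * 10 ^ 6 * 2 ^ 50 * q * Real.log q

/-- sampling probability -/
def xp (q k : ℕ) : ℝ := (k : ℝ) / (2 ^ 80 * (q : ℝ) ^ 3)

def xw (k : ℕ) : ℕ := k / 256 + 1

def xd (q k : ℕ) : ℕ := k / (2 ^ 50 * q) + 1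

/-- degree bound of the sparse case -/
def xd1 (q k : ℕ) : ℕ := 12 * xd q k + 1

def xt0 (q : ℕ) : ℝ := 13 * 2 ^ 50 * q * Real.log q

def xm2 (q : ℕ) : ℝ := 36 * Real.log (Real.log q) + 2000

def xt2 (q D k : ℕ) : ℝ := 10 * xm2 q * k / D

def xJ (q : ℕ) : ℕ := ⌊3 * Real.log q⌋₊ + 1

namespace PG

variable {q : ℕ} {Pt : Type} [Fintype Pt] [DecidableEq Pt] (G : PG q Pt)

/-- allowed points after the sample `T` -/
def PP (T : Finset (Pt × Pt)) : Finset Pt := G.Pof (15 * Real.log q) T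

/-- allowed planes after the sample `T` -/
def QQ (T : Finset (Pt × Pt)) : Finset Pt := G.Pio (15 * Real.log q) T

def BB (T : Finset (Pt × Pt)) : Finset (Pt × Pt) := G.bad (1 / 2 ^ 28) (15 * Real.log q) T

/-- `T` is a valid sample of the part `Z'` of `Z` -/
structure Valid (d : ℕ) (Z Z' T : Finset (Pt × Pt)) : Prop where
  sub : T ⊆ Z'
  card : (T.card : ℝ) ≤ xt0 q
  all : Z ⊆ G.pool (G.PP T) (G.QQ T)
  pts : ∀ a ∈ G.PP T, (selIn Z' fun u => a ∈ G.pl u.2).card ≤ 4 * d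
  pls : ∀ b ∈ G.QQ T, (selIn Z' fun u => u.1 ∈ G.pl b).card ≤ 4 * d

/-- the fingerprint `T` and the state `Ts` of level `j` over the containers `X, Y` -/
def Pfx (j : ℕ) (X Y : Finset Pt) (T Ts : Finset (Pt × Pt)) : Prop :=
  ((G.pool X Y).card : ℝ) ≤ 3000 * Real.exp (4 * j) * (q : ℝ) ^ 3 ∧
  ((G.pool (G.PP Ts) (G.QQ Ts)).card : ℝ) ≤ 35 * Real.exp (2 * j) * (q : ℝ) ^ 3 ∧
  (Ts.card : ℝ) ≤ xt0 q ∧
  ((T = Ts ∧ Ts ⊆ G.pool X Y) ∨
    ∃ T2 ⊆ G.pool X Y, (T2.card : ℝ) ≤ xt0 q ∧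
      ((G.pool (G.PP T2) (G.QQ T2)).card : ℝ) ≤ 35 * Real.exp (2 * j) * (q : ℝ) ^ 3 ∧
      Ts ⊆ G.pool (G.PP T2) (G.QQ T2) ∧ Disjoint T2 Ts ∧ T = T2 ∪ Ts)

open Classical in
/-- the pool after the second sample -/
def st2 (X0 Y0 : Finset Pt) (m x : ℝ) (T' : Finset (Pt × Pt)) : Finset (Pt × Pt) :=
  if ((X0 ∩ G.Pof m T').card : ℝ) ≤ Real.exp (-m / 6) * X0.card ∨
      ((Y0 ∩ G.Pio m T').card : ℝ) ≤ Real.exp (-m / 6) * Y0.card then
    G.pool (X0 ∩ G.Pof m T') (Y0 ∩ G.Pio m T')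
  else G.pool (X0 ∩ G.Pof m T' ∩ G.low x (Y0 ∩ G.Pio m T'))
    (Y0 ∩ G.Pio m T' ∩ G.low x (X0 ∩ G.Pof m T'))

/-- lines carrying two flags of the sample -/
def found (T' : Finset (Pt × Pt)) : Finset (Finset Pt) :=
  selIn G.lines fun l => 2 ≤ (G.Fl l ∩ T').card

/-- allowed points times allowed planes on the line `l` -/
def rr (T : Finset (Pt × Pt)) (l : Finset Pt) : ℝ :=
  ((l ∩ G.PP T).card : ℝ) * (G.perp l ∩ G.QQ T).card

def poor (j : ℕ) (Ts T' : Finset (Pt × Pt)) : Finset (Pt × Pt) :=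
  (selIn (G.found T') fun l => G.rr Ts l < (q : ℝ) ^ 2 * Real.exp (1 - j)).biUnion
    fun l => G.Fl l ∩ G.pool (G.PP Ts) (G.QQ Ts)

/-- the menu of final pools -/
def menu (k j : ℕ) (X Y : Finset Pt) (Ts T' B : Finset (Pt × Pt)) : Prop :=
  B = G.BB Ts ∨ B = G.det T' ∩ G.pool X Y ∨ B = G.poor j Ts T' ∨
    ∃ s ≤ k, B = G.st2 (G.PP Ts) (G.QQ Ts) (xm2 q) (60160 * (6 * s + 1) * q / k) T'

/-- the cover of level `j` over the family `F` of container pairs -/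
def Cov (D k j : ℕ) (F : Finset (Finset Pt × Finset Pt)) (β : ℝ) :
    Finset (Finset (Pt × Pt) × Finset (Pt × Pt)) :=
  sel fun x => ∃ XY ∈ F, ∃ T Ts T', G.Pfx j XY.1 XY.2 T Ts ∧
    T' ⊆ G.pool (G.PP Ts) (G.QQ Ts) ∧ (T'.card : ℝ) ≤ xt2 q D k ∧ Disjoint T T' ∧
    x.1 = T ∪ T' ∧ G.menu k j XY.1 XY.2 Ts T' x.2 ∧ (x.2.card : ℝ) ≤ β * (q : ℝ) ^ 3

/-- outcome of the three rounds -/
structure Out (k j : ℕ) (X Y : Finset Pt) (Z T Ts Zs : Finset (Pt × Pt)) : Prop where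
  pfx : G.Pfx j X Y T Ts
  sub : T ⊆ Z
  prod : ((G.PP Ts).card : ℝ) * (G.QQ Ts).card ≤ 29 * Real.exp (2 * j) * (q : ℝ) ^ 4
  all : Z ⊆ G.pool (G.PP Ts) (G.QQ Ts)
  zsub : Zs ⊆ Z
  disj : Disjoint Zs T
  inB : Zs ⊆ G.BB Ts
  inP : Zs ⊆ G.pool X Y
  loss : ((Z \ Zs).card : ℝ) ≤ k / 1000

/-- a set of flags grouped in cliques on lines, with few mutual pairs across groups -/
structure Cliq (s : ℕ) (Zl : Finset (Pt × Pt)) (ln : Pt × Pt → Finset Pt) : Prop where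
  line : ∀ z ∈ Zl, ln z ∈ G.lines ∧ z ∈ G.Fl (ln z)
  big : ∀ z ∈ Zl, s ≤ 2 * (selIn Zl fun u => ln u = ln z).card
  cross : (selIn (Zl ×ˢ Zl) fun x => G.mutl x.1 x.2 ∧ ln x.1 ≠ ln x.2).card ≤ 2 * s * Zl.card

end PG

end

end Pool.Agent.Work.MP_e10cd8_co.Four
end

-- merged part: Pool.Agent.Work.MP_e10cd8_co.Four.Asym
section
/-! Choice of the prime and of the parameters (paper 7). -/

namespace Pool.Agent.Work.MP_e10cd8_co.Four

open Real

theorem Asym_aux (K : ℕ) (hK : 1000 ≤ K) (n : ℕ) (h1 : 750 * (225 * (K : ℝ) ^ 2) ≤ log n)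
    (h2 : 7 ≤ log (log n)) : ∃ q R r : ℕ, q.Prime ∧ r = K * (R + 2) ∧ 1000 ≤ q ∧
      3 * log q ≤ 2 ^ R ∧ 25 * r ^ 2 ≤ q ∧ 2000 * r * q * log q ≤ n ∧
      (n : ℝ) ≤ 10000 * r * q * log q ∧
      1 / (20000 * 8000 ^ 2 * (3 * K) ^ 3) * (n : ℝ) ^ 3 / (log n ^ 2 * log (log n) ^ 3) ≤
        (n : ℝ) * (q : ℝ) ^ 2 / (10000 * r) - 1 := by
  have K0 : (1000 : ℝ) ≤ K := by exact_mod_cast hK
  have L1 : 1 ≤ log n := le_trans (by nlinarith) h1
  have n0 : (0 : ℝ) < n := (Nat.cast_nonneg n).lt_of_ne fun e => by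
    rw [← e, log_zero] at L1
    linarith
  have n5 : (n : ℝ) = exp (log n / 5) ^ 5 := by
    rw [← exp_nat_mul, Nat.cast_ofNat, mul_div_cancel₀ _ (by norm_num), exp_log n0]
  have lE : log (exp (log n / 5) ^ 4) = 4 / 5 * log n := by
    rw [log_pow, log_exp]
    push_cast
    ring
  have n1 : (1 : ℝ) ≤ n := by exact_mod_cast (Nat.cast_pos.1 n0 : 0 < n)
  have lq : ∀ q : ℝ, 0 < q → q ≤ n → log q ≤ log n := fun q k k' => log_le_log k k'
  generalize log n = L at *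
  have hE : 225 * (K : ℝ) ^ 2 * L ^ 2 ≤ exp (L / 5) :=
    le_trans (by norm_num [Nat.factorial]; nlinarith [sq_nonneg L])
      (pow_div_factorial_le_exp (L / 5) (by positivity) 3)
  have E1 : 1 ≤ exp (L / 5) := one_le_exp (by positivity)
  generalize exp (L / 5) = E at *
  obtain ⟨m, m1, m2⟩ := exists_nat_pow_near (x := 3 * L) (y := 2) (by linarith) one_lt_two
  have m3 : (m : ℝ) + 3 ≤ 3 * log L := by
    have := log_le_log (by positivity) m1
    rw [log_pow, log_mul (by norm_num) (by positivity)] at this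
    have := log_le_sub_one_of_pos (x := 3) (by norm_num)
    have := mul_le_mul_of_nonneg_left log_two_gt_d9.le (Nat.cast_nonneg (α := ℝ) m)
    linarith
  have l1 : log L ≤ L := (log_le_sub_one_of_pos (by linarith)).trans (by linarith)
  obtain ⟨r, hr⟩ : ∃ r : ℕ, r = K * (m + 1 + 2) := ⟨_, rfl⟩
  have r0 : (r : ℝ) = K * (m + 3) := by
    rw [hr]
    push_cast
    ring
  have r1 : (1000 : ℝ) ≤ r := by nlinarith [Nat.cast_nonneg (α := ℝ) m]
  have r2 : (r : ℝ) ≤ 3 * K * log L := by nlinarith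
  have r3 : (r : ℝ) ≤ 3 * K * L := r2.trans (by gcongr)
  have r4 : 25 * (r : ℝ) ^ 2 ≤ E := by nlinarith
  have r5 : 8000 * r * L ≤ E := by
    refine le_trans ?_ hE
    calc 8000 * r * L ≤ 8000 * (3 * K * L) * L := by gcongr
      _ = 24000 * K * L ^ 2 := by ring
      _ ≤ 225 * (K : ℝ) ^ 2 * L ^ 2 := by
        gcongr ?_ * _
        nlinarith
  have d0 : 0 < 8000 * r * L := by positivity
  obtain ⟨y, hy⟩ : ∃ y : ℝ, y = n / (8000 * r * L) := ⟨_, rfl⟩
  have y0 : (n : ℝ) = 8000 * r * L * y := by rw [hy, mul_div_cancel₀ _ d0.ne']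
  have y1 : E ^ 4 ≤ y := by
    rw [hy, le_div_iff₀ d0, n5, pow_succ E 4]
    gcongr
  have y2 : E ≤ y := (le_self_pow₀ E1 (by norm_num)).trans y1
  have y3 : 0 < y := by linarith
  obtain ⟨q, hq, q1, q2⟩ := Nat.exists_prime_lt_and_le_two_mul ⌈y⌉₊ (Nat.ceil_pos.2 y3).ne'
  have q3 : y ≤ q := (Nat.le_ceil y).trans (by exact_mod_cast q1.le)
  have q4 : (q : ℝ) ≤ 4 * y := by
    have : (q : ℝ) ≤ 2 * ⌈y⌉₊ := by exact_mod_cast q2
    linarith [Nat.ceil_lt_add_one y3.le]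
  have q5 : 25 * (r : ℝ) ^ 2 ≤ q := by linarith
  have q6 : (1000 : ℝ) ≤ q := by nlinarith
  have q7 : log q ≤ L := lq _ (by linarith) (by
    rw [y0]
    exact q4.trans (mul_le_mul_of_nonneg_right (by nlinarith) (by linarith)))
  have q9 : 0 ≤ log q := log_nonneg (by linarith)
  have q8 : 4 / 5 * L ≤ log q := lE ▸ log_le_log (by positivity) (y1.trans q3)
  refine ⟨q, m + 1, r, hq, hr, by exact_mod_cast q6, by linarith, by exact_mod_cast q5, ?_, ?_, ?_⟩
  · calc 2000 * r * q * log q ≤ 2000 * r * (4 * y) * L := by gcongr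
      _ = n := by rw [y0]; ring
  · calc (n : ℝ) = 10000 * r * y * (4 / 5 * L) := by rw [y0]; ring
      _ ≤ _ := by gcongr
  have a1 : 2 ≤ (n : ℝ) * (q : ℝ) ^ 2 / (10000 * r) := by
    rw [le_div_iff₀ (by positivity)]
    have : 20000 * r ≤ (q : ℝ) ^ 2 := by nlinarith
    nlinarith
  have a2 : 1 / (20000 * 8000 ^ 2 * (3 * K) ^ 3) * (n : ℝ) ^ 3 / (L ^ 2 * log L ^ 3) ≤
      (n : ℝ) * (q : ℝ) ^ 2 / (10000 * r) / 2 := by
    calc _ = (n : ℝ) ^ 3 / (20000 * 8000 ^ 2 * (3 * K * log L) ^ 3 * L ^ 2) := by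
          have : log L ≠ 0 := by linarith
          field_simp
      _ ≤ (n : ℝ) ^ 3 / (20000 * 8000 ^ 2 * (r : ℝ) ^ 3 * L ^ 2) := by gcongr
      _ = n * y ^ 2 / (10000 * r) / 2 := by
          rw [hy]
          field_simp
          norm_num
      _ ≤ _ := by gcongr
  linarith

/-- Let `R` be least with `3 log n ≤ 2^R` (so `2^R ≤ 6 log n`, `R + 2 ≤ 3 log log n` for large `n`),
`r = 4000 * 2^28 * (R+2)`, `x = ⌈n / (8000 r log n)⌉₊`, and `q` a prime with `x < q ≤ 2 x`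
(`Nat.exists_prime_lt_and_le_two_mul`). Then `2000 r q log q ≤ n`, and `n ≤ 10000 r q log q` since
`log q ≥ 0.8 log n` for large `n`; `n q^2 / (10000 r) ≥ n^3 / (10^4 * 8000^2 r^3 (log n)^2)`. -/
theorem params : ∃ c : ℝ, 0 < c ∧ ∃ n₀ : ℕ, ∀ n : ℕ, n₀ ≤ n → ∃ q R r : ℕ, q.Prime ∧
    FPar q R r n ∧ c * (n : ℝ) ^ 3 / (Real.log n ^ 2 * Real.log (Real.log n) ^ 3) ≤
      (n : ℝ) * (q : ℝ) ^ 2 / (10000 * r) - 1 := by
  have t := tendsto_log_atTop.comp (tendsto_natCast_atTop_atTop (R := ℝ))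
  obtain ⟨n₀, h⟩ := Filter.eventually_atTop.1
    ((t.eventually_ge_atTop (750 * (225 * ((4000 * 2 ^ 28 : ℕ) : ℝ) ^ 2))).and
      ((tendsto_log_atTop.comp t).eventually_ge_atTop 7))
  refine ⟨1 / (20000 * 8000 ^ 2 * (3 * ((4000 * 2 ^ 28 : ℕ) : ℝ)) ^ 3), by positivity, n₀,
    fun n hn => ?_⟩
  obtain ⟨q, R, r, a, b, c, d, e, f, g, k⟩ := Asym_aux _ (by norm_num) n (h n hn).1 (h n hn).2
  exact ⟨q, R, r, a, ⟨c, d, b, e, f, g⟩, k⟩

end Pool.Agent.Work.MP_e10cd8_co.Four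
end

-- merged part: Pool.Agent.Work.MP_e10cd8_co.Exact.XAsym
section
/-! Choice of the prime. Compare `Four/Asym`. -/

namespace Pool.Agent.Work.MP_e10cd8_co.Four

open Real

theorem XAsym_D (t : ℝ) (h1 : 1 ≤ t) (h2 : 400 * 10 ^ 9 ≤ log t) : ∃ D : ℕ,
    (D : ℝ) ^ 2 ≤ t ∧ t ≤ 4 * (D : ℝ) ^ 2 ∧ 10 ^ 9 * (log t + 10) ^ 2 ≤ D := by
  have t0 : 0 < t := by linarith
  have s1 : 1 ≤ √t := one_le_sqrt.2 h1
  have s2 : √t ^ 2 = t := sq_sqrt t0.le
  have f1 : (⌊√t⌋₊ : ℝ) ≤ √t := Nat.floor_le (by linarith)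
  have f2 : √t < ⌊√t⌋₊ + 1 := Nat.lt_floor_add_one _
  have f3 : (1 : ℝ) ≤ ⌊√t⌋₊ := by exact_mod_cast Nat.le_floor (by simpa using s1)
  have f4 : √t ≤ 2 * ⌊√t⌋₊ := by linarith
  have e : √t = exp (log t / 2) := by
    rw [exp_half, exp_log t0]
  have e2 : (log t / 2) ^ 3 / 6 ≤ √t := by
    rw [e]
    simpa [Nat.factorial] using pow_div_factorial_le_exp (log t / 2) (by linarith) 3
  refine ⟨⌊√t⌋₊, ?_, ?_, ?_⟩
  · calc (⌊√t⌋₊ : ℝ) ^ 2 ≤ √t ^ 2 := by gcongr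
      _ = t := s2
  · calc t = √t ^ 2 := s2.symm
      _ ≤ (2 * (⌊√t⌋₊ : ℝ)) ^ 2 := by gcongr
      _ = _ := by ring
  · generalize log t = u at *
    have u0 : 0 < u := by linarith
    have a1 : (u + 10) ^ 2 ≤ (2 * u) ^ 2 := by gcongr; linarith
    have a2 : 400 * 10 ^ 9 * u ^ 2 ≤ u * u ^ 2 := by gcongr
    have a3 : (u / 2) ^ 3 / 6 = u * u ^ 2 / 48 := by ring
    have a4 : (2 * u) ^ 2 = 4 * u ^ 2 := by ring
    have a5 : 0 ≤ u ^ 2 := by positivity
    linarith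

theorem XAsym_q : ∃ T : ℝ, ∀ q : ℕ, 0 < q → T ≤ log q → (2 ^ 36 * log q ^ 2) ^ 100 ≤ (q : ℝ) ∧
    ∃ D : ℕ, (D : ℝ) ^ 2 ≤ log q ∧ log q ≤ 4 * (D : ℝ) ^ 2 ∧
      10 ^ 9 * (log (log q) + 10) ^ 2 ≤ D := by
  obtain ⟨A, hA⟩ : ∃ A : ℝ, A = 2 ^ 36 := ⟨_, rfl⟩
  obtain ⟨T, h⟩ := Filter.eventually_atTop.1
    (((tendsto_exp_div_pow_atTop (2 * 100)).eventually_ge_atTop (A ^ 100)).and
      ((tendsto_log_atTop.eventually_ge_atTop (400 * 10 ^ 9)).and
        (Filter.eventually_ge_atTop (1 : ℝ))))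
  refine ⟨T, fun q q0 hq => ?_⟩
  obtain ⟨a, b, c⟩ := h _ hq
  refine ⟨?_, XAsym_D _ c b⟩
  rw [exp_log (by exact_mod_cast q0), le_div_iff₀ (by positivity)] at a
  rw [← hA, mul_pow, ← pow_mul]
  exact a

theorem XAsym_aux (K : ℝ) (hK : 2 ^ 41 ≤ K) (n : ℕ) (h1 : 200 * K ≤ log n) :
    ∃ q : ℕ, q.Prime ∧ 1000 ≤ q ∧ 4 / 5 * log n ≤ log q ∧ K * q * log q ≤ n ∧
      (n : ℝ) ≤ 5 * K * q * log q ∧
      1 / (2 ^ 81 * (4 * K) ^ 2) * (n : ℝ) ^ 3 / log n ^ 2 ≤
        (n : ℝ) * (q : ℝ) ^ 2 / 2 ^ 80 - 1 := by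
  have K1 : 1000 ≤ K := le_trans (by norm_num) hK
  have L1 : 1 ≤ log n := by linarith
  have n0 : (0 : ℝ) < n := (Nat.cast_nonneg n).lt_of_ne fun e => by
    rw [← e, log_zero] at L1
    linarith
  have n5 : (n : ℝ) = exp (log n / 5) ^ 5 := by
    rw [← exp_nat_mul, Nat.cast_ofNat, mul_div_cancel₀ _ (by norm_num), exp_log n0]
  have lE : log (exp (log n / 5) ^ 4) = 4 / 5 * log n := by
    rw [log_pow, log_exp]
    push_cast
    ring
  have n1 : (1 : ℝ) ≤ n := by exact_mod_cast (Nat.cast_pos.1 n0 : 0 < n)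
  have lq : ∀ q : ℝ, 0 < q → q ≤ n → log q ≤ log n := fun q k k' => log_le_log k k'
  generalize log n = L at *
  have L0 : 0 < L := by linarith
  have hE : 4 * K * L ≤ exp (L / 5) := by
    have a := pow_div_factorial_le_exp (L / 5) (by positivity) 2
    have b : 200 * K * L ≤ L * L := by gcongr
    have c : (L / 5) ^ 2 / (Nat.factorial 2 : ℕ) = L * L / 50 := by
      norm_num [Nat.factorial]
      ring
    linarith
  have E1 : 1 ≤ exp (L / 5) := one_le_exp (by positivity)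
  generalize exp (L / 5) = E at *
  have KL : K ≤ K * L := le_mul_of_one_le_right (by linarith) L1
  have d0 : 0 < 4 * K * L := by positivity
  obtain ⟨y, hy⟩ : ∃ y : ℝ, y = n / (4 * K * L) := ⟨_, rfl⟩
  have y0 : (n : ℝ) = 4 * K * L * y := by rw [hy, mul_div_cancel₀ _ d0.ne']
  have y1 : E ^ 4 ≤ y := by
    rw [hy, le_div_iff₀ d0, n5, pow_succ E 4]
    gcongr
  have y2 : E ≤ y := (le_self_pow₀ E1 (by norm_num)).trans y1
  have y3 : 0 < y := by linarith
  obtain ⟨q, hq, q1, q2⟩ := Nat.exists_prime_lt_and_le_two_mul ⌈y⌉₊ (Nat.ceil_pos.2 y3).ne'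
  have q3 : y ≤ q := (Nat.le_ceil y).trans (by exact_mod_cast q1.le)
  have q4 : (q : ℝ) ≤ 4 * y := by
    have : (q : ℝ) ≤ 2 * ⌈y⌉₊ := by exact_mod_cast q2
    linarith [Nat.ceil_lt_add_one y3.le]
  have q5 : K ≤ q := by linarith
  have q6 : (1000 : ℝ) ≤ q := by linarith
  have q7 : log q ≤ L := lq _ (by linarith) (by
    rw [y0]
    exact q4.trans (mul_le_mul_of_nonneg_right (by linarith) y3.le))
  have q9 : 0 ≤ log q := log_nonneg (by linarith)
  have q8 : 4 / 5 * L ≤ log q := lE ▸ log_le_log (by positivity) (y1.trans q3)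
  refine ⟨q, hq, by exact_mod_cast q6, q8, ?_, ?_, ?_⟩
  · calc K * q * log q ≤ K * (4 * y) * L := by gcongr
      _ = n := by rw [y0]; ring
  · calc (n : ℝ) = 5 * K * y * (4 / 5 * L) := by rw [y0]; ring
      _ ≤ _ := by gcongr
  have a1 : 2 ≤ (n : ℝ) * (q : ℝ) ^ 2 / 2 ^ 80 := by
    rw [le_div_iff₀ (by positivity)]
    calc (2 : ℝ) * 2 ^ 80 ≤ 1 * (2 ^ 41) ^ 2 := by norm_num
      _ ≤ _ := by gcongr; exact hK.trans q5
  have a2 : 1 / (2 ^ 81 * (4 * K) ^ 2) * (n : ℝ) ^ 3 / L ^ 2 ≤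
      (n : ℝ) * (q : ℝ) ^ 2 / 2 ^ 80 / 2 := by
    calc _ = n * y ^ 2 / 2 ^ 80 / 2 := by
          rw [hy]
          field_simp
      _ ≤ _ := by gcongr
  linarith

/-- `C0 = 13 * 10^6 * 2^50`, `x = ⌈n / (4 C0 log n)⌉₊`, `q` a prime with `x < q ≤ 2 x`,
`D = ⌊sqrt (log q)⌋₊`; the conditions on `q` alone hold for all large `q` -/
theorem xparams : ∃ c : ℝ, 0 < c ∧ ∃ n₀ : ℕ, ∀ n : ℕ, n₀ ≤ n → ∃ q D : ℕ, q.Prime ∧
    XPar q D n ∧ c * (n : ℝ) ^ 3 / Real.log n ^ 2 ≤ (n : ℝ) * (q : ℝ) ^ 2 / 2 ^ 80 - 1 := by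
  obtain ⟨T, hT⟩ := XAsym_q
  have t := tendsto_log_atTop.comp (tendsto_natCast_atTop_atTop (R := ℝ))
  obtain ⟨n₀, h⟩ := Filter.eventually_atTop.1
    ((t.eventually_ge_atTop (200 * (13 * 10 ^ 6 * 2 ^ 50))).and
      (t.eventually_ge_atTop (5 / 4 * T)))
  refine ⟨1 / (2 ^ 81 * (4 * (13 * 10 ^ 6 * 2 ^ 50)) ^ 2), by positivity, n₀, fun n hn => ?_⟩
  obtain ⟨q, a, b, c, d, e, f⟩ := XAsym_aux _ (by norm_num) n (h n hn).1
  have g : 5 / 4 * T ≤ log n := (h n hn).2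
  obtain ⟨k, D, k1, k2, k3⟩ := hT q a.pos (by linarith)
  refine ⟨q, D, a, ⟨b, k, k1, k2, k3, d, e.trans_eq ?_⟩, f⟩
  ring

end Pool.Agent.Work.MP_e10cd8_co.Four
end
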