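import Pool.Agent.Work.MP_e10cd8_co.Exact.XDefs
import Pool.Agent.Work.MP_e10cd8_co.Four.Prob3
import Pool.Agent.Work.MP_e10cd8_co.Four.Red1

/-! Containers from rich lines, and finding the lines of cliques (paper H). -/

namespace Pool.Agent.Work.MP_e10cd8_co.Four
namespace PG
open Finset

variable {q : ℕ} {Pt : Type} [Fintype Pt] [DecidableEq Pt] (G : PG q Pt)

/-- the number of groups -/
theorem Found_image {Zl : Finset (Pt × Pt)} {ln : Pt × Pt → Finset Pt} {s : ℕ}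
    (hC : G.Cliq s Zl ln) : s * (Zl.image ln).card ≤ 2 * Zl.card := by
  rw [card_eq_sum_card_image ln Zl, mul_sum, mul_comm s, ← smul_eq_mul, ← sum_const]
  refine sum_le_sum fun v hv => ?_
  obtain ⟨z, hz, rfl⟩ := mem_image.1 hv
  refine (hC.big z hz).trans (Nat.mul_le_mul_left _ (card_le_card fun u hu => ?_))
  exact mem_filter.2 (mem_selIn.1 hu)

/-- groups with few members in `Zs` -/
theorem Found_small {Zl : Finset (Pt × Pt)} (Zs : Finset (Pt × Pt)) {ln : Pt × Pt → Finset Pt}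
    {s : ℕ} (hC : G.Cliq s Zl ln) :
    (selIn Zl fun z => 4 * ((selIn Zl fun u => ln u = ln z) ∩ (Zl ∩ Zs)).card < s).card ≤
      2 * (Zl \ Zs).card := by
  set B := selIn Zl fun z => 4 * ((selIn Zl fun u => ln u = ln z) ∩ (Zl ∩ Zs)).card < s with hB
  have h1 : ∑ v ∈ B.image ln, ((Zl \ Zs).filter fun u => ln u = v).card ≤ (Zl \ Zs).card := by
    rw [sum_card_fiberwise_eq_card_filter]
    exact card_le_card (filter_subset _ _)
  refine le_trans ?_ (Nat.mul_le_mul_left 2 h1)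
  rw [card_eq_sum_card_image ln B, mul_sum]
  refine sum_le_sum fun v hv => ?_
  obtain ⟨z, hz, rfl⟩ := mem_image.1 hv
  obtain ⟨hz1, hz2⟩ := mem_selIn.1 hz
  have h2 := hC.big z hz1
  have h3 : (B.filter fun u => ln u = ln z).card ≤ (selIn Zl fun u => ln u = ln z).card :=
    card_le_card fun u hu => mem_selIn.2 ⟨(mem_selIn.1 (mem_filter.1 hu).1).1, (mem_filter.1 hu).2⟩
  have h4 : (selIn Zl fun u => ln u = ln z) ⊆ (selIn Zl fun u => ln u = ln z) ∩ (Zl ∩ Zs) ∪
      (Zl \ Zs).filter fun u => ln u = ln z := by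
    intro u hu
    obtain ⟨a, b⟩ := mem_selIn.1 hu
    by_cases c : u ∈ Zs
    · exact mem_union_left _ (mem_inter.2 ⟨hu, mem_inter.2 ⟨a, c⟩⟩)
    · exact mem_union_right _ (mem_filter.2 ⟨mem_sdiff.2 ⟨a, c⟩, b⟩)
  have h5 := (card_le_card h4).trans (card_union_le _ _)
  omega

/-- a found line is a value of `ln` or comes from a cross pair of the sample -/
theorem Found_card {Zl T : Finset (Pt × Pt)} {ln : Pt × Pt → Finset Pt} {s : ℕ}
    (hC : G.Cliq s Zl ln) (hT : T ⊆ Zl) {C : Finset ((Pt × Pt) × (Pt × Pt))}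
    (hc : ∀ x ∈ C, x.1 ≠ x.2)
    (hc' : ∀ z ∈ T, ∀ z' ∈ T, G.mutl z z' → ln z ≠ ln z' → (z, z') ∈ C) :
    (G.found T).card ≤ (Zl.image ln).card + C.card := by
  have h1 : (G.found T \ Zl.image ln).card ≤ C.card := by
    refine card_le_card_of_forall_subsingleton (fun l x => x.1 ∈ G.Fl l ∧ x.2 ∈ G.Fl l)
      (fun l hl => ?_) fun x hx => ?_
    · obtain ⟨hl1, hl2⟩ := mem_sdiff.1 hl
      obtain ⟨hl3, hl4⟩ := mem_selIn.1 hl1
      obtain ⟨z, hz, z', hz', hne⟩ := one_lt_card.1 (lt_of_lt_of_le (by norm_num) hl4)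
      obtain ⟨a, b⟩ := mem_inter.1 hz
      obtain ⟨a', b'⟩ := mem_inter.1 hz'
      refine ⟨(z, z'), hc' z b z' b' (G.mutl_of_Fl hne a a') fun he => hl2 ?_, a, a'⟩
      have k := hC.line z (hT b)
      have k' := hC.line z' (hT b')
      rw [← he] at k'
      exact mem_image.2 ⟨z, hT b, (G.Fl_unique hl3 k.1 hne a a' k.2 k'.2).symm⟩
    · intro l hl l' hl'
      exact G.Fl_unique (mem_selIn.1 (mem_sdiff.1 hl.1).1).1 (mem_selIn.1 (mem_sdiff.1 hl'.1).1).1
        (hc x hx) hl.2.1 hl.2.2 hl'.2.1 hl'.2.2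
  have h2 := le_card_sdiff (Zl.image ln) (G.found T)
  omega

/-- Sample `Zl ∩ Zs` at rate `240 / s`. A found line is a value of `ln` (at most `2 |Zl| / s` of
them) or comes from a sampled cross pair (`Fl_unique`, `mutl_of_Fl`; expectation at most
`115200 |Zl| / s`, `Pr_subset`). Groups with fewer than `s / 4` members in `Zs` have together at
most `2 |Zl \ Zs|` members; the others are found except with probability `exp (-5)` (`thr_down`
with `m = 15`). Three times `markov`. -/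
theorem found_sample {Zl Zs : Finset (Pt × Pt)} {ln : Pt × Pt → Finset Pt} {s : ℕ}
    (hC : G.Cliq s Zl ln) (hs : 240 ≤ s) :
    ∃ T' ⊆ Zl ∩ Zs, (T'.card : ℝ) ≤ 2400 * Zl.card / s ∧
      ((G.found T').card : ℝ) ≤ 1200000 * Zl.card / s ∧
      ((selIn Zl fun z => ln z ∉ G.found T').card : ℝ) ≤ 2 * (Zl \ Zs).card + Zl.card / 10 := by
  rcases Zl.eq_empty_or_nonempty with rfl | hne
  · refine ⟨∅, empty_subset _, by simp, ?_, by simp [selIn]⟩
    have : G.found (∅ : Finset (Pt × Pt)) = ∅ := by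
      ext l
      simp [found]
    simp [this]
  have hN : (0 : ℝ) < Zl.card := by exact_mod_cast card_pos.2 hne
  have hs' : (240 : ℝ) ≤ s := by exact_mod_cast hs
  have hs0 : (0 : ℝ) < s := by linarith
  set η : ℝ := 240 / s with hη
  have h0 : 0 ≤ η := by positivity
  have h1 : η ≤ 1 := (div_le_one hs0).2 hs'
  set Ω := Zl ∩ Zs with hΩ
  set C := selIn (Ω ×ˢ Ω) fun x => G.mutl x.1 x.2 ∧ ln x.1 ≠ ln x.2 with hCd
  set A : Pt × Pt → Finset (Pt × Pt) := fun z => selIn Zl fun u => ln u = ln z with hA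
  set B := selIn Zl fun z => s ≤ 4 * (A z ∩ Ω).card with hB
  have hΩN : (Ω.card : ℝ) ≤ Zl.card := by exact_mod_cast card_le_card inter_subset_left
  have p1 : Pr η Ω (fun T => 2400 * (Zl.card : ℝ) / s ≤ ((T ∩ Ω).card : ℝ)) ≤ 1 / 10 := by
    refine (markov h0 h1 (fun _ _ => Nat.cast_nonneg _) (by positivity)).trans ?_
    rw [Ex_card, inter_self, div_le_iff₀ (by positivity), hη]
    have : 240 / (s : ℝ) * Ω.card ≤ 240 / s * Zl.card := mul_le_mul_of_nonneg_left hΩN h0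
    refine this.trans (le_of_eq ?_)
    ring
  have p2 : Pr η Ω (fun T => 1152000 * (Zl.card : ℝ) / s ≤
      ((selIn C fun x => ({x.1, x.2} : Finset (Pt × Pt)) ⊆ T).card : ℝ)) ≤ 1 / 10 := by
    refine (markov h0 h1 (fun _ _ => Nat.cast_nonneg _) (by positivity)).trans ?_
    rw [Ex_card_selIn C fun x T => ({x.1, x.2} : Finset (Pt × Pt)) ⊆ T,
      div_le_iff₀ (by positivity)]
    have e : ∀ x ∈ C, Pr η Ω (fun T => ({x.1, x.2} : Finset (Pt × Pt)) ⊆ T) = η ^ 2 := by
      intro x hx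
      obtain ⟨a, b⟩ := mem_selIn.1 hx
      rw [Pr_subset (insert_subset (mem_product.1 a).1 (singleton_subset_iff.2 (mem_product.1 a).2)),
        card_pair b.1.1]
    rw [sum_congr rfl e, sum_const, nsmul_eq_mul]
    have c1 : C.card ≤ 2 * s * Zl.card := by
      refine le_trans (card_le_card fun x hx => ?_) hC.cross
      obtain ⟨a, b⟩ := mem_selIn.1 hx
      exact mem_selIn.2 ⟨product_subset_product inter_subset_left inter_subset_left a, b⟩
    have c2 : (C.card : ℝ) ≤ 2 * s * Zl.card := by exact_mod_cast c1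
    refine (mul_le_mul_of_nonneg_right c2 (sq_nonneg η)).trans (le_of_eq ?_)
    rw [hη]
    field_simp
    norm_num
  have p3 : Pr η Ω (fun T => (Zl.card : ℝ) / 10 ≤
      ((selIn B fun z => ((T ∩ A z).card : ℝ) ≤ 2 * 15).card : ℝ)) ≤ 10 / 18 := by
    refine (markov h0 h1 (fun _ _ => Nat.cast_nonneg _) (by positivity)).trans ?_
    rw [Ex_card_selIn B fun z T => ((T ∩ A z).card : ℝ) ≤ 2 * 15, div_le_iff₀ (by positivity)]
    have e0 : Real.exp (-15 / 3) ≤ 1 / 18 := by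
      rw [show (-15 / 3 : ℝ) = -5 by norm_num, Real.exp_neg, one_div]
      refine inv_anti₀ (by norm_num) ?_
      have := Real.quadratic_le_exp_of_nonneg (show (0 : ℝ) ≤ 5 by norm_num)
      linarith
    have e : ∀ z ∈ B, Pr η Ω (fun T => ((T ∩ A z).card : ℝ) ≤ 2 * 15) ≤ 1 / 18 := by
      intro z hz
      refine (thr_down h0 h1 (A z) (by norm_num) ?_).trans e0
      have a : (s : ℝ) ≤ 4 * (A z ∩ Ω).card := by exact_mod_cast (mem_selIn.1 hz).2
      rw [hη, div_mul_eq_mul_div, le_div_iff₀ hs0]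
      linarith
    refine (sum_le_sum e).trans ?_
    rw [sum_const, nsmul_eq_mul]
    have c : (B.card : ℝ) ≤ Zl.card := by exact_mod_cast card_le_card (selIn_subset _ _)
    linarith
  obtain ⟨T, hT, hn⟩ := exists_of_Pr_lt_one (lt_of_le_of_lt ((Pr_or h0 h1 _ _).trans
    (add_le_add p1 ((Pr_or h0 h1 _ _).trans (add_le_add p2 p3)))) (by norm_num))
  simp only [not_or, not_le] at hn
  obtain ⟨n1, n2, n3⟩ := hn
  have hTl : T ⊆ Zl := hT.trans inter_subset_left
  refine ⟨T, hT, ?_, ?_, ?_⟩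
  · rw [inter_eq_left.2 hT] at n1
    exact n1.le
  · have a := G.Found_card hC hTl (C := selIn C fun x => ({x.1, x.2} : Finset (Pt × Pt)) ⊆ T)
      (fun x hx => (mem_selIn.1 (mem_selIn.1 hx).1).2.1.1) fun z hz z' hz' m k =>
        mem_selIn.2 ⟨mem_selIn.2 ⟨mem_product.2 ⟨hT hz, hT hz'⟩, m, k⟩,
          insert_subset hz (singleton_subset_iff.2 hz')⟩
    have a' : ((G.found T).card : ℝ) ≤ (Zl.image ln).card +
        (selIn C fun x => ({x.1, x.2} : Finset (Pt × Pt)) ⊆ T).card := by exact_mod_cast a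
    have b : (s : ℝ) * (Zl.image ln).card ≤ 2 * Zl.card := by exact_mod_cast G.Found_image hC
    have b' : ((Zl.image ln).card : ℝ) ≤ 2 * Zl.card / s := by
      rw [le_div_iff₀ hs0]
      linarith
    have c : 0 ≤ (Zl.card : ℝ) / s := by positivity
    simp only [mul_div_assoc] at n2 b' ⊢
    linarith
  · have a : (selIn Zl fun z => ln z ∉ G.found T) ⊆
        (selIn Zl fun z => 4 * (A z ∩ Ω).card < s) ∪
          selIn B fun z => ((T ∩ A z).card : ℝ) ≤ 2 * 15 := by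
      intro z hz
      obtain ⟨z1, z2⟩ := mem_selIn.1 hz
      by_cases c : 4 * (A z ∩ Ω).card < s
      · exact mem_union_left _ (mem_selIn.2 ⟨z1, c⟩)
      refine mem_union_right _ (mem_selIn.2 ⟨mem_selIn.2 ⟨z1, not_lt.1 c⟩, ?_⟩)
      by_contra d
      refine z2 (mem_selIn.2 ⟨(hC.line z z1).1, ?_⟩)
      have e : T ∩ A z ⊆ G.Fl (ln z) ∩ T := by
        intro u hu
        obtain ⟨u1, u2⟩ := mem_inter.1 hu
        obtain ⟨u3, u4⟩ := mem_selIn.1 u2
        exact mem_inter.2 ⟨u4 ▸ (hC.line u u3).2, u1⟩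
      have e1 : ((T ∩ A z).card : ℝ) ≤ (G.Fl (ln z) ∩ T).card := by
        exact_mod_cast card_le_card e
      have e2 : (2 : ℝ) ≤ (G.Fl (ln z) ∩ T).card := by linarith [not_le.1 d]
      exact_mod_cast e2
    have a1 := (card_le_card a).trans (card_union_le _ _)
    have a2 : ((selIn Zl fun z => ln z ∉ G.found T).card : ℝ) ≤
        (selIn Zl fun z => 4 * (A z ∩ Ω).card < s).card +
          (selIn B fun z => ((T ∩ A z).card : ℝ) ≤ 2 * 15).card := by exact_mod_cast a1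
    have a3 : ((selIn Zl fun z => 4 * (A z ∩ Ω).card < s).card : ℝ) ≤ 2 * (Zl \ Zs).card := by
      exact_mod_cast G.Found_small Zs hC
    exact a2.trans (add_le_add a3 n3.le)

theorem card_poor_le (j : ℕ) (Ts T' : Finset (Pt × Pt)) :
    ((G.poor j Ts T').card : ℝ) ≤ (G.found T').card * ((q : ℝ) ^ 2 * Real.exp (1 - j)) := by
  have hb : 0 ≤ (q : ℝ) ^ 2 * Real.exp (1 - j) := by positivity
  have h1 : ((G.poor j Ts T').card : ℝ) ≤ ∑ l ∈ selIn (G.found T')
      (fun l => G.rr Ts l < (q : ℝ) ^ 2 * Real.exp (1 - j)),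
      ((G.Fl l ∩ G.pool (G.PP Ts) (G.QQ Ts)).card : ℝ) := by
    rw [← Nat.cast_sum]
    exact Nat.cast_le.2 card_biUnion_le
  refine h1.trans ((sum_le_sum (g := fun _ => (q : ℝ) ^ 2 * Real.exp (1 - j))
    fun l hl => ?_).trans ?_)
  · refine le_trans ?_ (mem_selIn.1 hl).2.le
    have h2 : G.Fl l ∩ G.pool (G.PP Ts) (G.QQ Ts) ⊆ (l ∩ G.PP Ts) ×ˢ (G.perp l ∩ G.QQ Ts) := by
      intro z hz
      obtain ⟨a, b⟩ := mem_inter.1 hz
      rw [mem_Fl] at a
      rw [pool, mem_sel] at b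
      exact mem_product.2 ⟨mem_inter.2 ⟨a.1, b.2.1⟩, mem_inter.2 ⟨G.mem_perp.2 a.2, b.2.2⟩⟩
    have h3 := card_le_card h2
    rw [card_product] at h3
    rw [rr]
    exact_mod_cast h3
  · rw [sum_const, nsmul_eq_mul]
    exact mul_le_mul_of_nonneg_right (by exact_mod_cast card_le_card (selIn_subset _ _)) hb

end PG
end Pool.Agent.Work.MP_e10cd8_co.Four
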