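import Pool.Agent.Work.MP_e10cd8_co.Exact.XDefs
import Pool.Agent.Work.MP_e10cd8_co.Four.Prob3
import Pool.Agent.Work.MP_e10cd8_co.Four.Red1

/-! Containers from rich lines, and finding the lines of cliques (paper H). -/

namespace Pool.Agent.Work.MP_e10cd8_co.Four
namespace PG
open Finset

variable {q : ℕ} {Pt : Type} [Fintype Pt] [DecidableEq Pt] (G : PG q Pt)

/-- `q` lines with at least `c` points of `P` each carry many points of `P` -/
theorem LineC_big (Ls : Finset (Finset Pt)) (f : Finset Pt → Finset Pt)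
    (hf : ∀ l ∈ Ls, f l ∈ G.lines) (hi : ∀ l ∈ Ls, ∀ l' ∈ Ls, f l = f l' → l = l')
    (hc : Ls.card = q) (P : Finset Pt) {c : ℝ} (c0 : 0 ≤ c)
    (h : ∀ l ∈ Ls, c ≤ (f l ∩ P).card) : c ^ 2 ≤ 2 * ((P ∩ Ls.biUnion f).card : ℝ) := by
  have hq : (2 : ℝ) ≤ q := by exact_mod_cast G.two_le
  have hX : ∀ l ∈ Ls, f l ∩ P ⊆ P ∩ Ls.biUnion f ∩ f l := fun l hl a ha => by
    simp only [mem_inter, mem_biUnion] at ha ⊢
    exact ⟨⟨ha.2, l, hl, ha.1⟩, ha.1⟩
  generalize P ∩ Ls.biUnion f = X at hX ⊢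
  have e : ∀ A : Finset Pt, ∑ a ∈ X, (if a ∈ A then (1 : ℝ) else 0) = (X ∩ A).card := fun A => by
    rw [sum_boole, filter_mem_eq_inter]
  have h1 : (q : ℝ) * c ≤ ∑ a ∈ X, ∑ l ∈ Ls, (if a ∈ f l then (1 : ℝ) else 0) := by
    rw [sum_comm, ← hc, ← nsmul_eq_mul, ← sum_const]
    refine sum_le_sum fun l hl => (h l hl).trans ?_
    rw [e]
    exact_mod_cast card_le_card (hX l hl)
  have h2 : ∑ a ∈ X, (∑ l ∈ Ls, (if a ∈ f l then (1 : ℝ) else 0)) ^ 2 ≤ q * (2 * q) := by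
    have k : ∀ a, (∑ l ∈ Ls, (if a ∈ f l then (1 : ℝ) else 0)) ^ 2 =
        ∑ l ∈ Ls, ∑ l' ∈ Ls, (if a ∈ f l ∩ f l' then (1 : ℝ) else 0) := fun a => by
      rw [sq, sum_mul_sum]
      refine sum_congr rfl fun l _ => sum_congr rfl fun l' _ => ?_
      by_cases k1 : a ∈ f l <;> by_cases k2 : a ∈ f l' <;> simp [k1, k2]
    rw [sum_congr rfl fun a _ => k a, sum_comm]
    have h3 : ∀ l ∈ Ls, ∑ a ∈ X, ∑ l' ∈ Ls, (if a ∈ f l ∩ f l' then (1 : ℝ) else 0) ≤ 2 * q := by
      intro l hl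
      have h4 : ∀ l' ∈ Ls, ∑ a ∈ X, (if a ∈ f l ∩ f l' then (1 : ℝ) else 0) ≤
          (if l = l' then (q : ℝ) else 0) + 1 := by
        intro l' hl'
        rw [e]
        split_ifs with k
        · exact_mod_cast (card_le_card (inter_subset_right.trans inter_subset_left :
            X ∩ (f l ∩ f l') ⊆ f l)).trans_eq (G.card_line (hf l hl))
        · rw [zero_add]
          have : (X ∩ (f l ∩ f l')).card ≤ 1 := card_le_one.2 fun a ha b hb => by_contra fun n => by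
            simp only [mem_inter] at ha hb
            exact k (hi l hl l' hl'
              (G.lines_eq_of_two (hf l hl) (hf l' hl') n ha.2.1 hb.2.1 ha.2.2 hb.2.2))
          exact_mod_cast this
      rw [sum_comm]
      refine (sum_le_sum h4).trans_eq ?_
      rw [sum_add_distrib, sum_ite_eq, if_pos hl, sum_const, hc, nsmul_eq_mul, mul_one, two_mul]
    refine (sum_le_sum h3).trans_eq ?_
    rw [sum_const, hc, nsmul_eq_mul]
  have h5 := sq_sum_le_card_mul_sum_sq (s := X)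
    (f := fun a => ∑ l ∈ Ls, (if a ∈ f l then (1 : ℝ) else 0))
  have h6 := pow_le_pow_left₀ (by positivity) h1 2
  have h7 := mul_le_mul_of_nonneg_left h2 (Nat.cast_nonneg X.card)
  refine le_of_mul_le_mul_left (a := (q : ℝ) ^ 2) ?_ (by positivity)
  linarith only [h5, h6, h7]

/-- the container of one side -/
theorem LineC_one (Ls : Finset (Finset Pt)) (f : Finset Pt → Finset Pt)
    (hf : ∀ l ∈ Ls, f l ∈ G.lines) (hi : ∀ l ∈ Ls, ∀ l' ∈ Ls, f l = f l' → l = l')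
    (hc : Ls.card = q) (P : Finset Pt) {a E : ℝ} (a0 : 0 < a) (hE : a ^ 2 * E = 1)
    (h : ∀ l ∈ Ls, (q : ℝ) ^ 2 * a ≤ ((f l ∩ P).card : ℝ) * (q + 1)) {F : Finset (Finset Pt)}
    (hF : ∀ X ⊆ Ls.biUnion f, X.Nonempty → ((Ls.biUnion f).card : ℝ) ≤ 16 * E * X.card →
      ∃ Y ∈ F, G.low (1 / 8) X ⊆ Y ∧ (Y.card : ℝ) * X.card ≤ 4 * (q : ℝ) ^ 4) :
    ∃ Y ∈ F, G.low (1 / 8) (P ∩ Ls.biUnion f) ⊆ Y ∧ (Y.card : ℝ) ≤ 32 * E * (q : ℝ) ^ 2 := by
  have hq : (2 : ℝ) ≤ q := by exact_mod_cast G.two_le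
  have q0 : (0 : ℝ) < q := by linarith only [hq]
  have E0 : 0 < E := by
    have : 0 < a ^ 2 * E := by rw [hE]; exact one_pos
    exact (mul_pos_iff_of_pos_left (by positivity)).1 this
  have h1 := G.LineC_big Ls f hf hi hc P (c := q * a / 2) (by positivity) fun l hl => by
    refine le_of_mul_le_mul_left (a := 2 * (q : ℝ)) ?_ (by positivity)
    have := mul_le_mul_of_nonneg_left (show (q : ℝ) + 1 ≤ 2 * q by linarith only [hq])
      (Nat.cast_nonneg (f l ∩ P).card)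
    linarith only [this, h l hl]
  have h2 : (q : ℝ) ^ 2 ≤ 8 * E * (P ∩ Ls.biUnion f).card := by
    have k1 := mul_le_mul_of_nonneg_left h1 E0.le
    have k2 : (q : ℝ) ^ 2 * (a ^ 2 * E) = (q : ℝ) ^ 2 := by rw [hE, mul_one]
    linarith only [k1, k2]
  have h3 : ((Ls.biUnion f).card : ℝ) ≤ q * (q + 1) := by
    have := card_biUnion_le_card_mul Ls f (q + 1) fun l hl => (G.card_line (hf l hl)).le
    rw [hc] at this
    exact_mod_cast this
  have h4 : (P ∩ Ls.biUnion f).Nonempty := by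
    rw [← card_pos, ← Nat.cast_pos (α := ℝ)]
    have : 0 < 8 * E * ((P ∩ Ls.biUnion f).card : ℝ) := lt_of_lt_of_le (by positivity) h2
    exact (mul_pos_iff_of_pos_left (by positivity)).1 this
  obtain ⟨Y, hY, y1, y2⟩ := hF _ inter_subset_right h4 (by
    linarith only [h2, h3, mul_le_mul_of_nonneg_left hq q0.le, q0])
  refine ⟨Y, hY, y1, le_of_mul_le_mul_left (a := (q : ℝ) ^ 2) ?_ (by positivity)⟩
  have k1 := mul_le_mul_of_nonneg_left h2 (Nat.cast_nonneg Y.card)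
  have k2 := mul_le_mul_of_nonneg_left y2 E0.le
  linarith only [k1, k2]

/-- Containers from `q` rich lines: `boost` for the union of the lines and of their perps. -/
theorem line_cont (hq : 1000 ≤ q) (j : ℕ) :
    ∃ F : Finset (Finset Pt × Finset Pt),
      (F.card : ℝ) ≤ Real.exp (7 * q * Real.log q + 2600 * q * Real.log q * (4 + 2 * j)) ∧
      ∀ (P Q : Finset Pt) (Ls : Finset (Finset Pt)), Ls ⊆ G.lines → Ls.card = q →
        (∀ l ∈ Ls, (q : ℝ) ^ 2 * Real.exp (-j) ≤ ((l ∩ P).card : ℝ) * (G.perp l ∩ Q).card) →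
        ∃ XY ∈ F, ∃ P' ⊆ P, ∃ Q' ⊆ Q, G.low (1 / 8) P' ⊆ XY.2 ∧ G.low (1 / 8) Q' ⊆ XY.1 ∧
          ((G.pool XY.1 XY.2).card : ℝ) ≤ 1100 * Real.exp (4 * j) * (q : ℝ) ^ 3 := by
  have q1 : (1000 : ℝ) ≤ q := by exact_mod_cast hq
  have q0 : (0 : ℝ) < q := by linarith only [q1]
  have L0 : 0 < Real.log q := Real.log_pos (by linarith only [q1])
  have E1 : 1 ≤ Real.exp (2 * j) := Real.one_le_exp (by positivity)
  choose B b1 b2 using fun U => G.boost hq U (Om := 16 * Real.exp (2 * j))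
    (by linarith only [E1])
  refine ⟨(selIn G.lines.powerset fun T => T.card ≤ q).biUnion fun Ls =>
    B (Ls.biUnion G.perp) ×ˢ B (Ls.biUnion id), ?_, fun P Q Ls h1 h2 h3 => ?_⟩
  · have k1 : Real.log (16 * Real.exp (2 * j)) ≤ 3 + 2 * j := by
      rw [Real.log_mul (by norm_num) (Real.exp_pos _).ne', Real.log_exp,
        show (16 : ℝ) = 2 ^ 4 by norm_num, Real.log_pow]
      push_cast
      linarith only [Real.log_two_lt_d9]
    have k2 : ∀ U, ((B U).card : ℝ) ≤ Real.exp (1300 * q * Real.log q * (4 + 2 * j)) := fun U =>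
      (b1 U).trans (Real.exp_le_exp.2
        (mul_le_mul_of_nonneg_left (by linarith only [k1]) (by positivity)))
    have k3 : G.lines.card + 1 ≤ q ^ 7 := by
      have p1 : q ^ 3 + q ^ 2 + q + 1 ≤ 4 * q ^ 3 := by
        have := Nat.pow_le_pow_right (show 0 < q by omega) (show 2 ≤ 3 by norm_num)
        have := Nat.le_self_pow (show 3 ≠ 0 by norm_num) q
        omega
      have p2 := G.card_lines_le.trans (Nat.pow_le_pow_left p1 2)
      have p3 : 1 ≤ q ^ 6 := Nat.one_le_pow _ _ (by omega)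
      have p4 := Nat.mul_le_mul_left (q ^ 6) hq
      linarith only [p2, p3, p4]
    have k4 : ((selIn G.lines.powerset fun T => T.card ≤ q).card : ℝ) ≤
        Real.exp (7 * q * Real.log q) := by
      have := (card_small_le G.lines q).trans (Nat.pow_le_pow_left k3 q)
      rw [show 7 * q * Real.log q = ((7 * q : ℕ) : ℝ) * Real.log q by push_cast; ring,
        Real.exp_nat_mul, Real.exp_log q0, pow_mul]
      exact_mod_cast this
    refine (Nat.cast_le.2 card_biUnion_le).trans ?_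
    push_cast
    refine (sum_le_card_nsmul _ _ (Real.exp (2600 * q * Real.log q * (4 + 2 * j)))
      fun Ls _ => ?_).trans ?_
    · rw [card_product, Nat.cast_mul]
      refine (mul_le_mul (k2 _) (k2 _) (Nat.cast_nonneg _) (Real.exp_pos _).le).trans_eq ?_
      rw [← Real.exp_add]
      congr 1
      ring
    · rw [nsmul_eq_mul, Real.exp_add]
      exact mul_le_mul_of_nonneg_right k4 (Real.exp_pos _).le
  · have hE : Real.exp (-j) ^ 2 * Real.exp (2 * j) = 1 := by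
      rw [sq, ← Real.exp_add, ← Real.exp_add, ← Real.exp_zero]
      congr 1
      ring
    have c1 : ∀ l ∈ G.lines, ∀ R : Finset Pt, ((l ∩ R).card : ℝ) ≤ q + 1 := fun l hl R => by
      exact_mod_cast (card_le_card inter_subset_left).trans_eq (G.card_line hl)
    obtain ⟨Y, y0, y1, y2⟩ := G.LineC_one Ls id (fun l hl => h1 hl) (fun _ _ _ _ e => e) h2 P
      (Real.exp_pos _) hE (fun l hl => (h3 l hl).trans (mul_le_mul_of_nonneg_left
        (c1 _ (G.perp_mem_lines (h1 hl)) Q) (Nat.cast_nonneg _))) (b2 _)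
    obtain ⟨X, x0, x1, x2⟩ := G.LineC_one Ls G.perp (fun l hl => G.perp_mem_lines (h1 hl))
      (fun l hl l' hl' e => by rw [← G.perp_perp (h1 hl), e, G.perp_perp (h1 hl')]) h2 Q
      (Real.exp_pos _) hE (fun l hl => (h3 l hl).trans ((mul_le_mul_of_nonneg_right
        (c1 _ (h1 hl) P) (Nat.cast_nonneg _)).trans_eq (mul_comm _ _))) (b2 _)
    refine ⟨(X, Y), mem_biUnion.2 ⟨Ls, mem_selIn.2 ⟨mem_powerset.2 h1, h2.le⟩,
      mem_product.2 ⟨x0, y0⟩⟩, _, inter_subset_left, _, inter_subset_left, y1, x1, ?_⟩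
    have e4 : Real.exp (4 * j) = Real.exp (2 * j) ^ 2 := by
      rw [sq, ← Real.exp_add]
      congr 1
      ring
    rw [e4]
    generalize Real.exp (2 * j) = E at E1 x2 y2 ⊢
    have m1 : (X.card : ℝ) * Y.card ≤ (32 * E * (q : ℝ) ^ 2) ^ 2 := by
      rw [sq (32 * E * _)]
      exact mul_le_mul x2 y2 (Nat.cast_nonneg _) (by positivity)
    have m2 : Real.sqrt (X.card * Y.card) ≤ 32 * E * (q : ℝ) ^ 2 :=
      Real.sqrt_le_iff.2 ⟨by positivity, m1⟩
    have m3 : (X.card : ℝ) * Y.card / q ≤ 1024 * E ^ 2 * (q : ℝ) ^ 3 := by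
      rw [div_le_iff₀ q0]
      linarith only [m1]
    have m4 := mul_le_mul_of_nonneg_left m2 q0.le
    have m5 := mul_le_mul_of_nonneg_left E1 (show 0 ≤ E * (q : ℝ) ^ 3 by positivity)
    have m6 : 0 ≤ E ^ 2 * (q : ℝ) ^ 3 := by positivity
    linarith only [G.card_pool_le X Y, m3, m4, m5, m6]

end PG
end Pool.Agent.Work.MP_e10cd8_co.Four
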