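import Pool.Agent.Work.MP_e10cd8_co.Exact.WtA

/-! Weights of the prefixes and of the covers (paper B, C). -/

namespace Pool.Agent.Work.MP_e10cd8_co.Four

theorem Wt_mono {φ : Type} {p : ℝ} (hp : 0 ≤ p) (w0 : ℕ) {C C' : Finset (Finset φ × Finset φ)}
    (h : C ⊆ C') : wtC p w0 C ≤ wtC p w0 C' :=
  Finset.sum_le_sum_of_subset_of_nonneg h fun _ _ _ => by positivity

theorem Wt_k {q D k : ℕ} (h : XPar q D k) : (10 : ℝ) ^ 10 ≤ k := by
  have q1 : (1000 : ℝ) ≤ q := by exact_mod_cast h.hq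
  have hL := h.L_ge
  refine le_trans ?_ h.hk1
  have : (1 : ℝ) * 1 ≤ q * Real.log q := mul_le_mul (by linarith) (by linarith) (by norm_num)
    (by linarith)
  rw [mul_assoc _ (q : ℝ)]
  nlinarith

theorem Wt_exp {q D k : ℕ} (h : XPar q D k) : 2 * ((k : ℝ) + 4) ≤ Real.exp (k / 10 ^ 4) := by
  have hk := Wt_k h
  have := Real.quadratic_le_exp_of_nonneg (show (0 : ℝ) ≤ k / 10 ^ 4 by positivity)
  nlinarith

/-- the sum over the second sample -/
theorem Wt_small {q D k : ℕ} (h : XPar q D k) (j : ℕ) {φ : Type} [DecidableEq φ] (Ω : Finset φ)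
    (hΩ : (Ω.card : ℝ) ≤ 35 * Real.exp (2 * j) * (q : ℝ) ^ 3) :
    ∑ T ∈ selIn Ω.powerset (fun T => (T.card : ℝ) ≤ xt2 q D k), xp q k ^ T.card ≤
      Real.exp (k * (j + 1) / 10 ^ 4) := by
  have hk := Wt_k h
  have k0 : (0 : ℝ) < k := by linarith [show (0 : ℝ) < 10 ^ 10 by norm_num]
  have q0 : (0 : ℝ) < q := by exact_mod_cast (show 0 < q by have := h.hq; omega)
  have D1 : (10 : ℝ) ^ 11 ≤ D := by exact_mod_cast h.D_ge
  have D0 : (0 : ℝ) < D := by linarith [show (0 : ℝ) < 10 ^ 11 by norm_num]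
  have hl := h.ell_ge
  have m1 : 2000 ≤ xm2 q := by unfold xm2; linarith
  have t0 : 0 < xt2 q D k := by
    unfold xt2
    have : 0 < xm2 q := by linarith
    positivity
  have e1 : 1 ≤ Real.exp (2 * (j : ℝ)) := Real.one_le_exp (by positivity)
  have e0 := Real.exp_pos (2 * (j : ℝ))
  have x0 : 0 < xt2 q D k / (35 * Real.exp (2 * j) * k) := by positivity
  have x1 : xt2 q D k / (35 * Real.exp (2 * j) * k) ≤ 1 := by
    refine div_le_one_of_le₀ (h.xt2_le.trans ?_) (by positivity)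
    nlinarith
  refine (sum_small_le Ω (XPar.xp_nonneg q k) x0 x1).trans (Real.exp_le_exp.2 ?_)
  refine le_trans ?_ (h.xt2_mul_le j)
  have a1 : 1 / (xt2 q D k / (35 * Real.exp (2 * j) * k)) ≤ Real.exp (2 * j) * Real.log q := by
    rw [one_div_div, div_le_iff₀ t0]
    have b1 : 35 * (k : ℝ) ≤ Real.log q * xt2 q D k := by
      have b2 : (D : ℝ) ≤ Real.log q := le_trans (by nlinarith) h.hD1
      have b3 : (D : ℝ) * xt2 q D k = 10 * xm2 q * k := by unfold xt2; field_simp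
      have b4 := mul_le_mul_of_nonneg_right b2 t0.le
      nlinarith
    nlinarith
  have a2 : Real.log (1 / (xt2 q D k / (35 * Real.exp (2 * j) * k))) ≤
      2 * j + Real.log (Real.log q) := by
    refine (Real.log_le_log (by positivity) a1).trans (le_of_eq ?_)
    rw [Real.log_mul e0.ne' (by linarith [h.L_ge, show (0 : ℝ) < 10 ^ 22 by norm_num]),
      Real.log_exp]
  have a3 : xt2 q D k / (35 * Real.exp (2 * j) * k) * xp q k * Ω.card ≤ xt2 q D k := by
    refine (mul_le_mul_of_nonneg_left hΩ (mul_nonneg x0.le (XPar.xp_nonneg q k))).trans ?_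
    have : xt2 q D k / (35 * Real.exp (2 * j) * k) * xp q k *
        (35 * Real.exp (2 * j) * (q : ℝ) ^ 3) = xt2 q D k / 2 ^ 80 := by
      unfold xp; field_simp
    rw [this]
    exact div_le_self t0.le (by norm_num)
  nlinarith [mul_le_mul_of_nonneg_left a2 t0.le]

namespace PG
open Finset

variable {q : ℕ} {Pt : Type} [Fintype Pt] [DecidableEq Pt] (G : PG q Pt)

/-- the items of the menu -/
noncomputable def Wt_menu (k j : ℕ) (X Y : Finset Pt) (Ts T' : Finset (Pt × Pt)) :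
    Finset (Finset (Pt × Pt)) :=
  insert (G.BB Ts) (insert (G.det T' ∩ G.pool X Y) (insert (G.poor j Ts T')
    ((range (k + 1)).image fun s : ℕ =>
      G.st2 (G.PP Ts) (G.QQ Ts) (xm2 q) (60160 * (6 * s + 1) * q / k) T')))

theorem Wt_menu_card (k j : ℕ) (X Y : Finset Pt) (Ts T' : Finset (Pt × Pt)) :
    (G.Wt_menu k j X Y Ts T').card ≤ k + 4 := by
  unfold Wt_menu
  refine (card_insert_le _ _).trans (Nat.succ_le_succ ((card_insert_le _ _).trans
    (Nat.succ_le_succ ((card_insert_le _ _).trans (Nat.succ_le_succ (card_image_le.trans ?_))))))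
  simp

theorem Wt_menu_mem {k j : ℕ} {X Y : Finset Pt} {Ts T' B : Finset (Pt × Pt)}
    (h : G.menu k j X Y Ts T' B) : B ∈ G.Wt_menu k j X Y Ts T' := by
  unfold Wt_menu
  rcases h with h | h | h | ⟨s, hs, h⟩
  · exact mem_insert.2 (Or.inl h)
  · exact mem_insert_of_mem (mem_insert.2 (Or.inl h))
  · exact mem_insert_of_mem (mem_insert_of_mem (mem_insert.2 (Or.inl h)))
  · exact mem_insert_of_mem (mem_insert_of_mem (mem_insert_of_mem
      (mem_image.2 ⟨s, mem_range.2 (by omega), h.symm⟩)))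

/-- `Cov` is the image of the tuples (pair, prefix, `T'`, menu item); at most `k + 4` menu items;
`sum_small_le` with `x = t2 / (35 exp (2 j) k)` and `xt2_mul_le`; `pool_factor`. The costs add up
to at most `k (y+1) / 1500`, the gain is `(10 + y) k / 256`. -/
theorem wt_Cov {D k : ℕ} (h : XPar q D k) (j : ℕ) (F : Finset (Finset Pt × Finset Pt)) {β y : ℝ}
    (hy : 0 ≤ y) (hj : (j : ℝ) ≤ 2 * y) (hF : (F.card : ℝ) ≤ Real.exp (k * (y + 1) / 4000))
    (hβ : β ≤ 2 ^ 52 * Real.exp (-y)) :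
    wtC (xp q k) (xw k) (G.Cov D k j F β) ≤ Real.exp (-(k : ℝ) / 30) := by
  have p0 := XPar.xp_nonneg q k
  have hk := Wt_k h
  have k0 : (0 : ℝ) ≤ k := Nat.cast_nonneg k
  set E := Real.exp (-((10 + y) * k / 256)) with hE
  have E0 : 0 ≤ E := (Real.exp_pos _).le
  have sub : G.Cov D k j F β ⊆ F.biUnion fun XY =>
      (sel fun x : Finset (Pt × Pt) × Finset (Pt × Pt) => G.Pfx j XY.1 XY.2 x.1 x.2).biUnion
        fun x => (selIn (G.pool (G.PP x.2) (G.QQ x.2)).powerset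
          fun T' => (T'.card : ℝ) ≤ xt2 q D k).biUnion fun T' =>
          (selIn (G.Wt_menu k j XY.1 XY.2 x.2 T')
            fun B => Disjoint x.1 T' ∧ (B.card : ℝ) ≤ β * (q : ℝ) ^ 3).image
              fun B => (x.1 ∪ T', B) := by
    intro x hx
    obtain ⟨XY, h1, T, Ts, T', h2, h3, h4, h5, h6, h7, h8⟩ := mem_sel.1 hx
    refine mem_biUnion.2 ⟨XY, h1, mem_biUnion.2 ⟨(T, Ts), mem_sel.2 h2, mem_biUnion.2
      ⟨T', mem_selIn.2 ⟨mem_powerset.2 h3, h4⟩, mem_image.2 ⟨x.2, mem_selIn.2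
        ⟨G.Wt_menu_mem h7, h5, h8⟩, ?_⟩⟩⟩⟩
    exact Prod.ext h6.symm rfl
  refine (Wt_mono p0 _ sub).trans ((wtC_biUnion_le p0 _ _ _).trans ?_)
  refine (sum_le_card_nsmul _ _ (2 * Real.exp (2 * xt0 q * (4 * j + 25)) *
    (Real.exp (k * (j + 1) / 10 ^ 4) * ((k + 4) * E))) fun XY _ => ?_).trans ?_
  · refine (wtC_biUnion_le p0 _ _ _).trans ?_
    refine le_trans ?_ (mul_le_mul_of_nonneg_right (G.wt_pfx h j XY.1 XY.2) (by positivity))
    rw [sum_mul]
    refine sum_le_sum fun x hx => (wtC_biUnion_le p0 _ _ _).trans ?_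
    have hs := Wt_small h j (G.pool (G.PP x.2) (G.QQ x.2)) (mem_sel.1 hx).2.1
    refine le_trans ?_ (mul_le_mul_of_nonneg_left
      (mul_le_mul_of_nonneg_right hs (by positivity)) (by positivity))
    rw [sum_mul, mul_sum]
    refine sum_le_sum fun T' _ => (wtC_image_le p0 _ _ _).trans ?_
    refine (sum_le_card_nsmul _ _ (xp q k ^ x.1.card * (xp q k ^ T'.card * E))
      fun B hB => ?_).trans ?_
    · obtain ⟨-, h1, h2⟩ := mem_selIn.1 hB
      have := h.pool_factor (B := B.card) hy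
        (h2.trans (mul_le_mul_of_nonneg_right hβ (by positivity)))
      simp only []
      rw [card_union_of_disjoint h1, pow_add, mul_assoc]
      gcongr
    · have : ((selIn (G.Wt_menu k j XY.1 XY.2 x.2 T') fun B => Disjoint x.1 T' ∧
          (B.card : ℝ) ≤ β * (q : ℝ) ^ 3).card : ℝ) ≤ k + 4 := by
        exact_mod_cast (card_le_card (selIn_subset _ _)).trans (G.Wt_menu_card k j _ _ _ _)
      rw [nsmul_eq_mul]
      refine (mul_le_mul_of_nonneg_right this (by positivity)).trans (le_of_eq ?_)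
      ring
  · rw [nsmul_eq_mul]
    have a1 := Wt_exp h
    have j0 : (0 : ℝ) ≤ j := Nat.cast_nonneg j
    calc _ ≤ Real.exp (k * (y + 1) / 4000) * (2 * Real.exp (2 * xt0 q * (4 * j + 25)) *
          (Real.exp (k * (j + 1) / 10 ^ 4) * ((k + 4) * E))) := by gcongr
      _ = Real.exp (k * (y + 1) / 4000) * Real.exp (2 * xt0 q * (4 * j + 25)) *
          Real.exp (k * (j + 1) / 10 ^ 4) * E * (2 * (k + 4)) := by ring
      _ ≤ Real.exp (k * (y + 1) / 4000) * Real.exp (2 * xt0 q * (4 * j + 25)) *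
          Real.exp (k * (j + 1) / 10 ^ 4) * E * Real.exp (k / 10 ^ 4) := by gcongr
      _ ≤ _ := by
        rw [hE, ← Real.exp_add, ← Real.exp_add, ← Real.exp_add, ← Real.exp_add, Real.exp_le_exp]
        have b1 : 2 * xt0 q * (4 * j + 25) ≤ 2 * (k / 10 ^ 6) * (4 * (2 * y) + 25) := by
          have := h.xt0_le
          calc _ ≤ 2 * (k / 10 ^ 6) * (4 * (j : ℝ) + 25) := by gcongr
            _ ≤ _ := by gcongr
        have b2 : (k : ℝ) * (j + 1) / 10 ^ 4 ≤ k * (2 * y + 1) / 10 ^ 4 := by gcongr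
        have b3 := mul_nonneg k0 hy
        nlinarith

/-- membership in the cover from an outcome of the rounds -/
theorem hits_Cov {D k j : ℕ} {F : Finset (Finset Pt × Finset Pt)} {β : ℝ}
    {XY : Finset Pt × Finset Pt} (hXY : XY ∈ F) {Z T Ts Zs T' B : Finset (Pt × Pt)}
    (ho : G.Out k j XY.1 XY.2 Z T Ts Zs) (hT' : T' ⊆ Zs) (hc : (T'.card : ℝ) ≤ xt2 q D k)
    (hm : G.menu k j XY.1 XY.2 Ts T' B) (hB : (B.card : ℝ) ≤ β * (q : ℝ) ^ 3)
    (hw : (xw k : ℝ) + xt2 q D k ≤ (Zs ∩ B).card) : hits (G.Cov D k j F β) (xw k) Z := by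
  refine ⟨(T ∪ T', B), mem_sel.2 ⟨XY, hXY, T, Ts, T', ho.pfx, hT'.trans (ho.zsub.trans ho.all),
    hc, (ho.disj.mono_left hT').symm, rfl, hm, hB⟩,
    union_subset ho.sub (hT'.trans ho.zsub), ?_⟩
  have h1 : (Zs ∩ B) \ T' ⊆ (Z ∩ B) \ (T ∪ T') := by
    intro z hz
    obtain ⟨a, b⟩ := mem_sdiff.1 hz
    obtain ⟨a1, a2⟩ := mem_inter.1 a
    exact mem_sdiff.2 ⟨mem_inter.2 ⟨ho.zsub a1, a2⟩, fun e => (mem_union.1 e).elim
      (disjoint_left.1 ho.disj a1) b⟩
  refine le_trans ?_ (card_le_card h1)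
  have h2 : ((Zs ∩ B).card : ℝ) ≤ ((Zs ∩ B) \ T').card + T'.card := by
    exact_mod_cast card_le_card_sdiff_add_card
  have : (xw k : ℝ) ≤ ((Zs ∩ B) \ T').card := by linarith
  exact_mod_cast this

end PG
end Pool.Agent.Work.MP_e10cd8_co.Four
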