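import Pool.Agent.Work.MP_e10cd8_co.Exact.Rnd3
import Pool.Agent.Work.MP_e10cd8_co.Exact.Wt
import Pool.Agent.Work.MP_e10cd8_co.Exact.St2
import Pool.Agent.Work.MP_e10cd8_co.Exact.LineC
import Pool.Agent.Work.MP_e10cd8_co.Exact.Found

/-! The case of cliques of medium size (paper H). -/

namespace Pool.Agent.Work.MP_e10cd8_co.Four
namespace PG
open Finset

variable {q : ℕ} {Pt : Type} [Fintype Pt] [DecidableEq Pt] (G : PG q Pt)

theorem CapL_mem_pool {X Y : Finset Pt} {z : Pt × Pt} :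
    z ∈ G.pool X Y ↔ z.1 ∈ G.pl z.2 ∧ z.1 ∈ X ∧ z.2 ∈ Y := by simp [pool]

/-- the increasing family of container pairs -/
theorem CapL_fam {D k : ℕ} (h : XPar q D k) :
    ∃ F : ℕ → Finset (Finset Pt × Finset Pt), Monotone F ∧
      (∀ j : ℕ, ((F j).card : ℝ) ≤ Real.exp (k * ((j : ℝ) / 2 + 1) / 4000)) ∧
      ∀ (j : ℕ) (P Q : Finset Pt) (Ls : Finset (Finset Pt)), Ls ⊆ G.lines → Ls.card = q →
        (∀ l ∈ Ls, (q : ℝ) ^ 2 * Real.exp (-j) ≤ ((l ∩ P).card : ℝ) * (G.perp l ∩ Q).card) →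
        ∃ XY ∈ F j, ∃ P' ⊆ P, ∃ Q' ⊆ Q, G.low (1 / 8) P' ⊆ XY.2 ∧ G.low (1 / 8) Q' ⊆ XY.1 ∧
          ((G.pool XY.1 XY.2).card : ℝ) ≤ 1100 * Real.exp (4 * j) * (q : ℝ) ^ 3 := by
  choose F0 hF0 hF1 using G.line_cont h.hq
  refine ⟨fun j => (range (j + 1)).biUnion F0, ?_, ?_, ?_⟩
  · intro i j hij
    exact biUnion_subset_biUnion_of_subset_left _ (range_subset_range.2 (by omega))
  · intro j
    have hq : (1000 : ℝ) ≤ q := by exact_mod_cast h.hq
    have hL := h.L_ge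
    have hk := h.hk1
    have hj : (0 : ℝ) ≤ j := Nat.cast_nonneg _
    have hA : (1 : ℝ) ≤ q * Real.log q := by nlinarith
    set A : ℝ := q * Real.log q with hAd
    have h1 : (((range (j + 1)).biUnion F0).card : ℝ) ≤ ∑ i ∈ range (j + 1), ((F0 i).card : ℝ) := by
      exact_mod_cast card_biUnion_le
    have h2 : ∀ i ∈ range (j + 1), ((F0 i).card : ℝ) ≤ Real.exp (7 * A + 2600 * A * (4 + 2 * j)) := by
      intro i hi
      refine (hF0 i).trans (Real.exp_le_exp.2 ?_)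
      have : (i : ℝ) ≤ j := by exact_mod_cast Nat.lt_succ_iff.1 (mem_range.1 hi)
      have e1 : 7 * (q : ℝ) * Real.log q = 7 * A := by rw [hAd]; ring
      have e2 : 2600 * (q : ℝ) * Real.log q = 2600 * A := by rw [hAd]; ring
      rw [e1, e2]
      nlinarith
    have h3 := sum_le_card_nsmul _ _ _ h2
    rw [card_range, nsmul_eq_mul] at h3
    have h4 : ((j + 1 : ℕ) : ℝ) ≤ Real.exp j := by
      push_cast
      exact Real.add_one_le_exp _
    have h5 : 13 * 10 ^ 6 * 2 ^ 50 * A ≤ k := by rw [hAd]; linarith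
    calc _ ≤ Real.exp j * Real.exp (7 * A + 2600 * A * (4 + 2 * j)) :=
          h1.trans (h3.trans (mul_le_mul_of_nonneg_right h4 (Real.exp_pos _).le))
      _ = Real.exp (j + (7 * A + 2600 * A * (4 + 2 * j))) := (Real.exp_add _ _).symm
      _ ≤ _ := by
          refine Real.exp_le_exp.2 ?_
          have h6 : (j : ℝ) ≤ A * j := by nlinarith
          have h7 : 13 * 10 ^ 6 * 2 ^ 50 * A * j ≤ k * j := mul_le_mul_of_nonneg_right h5 hj
          have h8 : 0 ≤ A * j := by positivity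
          nlinarith
  · intro j P Q Ls a b c
    obtain ⟨XY, hXY, r⟩ := hF1 j P Q Ls a b c
    exact ⟨XY, mem_biUnion.2 ⟨j, mem_range.2 (Nat.lt_succ_self j), hXY⟩, r⟩

/-- a group has at most `d` members -/
theorem CapL_grp {d s : ℕ} {Z Zl : Finset (Pt × Pt)} {ln : Pt × Pt → Finset Pt}
    (hZ : G.sparse d Z) (hl : Zl ⊆ Z) (hC : G.Cliq s Zl ln) {z : Pt × Pt} (hz : z ∈ Zl) :
    (selIn Zl fun u => ln u = ln z).card ≤ d := by
  refine le_trans (card_le_card ?_) (hZ.2 z (hl hz)).1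
  intro u hu
  rw [mem_selIn] at hu ⊢
  refine ⟨hl hu.1, (G.mem_Fl.1 (hC.line u hu.1).2).2 ?_⟩
  rw [hu.2]
  exact (G.mem_Fl.1 (hC.line z hz).2).1

/-- the level condition -/
def CapL_Q (Zl : Finset (Pt × Pt)) (ln : Pt × Pt → Finset Pt) (T : Finset (Pt × Pt)) (j : ℕ) :
    Prop :=
  (q : ℝ) ^ 3 / Real.exp j ≤ (G.BB T).card ∧
    Zl.card ≤ 2 * (selIn Zl fun z => (q : ℝ) ^ 2 * Real.exp (-j) ≤ G.rr T (ln z)).card

theorem CapL_top {D k s : ℕ} (h : XPar q D k) {Z Z' Zl T : Finset (Pt × Pt)}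
    {ln : Pt × Pt → Finset Pt} (hk : k ≤ 9 * Z.card) (hl : Zl ⊆ Z) (hC : G.Cliq s Zl ln)
    (h' : Z' ⊆ Z) (hloss : ((Z \ Z').card : ℝ) ≤ k / 1000) (hv : G.Valid (xd1 q k) Z Z' T) :
    G.CapL_Q Zl ln T (xJ q) := by
  have hq : (1000 : ℝ) ≤ q := by exact_mod_cast h.hq
  have hqk : (q : ℝ) ≤ k := by exact_mod_cast h.q_le_k
  have hJ := h.cube_le_exp_xJ
  have hE := Real.exp_pos (xJ q : ℝ)
  constructor
  · have h1 := G.valid_loss_bad h h' hv
    have h2 : (Z.card : ℝ) ≤ (Z \ Z').card + (Z' \ G.BB T).card + (G.BB T).card := by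
      have : Z ⊆ (Z \ Z') ∪ (Z' \ G.BB T) ∪ G.BB T := by
        intro z hz
        simp only [mem_union, mem_sdiff]
        tauto
      have h3 := (card_le_card this).trans ((card_union_le _ _).trans
        (Nat.add_le_add_right (card_union_le _ _) _))
      exact_mod_cast h3
    have h3 : (k : ℝ) ≤ 9 * Z.card := by exact_mod_cast hk
    have h4 : (1 : ℝ) ≤ (G.BB T).card := by linarith
    exact ((div_le_one hE).2 hJ).trans h4
  · have : (selIn Zl fun z => (q : ℝ) ^ 2 * Real.exp (-(xJ q : ℕ)) ≤ G.rr T (ln z)) = Zl := by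
      refine Subset.antisymm (selIn_subset _ _) fun z hz => mem_selIn.2 ⟨hz, ?_⟩
      have hp := G.CapL_mem_pool.1 (hv.all (hl hz))
      have hF := G.mem_Fl.1 (hC.line z hz).2
      have a1 : 1 ≤ (ln z ∩ G.PP T).card := card_pos.2 ⟨z.1, mem_inter.2 ⟨hF.1, hp.2.1⟩⟩
      have a2 : 1 ≤ (G.perp (ln z) ∩ G.QQ T).card :=
        card_pos.2 ⟨z.2, mem_inter.2 ⟨G.mem_perp.2 hF.2, hp.2.2⟩⟩
      have a1' : (1 : ℝ) ≤ (ln z ∩ G.PP T).card := by exact_mod_cast a1
      have a2' : (1 : ℝ) ≤ (G.perp (ln z) ∩ G.QQ T).card := by exact_mod_cast a2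
      have a3 : (1 : ℝ) ≤ G.rr T (ln z) := one_le_mul_of_one_le_of_one_le a1' a2'
      refine le_trans ?_ a3
      rw [Real.exp_neg, ← div_eq_mul_inv, div_le_one hE]
      refine le_trans ?_ hJ
      exact pow_le_pow_right₀ (by linarith) (by norm_num)
    rw [this]
    omega

/-- the container pair of a level -/
theorem CapL_pair {D k s j : ℕ} (h : XPar q D k) {Z Z' Zl T : Finset (Pt × Pt)}
    {ln : Pt × Pt → Finset Pt} (hZ : G.sparse (xd1 q k) Z) (hk : k ≤ 9 * Z.card) (hl : Zl ⊆ Z)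
    (hl4 : Z.card ≤ 4 * Zl.card) (hC : G.Cliq s Zl ln) (h' : Z' ⊆ Z)
    (hv : G.Valid (xd1 q k) Z Z' T) (hQ : G.CapL_Q Zl ln T j) {F : Finset (Finset Pt × Finset Pt)}
    (hF : ∀ (P Q : Finset Pt) (Ls : Finset (Finset Pt)), Ls ⊆ G.lines → Ls.card = q →
        (∀ l ∈ Ls, (q : ℝ) ^ 2 * Real.exp (-j) ≤ ((l ∩ P).card : ℝ) * (G.perp l ∩ Q).card) →
        ∃ XY ∈ F, ∃ P' ⊆ P, ∃ Q' ⊆ Q, G.low (1 / 8) P' ⊆ XY.2 ∧ G.low (1 / 8) Q' ⊆ XY.1 ∧
          ((G.pool XY.1 XY.2).card : ℝ) ≤ 1100 * Real.exp (4 * j) * (q : ℝ) ^ 3) :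
    ∃ XY ∈ F, ((G.pool XY.1 XY.2).card : ℝ) ≤ 3000 * Real.exp (4 * j) * (q : ℝ) ^ 3 ∧
      ((Z' \ G.pool XY.1 XY.2).card : ℝ) ≤ k / 20000 := by
  have hq : (1000 : ℝ) ≤ q := by exact_mod_cast h.hq
  have hqk : (q : ℝ) ≤ k := by exact_mod_cast h.q_le_k
  have hd : (xd1 q k : ℝ) * (2 ^ 50 * q) ≤ 13 * k := (le_div_iff₀ (by positivity)).1 h.xd1_le
  set R := selIn Zl fun z => (q : ℝ) ^ 2 * Real.exp (-j) ≤ G.rr T (ln z) with hR
  have h1 : R.card ≤ xd1 q k * (R.image ln).card := by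
    refine card_le_mul_card_image R _ fun l hl' => ?_
    obtain ⟨z, hz, rfl⟩ := mem_image.1 hl'
    refine le_trans (card_le_card ?_) (G.CapL_grp hZ hl hC (mem_selIn.1 hz).1)
    intro u hu
    rw [mem_filter] at hu
    exact mem_selIn.2 ⟨(mem_selIn.1 hu.1).1, hu.2⟩
  have h2 : q ≤ (R.image ln).card := by
    by_contra hc
    have a0 : ((R.image ln).card : ℝ) ≤ q := by exact_mod_cast (not_le.1 hc).le
    have a5 : Zl.card ≤ 2 * R.card := hQ.2
    have a1 : k ≤ 72 * R.card := by omega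
    have a2 : (k : ℝ) ≤ 72 * R.card := by exact_mod_cast a1
    have a3 : (R.card : ℝ) ≤ xd1 q k * (R.image ln).card := by exact_mod_cast h1
    have a4 : (xd1 q k : ℝ) * (R.image ln).card ≤ xd1 q k * q :=
      mul_le_mul_of_nonneg_left a0 (Nat.cast_nonneg _)
    nlinarith
  obtain ⟨Ls, hLs, hLc⟩ := exists_subset_card_eq h2
  obtain ⟨XY, hXY, P', hP', Q', hQ', c1, c2, c3⟩ := hF (G.PP T) (G.QQ T) Ls
    (fun l hl' => by
      obtain ⟨z, hz, rfl⟩ := mem_image.1 (hLs hl')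
      exact (hC.line z (mem_selIn.1 hz).1).1) hLc
    (fun l hl' => by
      obtain ⟨z, hz, rfl⟩ := mem_image.1 (hLs hl')
      exact (mem_selIn.1 hz).2)
  refine ⟨XY, hXY, c3.trans ?_, ?_⟩
  · have : 0 ≤ Real.exp (4 * j) * (q : ℝ) ^ 3 := by positivity
    nlinarith
  · have b1 := G.valid_loss_pls hv hP' (x := 1 / 8) (by norm_num)
    have b2 := G.valid_loss_pts hv hQ' (x := 1 / 8) (by norm_num)
    have b3 : Z' \ G.pool XY.1 XY.2 ⊆ (selIn Z' fun z => z.2 ∉ G.low (1 / 8) P') ∪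
        selIn Z' fun z => z.1 ∉ G.low (1 / 8) Q' := by
      intro z hz
      rw [mem_sdiff, G.CapL_mem_pool] at hz
      rw [mem_union, mem_selIn, mem_selIn]
      by_contra hc
      have e1 : z.2 ∈ G.low (1 / 8) P' := by
        by_contra e
        exact hc (Or.inl ⟨hz.1, e⟩)
      have e2 : z.1 ∈ G.low (1 / 8) Q' := by
        by_contra e
        exact hc (Or.inr ⟨hz.1, e⟩)
      exact hz.2 ⟨G.mem_flags.1 (hZ.1 (h' hz.1)), c2 e2, c1 e1⟩
    have b4 := (card_le_card b3).trans (card_union_le _ _)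
    have b5 : ((Z' \ G.pool XY.1 XY.2).card : ℝ) ≤
        (selIn Z' fun z => z.2 ∉ G.low (1 / 8) P').card +
          (selIn Z' fun z => z.1 ∉ G.low (1 / 8) Q').card := by exact_mod_cast b4
    nlinarith

theorem CapL_sd {α : Type} [DecidableEq α] (A B : Finset α) :
    (A.card : ℝ) ≤ (A \ B).card + (A ∩ B).card := by
  have := card_sdiff_add_card_inter A B
  exact_mod_cast this.ge

/-- the outcome with the bad set as final pool -/
theorem CapL_bad {D k j : ℕ} (h : XPar q D k) {F : Finset (Finset Pt × Finset Pt)} {β : ℝ}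
    {XY : Finset Pt × Finset Pt} (hXY : XY ∈ F) {Z T Ts Zq : Finset (Pt × Pt)}
    (hk : k ≤ 9 * Z.card) (ho : G.Out k j XY.1 XY.2 Z T Ts Zq)
    (hB : ((G.BB Ts).card : ℝ) ≤ β * (q : ℝ) ^ 3) : hits (G.Cov D k j F β) (xw k) Z := by
  have h0 : (0 : ℝ) ≤ xt2 q D k := le_trans (by positivity) h.le_xt2
  refine G.hits_Cov hXY ho (empty_subset _) (by simpa using h0) (Or.inl rfl) hB ?_
  have a1 := CapL_sd Z Zq
  rw [inter_eq_right.2 ho.zsub] at a1
  rw [inter_eq_left.2 ho.inB]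
  have a2 : (k : ℝ) ≤ 9 * Z.card := by exact_mod_cast hk
  have a3 := h.xw_le
  have a4 := h.xt2_le
  have a5 := ho.loss
  have a6 : (0 : ℝ) ≤ k := Nat.cast_nonneg _
  linarith

/-- the outcome with the poor lines -/
theorem CapL_poor {D k j s : ℕ} (h : XPar q D k) {F : Finset (Finset Pt × Finset Pt)}
    {XY : Finset Pt × Finset Pt} (hXY : XY ∈ F) {Z Zl T Ts Zq : Finset (Pt × Pt)}
    {ln : Pt × Pt → Finset Pt} (hk' : Z.card ≤ k) (hk : k ≤ 9 * Z.card) (hs : 2 * D ≤ s)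
    (hl : Zl ⊆ Z) (hl4 : Z.card ≤ 4 * Zl.card) (hC : G.Cliq s Zl ln)
    (ho : G.Out k j XY.1 XY.2 Z T Ts Zq)
    (hp : Zl.card ≤ 2 * (selIn Zl fun z => G.rr Ts (ln z) < (q : ℝ) ^ 2 * Real.exp (1 - j)).card)
    (hg : (k : ℝ) ≤ q * s * Real.exp ((j : ℝ) / 2)) :
    hits (G.Cov D k j F (4 * 10 ^ 6 * Real.exp (-((j : ℝ) / 2)))) (xw k) Z := by
  have hD := h.D_ge
  obtain ⟨T', t1, t2, t3, t4⟩ := G.found_sample (Zs := Zq) hC (by omega)
  have hD0 : (0 : ℝ) < D := by exact_mod_cast (by omega : 0 < D)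
  have hsD : 2 * (D : ℝ) ≤ s := by exact_mod_cast hs
  have hs0 : (0 : ℝ) < s := by linarith
  have hlk : (Zl.card : ℝ) ≤ k := by exact_mod_cast (card_le_card hl).trans hk'
  have k0 : (0 : ℝ) ≤ k := Nat.cast_nonneg _
  have q0 : (0 : ℝ) ≤ q := Nat.cast_nonneg _
  refine G.hits_Cov hXY ho (t1.trans inter_subset_right) ?_ (Or.inr (Or.inr (Or.inl rfl))) ?_ ?_
  · refine t2.trans (le_trans ?_ h.le_xt2)
    have : 2400 * (Zl.card : ℝ) / s ≤ 1200 * k / D := by
      rw [div_le_div_iff₀ hs0 hD0]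
      have e1 : (Zl.card : ℝ) * D ≤ k * D := mul_le_mul_of_nonneg_right hlk hD0.le
      have e2 : (k : ℝ) * (2 * D) ≤ k * s := mul_le_mul_of_nonneg_left hsD k0
      linarith
    linarith
  · have a1 : ((G.found T').card : ℝ) ≤ 1200000 * (q * Real.exp ((j : ℝ) / 2)) := by
      refine t3.trans ?_
      rw [div_le_iff₀ hs0]
      linarith
    have a2 : Real.exp ((j : ℝ) / 2) * Real.exp (1 - j) = Real.exp 1 * Real.exp (-((j : ℝ) / 2)) := by
      rw [← Real.exp_add, ← Real.exp_add]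
      congr 1
      ring
    have a3 : Real.exp 1 ≤ 3 := Real.exp_one_lt_d9.le.trans (by norm_num)
    have a4 : 0 ≤ Real.exp (-((j : ℝ) / 2)) * (q : ℝ) ^ 3 := by positivity
    calc _ ≤ _ := G.card_poor_le j Ts T'
      _ ≤ 1200000 * (q * Real.exp ((j : ℝ) / 2)) * ((q : ℝ) ^ 2 * Real.exp (1 - j)) :=
          mul_le_mul_of_nonneg_right a1 (by positivity)
      _ = 1200000 * (Real.exp ((j : ℝ) / 2) * Real.exp (1 - j)) * (q : ℝ) ^ 3 := by ring
      _ = 1200000 * Real.exp 1 * (Real.exp (-((j : ℝ) / 2)) * (q : ℝ) ^ 3) := by rw [a2]; ring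
      _ ≤ _ := by nlinarith
  · have b1 : (selIn Zl fun z => G.rr Ts (ln z) < (q : ℝ) ^ 2 * Real.exp (1 - j)) ⊆
        (Zq ∩ G.poor j Ts T') ∪ (Zl \ Zq) ∪ selIn Zl fun z => ln z ∉ G.found T' := by
      intro z hz
      rw [mem_selIn] at hz
      rw [mem_union, mem_union, mem_inter, mem_sdiff, mem_selIn]
      by_cases e1 : z ∈ Zq
      · by_cases e2 : ln z ∈ G.found T'
        · refine Or.inl (Or.inl ⟨e1, ?_⟩)
          exact mem_biUnion.2 ⟨ln z, mem_selIn.2 ⟨e2, hz.2⟩,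
            mem_inter.2 ⟨(hC.line z hz.1).2, ho.all (hl hz.1)⟩⟩
        · exact Or.inr ⟨hz.1, e2⟩
      · exact Or.inl (Or.inr ⟨hz.1, e1⟩)
    have b2 := (card_le_card b1).trans ((card_union_le _ _).trans
      (Nat.add_le_add_right (card_union_le _ _) _))
    have b3 : Zl.card ≤ 2 * ((Zq ∩ G.poor j Ts T').card + (Zl \ Zq).card +
        (selIn Zl fun z => ln z ∉ G.found T').card) := by omega
    have b4 : (Zl.card : ℝ) ≤ 2 * ((Zq ∩ G.poor j Ts T').card + (Zl \ Zq).card +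
        (selIn Zl fun z => ln z ∉ G.found T').card) := by exact_mod_cast b3
    have b5 : ((Zl \ Zq).card : ℝ) ≤ (Z \ Zq).card := by
      exact_mod_cast card_le_card (sdiff_subset_sdiff hl Subset.rfl)
    have b6 : k ≤ 36 * Zl.card := by omega
    have b7 : (k : ℝ) ≤ 36 * Zl.card := by exact_mod_cast b6
    have a3 := h.xw_le
    have a4 := h.xt2_le
    have a5 := ho.loss
    linarith

/-- the outcome with the second sample -/
theorem CapL_st2 {D k j s : ℕ} (h : XPar q D k) {F : Finset (Finset Pt × Finset Pt)}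
    {XY : Finset Pt × Finset Pt} (hXY : XY ∈ F) {Z Zs T Ts Zq : Finset (Pt × Pt)}
    (hk' : Z.card ≤ k) (hk : k ≤ 9 * Z.card) (hs : 2 * D ≤ s) (hs1 : s ≤ 2 * xd1 q k)
    (hsub : Zs ⊆ Z) (h8 : Z.card ≤ 8 * Zs.card) (hsp : G.sparse (6 * s + 1) Zs)
    (ho : G.Out k j XY.1 XY.2 Z T Ts Zq) (hg : q * s * Real.exp ((j : ℝ) / 2) < k) :
    hits (G.Cov D k j F (4 * 10 ^ 6 * Real.exp (-((j : ℝ) / 2)))) (xw k) Z := by
  have hD := h.D_ge
  have hq : (1000 : ℝ) ≤ q := by exact_mod_cast h.hq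
  have hqk : (q : ℝ) ≤ k := by exact_mod_cast h.q_le_k
  have q0 : (0 : ℝ) < q := by linarith
  have k0 : (0 : ℝ) < k := by linarith
  have hD0 : (0 : ℝ) < D := by exact_mod_cast (by omega : 0 < D)
  have hsD : 2 * (D : ℝ) ≤ s := by exact_mod_cast hs
  have hs0 : (1 : ℝ) ≤ s := by exact_mod_cast (by omega : 1 ≤ s)
  have hs1' : (s : ℝ) ≤ 2 * xd1 q k := by exact_mod_cast hs1
  have hd : (xd1 q k : ℝ) * (2 ^ 50 * q) ≤ 13 * k := (le_div_iff₀ (by positivity)).1 h.xd1_le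
  have hsq : (s : ℝ) * q ≤ 2 * xd1 q k * q := mul_le_mul_of_nonneg_right hs1' q0.le
  have hqs : (q : ℝ) ≤ s * q := by nlinarith
  have hsle : (s : ℝ) ≤ s * q := by nlinarith
  have hl := h.ell_ge
  have hm := h.xm2_le
  have hE := Real.exp_pos ((j : ℝ) / 2)
  have hZ : (k : ℝ) ≤ 80 * (Zs ∩ Zq).card := by
    have a1 := CapL_sd Zs Zq
    have a2 : ((Zs \ Zq).card : ℝ) ≤ (Z \ Zq).card := by
      exact_mod_cast card_le_card (sdiff_subset_sdiff hsub Subset.rfl)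
    have a3 : k ≤ 72 * Zs.card := by omega
    have a4 : (k : ℝ) ≤ 72 * Zs.card := by exact_mod_cast a3
    have a5 := ho.loss
    linarith
  have hZk : ((Zs ∩ Zq).card : ℝ) ≤ k := by
    exact_mod_cast (card_le_card (inter_subset_left.trans hsub)).trans hk'
  set x : ℝ := 60160 * (6 * s + 1) * q / k with hx
  have hxk : x * k = 60160 * (6 * s + 1) * q := by rw [hx]; field_simp
  have hx0 : 0 < x := by positivity
  have hj : (j : ℝ) / 2 ≤ Real.log (Real.log q) + 53 := by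
    refine le_trans ?_ h.log_k_div_q
    rw [Real.le_log_iff_exp_le (by positivity), le_div_iff₀ q0]
    have := mul_le_mul_of_nonneg_right hqs hE.le
    linarith
  have hx1 : 60160 * Real.exp (-(Real.log (Real.log q) + 53)) ≤ x := by
    have a1 : (k : ℝ) / q ≤ Real.exp (Real.log (Real.log q) + 53) :=
      (Real.log_le_iff_le_exp (by positivity)).1 h.log_k_div_q
    have a2 : Real.exp (-(Real.log (Real.log q) + 53)) ≤ q / k := by
      rw [Real.exp_neg, ← inv_div]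
      exact inv_anti₀ (by positivity) a1
    have a3 : 60160 * ((q : ℝ) / k) ≤ x := by
      rw [hx, ← mul_div_assoc]
      refine div_le_div_of_nonneg_right ?_ k0.le
      linarith
    linarith
  obtain ⟨T', t1, t2, t3, t4⟩ := G.stage2 (X0 := G.PP Ts) (Y0 := G.QQ Ts) (Z' := Zs ∩ Zq)
    (d := 6 * s + 1) (m := xm2 q) (x := x) (Om := 29 * Real.exp (2 * j))
    (G.sparse_mono hsp inter_subset_left) ((inter_subset_left.trans hsub).trans ho.all)
    (by unfold xm2; linarith) (by push_cast; linarith) hx0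
    (by
      rw [hx, div_le_iff₀ k0]
      nlinarith)
    (by
      push_cast
      have := mul_le_mul_of_nonneg_left hZ hx0.le
      linarith)
    ho.prod
    (by
      have a1 : Real.exp (-xm2 q / 6) * Real.exp (2 * j) ≤
          Real.exp (-(Real.log (Real.log q) + 53)) ^ 2 := by
        rw [← Real.exp_add, sq, ← Real.exp_add]
        refine Real.exp_le_exp.2 ?_
        unfold xm2
        linarith
      have a2 := pow_le_pow_left₀ (by positivity) hx1 2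
      have a3 : 0 ≤ Real.exp (-(Real.log (Real.log q) + 53)) ^ 2 := by positivity
      rw [mul_pow] at a2
      linarith)
  have hsk : s ≤ k := by
    have a1 : (1 : ℝ) ≤ Real.exp ((j : ℝ) / 2) := Real.one_le_exp (by positivity)
    have a2 := mul_le_mul_of_nonneg_left a1 (by positivity : (0 : ℝ) ≤ q * s)
    have : (s : ℝ) ≤ k := by linarith
    exact_mod_cast this
  refine G.hits_Cov hXY ho (t1.trans inter_subset_right) ?_
    (Or.inr (Or.inr (Or.inr ⟨s, hsk, rfl⟩))) ?_ ?_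
  · refine t2.trans ?_
    unfold xt2
    have m0 : 0 ≤ 10 * xm2 q := by unfold xm2; linarith
    refine div_le_div₀ (by positivity) (mul_le_mul_of_nonneg_left hZk m0) hD0 ?_
    push_cast
    linarith
  · refine t4.trans (mul_le_mul_of_nonneg_right ?_ (by positivity))
    rw [Real.exp_neg, ← div_eq_mul_inv, le_div_iff₀ hE]
    have a1 : x * Real.exp ((j : ℝ) / 2) * k ≤ 2 * 10 ^ 6 * k := by
      have a2 := mul_le_mul_of_nonneg_right hqs hE.le
      have a3 : x * Real.exp ((j : ℝ) / 2) * k =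
          60160 * (6 * (q * s * Real.exp ((j : ℝ) / 2)) + q * Real.exp ((j : ℝ) / 2)) := by
        rw [mul_right_comm, hxk]
        ring
      linarith
    have := le_of_mul_le_mul_right a1 k0
    linarith
  · have b1 : (((Zs ∩ Zq) ∩ G.st2 (G.PP Ts) (G.QQ Ts) (xm2 q) x T').card : ℝ) ≤
        (Zq ∩ G.st2 (G.PP Ts) (G.QQ Ts) (xm2 q) x T').card := by
      exact_mod_cast card_le_card (inter_subset_inter_right inter_subset_right)
    have b2 : ((Zs ∩ Zq).card : ℝ) ≤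
        2 * ((Zs ∩ Zq) ∩ G.st2 (G.PP Ts) (G.QQ Ts) (xm2 q) x T').card := by exact_mod_cast t3
    have a3 := h.xw_le
    have a4 := h.xt2_le
    linarith

/-- `F j` = union of the families of `line_cont` for levels up to `j`. `lev T` = least `j` with
`q^3 / exp j ≤ |BB T|` and `|Zl| ≤ 2 |{z ∈ Zl | q^2 exp (-j) ≤ rr T (ln z)}|` (`0` if there is
none); for valid `T` the level `xJ q` qualifies (`BB T` nonempty, `rr ≥ 1`). Each group has at most
`d1` members, so there are at least `q` rich lines, and `s ≤ 2 d1`; loss `64 d1 q`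
(`valid_loss_pls`, `valid_loss_pts`). `three_rounds`, then `hits_Cov` with: `BB Ts` if `j = 0`
(`card_bad_le`) or `|BB Ts| < q^3 exp (1 - j)`; otherwise more than half of `Zl` is poor: if
`k ≤ q s exp (j/2)` use `found_sample` and `poor`; else `stage2` on `Zs ∩ Z**` with `d = 6 s + 1`,
`Om = 29 exp (2 j)` (`j ≤ 2 log L + 106` by `log_k_div_q`, `x ≥ q / k`). -/
theorem cap_line {D k : ℕ} (h : XPar q D k) :
    ∃ F : ℕ → Finset (Finset Pt × Finset Pt),
      (∀ j : ℕ, ((F j).card : ℝ) ≤ Real.exp (k * ((j : ℝ) / 2 + 1) / 4000)) ∧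
      ∀ (Z Zs Zl : Finset (Pt × Pt)) (ln : Pt × Pt → Finset Pt) (s : ℕ),
        G.sparse (xd1 q k) Z → Z.card ≤ k → k ≤ 9 * Z.card → 2 * D ≤ s → Zs ⊆ Z →
        Z.card ≤ 8 * Zs.card → G.sparse (6 * s + 1) Zs → Zl ⊆ Z → Z.card ≤ 4 * Zl.card →
        G.Cliq s Zl ln → ∃ j ≤ xJ q,
          hits (G.Cov D k j (F j) (4 * 10 ^ 6 * Real.exp (-((j : ℝ) / 2)))) (xw k) Z := by
  classical
  obtain ⟨F, hFm, hFc, hF⟩ := G.CapL_fam h
  refine ⟨F, hFc, ?_⟩
  intro Z Zs Zl ln s hZ hk' hk hs hsub h8 hsp hl hl4 hC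
  let lev : Finset (Pt × Pt) → ℕ := fun T =>
    if hT : ∃ j, G.CapL_Q Zl ln T j then Nat.find hT else 0
  have hlev : ∀ T, G.CapL_Q Zl ln T (xJ q) → G.CapL_Q Zl ln T (lev T) ∧ lev T ≤ xJ q ∧
      ∀ i < lev T, ¬ G.CapL_Q Zl ln T i := by
    intro T hT
    have e : lev T = Nat.find ⟨_, hT⟩ := dif_pos ⟨_, hT⟩
    rw [e]
    exact ⟨Nat.find_spec _, Nat.find_min' _ hT, fun i hi => Nat.find_min _ hi⟩
  obtain ⟨XY, T, Ts, Zq, Z', hXY, h', hloss, hv, ho⟩ := G.three_rounds h hZ hk' lev F hFm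
    (fun Z' h' hloss T hv => by
      have hQ := (hlev T (G.CapL_top h hk hl hC h' hloss hv)).1
      exact ⟨hQ.1, G.CapL_pair h hZ hk hl hl4 hC h' hv hQ (hF (lev T))⟩)
  obtain ⟨-, hJ, hmin⟩ := hlev Ts (G.CapL_top h hk hl hC h' hloss hv)
  refine ⟨lev Ts, hJ, ?_⟩
  generalize lev Ts = j at hXY ho hmin
  have q3 : (0 : ℝ) ≤ (q : ℝ) ^ 3 := by positivity
  rcases j with _ | i
  · refine G.CapL_bad h hXY hk ho ((G.card_bad_le (by norm_num) _ _).trans ?_)
    simp only [Nat.cast_zero, zero_div, neg_zero, Real.exp_zero]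
    linarith
  have hn := hmin i (Nat.lt_succ_self i)
  rw [CapL_Q, not_and_or, not_le, not_le] at hn
  rcases hn with hn | hn
  · refine G.CapL_bad h hXY hk ho (hn.le.trans ?_)
    rw [div_eq_mul_inv, ← Real.exp_neg, mul_comm]
    refine mul_le_mul_of_nonneg_right ?_ q3
    have a1 : Real.exp (-(i : ℝ)) ≤ Real.exp 1 * Real.exp (-(((i + 1 : ℕ) : ℝ) / 2)) := by
      rw [← Real.exp_add]
      refine Real.exp_le_exp.2 ?_
      have : (0 : ℝ) ≤ i := Nat.cast_nonneg _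
      push_cast
      linarith
    have a3 : Real.exp 1 ≤ 3 := Real.exp_one_lt_d9.le.trans (by norm_num)
    have a4 := Real.exp_pos (-(((i + 1 : ℕ) : ℝ) / 2))
    nlinarith
  rcases le_or_gt (k : ℝ) (q * s * Real.exp (((i + 1 : ℕ) : ℝ) / 2)) with hg | hg
  · refine G.CapL_poor h hXY hk' hk hs hl hl4 hC ho ?_ hg
    have b1 : Zl ⊆ (selIn Zl fun z => (q : ℝ) ^ 2 * Real.exp (-i) ≤ G.rr Ts (ln z)) ∪
        selIn Zl fun z => G.rr Ts (ln z) < (q : ℝ) ^ 2 * Real.exp (1 - ((i + 1 : ℕ) : ℝ)) := by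
      intro z hz
      have e : 1 - ((i + 1 : ℕ) : ℝ) = -i := by push_cast; ring
      rw [mem_union, mem_selIn, mem_selIn, e]
      rcases le_or_gt ((q : ℝ) ^ 2 * Real.exp (-i)) (G.rr Ts (ln z)) with e1 | e1
      · exact Or.inl ⟨hz, e1⟩
      · exact Or.inr ⟨hz, e1⟩
    have b2 := (card_le_card b1).trans (card_union_le _ _)
    omega
  · have hq := h.hq
    have hqk := h.q_le_k
    obtain ⟨z, hz⟩ : Zl.Nonempty := card_pos.1 (by omega)
    exact G.CapL_st2 h hXY hk' hk hs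
      ((hC.big z hz).trans (Nat.mul_le_mul_left 2 (G.CapL_grp hZ hl hC hz))) hsub h8 hsp ho hg

end PG
end Pool.Agent.Work.MP_e10cd8_co.Four
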