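import Pool.Agent.Work.MP_e10cd8_co.Exact.XDefs
import Pool.Agent.Work.MP_e10cd8_co.Four.Red2

/-! The second reduction (paper F). Compare `Four/Red1`, `Four/Red2`. -/

namespace Pool.Agent.Work.MP_e10cd8_co.Four
open Finset

/-- few later neighbours each, so few ordered related pairs -/
theorem Red3_pairs {α : Type} [DecidableEq α] (X : Finset α) (rel : α → α → Prop)
    (hs : ∀ a b, rel a b → rel b a) (hi : ∀ a b, rel a b → a ≠ b) (rk : α → ℕ)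
    (hinj : Set.InjOn rk (X : Set α)) {m : ℕ}
    (h : ∀ z ∈ X, (selIn X fun u => rk z < rk u ∧ rel z u).card ≤ m) :
    (selIn (X ×ˢ X) fun x => rel x.1 x.2).card ≤ 2 * m * X.card := by
  have h1 : (selIn (X ×ˢ X) fun x => rel x.1 x.2) ⊆
      (X.biUnion fun z => (selIn X fun u => rk z < rk u ∧ rel z u).image fun u => (z, u)) ∪
      (X.biUnion fun z => (selIn X fun u => rk z < rk u ∧ rel z u).image fun u => (u, z)) := by
    rintro ⟨a, b⟩ hx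
    obtain ⟨hx1, hr⟩ := mem_selIn.1 hx
    obtain ⟨ha, hb⟩ := mem_product.1 hx1
    have hne : rk a ≠ rk b := fun he => hi a b hr (hinj (mem_coe.2 ha) (mem_coe.2 hb) he)
    rcases lt_or_gt_of_ne hne with hlt | hlt
    · exact mem_union_left _ (mem_biUnion.2 ⟨a, ha, mem_image.2
        ⟨b, mem_selIn.2 ⟨hb, hlt, hr⟩, rfl⟩⟩)
    · exact mem_union_right _ (mem_biUnion.2 ⟨b, hb, mem_image.2
        ⟨a, mem_selIn.2 ⟨ha, hlt, hs _ _ hr⟩, rfl⟩⟩)
  have h2 := card_biUnion_le_card_mul X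
    (fun z => (selIn X fun u => rk z < rk u ∧ rel z u).image fun u => (z, u)) m
    fun z hz => card_image_le.trans (h z hz)
  have h3 := card_biUnion_le_card_mul X
    (fun z => (selIn X fun u => rk z < rk u ∧ rel z u).image fun u => (u, z)) m
    fun z hz => card_image_le.trans (h z hz)
  have h4 := (card_le_card h1).trans (card_union_le _ _)
  have h5 : 2 * m * X.card = X.card * m + X.card * m := by ring
  omega

namespace PG

variable {q : ℕ} {Pt : Type} [Fintype Pt] [DecidableEq Pt] (G : PG q Pt)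

/-- the three classes of `card_det_le`: injective in the point, injective in the plane, old -/
theorem card_det_pool_le {T : Finset (Pt × Pt)} (hT : T ⊆ G.flags) (X Y : Finset Pt) :
    (G.det T ∩ G.pool X Y).card ≤ X.card + Y.card + T.card ^ 2 := by
  set C1 := selIn (G.det T ∩ G.pool X Y) fun z => ∃ t1 ∈ T, ∃ t2 ∈ T, ∃ l ∈ G.lines,
    G.mutl z t1 ∧ G.mutl z t2 ∧ z ∈ G.Fl l ∧ t1 ∈ G.Fl l ∧ t2 ∉ G.Fl l ∧ z.1 ≠ t1.1 ∧
      z.1 ≠ t2.1 with hC1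
  set C2 := selIn (G.det T ∩ G.pool X Y) fun z => ∃ t1 ∈ T, ∃ t2 ∈ T, ∃ l ∈ G.lines,
    G.mutl z t1 ∧ G.mutl z t2 ∧ z ∈ G.Fl l ∧ t1 ∈ G.Fl l ∧ t2 ∉ G.Fl l ∧ z.2 ≠ t1.2 ∧
      z.2 ≠ t2.2 with hC2
  have hp : ∀ z ∈ G.pool X Y, z.1 ∈ X ∧ z.2 ∈ Y := fun z hz => by
    rw [pool, mem_sel] at hz
    exact hz.2
  have h0 : G.det T ∩ G.pool X Y ⊆ C1 ∪ C2 ∪ T.image Prod.fst ×ˢ T.image Prod.snd := by
    intro z hz
    obtain ⟨_, _, t1, ht1, t2, ht2, l, hl, m1, m2, f0, f1, f2⟩ :=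
      G.Red1_mem_det.1 (mem_inter.1 hz).1
    by_cases ha : z.1 ≠ t1.1 ∧ z.1 ≠ t2.1
    · exact mem_union_left _ (mem_union_left _ (mem_selIn.2
        ⟨hz, t1, ht1, t2, ht2, l, hl, m1, m2, f0, f1, f2, ha⟩))
    by_cases hb : z.2 ≠ t1.2 ∧ z.2 ≠ t2.2
    · exact mem_union_left _ (mem_union_right _ (mem_selIn.2
        ⟨hz, t1, ht1, t2, ht2, l, hl, m1, m2, f0, f1, f2, hb⟩))
    rw [not_and_or, not_not, not_not] at ha hb
    refine mem_union_right _ (mem_product.2 ⟨?_, ?_⟩)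
    · rcases ha with ha | ha
      · exact mem_image.2 ⟨t1, ht1, ha.symm⟩
      · exact mem_image.2 ⟨t2, ht2, ha.symm⟩
    · rcases hb with hb | hb
      · exact mem_image.2 ⟨t1, ht1, hb.symm⟩
      · exact mem_image.2 ⟨t2, ht2, hb.symm⟩
  have h1 : C1.card ≤ X.card := by
    refine card_le_card_of_injOn Prod.fst (fun z hz => mem_coe.2
      (hp z (mem_inter.1 (mem_selIn.1 (mem_coe.1 hz)).1).2).1) ?_
    intro z hz z' hz' he
    obtain ⟨hd, t1, ht1, t2, ht2, l, hl, m1, m2, f0, f1, f2, n1, n2⟩ := mem_selIn.1 (mem_coe.1 hz)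
    obtain ⟨g0, g1, -⟩ := G.Red1_mem_det.1 (mem_inter.1 (mem_selIn.1 (mem_coe.1 hz')).1).1
    refine Prod.ext he ?_
    by_contra hne
    rw [← he] at g0 g1
    rw [mem_Fl] at f0 f1
    have k1 : l ⊆ G.pl z'.2 := G.line_subset_pl hl n1 f0.1 f1.1 g0 ((g1 t1 ht1).1 m1.2.1)
    have k2 : t2.1 ∈ l := by
      rw [G.Red1_line hl hne f0.2 k1]
      exact mem_inter.2 ⟨m2.2.2, (g1 t2 ht2).1 m2.2.1⟩
    exact f2 (G.mem_Fl.2 ⟨k2, G.line_subset_pl hl n2 f0.1 k2 m2.2.1 (G.mem_flags.1 (hT ht2))⟩)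
  have h2 : C2.card ≤ Y.card := by
    refine card_le_card_of_injOn Prod.snd (fun z hz => mem_coe.2
      (hp z (mem_inter.1 (mem_selIn.1 (mem_coe.1 hz)).1).2).2) ?_
    intro z hz z' hz' he
    obtain ⟨hd, t1, ht1, t2, ht2, l, hl, m1, m2, f0, f1, f2, n1, n2⟩ := mem_selIn.1 (mem_coe.1 hz)
    obtain ⟨g0, g1, -⟩ := G.Red1_mem_det.1 (mem_inter.1 (mem_selIn.1 (mem_coe.1 hz')).1).1
    refine Prod.ext ?_ he
    by_contra hne
    rw [← he] at g0 g1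
    rw [mem_Fl] at f0 f1
    have k0 : z'.1 ∈ l := by
      rw [G.Red1_line hl n1 f0.2 f1.2]
      exact mem_inter.2 ⟨g0, (g1 t1 ht1).2 m1.2.2⟩
    have k1 : l ⊆ G.pl t2.2 := G.line_subset_pl hl hne f0.1 k0 m2.2.1 ((g1 t2 ht2).2 m2.2.2)
    refine f2 (G.mem_Fl.2 ⟨?_, k1⟩)
    rw [G.Red1_line hl n2 f0.2 k1]
    exact mem_inter.2 ⟨m2.2.2, G.mem_flags.1 (hT ht2)⟩
  have h3 : (T.image Prod.fst ×ˢ T.image Prod.snd).card ≤ T.card ^ 2 := by
    rw [card_product, sq]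
    exact Nat.mul_le_mul card_image_le card_image_le
  have h4 := (card_le_card h0).trans (card_union_le _ _)
  have h5 := card_union_le C1 C2
  omega

/-- all but `d` members of a clique on the line `l` have chosen `l` -/
theorem Red3_few {Z : Finset (Pt × Pt)} {rk : Pt × Pt → ℕ} {ln : Pt × Pt → Finset Pt} {d : ℕ}
    (h2 : Set.InjOn rk (Z : Set (Pt × Pt)))
    (h3 : ∀ z ∈ Z, ln z ∈ G.lines ∧ z ∈ G.Fl (ln z) ∧
      (selIn Z fun u => rk z < rk u ∧ G.mutl z u ∧ u ∉ G.Fl (ln z)).card < d)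
    {l : Finset Pt} (hl : l ∈ G.lines) :
    (selIn (G.Fl l ∩ Z) fun z => ¬ ln z = l).card ≤ d := by
  refine Red2_few _ rk (h2.mono fun z hz => ?_) fun z hz => ?_
  · exact mem_coe.2 (mem_inter.1 (mem_selIn.1 (mem_coe.1 hz)).1).2
  obtain ⟨hz1, hz2⟩ := mem_selIn.1 hz
  obtain ⟨hz3, hz4⟩ := mem_inter.1 hz1
  obtain ⟨b1, b2, b3⟩ := h3 z hz4
  refine lt_of_le_of_lt (card_le_card fun u hu => ?_) b3
  obtain ⟨hu1, hu2⟩ := mem_selIn.1 hu
  obtain ⟨hu3, hu4⟩ := mem_inter.1 (mem_selIn.1 hu1).1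
  have hne : z ≠ u := fun he => by rw [he] at hu2; exact lt_irrefl _ hu2
  exact mem_selIn.2 ⟨hu4, hu2, G.mutl_of_Fl hne hz3 hu3,
    fun hu5 => hz2 (G.Fl_unique b1 hl hne b2 hu5 hz3 hu3)⟩

/-- the flags whose chosen line carries at least `s` flags form a system of cliques -/
theorem Red3_cliq {Z : Finset (Pt × Pt)} {rk : Pt × Pt → ℕ} {ln : Pt × Pt → Finset Pt} {d s : ℕ}
    (h2 : Set.InjOn rk (Z : Set (Pt × Pt)))
    (h3 : ∀ z ∈ Z, ln z ∈ G.lines ∧ z ∈ G.Fl (ln z) ∧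
      (selIn Z fun u => rk z < rk u ∧ G.mutl z u ∧ u ∉ G.Fl (ln z)).card < d)
    (hs : 2 * d ≤ s) : G.Cliq s (selIn Z fun z => s ≤ (G.Fl (ln z) ∩ Z).card) ln := by
  set Zl := selIn Z fun z => s ≤ (G.Fl (ln z) ∩ Z).card with hZl
  have hsub : Zl ⊆ Z := selIn_subset _ _
  refine ⟨fun z hz => ⟨(h3 z (hsub hz)).1, (h3 z (hsub hz)).2.1⟩, fun z hz => ?_, ?_⟩
  · have c1 := Red2_split (G.Fl (ln z) ∩ Z) fun u => ln u = ln z
    have c2 := G.Red3_few h2 h3 (h3 z (hsub hz)).1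
    have c3 := (mem_selIn.1 hz).2
    have c4 : (selIn (G.Fl (ln z) ∩ Z) fun u => ln u = ln z).card ≤
        (selIn Zl fun u => ln u = ln z).card := card_le_card fun u hu => by
      obtain ⟨e1, e2⟩ := mem_selIn.1 hu
      exact mem_selIn.2 ⟨mem_selIn.2 ⟨(mem_inter.1 e1).2, by rw [e2]; exact c3⟩, e2⟩
    omega
  · refine Red3_pairs Zl (fun a b => G.mutl a b ∧ ln a ≠ ln b)
      (fun a b h => ⟨⟨h.1.1.symm, h.1.2.2, h.1.2.1⟩, h.2.symm⟩) (fun a b h => h.1.1) rk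
      (h2.mono (coe_subset.2 hsub)) fun z hz => ?_
    obtain ⟨b1, b2, b3⟩ := h3 z (hsub hz)
    have c2 := G.Red3_few h2 h3 b1
    have b6 : (selIn Zl fun u => rk z < rk u ∧ G.mutl z u ∧ ln z ≠ ln u) ⊆
        (selIn Z fun u => rk z < rk u ∧ G.mutl z u ∧ u ∉ G.Fl (ln z)) ∪
          selIn (G.Fl (ln z) ∩ Z) fun u => ¬ ln u = ln z := by
      intro u hu
      obtain ⟨e1, e2, e3, e4⟩ := mem_selIn.1 hu
      by_cases e5 : u ∈ G.Fl (ln z)
      · exact mem_union_right _ (mem_selIn.2 ⟨mem_inter.2 ⟨e5, hsub e1⟩, fun he => e4 he.symm⟩)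
      · exact mem_union_left _ (mem_selIn.2 ⟨hsub e1, e2, e3, e5⟩)
    have b7 := (card_le_card b6).trans (card_union_le _ _)
    omega

/-- the flags whose chosen line carries at most `s` flags contain a sparse half -/
theorem Red3_sparse {I Z : Finset (Pt × Pt)} (hI : G.indep I) (hZI : Z ⊆ I) {rk : Pt × Pt → ℕ}
    {ln : Pt × Pt → Finset Pt} {d s : ℕ} (h2 : Set.InjOn rk (Z : Set (Pt × Pt)))
    (h3 : ∀ z ∈ Z, ln z ∈ G.lines ∧ z ∈ G.Fl (ln z) ∧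
      (selIn Z fun u => rk z < rk u ∧ G.mutl z u ∧ u ∉ G.Fl (ln z)).card < d)
    (hs : 2 * d ≤ s) : ∃ Zs ⊆ I, (selIn Z fun z => (G.Fl (ln z) ∩ Z).card ≤ s).card ≤
      2 * Zs.card ∧ G.sparse (6 * s + 1) Zs := by
  set Z1 := selIn Z fun z => (G.Fl (ln z) ∩ Z).card ≤ s with hZ1
  have hZ10 : Z1 ⊆ Z := selIn_subset _ _
  have c2 := Red2_markov Z1 G.mutl (fun a b h => ⟨h.1.symm, h.2.2, h.2.1⟩) (fun a b h => h.1) rk
    (h2.mono (coe_subset.2 hZ10)) (m := d + s) fun z hz => by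
      obtain ⟨hz1, b4⟩ := mem_selIn.1 hz
      obtain ⟨b1, b2, b3⟩ := h3 z hz1
      have b6 : (selIn Z1 fun u => rk z < rk u ∧ G.mutl z u) ⊆
          (selIn Z fun u => rk z < rk u ∧ G.mutl z u ∧ u ∉ G.Fl (ln z)) ∪
            (G.Fl (ln z) ∩ Z) := by
        intro u hu
        obtain ⟨e1, e2, e3⟩ := mem_selIn.1 hu
        by_cases e4 : u ∈ G.Fl (ln z)
        · exact mem_union_right _ (mem_inter.2 ⟨e4, hZ10 e1⟩)
        · exact mem_union_left _ (mem_selIn.2 ⟨hZ10 e1, e2, e3, e4⟩)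
      have b7 := (card_le_card b6).trans (card_union_le _ _)
      omega
  set Zs := selIn Z1 fun z => (selIn Z1 (G.mutl z)).card ≤ 4 * (d + s) with hZs
  have hZ1' : Zs ⊆ Z1 := selIn_subset _ _
  have hZI' : Zs ⊆ I := hZ1'.trans (hZ10.trans hZI)
  refine ⟨Zs, hZI', c2, hZI'.trans hI.1, fun z hz => ?_⟩
  have c3 : (insert z (selIn Z1 (G.mutl z))).card ≤ 6 * s + 1 := by
    have := (mem_selIn.1 hz).2
    have := card_insert_le z (selIn Z1 (G.mutl z))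
    omega
  constructor
  · refine le_trans (card_le_card fun u hu => ?_) c3
    obtain ⟨e1, e2⟩ := mem_selIn.1 hu
    by_cases e3 : u = z
    · exact mem_insert.2 (Or.inl e3)
    · exact mem_insert_of_mem (mem_selIn.2 ⟨hZ1' e1, fun he => e3 he.symm, e2,
        (hI.2 z (hZI' hz) u (hZI' e1)).1 e2⟩)
  · refine le_trans (card_le_card fun u hu => ?_) c3
    obtain ⟨e1, e2⟩ := mem_selIn.1 hu
    by_cases e3 : u = z
    · exact mem_insert.2 (Or.inl e3)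
    · exact mem_insert_of_mem (mem_selIn.2 ⟨hZ1' e1, fun he => e3 he.symm,
        (hI.2 z (hZI' hz) u (hZI' e1)).2 e2, e2⟩)

/-- `peel D Z`, `Z0 = Z \ K`, `core` if `K` is large. Otherwise `s z = |Fl (ln z) ∩ Z0|`, `s*` the
least value with half of `Z0` at or below it, `s = max s* (2 D)`. Flags with `s z ≤ s` have fewer
than `D + s ≤ 3 s / 2` later mutual neighbours, Markov gives `Zs`. If `s* > 2 D`,
`Zl = {z | s ≤ s z}`: all but the last `D` members of a clique `Fl l ∩ Z0` have `ln = l`, and a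
later mutual neighbour `u` of `z` with another line is outside `Fl (ln z)` (fewer than `D`) or among
the last `D` members of that clique. -/
theorem reduce2 {Z : Finset (Pt × Pt)} (hZ : G.indep Z) {D : ℕ} (hD : 1 ≤ D) :
    (∃ T ⊆ Z, T.card ≤ 4 * (Z.card / D) + 4 ∧ Z.card ≤ 4 * (Z ∩ G.det T).card) ∨
    ∃ s, 2 * D ≤ s ∧ ∃ Zs ⊆ Z, Z.card ≤ 8 * Zs.card ∧ G.sparse (6 * s + 1) Zs ∧
      (s = 2 * D ∨ ∃ Zl ⊆ Z, ∃ ln, Z.card ≤ 4 * Zl.card ∧ G.Cliq s Zl ln) := by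
  obtain ⟨K, hK, rk, ln, h1, h2, h3⟩ := G.peel D Z
  by_cases ha : Z.card ≤ 2 * K.card
  · have hKi : G.indep K := ⟨hK.trans hZ.1, fun u hu v hv => hZ.2 u (hK hu) v (hK hv)⟩
    obtain ⟨T, hT, c1, c2⟩ := G.core hKi hD h1
    have c3 : K.card / D ≤ Z.card / D := Nat.div_le_div_right (card_le_card hK)
    have c4 : (K ∩ G.det T).card ≤ (Z ∩ G.det T).card :=
      card_le_card (inter_subset_inter_right hK)
    exact Or.inl ⟨T, hT.trans hK, by omega, by omega⟩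
  refine Or.inr ?_
  have hc : (Z \ K).card + K.card = Z.card := card_sdiff_add_card_eq_card hK
  have hZI : Z \ K ⊆ Z := sdiff_subset
  generalize Z \ K = Z0 at h2 h3 hc hZI
  have hex : ∃ s, 2 * D ≤ s ∧
      Z0.card ≤ 2 * (selIn Z0 fun z => (G.Fl (ln z) ∩ Z0).card ≤ s).card := by
    refine ⟨2 * D + Z0.card, Nat.le_add_right _ _, ?_⟩
    have c1 : Z0 ⊆ selIn Z0 fun z => (G.Fl (ln z) ∩ Z0).card ≤ 2 * D + Z0.card := fun z hz =>
      mem_selIn.2 ⟨hz, (card_le_card inter_subset_right).trans (Nat.le_add_left _ _)⟩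
    have c2 := card_le_card c1
    omega
  classical
  obtain ⟨hs, hs'⟩ := Nat.find_spec hex
  have hmin := fun m => Nat.find_min hex (m := m)
  generalize Nat.find hex = s at hs hs' hmin
  obtain ⟨Zs, e1, e2, e3⟩ := G.Red3_sparse hZ hZI h2 h3 hs
  refine ⟨s, hs, Zs, e1, by omega, e3, ?_⟩
  rcases hs.eq_or_lt with he | hlt
  · exact Or.inl he.symm
  refine Or.inr ⟨_, (selIn_subset _ _).trans hZI, ln, ?_, G.Red3_cliq h2 h3 hs⟩
  have c1 := hmin (s - 1) (by omega)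
  rw [not_and, not_le] at c1
  have c2 := c1 (by omega)
  have c3 := Red2_split Z0 fun z => (G.Fl (ln z) ∩ Z0).card ≤ s - 1
  have c4 : (selIn Z0 fun z => ¬ (G.Fl (ln z) ∩ Z0).card ≤ s - 1).card ≤
      (selIn Z0 fun z => s ≤ (G.Fl (ln z) ∩ Z0).card).card := card_le_card fun u hu => by
    obtain ⟨f1, f2⟩ := mem_selIn.1 hu
    exact mem_selIn.2 ⟨f1, by omega⟩
  omega

end PG
end Pool.Agent.Work.MP_e10cd8_co.Four
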