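import Pool.Agent.Work.MP_e10cd8_co.Exact.KFam
import Pool.Agent.Work.MP_e10cd8_co.Exact.CapL
import Pool.Agent.Work.MP_e10cd8_co.Exact.Red3

/-! The cover of the sparse sets (paper E, F). -/

namespace Pool.Agent.Work.MP_e10cd8_co.Four
namespace PG
open Finset

variable {q : ℕ} {Pt : Type} [Fintype Pt] [DecidableEq Pt] (G : PG q Pt)

theorem CapK_E {D k : ℕ} (h : XPar q D k) :
    Real.exp (-(Real.log (Real.log q) / 2)) ^ 2 * Real.log q = 1 := by
  have hL : (0 : ℝ) < Real.log q := lt_of_lt_of_le (by norm_num) h.L_ge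
  have e : -(Real.log (Real.log q) / 2) + -(Real.log (Real.log q) / 2) =
      -Real.log (Real.log q) := by ring
  rw [sq, ← Real.exp_add, e, Real.exp_neg, Real.exp_log hL, inv_mul_cancel₀ hL.ne']

theorem CapK_two {k : ℕ} {a b y : ℝ} (hk : (10 : ℝ) ^ 10 ≤ k) (hy : 0 ≤ y)
    (ha : a ≤ Real.exp (k * (y + 1) / 8000)) (hb : b ≤ Real.exp (k * (y / 2 + 1) / 8000)) :
    a + b ≤ Real.exp (k * (y + 1) / 4000) := by
  have k0 : (0 : ℝ) ≤ k := Nat.cast_nonneg _
  have ky : 0 ≤ k * y := mul_nonneg k0 hy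
  have e1 : Real.exp (k * (y / 2 + 1) / 8000) ≤ Real.exp (k * (y + 1) / 8000) :=
    Real.exp_le_exp.2 (by linarith)
  have e2 : Real.exp (k * (y + 1) / 4000) =
      Real.exp (k * (y + 1) / 8000) * Real.exp (k * (y + 1) / 8000) := by
    rw [← Real.exp_add]
    congr 1
    ring
  have e3 : k * (y + 1) / 8000 + 1 ≤ Real.exp (k * (y + 1) / 8000) := Real.add_one_le_exp _
  have e4 : 2 ≤ Real.exp (k * (y + 1) / 8000) := by linarith
  have e5 := mul_le_mul_of_nonneg_right e4 (Real.exp_pos (k * (y + 1) / 8000)).le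
  rw [e2]
  linarith

/-- the top level qualifies -/
theorem CapK_top {D k : ℕ} (h : XPar q D k) {Z Z' T : Finset (Pt × Pt)} (hk : k ≤ 8 * Z.card)
    (h' : Z' ⊆ Z) (hloss : ((Z \ Z').card : ℝ) ≤ k / 1000) (hv : G.Valid (xd1 q k) Z Z' T) :
    (q : ℝ) ^ 3 / Real.exp (xJ q) ≤ (G.BB T).card := by
  have hq : (1000 : ℝ) ≤ q := by exact_mod_cast h.hq
  have hqk : (q : ℝ) ≤ k := by exact_mod_cast h.q_le_k
  have h1 := G.valid_loss_bad h h' hv
  have h2 : (Z.card : ℝ) ≤ (Z \ Z').card + (Z' \ G.BB T).card + (G.BB T).card := by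
    have : Z ⊆ (Z \ Z') ∪ (Z' \ G.BB T) ∪ G.BB T := by
      intro z hz
      simp only [mem_union, mem_sdiff]
      tauto
    have h3 := (card_le_card this).trans ((card_union_le _ _).trans
      (Nat.add_le_add_right (card_union_le _ _) _))
    exact_mod_cast h3
  have h3 : (k : ℝ) ≤ 8 * Z.card := by exact_mod_cast hk
  have h4 : (1 : ℝ) ≤ (G.BB T).card := by linarith
  exact ((div_le_one (Real.exp_pos _)).2 h.cube_le_exp_xJ).trans h4

/-- the size of the bad set at its level -/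
theorem CapK_lev {j : ℕ} {T : Finset (Pt × Pt)}
    (hmin : ∀ i < j, ¬ (q : ℝ) ^ 3 / Real.exp i ≤ (G.BB T).card) :
    ((G.BB T).card : ℝ) ≤ 14 * Real.exp (-j) * (q : ℝ) ^ 3 := by
  have q3 : (0 : ℝ) ≤ (q : ℝ) ^ 3 := by positivity
  rcases j with _ | i
  · refine (G.card_bad_le (by norm_num) _ _).trans ?_
    simp only [Nat.cast_zero, neg_zero, Real.exp_zero]
    linarith
  · refine (not_le.1 (hmin i (Nat.lt_succ_self i))).le.trans ?_
    rw [div_eq_mul_inv, ← Real.exp_neg, mul_comm]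
    refine mul_le_mul_of_nonneg_right ?_ q3
    have a1 : Real.exp (-(i : ℝ)) = Real.exp 1 * Real.exp (-((i + 1 : ℕ) : ℝ)) := by
      rw [← Real.exp_add]
      congr 1
      push_cast
      ring
    have a3 : Real.exp 1 ≤ 14 := Real.exp_one_lt_d9.le.trans (by norm_num)
    rw [a1]
    exact mul_le_mul_of_nonneg_right a3 (Real.exp_pos _).le

/-- the outcome with the determined flags -/
theorem CapK_det {D k j : ℕ} (h : XPar q D k) {F : Finset (Finset Pt × Finset Pt)}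
    {XY : Finset Pt × Finset Pt} (hXY : XY ∈ F) {Z T Ts Zq T' : Finset (Pt × Pt)}
    (hZ : Z ⊆ G.flags) (hk' : Z.card ≤ k) (hk : k ≤ 9 * Zq.card)
    (ho : G.Out k j XY.1 XY.2 Z T Ts Zq)
    (hX : (XY.1.card : ℝ) * Real.log q ≤ (q : ℝ) ^ 3)
    (hY : (XY.2.card : ℝ) * Real.log q ≤ (q : ℝ) ^ 3) (t1 : T' ⊆ Zq)
    (t2 : T'.card ≤ 4 * (Zq.card / D) + 4) (t3 : Zq.card ≤ 4 * (Zq ∩ G.det T').card) :
    hits (G.Cov D k j F (3 * Real.exp (-(Real.log (Real.log q) / 2)))) (xw k) Z := by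
  have hD := h.D_ge
  have hD0 : (0 : ℝ) < D := by exact_mod_cast (by omega : 0 < D)
  have k0 : (0 : ℝ) ≤ k := Nat.cast_nonneg _
  have hL : (0 : ℝ) < Real.log q := lt_of_lt_of_le (by norm_num) h.L_ge
  have hqk : Zq.card ≤ k := (card_le_card ho.zsub).trans hk'
  refine G.hits_Cov hXY ho t1 ?_ (Or.inr (Or.inl rfl)) ?_ ?_
  · refine le_trans ?_ h.le_xt2
    have a1 : ((Zq.card / D : ℕ) : ℝ) ≤ (k : ℝ) / D :=
      Nat.cast_div_le.trans (div_le_div_of_nonneg_right (by exact_mod_cast hqk) hD0.le)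
    have a2 : (T'.card : ℝ) ≤ 4 * ((Zq.card / D : ℕ) : ℝ) + 4 := by exact_mod_cast t2
    have a3 : 0 ≤ (k : ℝ) / D := div_nonneg k0 hD0.le
    rw [mul_div_assoc]
    linarith
  · have a1 : ((G.det T' ∩ G.pool XY.1 XY.2).card : ℝ) ≤
        XY.1.card + XY.2.card + (T'.card : ℝ) ^ 2 := by
      exact_mod_cast G.card_det_pool_le ((t1.trans ho.zsub).trans hZ) XY.1 XY.2
    have a2 : (T'.card : ℝ) ≤ k := by exact_mod_cast (card_le_card t1).trans hqk
    have a3 : (T'.card : ℝ) ^ 2 * Real.log q ≤ (q : ℝ) ^ 3 :=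
      (mul_le_mul_of_nonneg_right (pow_le_pow_left₀ (Nat.cast_nonneg _) a2 2) hL.le).trans
        h.k_sq_le
    have a4 : ((G.det T' ∩ G.pool XY.1 XY.2).card : ℝ) * Real.log q ≤ 3 * (q : ℝ) ^ 3 := by
      have := mul_le_mul_of_nonneg_right a1 hL.le
      rw [add_mul, add_mul] at this
      linarith
    have hE := CapK_E h
    have hl := h.ell_ge
    have E0 := Real.exp_pos (-(Real.log (Real.log q) / 2))
    have E1 : Real.exp (-(Real.log (Real.log q) / 2)) ≤ 1 := Real.exp_le_one_iff.2 (by linarith)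
    generalize Real.exp (-(Real.log (Real.log q) / 2)) = E at hE E0 E1 ⊢
    generalize ((G.det T' ∩ G.pool XY.1 XY.2).card : ℝ) = b at a4 ⊢
    have q3 : (0 : ℝ) ≤ (q : ℝ) ^ 3 := by positivity
    have E2 : E ^ 2 ≤ E := by nlinarith
    calc b = b * (E ^ 2 * Real.log q) := by rw [hE, mul_one]
      _ = E ^ 2 * (b * Real.log q) := by ring
      _ ≤ E ^ 2 * (3 * (q : ℝ) ^ 3) := mul_le_mul_of_nonneg_left a4 (sq_nonneg _)
      _ ≤ E * (3 * (q : ℝ) ^ 3) := mul_le_mul_of_nonneg_right E2 (by linarith)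
      _ = _ := by ring
  · have b1 : Zq ∩ G.det T' ⊆ Zq ∩ (G.det T' ∩ G.pool XY.1 XY.2) := fun z hz =>
      mem_inter.2 ⟨(mem_inter.1 hz).1,
        mem_inter.2 ⟨(mem_inter.1 hz).2, ho.inP (mem_inter.1 hz).1⟩⟩
    have b2 := card_le_card b1
    have b3 : k ≤ 36 * (Zq ∩ (G.det T' ∩ G.pool XY.1 XY.2)).card := by omega
    have b4 : (k : ℝ) ≤ 36 * (Zq ∩ (G.det T' ∩ G.pool XY.1 XY.2)).card := by exact_mod_cast b3
    have a3 := h.xw_le
    have a4 := h.xt2_le
    linarith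

/-- the level of the second sample is small -/
theorem CapK_x {D k : ℕ} (h : XPar q D k) {x : ℝ} (hx0 : 0 < x)
    (hxk : x * k = 60160 * (12 * D + 1) * q) :
    x ≤ 1 / 4 ∧ 2 * x ≤ 3 * Real.exp (-(Real.log (Real.log q) / 2)) := by
  have hD := h.D_ge
  have hD1 : (1 : ℝ) ≤ D := by exact_mod_cast (by omega : 1 ≤ D)
  have hq : (1000 : ℝ) ≤ q := by exact_mod_cast h.hq
  have q0 : (0 : ℝ) < q := by linarith
  have hL : (0 : ℝ) < Real.log q := lt_of_lt_of_le (by norm_num) h.L_ge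
  have hDD := h.hD1
  have a1 := mul_le_mul_of_nonneg_left h.hk1 hx0.le
  have a2 : (q : ℝ) ≤ D * q := le_mul_of_one_le_left q0.le hD1
  have a3 : 0 ≤ x * Real.log q * q := by positivity
  have a4 : 8 * (x * Real.log q) * q ≤ D * q := by
    rw [hxk] at a1
    have e1 : x * (13 * 10 ^ 6 * 2 ^ 50 * q * Real.log q) =
        13 * 10 ^ 6 * 2 ^ 50 * (x * Real.log q * q) := by ring
    have e2 : 60160 * (12 * (D : ℝ) + 1) * q = 60160 * 12 * (D * q) + 60160 * q := by ring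
    have e3 : 8 * (x * Real.log q) * q = 8 * (x * Real.log q * q) := by ring
    rw [e1, e2] at a1
    rw [e3]
    linarith
  have a5 : 8 * (x * Real.log q) ≤ D := le_of_mul_le_mul_right a4 q0
  have hE := CapK_E h
  have E0 := Real.exp_pos (-(Real.log (Real.log q) / 2))
  generalize Real.exp (-(Real.log (Real.log q) / 2)) = E at hE E0 ⊢
  constructor
  · have b1 : (D : ℝ) ≤ Real.log q := by nlinarith
    have b2 : 8 * x * Real.log q ≤ 1 * Real.log q := by linarith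
    have := le_of_mul_le_mul_right b2 hL
    linarith
  · have b1 : (D * E) ^ 2 ≤ 1 := by
      rw [mul_pow, ← hE, mul_comm]
      exact mul_le_mul_of_nonneg_left hDD (sq_nonneg _)
    have b2 : D * E ≤ 1 := by
      have : 0 ≤ D * E := by positivity
      nlinarith
    have b3 : 8 * x ≤ E := by
      calc 8 * x = 8 * x * (E ^ 2 * Real.log q) := by rw [hE, mul_one]
        _ = E ^ 2 * (8 * (x * Real.log q)) := by ring
        _ ≤ E ^ 2 * D := mul_le_mul_of_nonneg_left a5 (sq_nonneg _)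
        _ = E * (D * E) := by ring
        _ ≤ E * 1 := mul_le_mul_of_nonneg_left b2 E0.le
        _ = E := mul_one _
    linarith

/-- the outcome with the second sample -/
theorem CapK_st2 {D k j s : ℕ} (h : XPar q D k) {F : Finset (Finset Pt × Finset Pt)}
    {XY : Finset Pt × Finset Pt} (hXY : XY ∈ F) {Z Zs T Ts Zq : Finset (Pt × Pt)}
    (hk' : Z.card ≤ k) (hk : k ≤ 9 * Zq.card) (hs : s = 2 * D) (hsub : Zs ⊆ Zq)
    (h8 : Zq.card ≤ 8 * Zs.card) (hsp : G.sparse (6 * s + 1) Zs)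
    (ho : G.Out k j XY.1 XY.2 Z T Ts Zq) (hj : (j : ℝ) < Real.log (Real.log q)) :
    hits (G.Cov D k j F (3 * Real.exp (-(Real.log (Real.log q) / 2)))) (xw k) Z := by
  have hD := h.D_ge
  have hq : (1000 : ℝ) ≤ q := by exact_mod_cast h.hq
  have hqk : (q : ℝ) ≤ k := by exact_mod_cast h.q_le_k
  have q0 : (0 : ℝ) < q := by linarith
  have k0 : (0 : ℝ) < k := by linarith
  have hD1 : (1 : ℝ) ≤ D := by exact_mod_cast (by omega : 1 ≤ D)
  have hD0 : (0 : ℝ) < D := by linarith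
  have hsD : (s : ℝ) = 2 * D := by exact_mod_cast hs
  have hl := h.ell_ge
  have hm := h.xm2_le
  have hZ : (k : ℝ) ≤ 72 * Zs.card := by exact_mod_cast (by omega : k ≤ 72 * Zs.card)
  have hZk : (Zs.card : ℝ) ≤ k := by
    exact_mod_cast (card_le_card (hsub.trans ho.zsub)).trans hk'
  have sq0 : 0 ≤ (s : ℝ) * q := by positivity
  set x : ℝ := 60160 * (6 * s + 1) * q / k with hx
  have hxk : x * k = 60160 * (6 * s + 1) * q := by rw [hx]; field_simp
  have hx0 : 0 < x := by positivity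
  obtain ⟨x1, x2⟩ := CapK_x h hx0 (by rw [hxk, hsD]; ring)
  have hx1 : 60160 * Real.exp (-(Real.log (Real.log q) + 53)) ≤ x := by
    have a1 : (k : ℝ) / q ≤ Real.exp (Real.log (Real.log q) + 53) :=
      (Real.log_le_iff_le_exp (by positivity)).1 h.log_k_div_q
    have a2 : Real.exp (-(Real.log (Real.log q) + 53)) ≤ q / k := by
      rw [Real.exp_neg, ← inv_div]
      exact inv_anti₀ (by positivity) a1
    have a3 : 60160 * ((q : ℝ) / k) ≤ x := by
      rw [hx, ← mul_div_assoc]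
      refine div_le_div_of_nonneg_right ?_ k0.le
      linarith
    linarith
  obtain ⟨T', t1, t2, t3, t4⟩ := G.stage2 (X0 := G.PP Ts) (Y0 := G.QQ Ts) (Z' := Zs)
    (d := 6 * s + 1) (m := xm2 q) (x := x) (Om := 29 * Real.exp (2 * j))
    hsp ((hsub.trans ho.zsub).trans ho.all)
    (by unfold xm2; linarith) (by push_cast; linarith) hx0 x1
    (by
      push_cast
      have := mul_le_mul_of_nonneg_left hZ hx0.le
      linarith)
    ho.prod
    (by
      have a1 : Real.exp (-xm2 q / 6) * Real.exp (2 * j) ≤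
          Real.exp (-(Real.log (Real.log q) + 53)) ^ 2 := by
        rw [← Real.exp_add, sq, ← Real.exp_add]
        refine Real.exp_le_exp.2 ?_
        unfold xm2
        linarith
      have a2 := pow_le_pow_left₀ (by positivity) hx1 2
      have a3 : 0 ≤ Real.exp (-(Real.log (Real.log q) + 53)) ^ 2 := by positivity
      rw [mul_pow] at a2
      linarith)
  have hsk : s ≤ k := by
    have hL : (0 : ℝ) < Real.log q := lt_of_lt_of_le (by norm_num) h.L_ge
    have a1 := h.hD1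
    have a2 := h.hk1
    have a3 : (D : ℝ) ≤ Real.log q := by nlinarith
    have a4 : 1000 * Real.log q ≤ q * Real.log q := mul_le_mul_of_nonneg_right hq hL.le
    have : (s : ℝ) ≤ k := by linarith
    exact_mod_cast this
  refine G.hits_Cov hXY ho (t1.trans hsub) ?_
    (Or.inr (Or.inr (Or.inr ⟨s, hsk, rfl⟩))) ?_ ?_
  · refine t2.trans ?_
    unfold xt2
    have m0 : 0 ≤ 10 * xm2 q := by unfold xm2; linarith
    refine div_le_div₀ (by positivity) (mul_le_mul_of_nonneg_left hZk m0) hD0 ?_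
    push_cast
    linarith
  · exact t4.trans (mul_le_mul_of_nonneg_right x2 (by positivity))
  · have b1 : ((Zs ∩ G.st2 (G.PP Ts) (G.QQ Ts) (xm2 q) x T').card : ℝ) ≤
        (Zq ∩ G.st2 (G.PP Ts) (G.QQ Ts) (xm2 q) x T').card := by
      exact_mod_cast card_le_card (inter_subset_inter_right hsub)
    have b2 : (Zs.card : ℝ) ≤
        2 * (Zs ∩ G.st2 (G.PP Ts) (G.QQ Ts) (xm2 q) x T').card := by exact_mod_cast t3
    have a3 := h.xw_le
    have a4 := h.xt2_le
    linarith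

/-- the rounds over the families of `kl_fams` -/
theorem CapK_rounds {D k : ℕ} (h : XPar q D k) {F : ℕ → Finset (Finset Pt × Finset Pt)}
    (hFm : Monotone F)
    (hF : ∀ (j : ℕ) (T : Finset (Pt × Pt)), (q : ℝ) ^ 3 / Real.exp j ≤ (G.BB T).card →
      ∃ XY ∈ F j, G.BB T ⊆ G.pool XY.1 XY.2 ∧
        ((G.pool XY.1 XY.2).card : ℝ) ≤ 2700 * Real.exp j ^ 2 * (q : ℝ) ^ 3)
    {Z : Finset (Pt × Pt)} (hZ : G.sparse (xd1 q k) Z) (hk : k ≤ 8 * Z.card) (hk' : Z.card ≤ k) :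
    ∃ j ≤ xJ q, ∃ XY ∈ F j, ∃ T Ts Zq : Finset (Pt × Pt), G.Out k j XY.1 XY.2 Z T Ts Zq ∧
      ((G.BB Ts).card : ℝ) ≤ 14 * Real.exp (-j) * (q : ℝ) ^ 3 := by
  classical
  let lev : Finset (Pt × Pt) → ℕ := fun T =>
    if hT : ∃ j : ℕ, (q : ℝ) ^ 3 / Real.exp j ≤ (G.BB T).card then Nat.find hT else 0
  have hlev : ∀ T, (q : ℝ) ^ 3 / Real.exp (xJ q) ≤ (G.BB T).card →
      (q : ℝ) ^ 3 / Real.exp (lev T) ≤ (G.BB T).card ∧ lev T ≤ xJ q ∧
      ∀ i < lev T, ¬ (q : ℝ) ^ 3 / Real.exp i ≤ (G.BB T).card := by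
    intro T hT
    have hex : ∃ j : ℕ, (q : ℝ) ^ 3 / Real.exp j ≤ (G.BB T).card := ⟨_, hT⟩
    have e : lev T = Nat.find hex := dif_pos hex
    rw [e]
    exact ⟨Nat.find_spec hex, Nat.find_min' hex hT, fun i hi => Nat.find_min hex hi⟩
  obtain ⟨XY, T, Ts, Zq, Z', hXY, h', hloss, hv, ho⟩ := G.three_rounds h hZ hk' lev F hFm
    (fun Z' h' hloss T hv => by
      have hQ := (hlev T (G.CapK_top h hk h' hloss hv)).1
      obtain ⟨XY, c1, c2, c3⟩ := hF (lev T) T hQ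
      refine ⟨hQ, XY, c1, c3.trans ?_, le_trans ?_ (G.valid_loss_bad h h' hv)⟩
      · refine mul_le_mul_of_nonneg_right ?_ (by positivity)
        rw [Rnd3_exp]
        have j0 : (0 : ℝ) ≤ lev T := Nat.cast_nonneg _
        have a1 : Real.exp (2 * (lev T : ℝ)) ≤ Real.exp (4 * (lev T : ℝ)) :=
          Real.exp_le_exp.2 (by linarith)
        have a2 := Real.exp_pos (4 * (lev T : ℝ))
        linarith
      · exact_mod_cast card_le_card (sdiff_subset_sdiff Subset.rfl c2))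
  obtain ⟨-, hJ, hmin⟩ := hlev Ts (G.CapK_top h hk h' hloss hv)
  exact ⟨lev Ts, hJ, XY, hXY, T, Ts, Zq, ho, G.CapK_lev hmin⟩

/-- `ℓ = log L`. The cover is the union over `j ≤ xJ q` of: `Cov j (Fu j ∪ Fb j) (14 exp (-j))` if
`ℓ ≤ j`, else `Cov j (Fu j) (14 exp (-j))` (`y = j`); for `j < ℓ`, `Cov j (Fb j) (3 exp (-ℓ/2))`
(`y = ℓ/2`); and the covers of `cap_line` (`y = j/2`); `wt_Cov`. `lev T` = least `j` with
`q^3 / exp j ≤ |BB T|`, so `|BB T| ≤ 14 exp (-j) q^3`. `three_rounds` with `Fu j ∪ Fb j`. In the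
remaining case (`j < ℓ`, pair in `Fb j`) apply `reduce2` to `Zs` (`k ≤ 9 |Zs|`): determined flags
(`card_det_pool_le`, `k_sq_le`); `s = 2 D`: `stage2` (`2 x ≤ exp (-ℓ/2)` as `D^2 ≤ L`); cliques:
`cap_line` for `Zs` and `hits_mono`. -/
theorem sparse_cover2 {D k : ℕ} (h : XPar q D k) :
    ∃ C : Finset (Finset (Pt × Pt) × Finset (Pt × Pt)),
      wtC (xp q k) (xw k) C ≤ 3 * (xJ q + 1) * Real.exp (-(k : ℝ) / 30) ∧
      ∀ Z, G.indep Z → G.sparse (xd1 q k) Z → k ≤ 8 * Z.card → Z.card ≤ k → hits C (xw k) Z := by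
  classical
  obtain ⟨Fu, Fb, mu, mb, cu, cb, hb, hF⟩ := G.kl_fams h
  obtain ⟨FL, cL, hL⟩ := G.cap_line h
  have p0 := XPar.xp_nonneg q k
  have k0 : (0 : ℝ) ≤ k := Nat.cast_nonneg _
  have hl := h.ell_ge
  obtain ⟨C1, w1, i1, i1'⟩ : ∃ C1 : ℕ → Finset (Finset (Pt × Pt) × Finset (Pt × Pt)),
      (∀ j, wtC (xp q k) (xw k) (C1 j) ≤ Real.exp (-(k : ℝ) / 30)) ∧
      (∀ j : ℕ, Real.log (Real.log q) ≤ j →
        C1 j = G.Cov D k j (Fu j ∪ Fb j) (14 * Real.exp (-j))) ∧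
      ∀ j : ℕ, (j : ℝ) < Real.log (Real.log q) →
        C1 j = G.Cov D k j (Fu j) (14 * Real.exp (-j)) := by
    refine ⟨fun j => G.Cov D k j (if Real.log (Real.log q) ≤ j then Fu j ∪ Fb j else Fu j)
      (14 * Real.exp (-j)), fun j => ?_, fun j hj => by simp only [if_pos hj],
      fun j hj => by simp only [if_neg (not_le.2 hj)]⟩
    have j0 : (0 : ℝ) ≤ j := Nat.cast_nonneg _
    refine G.wt_Cov h j _ (y := j) j0 (by linarith) ?_
      (mul_le_mul_of_nonneg_right (by norm_num) (Real.exp_pos _).le)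
    split_ifs with hj
    · have a1 := cb j
      rw [max_eq_left hj] at a1
      refine le_trans ?_ (CapK_two (Wt_k h) j0 (cu j) a1)
      exact_mod_cast card_union_le _ _
    · simpa using CapK_two (b := 0) (Wt_k h) j0 (cu j) (Real.exp_pos _).le
  obtain ⟨C2, w2, i2⟩ : ∃ C2 : ℕ → Finset (Finset (Pt × Pt) × Finset (Pt × Pt)),
      (∀ j, wtC (xp q k) (xw k) (C2 j) ≤ Real.exp (-(k : ℝ) / 30)) ∧
      ∀ j : ℕ, (j : ℝ) < Real.log (Real.log q) →
        C2 j = G.Cov D k j (Fb j) (3 * Real.exp (-(Real.log (Real.log q) / 2))) := by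
    refine ⟨fun j => if (j : ℝ) < Real.log (Real.log q) then
      G.Cov D k j (Fb j) (3 * Real.exp (-(Real.log (Real.log q) / 2))) else ∅, fun j => ?_,
      fun j hj => by simp only [if_pos hj]⟩
    dsimp only
    split_ifs with hj
    · refine G.wt_Cov h j _ (y := Real.log (Real.log q) / 2) (by linarith) (by linarith) ?_
        (mul_le_mul_of_nonneg_right (by norm_num) (Real.exp_pos _).le)
      have a1 := cb j
      rw [max_eq_right hj.le] at a1
      refine a1.trans (Real.exp_le_exp.2 ?_)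
      have : 0 ≤ k * (Real.log (Real.log q) / 2 + 1) := mul_nonneg k0 (by linarith)
      linarith
    · rw [wtC, sum_empty]
      exact (Real.exp_pos _).le
  obtain ⟨C3, w3, i3⟩ : ∃ C3 : ℕ → Finset (Finset (Pt × Pt) × Finset (Pt × Pt)),
      (∀ j, wtC (xp q k) (xw k) (C3 j) ≤ Real.exp (-(k : ℝ) / 30)) ∧
      ∀ j : ℕ, C3 j = G.Cov D k j (FL j) (4 * 10 ^ 6 * Real.exp (-((j : ℝ) / 2))) := by
    refine ⟨fun j => G.Cov D k j (FL j) (4 * 10 ^ 6 * Real.exp (-((j : ℝ) / 2))), fun j => ?_,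
      fun j => rfl⟩
    have j0 : (0 : ℝ) ≤ j := Nat.cast_nonneg _
    exact G.wt_Cov h j _ (y := (j : ℝ) / 2) (by linarith) (by linarith) (cL j)
      (mul_le_mul_of_nonneg_right (by norm_num) (Real.exp_pos _).le)
  refine ⟨(range (xJ q + 1)).biUnion fun j => C1 j ∪ C2 j ∪ C3 j, ?_, ?_⟩
  · refine (wtC_biUnion_le p0 _ _ _).trans ?_
    refine (sum_le_card_nsmul _ _ (3 * Real.exp (-(k : ℝ) / 30)) fun j _ => ?_).trans ?_
    · have a1 := wtC_union_le p0 (xw k) (C1 j ∪ C2 j) (C3 j)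
      have a2 := wtC_union_le p0 (xw k) (C1 j) (C2 j)
      have := w1 j
      have := w2 j
      have := w3 j
      linarith
    · rw [card_range, nsmul_eq_mul]
      push_cast
      exact le_of_eq (by ring)
  intro Z hI hZ hk hk'
  have sub : ∀ j ≤ xJ q, C1 j ∪ C2 j ∪ C3 j ⊆
      (range (xJ q + 1)).biUnion fun j => C1 j ∪ C2 j ∪ C3 j := fun j hj =>
    subset_biUnion_of_mem (fun j => C1 j ∪ C2 j ∪ C3 j) (mem_range.2 (Nat.lt_succ_of_le hj))
  have s1 : ∀ j ≤ xJ q, hits (C1 j) (xw k) Z → _ := fun j hj =>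
    hits_mono ((subset_union_left.trans subset_union_left).trans (sub j hj)) Subset.rfl
  have s2 : ∀ j ≤ xJ q, hits (C2 j) (xw k) Z → _ := fun j hj =>
    hits_mono ((subset_union_right.trans subset_union_left).trans (sub j hj)) Subset.rfl
  obtain ⟨j, hJ, XY, hXY, T, Ts, Zq, ho, hB⟩ := G.CapK_rounds h (F := fun j => Fu j ∪ Fb j)
    (fun _ _ hab => union_subset_union (mu hab) (mb hab)) hF hZ hk hk'
  have hk9 : k ≤ 9 * Z.card := by omega
  rcases le_or_gt (Real.log (Real.log q)) j with hj | hj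
  · refine s1 j hJ ?_
    rw [i1 j hj]
    exact G.CapL_bad h hXY hk9 ho hB
  rcases mem_union.1 hXY with hXY | hXY
  · refine s1 j hJ ?_
    rw [i1' j hj]
    exact G.CapL_bad h hXY hk9 ho hB
  have hq9 : k ≤ 9 * Zq.card := by
    have a1 := CapL_sd Z Zq
    rw [inter_eq_right.2 ho.zsub] at a1
    have a2 : (k : ℝ) ≤ 8 * Z.card := by exact_mod_cast hk
    have a3 := ho.loss
    have : (k : ℝ) ≤ 9 * Zq.card := by linarith
    exact_mod_cast this
  have hD := h.D_ge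
  have hIq : G.indep Zq :=
    ⟨ho.zsub.trans hI.1, fun u hu v hv => hI.2 u (ho.zsub hu) v (ho.zsub hv)⟩
  rcases G.reduce2 hIq (by omega : 1 ≤ D) with ⟨T', t1, t2, t3⟩ |
    ⟨s, hs, Zs, hsub, h8, hsp, hs' | ⟨Zl, hl', ln, hl4, hC⟩⟩
  · refine s2 j hJ ?_
    rw [i2 j hj]
    exact G.CapK_det h hXY hI.1 hk' hq9 ho (hb j hj XY hXY).1 (hb j hj XY hXY).2 t1 t2 t3
  · refine s2 j hJ ?_
    rw [i2 j hj]
    exact G.CapK_st2 h hXY hk' hq9 hs' hsub h8 hsp ho hj
  · obtain ⟨i, hi, hh⟩ := hL Zq Zs Zl ln s (G.sparse_mono hZ ho.zsub)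
      ((card_le_card ho.zsub).trans hk') hq9 hs hsub h8 hsp hl' hl4 hC
    rw [← i3 i] at hh
    exact hits_mono (subset_union_right.trans (sub i hi)) ho.zsub hh

end PG
end Pool.Agent.Work.MP_e10cd8_co.Four
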