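import Pool.Agent.Work.MP_e10cd8_co.Exact.Rec0
import Pool.Agent.Work.MP_e10cd8_co.Four.KL

/-! Containers in the unbalanced range, without the factor `log log q` (paper D). Compare
`Four/Corr`, `Four/KL`. -/

namespace Pool.Agent.Work.MP_e10cd8_co.Four
namespace PG
open Finset

variable {q : ℕ} {Pt : Type} [Fintype Pt] [DecidableEq Pt] (G : PG q Pt)

theorem KL0_pow {w : ℝ} {c : ℕ} (hp : Par0 q w c) {N k : ℕ} (hN : N ≤ q ^ k)
    (hk : k ≤ 64 * ((c + 4) * q)) : (N : ℝ) ≤ Real.exp (2 ^ 30 * q * Real.log q * Real.log w) := by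
  have hq := hp.q_pos
  have h1 : (N : ℝ) ≤ Real.exp (k * Real.log q) := by
    rw [Real.exp_nat_mul, Real.exp_log hq]
    exact_mod_cast hN
  refine h1.trans (Real.exp_le_exp.2 ?_)
  have h2 : (k : ℝ) ≤ 64 * ((c + 4) * q) := by exact_mod_cast hk
  have h3 : 64 * ((c : ℝ) + 4) ≤ 2 ^ 30 * Real.log w := by linarith [hp.hc2, hp.twenty_le_log]
  have h4 := mul_le_mul_of_nonneg_right h3 hq.le
  have h5 : (k : ℝ) ≤ 2 ^ 30 * Real.log w * q := by linarith
  have h6 := mul_le_mul_of_nonneg_right h5 (zero_le_one.trans hp.one_le_L)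
  linarith

theorem KL0_c {w : ℝ} {c : ℕ} (hp : Par0 q w c) : c + 4 ≤ q := by
  have h : (c : ℝ) + 4 ≤ q := hp.c_le.trans ((le_self_pow₀ hp.one_le_w (by norm_num)).trans hp.hq)
  exact_mod_cast h

theorem KL0_T (G : PG q Pt) {w : ℝ} {c : ℕ} (hp : Par0 q w c) :
    (selIn (range (c + 4) ×ˢ (univ : Finset Pt)).powerset
      fun T => T.card ≤ 10 * (c + 4) * q).card ≤ q ^ (50 * ((c + 4) * q)) := by
  have hq := hp.thousand_le_q
  refine (Corr_small (q := q) (i := 1) (j := 4) _ _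
    (by rw [card_product, card_range, card_univ]) (by rw [pow_one]; exact KL0_c hp)
    (G.Corr_Q hq) (by omega)).trans (le_of_eq ?_)
  congr 1
  ring

theorem KL0_par {w : ℝ} (hw : (2 : ℝ) ^ 30 ≤ w) (hq : w ^ 100 ≤ q) (hL : Real.log q ^ 20 ≤ q) :
    ∃ c, Par0 q w c :=
  ⟨⌈2 ^ 23 * Real.log w⌉₊, hw, Nat.le_ceil _, (Nat.ceil_lt_add_one
    (mul_nonneg (by norm_num) (Real.log_nonneg (le_trans (by norm_num) hw)))).le, hq, hL⟩

/-- `c = ⌈2^23 log w⌉₊`; the family consists of all sets of at most `4 (c+4) q` points and of the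
outputs of the decoder (parameters `n`, `v`, `T`) -/
theorem corr0 {w : ℝ} (hw : (2 : ℝ) ^ 30 ≤ w) (hq : w ^ 100 ≤ q) (hL : Real.log q ^ 20 ≤ q) :
    ∃ F : Finset (Finset Pt), (F.card : ℝ) ≤ Real.exp (2 ^ 32 * q * Real.log q * Real.log w) ∧
      ∀ P : Finset Pt, (P.card : ℝ) ≤ q * Real.log q ^ 4 → G.Ext (1 / 2 ^ 27) P w →
        ∃ U ∈ F, P.card ≤ 4 * (P ∩ U).card ∧ (U.card : ℝ) ≤ w ^ 400 * P.card := by
  obtain ⟨c, hp⟩ := KL0_par hw hq hL
  have hw1 := hp.one_le_w
  have hw0 : 0 ≤ w := hp.w_pos.le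
  have hq' := hp.thousand_le_q
  have hE : 1 ≤ q * Real.log q * Real.log w :=
    one_le_mul_of_one_le_of_one_le (KL_qL hq') (KL_log hw).1
  have hQ := G.Corr_Q hq'
  have hc : 4 * q ≤ (c + 4) * q := Nat.mul_le_mul_right _ (by omega)
  refine ⟨(selIn (univ : Finset Pt).powerset fun T => T.card ≤ 4 * (c + 4) * q) ∪
    (range (q ^ 2 + 1) ×ˢ range (2 * q ^ 2 + 1) ×ˢ
      selIn (range (c + 4) ×ˢ (univ : Finset Pt)).powerset
        fun T => T.card ≤ 10 * (c + 4) * q).image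
      fun x => G.dec c (1 - (q : ℝ) / x.1) (fun _ => x.1 / q) ∅ x.2.1 x.2.2, ?_,
    fun P hP hX => ?_⟩
  · have a1 := KL0_pow hp (Corr_small (q := q) (a := 1) (i := 0) (j := 4) (univ : Finset Pt)
      (4 * (c + 4) * q) (by rw [one_mul, card_univ]) (by simp) hQ (by omega))
      (by rw [mul_assoc]; omega)
    have a2 := KL0_pow hp (k := 3 + (3 + 50 * ((c + 4) * q)))
      (N := (range (q ^ 2 + 1) ×ˢ range (2 * q ^ 2 + 1) ×ˢ
        selIn (range (c + 4) ×ˢ (univ : Finset Pt)).powerset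
          fun T => T.card ≤ 10 * (c + 4) * q).card) (by
        have h1 := Corr_sq hq'
        rw [card_product, card_product, card_range, card_range, pow_add, pow_add]
        exact Nat.mul_le_mul (by omega) (Nat.mul_le_mul h1 (G.KL0_T hp))) (by omega)
    have a4 : 2 ≤ Real.exp (2 ^ 30 * q * Real.log q * Real.log w) :=
      le_trans (by linarith) (Real.add_one_le_exp _)
    have a5 : Real.exp (2 ^ 30 * q * Real.log q * Real.log w) *
        Real.exp (2 ^ 30 * q * Real.log q * Real.log w) ≤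
        Real.exp (2 ^ 32 * q * Real.log q * Real.log w) := by
      rw [← Real.exp_add]
      exact Real.exp_le_exp.2 (by linarith)
    refine (Nat.cast_le.2 ((card_union_le _ _).trans
      (Nat.add_le_add_left card_image_le _))).trans ?_
    push_cast
    have a6 := mul_le_mul_of_nonneg_right a4 (Real.exp_pos
      (2 ^ 30 * q * Real.log q * Real.log w)).le
    linarith
  have hn0 : (0 : ℝ) ≤ P.card := Nat.cast_nonneg _
  rcases lt_or_ge P.card (4 * (c + 4) * q) with hn | hn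
  · refine ⟨P, mem_union_left _ (mem_selIn.2 ⟨mem_powerset.2 (subset_univ _), hn.le⟩), ?_,
      le_mul_of_one_le_left hn0 (one_le_pow₀ hw1)⟩
    rw [inter_self]
    omega
  obtain ⟨T, hT, hT', v, hv, a1, a2⟩ := G.rec0 hp hn hP hX
  have hP2 : P.card ≤ q ^ 2 := by
    have b1 : Real.log q ^ 4 ≤ q := (pow_le_pow_right₀ hp.one_le_L (by norm_num)).trans hL
    have b2 : (P.card : ℝ) ≤ (q : ℝ) ^ 2 :=
      hP.trans ((mul_le_mul_of_nonneg_left b1 hp.q_pos.le).trans_eq (sq _).symm)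
    exact_mod_cast b2
  refine ⟨_, mem_union_right _ (mem_image.2 ⟨(P.card, v, T), ?_, rfl⟩), le_trans a1 ?_,
    a2.trans (mul_le_mul_of_nonneg_right ?_ hn0)⟩
  · simp only [mem_product, mem_range, mem_selIn, mem_powerset]
    exact ⟨by omega, by omega, hT.trans (product_subset_product_right (subset_univ _)), hT'⟩
  · exact Nat.mul_le_mul_right _ (by norm_num)
  · calc 200 * w ^ 2 ≤ w * w ^ 2 :=
          mul_le_mul_of_nonneg_right (le_trans (by norm_num) hw) (pow_nonneg hw0 _)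
      _ = w ^ 3 := by ring
      _ ≤ _ := pow_le_pow_right₀ hw1 (by norm_num)

theorem KL0_small {w : ℝ} (hw : (2 : ℝ) ^ 30 ≤ w) (hq : w ^ 100 ≤ q)
    (hL : Real.log q ^ 20 ≤ q) :
    ∃ F : Finset (Finset Pt), (F.card : ℝ) ≤ Real.exp (2 ^ 33 * q * Real.log q * Real.log w) ∧
      ∀ P : Finset Pt, (P.card : ℝ) ≤ q * Real.log q ^ 4 → G.Ext (1 / 2 ^ 27) P w →
        ∃ Y ∈ F, G.low (1 / 2 ^ 27) P ⊆ Y ∧ (Y.card : ℝ) * P.card ≤ 16 * (q : ℝ) ^ 4 := by
  obtain ⟨F0, a1, a2⟩ := G.corr0 hw hq hL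
  obtain ⟨c, hp⟩ := KL0_par hw hq hL
  have hq' := hp.thousand_le_q
  have w1 : (1 : ℝ) ≤ w := by linarith
  have w2 : (1 : ℝ) ≤ w ^ 400 := one_le_pow₀ w1
  obtain ⟨F, b1, b2⟩ := G.KL_comb hq' F0 (Om := 4 * w ^ 400) (by linarith) a1
  obtain ⟨l1, l2⟩ := KL_log hw
  have l3 := KL_qL hq'
  refine ⟨F, b1.trans (Real.exp_le_exp.2 ?_), fun P hP hE => ?_⟩
  · have l4 : Real.log (4 * w ^ 400) ≤ 401 * Real.log w := by
      rw [Real.log_mul (by norm_num) (by positivity), Real.log_pow]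
      have : Real.log 4 ≤ Real.log 16 := Real.log_le_log (by norm_num) (by norm_num)
      push_cast
      linarith
    have l5 : (q * Real.log q) * (1 + Real.log (4 * w ^ 400)) ≤
        (q * Real.log q) * (402 * Real.log w) :=
      mul_le_mul_of_nonneg_left (by linarith) (by linarith)
    have l6 : 0 ≤ (q * Real.log q) * Real.log w := mul_nonneg (by linarith) (by linarith)
    linarith
  · obtain ⟨U, hU, c1, c2⟩ := a2 P hP hE
    have c3 : (P.card : ℝ) ≤ 4 * (P ∩ U).card := by exact_mod_cast c1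
    have hne : (P ∩ U).Nonempty := by
      have := hE.1.card_pos
      exact card_pos.1 (by omega)
    obtain ⟨Y, hY, d1, d2⟩ := b2 U hU (P ∩ U) inter_subset_right hne (by
      have := mul_le_mul_of_nonneg_left c3 (by linarith : 0 ≤ w ^ 400)
      linarith)
    refine ⟨Y, hY, (G.low_subset_low inter_subset_left (by norm_num) c3 (by norm_num)).trans d1, ?_⟩
    have := mul_le_mul_of_nonneg_left c3 (Nat.cast_nonneg (α := ℝ) Y.card)
    linarith

/-- small `P`: `corr0` and `boost` as in `kl_small`; large `P`: as in `kl` with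
`Y' = low (1/2^28) P`, which has at most `q L^4` elements by `card_low_le` -/
theorem kl0 {w Om : ℝ} (hw : (2 : ℝ) ^ 30 ≤ w) (hq : w ^ 100 ≤ q) (hL : Real.log q ^ 20 ≤ q)
    (hOm : 1 ≤ Om) (hOw : 4 * Om ≤ w) :
    ∃ F : Finset (Finset Pt), (F.card : ℝ) ≤ Real.exp (2 ^ 34 * q * Real.log q * Real.log w) ∧
      ∀ P, G.Ext (1 / 2 ^ 28) P Om →
        ((P.card : ℝ) ≤ q * Real.log q ^ 4 ∨ 2 * (q : ℝ) ^ 3 ≤ P.card * Real.log q ^ 4) →
        ∃ Y ∈ F, G.low (1 / 2 ^ 28) P ⊆ Y ∧ (Y.card : ℝ) * P.card ≤ 16 * (q : ℝ) ^ 4 := by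
  obtain ⟨F1, a1, a2⟩ := G.KL0_small hw hq hL
  obtain ⟨c, hp⟩ := KL0_par hw hq hL
  replace hq := hp.thousand_le_q
  obtain ⟨F2, b1, b2⟩ := G.KL_comb hq F1 (Om := 64 * Om) (by linarith) a1
  obtain ⟨l1, l2⟩ := KL_log hw
  have l3 := KL_qL hq
  have q1 : (1000 : ℝ) ≤ q := by exact_mod_cast hq
  have q4 : (0 : ℝ) < (q : ℝ) ^ 4 := by positivity
  refine ⟨F1 ∪ F2, ?_, fun P hE hP => ?_⟩
  · have l4 : Real.log (64 * Om) ≤ 2 * Real.log w := by
      have : Real.log (64 * Om) ≤ Real.log (16 * w) := Real.log_le_log (by linarith) (by linarith)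
      rw [Real.log_mul (x := 16) (by norm_num) (by linarith)] at this
      linarith
    have l5 : (q * Real.log q) * (1 + Real.log (64 * Om)) ≤
        (q * Real.log q) * (3 * Real.log w) :=
      mul_le_mul_of_nonneg_left (by linarith) (by linarith)
    have l6 : 1 ≤ (q * Real.log q) * Real.log w := one_le_mul_of_one_le_of_one_le l3 l1
    have e1 : ((F1 ∪ F2).card : ℝ) ≤ F1.card + F2.card := by exact_mod_cast card_union_le _ _
    have e2 : (F1.card : ℝ) ≤ Real.exp (2 ^ 34 * q * Real.log q * Real.log w - 1) :=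
      a1.trans (Real.exp_le_exp.2 (by linarith))
    have e3 : (F2.card : ℝ) ≤ Real.exp (2 ^ 34 * q * Real.log q * Real.log w - 1) :=
      b1.trans (Real.exp_le_exp.2 (by linarith))
    have e4 : (2 : ℝ) ≤ Real.exp 1 := by linarith [Real.add_one_le_exp (1 : ℝ)]
    have e5 := mul_le_mul_of_nonneg_left e4
      (Real.exp_pos (2 ^ 34 * q * Real.log q * Real.log w - 1)).le
    rw [← Real.exp_add, sub_add_cancel] at e5
    linarith
  · have hm : G.low (1 / 2 ^ 28) P ⊆ G.low (1 / 2 ^ 27) P := G.low_mono (by norm_num) P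
    have hP0 : (0 : ℝ) ≤ P.card := Nat.cast_nonneg _
    rcases hP with hP | h1
    · have h1 : ((G.low (1 / 2 ^ 28) P).card : ℝ) ≤ (G.low (1 / 2 ^ 27) P).card := by
        exact_mod_cast card_le_card hm
      obtain ⟨Y, hY, d1, d2⟩ := a2 P hP ⟨hE.1, hE.2.trans (by gcongr; linarith)⟩
      exact ⟨Y, mem_union_left _ hY, hm.trans d1, d2⟩
    · have h2 := G.card_low_le (x := 1 / 2 ^ 28) (by norm_num) P
      have h3 := hE.2
      have hL0 : (0 : ℝ) ≤ (G.low (1 / 2 ^ 28) P).card := Nat.cast_nonneg _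
      have h4 : ((G.low (1 / 2 ^ 28) P).card : ℝ) ≤ q * Real.log q ^ 4 := by
        have k0 : (0 : ℝ) ≤ Real.log q ^ 4 := by positivity
        have k1 := mul_le_mul_of_nonneg_left h1 hL0
        have k2 : ((G.low (1 / 2 ^ 28) P).card : ℝ) * P.card * (1 / 2) ≤
            ((G.low (1 / 2 ^ 28) P).card : ℝ) * P.card * (1 - 1 / 2 ^ 28) ^ 2 :=
          mul_le_mul_of_nonneg_left (by norm_num) (by positivity)
        have k3 := mul_le_mul_of_nonneg_right (k2.trans h2) k0
        have k4 : ((G.low (1 / 2 ^ 28) P).card : ℝ) * (q : ℝ) ^ 3 ≤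
            q * Real.log q ^ 4 * (q : ℝ) ^ 3 := by linarith
        exact le_of_mul_le_mul_right k4 (by positivity)
      obtain ⟨Y', y1, y2, y3⟩ : ∃ Y' ⊆ G.low (1 / 2 ^ 28) P, (Y'.card : ℝ) ≤ q * Real.log q ^ 4 ∧
          ((G.low (1 / 2 ^ 28) P).card : ℝ) ≤ 2 * Y'.card := ⟨_, Subset.rfl, h4, by linarith⟩
      have y0 : (0 : ℝ) ≤ Y'.card := Nat.cast_nonneg _
      have y4 : (q : ℝ) ^ 4 ≤ 2 * Y'.card * P.card * Om := h3.trans (by gcongr)
      have h5 := G.half_low (by norm_num) y1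
      rw [show (2 : ℝ) * (1 / 2 ^ 28) = 1 / 2 ^ 27 by norm_num] at h5
      have h6 : (P.card : ℝ) ≤ 2 * (G.low (1 / 2 ^ 27) Y').card := by
        have := card_le_card (inter_subset_right (s₁ := P) (s₂ := G.low (1 / 2 ^ 27) Y'))
        have : P.card ≤ 2 * (G.low (1 / 2 ^ 27) Y').card := by omega
        exact_mod_cast this
      have hne : Y'.Nonempty := by
        rw [nonempty_iff_ne_empty]
        rintro rfl
        simp at y4
        linarith
      obtain ⟨U, hU, u1, u2⟩ := a2 Y' y2 ⟨hne, by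
        calc (q : ℝ) ^ 4 ≤ 2 * Y'.card * P.card * Om := y4
          _ ≤ 2 * Y'.card * (2 * (G.low (1 / 2 ^ 27) Y').card) * Om := by gcongr
          _ = (G.low (1 / 2 ^ 27) Y').card * Y'.card * (4 * Om) := by ring
          _ ≤ _ := by gcongr⟩
      have u3 : (U.card : ℝ) ≤ 32 * Om * P.card := by
        refine le_of_mul_le_mul_right ?_ q4
        calc (U.card : ℝ) * (q : ℝ) ^ 4 ≤ U.card * (2 * Y'.card * P.card * Om) := by gcongr
          _ = U.card * Y'.card * (2 * P.card * Om) := by ring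
          _ ≤ 16 * (q : ℝ) ^ 4 * (2 * P.card * Om) := by gcongr
          _ = _ := by ring
      have c1 : P.card ≤ 2 * (P ∩ U).card :=
        h5.trans (Nat.mul_le_mul_left 2 (card_le_card (inter_subset_inter_left u1)))
      have c3 : (P.card : ℝ) ≤ 2 * (P ∩ U).card := by exact_mod_cast c1
      have hne' : (P ∩ U).Nonempty := by
        have := hE.1.card_pos
        exact card_pos.1 (by omega)
      obtain ⟨Y, hY, d1, d2⟩ := b2 U hU (P ∩ U) inter_subset_right hne' (by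
        have := mul_le_mul_of_nonneg_left c3 (by linarith : 0 ≤ 32 * Om)
        linarith)
      refine ⟨Y, mem_union_right _ hY,
        (G.low_subset_low inter_subset_left (by norm_num) c3 (by norm_num)).trans d1, ?_⟩
      have := mul_le_mul_of_nonneg_left c3 (Nat.cast_nonneg (α := ℝ) Y.card)
      linarith

end PG
end Pool.Agent.Work.MP_e10cd8_co.Four
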