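import Pool.Agent.Work.MP_e10cd8_co.Exact.Valid
import Pool.Agent.Work.MP_e10cd8_co.Exact.KL0
import Pool.Agent.Work.MP_e10cd8_co.Four.KL

/-! The two families of container pairs (paper E). -/

namespace Pool.Agent.Work.MP_e10cd8_co.Four
namespace PG
open Finset

variable {q : ℕ} {Pt : Type} [Fintype Pt] [DecidableEq Pt] (G : PG q Pt)

theorem KFam_log9 : Real.log (2 ^ 32 * 9) ≤ 26 := by
  rw [Real.log_le_iff_le_exp (by norm_num)]
  have h1 : (2.7 : ℝ) ≤ Real.exp 1 := by linarith [Real.exp_one_gt_d9]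
  have h2 : (2.7 : ℝ) ^ 26 ≤ Real.exp 1 ^ 26 := pow_le_pow_left₀ (by norm_num) h1 26
  rw [← Real.exp_nat_mul] at h2
  norm_num at h2 ⊢
  linarith

theorem KFam_logw (i : ℕ) : Real.log (2 ^ 32 * (9 * Real.exp i ^ 2)) ≤ 26 + 2 * i := by
  rw [← mul_assoc, Real.log_mul (by norm_num) (by positivity), Real.log_pow, Real.log_exp]
  have := KFam_log9
  push_cast
  linarith

/-- the union of the levels up to `j` -/
theorem KFam_union {α : Type} [DecidableEq α] (P : ℕ → Finset α) (j : ℕ) {B : ℝ}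
    (h : ∀ i ≤ j, ((P i).card : ℝ) ≤ Real.exp B) :
    (((range (j + 1)).biUnion P).card : ℝ) ≤ Real.exp (j + B) := by
  have h1 : (((range (j + 1)).biUnion P).card : ℝ) ≤ ∑ i ∈ range (j + 1), ((P i).card : ℝ) := by
    exact_mod_cast card_biUnion_le
  refine h1.trans ((sum_le_sum fun i hi => h i (Nat.lt_succ_iff.1 (mem_range.1 hi))).trans ?_)
  rw [sum_const, card_range, nsmul_eq_mul, Real.exp_add]
  refine mul_le_mul_of_nonneg_right ?_ (Real.exp_pos _).le
  have := Real.add_one_le_exp (j : ℝ)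
  push_cast
  linarith

theorem KFam_mono {α : Type} [DecidableEq α] (P : ℕ → Finset α) :
    Monotone fun j => (range (j + 1)).biUnion P := fun _ _ hab =>
  biUnion_subset_biUnion_of_subset_left _ (range_mono (Nat.succ_le_succ hab))

theorem KFam_sq {α : Type} (F : Finset α) {B : ℝ} (h : (F.card : ℝ) ≤ Real.exp B) :
    ((F ×ˢ F).card : ℝ) ≤ Real.exp (2 * B) := by
  rw [card_product, two_mul, Real.exp_add]
  push_cast
  exact mul_le_mul h h (Nat.cast_nonneg _) (Real.exp_pos _).le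

/-- the unbalanced containers of level `i` -/
theorem KFam_u {D k : ℕ} (h : XPar q D k) (i : ℕ) :
    ∃ F : Finset (Finset Pt), (F.card : ℝ) ≤ Real.exp (2 ^ 34 * q * Real.log q * (26 + 2 * i)) ∧
      ((i : ℝ) < Real.log (Real.log q) → ∀ P, G.Ext (1 / 2 ^ 28) P (9 * Real.exp i ^ 2) →
        ((P.card : ℝ) ≤ q * Real.log q ^ 4 ∨ 2 * (q : ℝ) ^ 3 ≤ P.card * Real.log q ^ 4) →
        ∃ Y ∈ F, G.low (1 / 2 ^ 28) P ⊆ Y ∧ (Y.card : ℝ) * P.card ≤ 16 * (q : ℝ) ^ 4) := by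
  by_cases hi : (i : ℝ) < Real.log (Real.log q)
  · have hL := h.L_ge
    have L0 : 0 < Real.log q := lt_of_lt_of_le (by norm_num) hL
    have e1 : 1 ≤ Real.exp i := Real.one_le_exp (Nat.cast_nonneg _)
    have e2 : (1 : ℝ) ≤ Real.exp i ^ 2 := one_le_pow₀ e1
    have e3 : Real.exp i ≤ Real.log q := ((Real.lt_log_iff_exp_lt L0).1 hi).le
    have e4 : Real.exp i ^ 2 ≤ Real.log q ^ 2 := pow_le_pow_left₀ (by linarith) e3 2
    obtain ⟨F, f1, f2⟩ := G.kl0 (w := 2 ^ 32 * (9 * Real.exp i ^ 2)) (Om := 9 * Real.exp i ^ 2)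
      (by linarith) (le_trans (pow_le_pow_left₀ (by positivity) (by linarith) 100) h.hbig) h.L20
      (by linarith) (by linarith)
    refine ⟨F, f1.trans (Real.exp_le_exp.2 ?_), fun _ => f2⟩
    exact mul_le_mul_of_nonneg_left (KFam_logw i) (by positivity)
  · exact ⟨∅, by simpa using (Real.exp_pos _).le, fun h' => absurd h' hi⟩

/-- the containers of level `i` -/
theorem KFam_b {D k : ℕ} (h : XPar q D k) (i : ℕ) :
    ∃ F : Finset (Finset Pt), (F.card : ℝ) ≤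
        Real.exp (2 ^ 34 * q * Real.log q * (26 + 2 * i + Real.log (Real.log q))) ∧
      G.Cont (1 / 2 ^ 28) (9 * Real.exp i ^ 2) F := by
  have hL := h.L_ge
  have L1 : 1 ≤ Real.log q := le_trans (by norm_num) hL
  have e1 : 1 ≤ Real.exp i := Real.one_le_exp (Nat.cast_nonneg _)
  have e2 : (1 : ℝ) ≤ Real.exp i ^ 2 := one_le_pow₀ e1
  have e3 : Real.exp i ^ 2 ≤ Real.exp i ^ 2 * Real.log q := le_mul_of_one_le_right (by linarith) L1
  have e4 : Real.log q ≤ Real.exp i ^ 2 * Real.log q := le_mul_of_one_le_left (by linarith) e2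
  obtain ⟨F, f1, f2⟩ := G.kl (w := 2 ^ 32 * (9 * Real.exp i ^ 2) * Real.log q)
    (Om := 9 * Real.exp i ^ 2) h.hq (by linarith) (by linarith) (by linarith) (by linarith)
  refine ⟨F, f1.trans (Real.exp_le_exp.2 ?_), f2⟩
  refine mul_le_mul_of_nonneg_left ?_ (by positivity)
  rw [Real.log_mul (by positivity) (by linarith)]
  linarith [KFam_logw i]

/-- a small side forces a large other side -/
theorem KFam_other {L E a b : ℝ} (hq : (0 : ℝ) < q) (hL : 288 ≤ L) (hE : 0 ≤ E) (hEL : E ≤ L)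
    (hb : 0 ≤ b) (ha : a ≤ 16 * q * L) (h : (q : ℝ) ^ 4 ≤ 9 * E ^ 2 * (a * b)) :
    2 * (q : ℝ) ^ 3 ≤ b * L ^ 4 := by
  have h1 : E ^ 2 ≤ L ^ 2 := pow_le_pow_left₀ hE hEL 2
  have h2 : a * b ≤ 16 * q * L * b := mul_le_mul_of_nonneg_right ha hb
  have L0 : 0 ≤ L := by linarith
  have h3 : (q : ℝ) ^ 4 ≤ 9 * L ^ 2 * (16 * q * L * b) :=
    h.trans ((mul_le_mul_of_nonneg_left h2 (by positivity)).trans
      (mul_le_mul_of_nonneg_right (by linarith) (by positivity)))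
  have h4 : (q : ℝ) ^ 3 * q ≤ 144 * (b * L ^ 3) * q := by linarith
  have h5 := le_of_mul_le_mul_right h4 hq
  have h6 : b * L ^ 3 * 288 ≤ b * L ^ 3 * L := mul_le_mul_of_nonneg_left hL (by positivity)
  linarith

theorem KFam_small {L a x : ℝ} (hq : (0 : ℝ) < q) (hx : 0 ≤ x) (ha : 16 * q * L ≤ a)
    (h : x * a ≤ 16 * (q : ℝ) ^ 4) : x * L ≤ (q : ℝ) ^ 3 := by
  have h1 := mul_le_mul_of_nonneg_left ha hx
  have h2 : x * L * q ≤ (q : ℝ) ^ 3 * q := by linarith
  exact le_of_mul_le_mul_right h2 hq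

/-- Level `i`: `Om = 9 exp i ^ 2`. `Fb`: pairs from `kl` with `w = 2^32 Om L`, for `i < log L` only
those with both sizes at most `q^3 / L`. `Fu`: for `i < log L` pairs from `kl0` with `w = 2^32 Om`
(`w ≤ 2^36 L^2`, `hbig`, `L20`), empty otherwise. Take unions over `i ≤ j`. Given `T`:
`ext_of_bad`; if `j < log L` and one of `PP T`, `QQ T` has fewer than `16 q L` elements, the other
has at least `q^3 / (144 L^3)`, both are in the domain of `kl0`; otherwise the containers have at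
most `q^3 / L` elements. `pool_of_cont`. `2^35 q L ≤ k / 10^11`. -/
theorem kl_fams {D k : ℕ} (h : XPar q D k) :
    ∃ Fu Fb : ℕ → Finset (Finset Pt × Finset Pt), Monotone Fu ∧ Monotone Fb ∧
      (∀ j : ℕ, ((Fu j).card : ℝ) ≤ Real.exp (k * ((j : ℝ) + 1) / 8000)) ∧
      (∀ j : ℕ, ((Fb j).card : ℝ) ≤
        Real.exp (k * (max (j : ℝ) (Real.log (Real.log q)) / 2 + 1) / 8000)) ∧
      (∀ j : ℕ, (j : ℝ) < Real.log (Real.log q) → ∀ XY ∈ Fb j,
        (XY.1.card : ℝ) * Real.log q ≤ (q : ℝ) ^ 3 ∧ (XY.2.card : ℝ) * Real.log q ≤ (q : ℝ) ^ 3) ∧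
      ∀ (j : ℕ) (T : Finset (Pt × Pt)), (q : ℝ) ^ 3 / Real.exp j ≤ (G.BB T).card →
        ∃ XY ∈ Fu j ∪ Fb j, G.BB T ⊆ G.pool XY.1 XY.2 ∧
          ((G.pool XY.1 XY.2).card : ℝ) ≤ 2700 * Real.exp j ^ 2 * (q : ℝ) ^ 3 := by
  classical
  choose Ku u1 u2 using G.KFam_u h
  choose Kb b1 b2 using G.KFam_b h
  have hL := h.L_ge
  have hl := h.ell_ge
  have q1 : (1000 : ℝ) ≤ q := by exact_mod_cast h.hq
  have q0 : (0 : ℝ) < q := by linarith
  have L1 : 288 ≤ Real.log q := le_trans (by norm_num) hL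
  have A1 := KL_qL h.hq
  have A2 := h.hk1
  set A : ℝ := q * Real.log q with hA
  have A3 : 13 * 10 ^ 6 * 2 ^ 50 * A ≤ k := by rw [hA, ← mul_assoc]; exact A2
  let Pb : ℕ → Finset (Finset Pt × Finset Pt) := fun i => selIn (Kb i ×ˢ Kb i) fun XY =>
    (i : ℝ) < Real.log (Real.log q) →
      (XY.1.card : ℝ) * Real.log q ≤ (q : ℝ) ^ 3 ∧ (XY.2.card : ℝ) * Real.log q ≤ (q : ℝ) ^ 3
  refine ⟨fun j => (range (j + 1)).biUnion fun i => Ku i ×ˢ Ku i,
    fun j => (range (j + 1)).biUnion Pb, KFam_mono _, KFam_mono _, fun j => ?_, fun j => ?_,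
    fun j hj XY hXY => ?_, fun j T hT => ?_⟩
  · have j0 : (0 : ℝ) ≤ j := Nat.cast_nonneg _
    refine (KFam_union _ j (B := 2 * (2 ^ 34 * A * (26 + 2 * j))) fun i hi =>
      KFam_sq _ ((u1 i).trans (Real.exp_le_exp.2 ?_))).trans (Real.exp_le_exp.2 ?_)
    · have : (i : ℝ) ≤ j := by exact_mod_cast hi
      rw [mul_assoc (2 ^ 34 : ℝ), ← hA]
      exact mul_le_mul_of_nonneg_left (by linarith) (by positivity)
    · have c1 := mul_le_mul_of_nonneg_right A1 j0
      have c2 := mul_le_mul_of_nonneg_right A3 (by linarith : (0 : ℝ) ≤ j + 1)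
      nlinarith
  · have j0 : (0 : ℝ) ≤ j := Nat.cast_nonneg _
    have m1 := le_max_left (j : ℝ) (Real.log (Real.log q))
    have m2 := le_max_right (j : ℝ) (Real.log (Real.log q))
    set M := max (j : ℝ) (Real.log (Real.log q))
    refine (KFam_union _ j (B := 2 * (2 ^ 34 * A * (26 + 3 * M))) fun i hi => le_trans
      (Nat.cast_le.2 (card_le_card (selIn_subset _ _)))
      (KFam_sq _ ((b1 i).trans (Real.exp_le_exp.2 ?_)))).trans (Real.exp_le_exp.2 ?_)
    · have : (i : ℝ) ≤ j := by exact_mod_cast hi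
      rw [mul_assoc (2 ^ 34 : ℝ), ← hA]
      exact mul_le_mul_of_nonneg_left (by linarith) (by positivity)
    · have M0 : 0 ≤ M := by linarith
      have c1 := mul_le_mul_of_nonneg_right A1 M0
      have c2 := mul_le_mul_of_nonneg_right A3 (by linarith : (0 : ℝ) ≤ M / 2 + 1)
      nlinarith
  · obtain ⟨i, hi, hm⟩ := mem_biUnion.1 hXY
    have : (i : ℝ) ≤ j := by exact_mod_cast Nat.lt_succ_iff.1 (mem_range.1 hi)
    exact (mem_selIn.1 hm).2 (lt_of_le_of_lt this hj)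
  · have e1 : 1 ≤ Real.exp j := Real.one_le_exp (Nat.cast_nonneg _)
    obtain ⟨x1, x2, x3, -, -⟩ := G.ext_of_bad (by norm_num) e1 T hT
    have hj : j ∈ range (j + 1) := self_mem_range_succ j
    have L4 : 16 * q * Real.log q ≤ q * Real.log q ^ 4 := by
      have k1 : (16 : ℝ) ≤ Real.log q ^ 3 :=
        le_trans (by norm_num) (pow_le_pow_left₀ (by norm_num) L1 3)
      have k2 := mul_le_mul_of_nonneg_left k1 (by linarith : 0 ≤ A)
      rw [hA] at k2
      linarith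
    by_cases hc : (j : ℝ) < Real.log (Real.log q) ∧
        (((G.Pof (15 * Real.log q) T).card : ℝ) ≤ 16 * q * Real.log q ∨
          ((G.Pio (15 * Real.log q) T).card : ℝ) ≤ 16 * q * Real.log q)
    · have e3 : Real.exp j ≤ Real.log q := ((Real.lt_log_iff_exp_lt (by linarith)).1 hc.1).le
      have d1 : ((G.Pof (15 * Real.log q) T).card : ℝ) ≤ q * Real.log q ^ 4 ∨
          2 * (q : ℝ) ^ 3 ≤ (G.Pof (15 * Real.log q) T).card * Real.log q ^ 4 := by
        rcases hc.2 with c | c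
        · exact Or.inl (c.trans L4)
        · exact Or.inr (KFam_other q0 L1 (by linarith) e3 (Nat.cast_nonneg _) c
            (by rw [mul_comm ((G.Pio (15 * Real.log q) T).card : ℝ)]; exact x3))
      have d2 : ((G.Pio (15 * Real.log q) T).card : ℝ) ≤ q * Real.log q ^ 4 ∨
          2 * (q : ℝ) ^ 3 ≤ (G.Pio (15 * Real.log q) T).card * Real.log q ^ 4 := by
        rcases hc.2 with c | c
        · exact Or.inr (KFam_other q0 L1 (by linarith) e3 (Nat.cast_nonneg _) c x3)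
        · exact Or.inl (c.trans L4)
      obtain ⟨Y, hY, y1, y2⟩ := u2 j hc.1 _ x1 d1
      obtain ⟨X, hX, z1, z2⟩ := u2 j hc.1 _ x2 d2
      exact ⟨(X, Y), mem_union_left _ (mem_biUnion.2 ⟨j, hj, mem_product.2 ⟨hX, hY⟩⟩),
        G.pool_of_cont (by norm_num) e1 T hT z1 z2 y1 y2⟩
    · obtain ⟨Y, hY, y1, y2⟩ := b2 j _ x1
      obtain ⟨X, hX, z1, z2⟩ := b2 j _ x2
      refine ⟨(X, Y), mem_union_right _ (mem_biUnion.2 ⟨j, hj,
        mem_selIn.2 ⟨mem_product.2 ⟨hX, hY⟩, fun hl' => ?_⟩⟩),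
        G.pool_of_cont (by norm_num) e1 T hT z1 z2 y1 y2⟩
      have c := not_or.1 fun c => hc ⟨hl', c⟩
      exact ⟨KFam_small q0 (Nat.cast_nonneg _) (not_le.1 c.2).le z2,
        KFam_small q0 (Nat.cast_nonneg _) (not_le.1 c.1).le y2⟩

end PG
end Pool.Agent.Work.MP_e10cd8_co.Four
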