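import Pool.Agent.Work.MP_e10cd8_co.Exact.XNum
import Pool.Agent.Work.MP_e10cd8_co.Four.PointT

/-! Reconstruction of small sets with crude concentration (paper D). Compare `Four/PointT`,
`Four/PointD`, `Four/Excep`, `Four/MainFP`, `Four/MainTP`; here `H = ∅`, every point is single,
`th ∅ a = ∅` and `nuT P ∅ a = |P| / q`. -/

namespace Pool.Agent.Work.MP_e10cd8_co.Four
namespace PG
open Finset

variable {q : ℕ} {Pt : Type} [Fintype Pt] [DecidableEq Pt] (G : PG q Pt)

theorem Rec0B_nuT (P : Finset Pt) (a : Pt) : G.nuT P ∅ a = P.card / q := by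
  simp [nuT, th]

theorem Rec0B_bern {η : ℝ} (h1 : η ≤ 1) (n : ℕ) : 1 - η * n ≤ (1 - η) ^ n := by
  have h := one_add_mul_le_pow (show (-2 : ℝ) ≤ -η by linarith) n
  rw [← sub_eq_add_neg] at h
  linarith

omit [Fintype Pt] [DecidableEq Pt] in
theorem Rec0B_gam {P : Finset Pt} (hq : 0 < q) (hP : P.Nonempty) (h1 : eta q P ≤ 1 / 20) :
    (1 - eta q P) ^ (P.card / q) ≤ 5 / 8 := by
  have h0 := eta_pos hq hP
  have q0 : (0 : ℝ) < q := by exact_mod_cast hq
  have e7 : P.card < (P.card / q + 1) * q := by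
    rw [mul_comm]
    exact Nat.lt_mul_div_succ _ hq
  have f7 : (P.card : ℝ) ≤ (((P.card / q : ℕ) : ℝ) + 1) * q := by exact_mod_cast e7.le
  have hc := eta_mul_card (q := q) hP
  have g : 1 ≤ eta q P * ((P.card / q : ℕ) : ℝ) + eta q P := by
    apply le_of_mul_le_mul_right _ q0
    have := mul_le_mul_of_nonneg_left f7 h0.le
    linarith
  refine (one_sub_pow_le_exp (by linarith) _).trans ?_
  have k := Real.add_one_le_exp (eta q P * ((P.card / q : ℕ) : ℝ))
  rw [Real.exp_neg, inv_le_comm₀ (Real.exp_pos _) (by norm_num)]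
  linarith

theorem Rec0B_cnt (P : Finset Pt) (a b : Pt) :
    G.cnt P b ≤ ((G.pl b).erase a ∩ P).card + 1 := by
  have e : (G.pl b).erase a ∩ P = (G.pl b ∩ P).erase a := by
    ext x
    simp only [mem_inter, mem_erase]
    tauto
  have e4 := pred_card_le_card_erase (s := G.pl b ∩ P) (a := a)
  rw [← e] at e4
  unfold cnt
  omega

/-- `Ex_xi` termwise, `abs_sub_le_ub`, `damp` -/
theorem r0_mean {w : ℝ} {c : ℕ} (hp : Par0 q w c) {P : Finset Pt}
    (hn1 : 4 * (c + 4) * q ≤ P.card) (a : Pt) :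
    1 / 2 ^ 12 * ∑ b ∈ G.pl a ∩ G.low (1 / 4) P, (1 - eta q P) ^ (c * G.cnt P b) ≤
        Ex (eta q P) (range (c + 4) ×ˢ P) (G.Sst c ((1 - eta q P) ^ (P.card / q)) ∅ univ a) ∧
      Ex (eta q P) (range (c + 4) ×ˢ P) (G.Sst c ((1 - eta q P) ^ (P.card / q)) ∅ univ a) ≤
        2 * ∑ b ∈ G.pl a ∩ G.low (1 / 4) P, (1 - eta q P) ^ (c * G.cnt P b) +
          1 / w ^ 20 * ∑ b ∈ G.pl a, G.om P b * G.ub P ∅ a b ^ 2 := by
  have hq : 0 < q := by exact_mod_cast hp.q_pos
  have hP := nonempty_of_le hq hn1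
  have h0 := eta_pos hq hP
  have h4 := eta_le hq hn1
  have hc : (1000 : ℝ) ≤ c := by exact_mod_cast hp.le_c
  have h1 : eta q P ≤ 1 / 20 := by nlinarith
  have hη1 : eta q P ≤ 1 := by linarith
  have b0 : 0 ≤ 1 - eta q P := by linarith
  have b1 : 1 - eta q P ≤ 1 := by linarith
  have hγ := Rec0B_gam hq hP h1
  have hub : ∀ b ∈ G.pl a, |(1 - eta q P) ^ (((G.pl b).erase a \ G.th ∅ a) ∩ P).card -
      (1 - eta q P) ^ (P.card / q)| ≤ G.ub P ∅ a b := fun b hb => by
    rw [← G.Rec0B_nuT P a]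
    exact G.abs_sub_le_ub hP hη1 hb
  generalize (1 - eta q P) ^ (P.card / q) = γ at hγ hub ⊢
  have e : Ex (eta q P) (range (c + 4) ×ˢ P) (G.Sst c γ ∅ univ a) =
      ∑ b ∈ G.pl a, (1 - eta q P) ^ (c * ((G.pl b).erase a ∩ P).card) *
        ((1 - eta q P) ^ (((G.pl b).erase a \ G.th ∅ a) ∩ P).card - γ) ^ 4 := by
    rw [← sum_congr rfl fun b _ => Ex_xi (η := eta q P) c γ P
      ((G.pl b).erase a) ((G.pl b).erase a \ G.th ∅ a), ← Ex_sum]
    congr 1
    funext T
    rw [Sst, sdiff_empty, inter_univ]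
  have y1 : ∀ b ∈ G.pl a, ((1 - eta q P) ^ (((G.pl b).erase a \ G.th ∅ a) ∩ P).card - γ) ^ 4 ≤
      G.ub P ∅ a b ^ 2 := fun b hb => by
    rw [← Even.pow_abs (by norm_num)]
    exact (pow_le_pow_left₀ (abs_nonneg _) (hub b hb) 4).trans
      (pow_le_pow_of_le_one (G.ub_nonneg P ∅ a b) (min_le_left _ _) (by norm_num))
  have t0 : ∀ b, 0 ≤ (1 - eta q P) ^ (c * ((G.pl b).erase a ∩ P).card) *
      ((1 - eta q P) ^ (((G.pl b).erase a \ G.th ∅ a) ∩ P).card - γ) ^ 4 :=
    fun b => mul_nonneg (pow_nonneg b0 _) (by positivity)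
  rw [e]
  constructor
  · rw [mul_sum]
    refine le_trans (sum_le_sum fun b hb => ?_)
      (sum_le_sum_of_subset_of_nonneg inter_subset_left fun b _ _ => t0 b)
    have a1 : ((G.pl b).erase a ∩ P).card ≤ G.cnt P b :=
      card_le_card (inter_subset_inter (erase_subset _ _) Subset.rfl)
    have a2 : (((G.pl b).erase a \ G.th ∅ a) ∩ P).card ≤ G.cnt P b :=
      card_le_card (inter_subset_inter (sdiff_subset.trans (erase_subset _ _)) Subset.rfl)
    have a3 : eta q P * G.cnt P b ≤ 1 / 4 := (G.mem_low_iff_tb hP).1 (mem_inter.1 hb).2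
    have a4 := Rec0B_bern hη1 (G.cnt P b)
    have a5 := pow_le_pow_of_le_one b0 b1 a2
    have a6 := pow_le_pow_of_le_one b0 b1 (Nat.mul_le_mul_left c a1)
    have a7 : (1 / 8 : ℝ) ^ 4 ≤
        ((1 - eta q P) ^ (((G.pl b).erase a \ G.th ∅ a) ∩ P).card - γ) ^ 4 :=
      pow_le_pow_left₀ (by norm_num) (by linarith) 4
    rw [mul_comm]
    exact mul_le_mul a6 (le_trans (by norm_num) a7) (by norm_num) (pow_nonneg b0 _)
  · rw [← sum_inter_add_sum_sdiff (G.pl a) (G.low (1 / 4) P), mul_sum, mul_sum]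
    have hw : 0 ≤ 1 / w ^ 20 := by have := hp.w_pos; positivity
    refine add_le_add (sum_le_sum fun b hb => ?_) (le_trans (sum_le_sum fun b hb => ?_)
      (sum_le_sum_of_subset_of_nonneg sdiff_subset fun b _ _ =>
        mul_nonneg hw (mul_nonneg (G.om_nonneg P b) (sq_nonneg _))))
    · have u1 : G.ub P ∅ a b ^ 2 ≤ 1 := pow_le_one₀ (G.ub_nonneg P ∅ a b) (min_le_left _ _)
      have x0 := pow_nonneg b0 (c * ((G.pl b).erase a ∩ P).card)
      have a1 := mul_le_mul_of_nonneg_left ((y1 b (mem_inter.1 hb).1).trans u1) x0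
      have a2 := pow_le_pow_of_le_one b0 b1 (Nat.mul_le_mul_left c (G.Rec0B_cnt P a b))
      rw [mul_add, mul_one, pow_add] at a2
      have a3 : 1 / 2 ≤ (1 - eta q P) ^ c := by
        have := Rec0B_bern hη1 c
        linarith
      have a4 := mul_le_mul_of_nonneg_left a3 x0
      linarith
    · obtain ⟨hb1, hb2⟩ := mem_sdiff.1 hb
      have d1 := (G.damp hP hη1 (le_trans (by norm_num) hp.le_c) hb2
        (G.PointT_cnt h0.le h1 a b)).trans
        (mul_le_mul_of_nonneg_right hp.exp20 (G.om_nonneg P b))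
      have x0 := pow_nonneg b0 (c * ((G.pl b).erase a ∩ P).card)
      have x1 := pow_le_one₀ (n := c * ((G.pl b).erase a ∩ P).card) b0 b1
      have x2 := Real.le_sqrt_of_sq_le (x := (1 - eta q P) ^ (c * ((G.pl b).erase a ∩ P).card))
        (y := (1 - eta q P) ^ (c * ((G.pl b).erase a ∩ P).card)) (by nlinarith)
      rw [← mul_assoc]
      exact mul_le_mul (x2.trans d1) (y1 b hb1) (by positivity) (mul_nonneg hw (G.om_nonneg P b))

end PG
end Pool.Agent.Work.MP_e10cd8_co.Four
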