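import Pool.Agent.Work.MP_e10cd8_co.Exact.Rec0A
import Pool.Agent.Work.MP_e10cd8_co.Exact.Rec0B
import Pool.Agent.Work.MP_e10cd8_co.Four.MainTP

/-! Reconstruction of small sets with crude concentration (paper D). Compare `Four/PointT`,
`Four/PointD`, `Four/Excep`, `Four/MainFP`, `Four/MainTP`; here `H = ∅`, every point is single,
`th ∅ a = ∅` and `nuT P ∅ a = |P| / q`. -/

namespace Pool.Agent.Work.MP_e10cd8_co.Four
namespace PG
open Finset

variable {q : ℕ} {Pt : Type} [Fintype Pt] [DecidableEq Pt] (G : PG q Pt)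

omit [Fintype Pt] [DecidableEq Pt] in
theorem Rec0_basic {w : ℝ} {c : ℕ} (hp : Par0 q w c) {P : Finset Pt}
    (hn1 : 4 * (c + 4) * q ≤ P.card) : P.Nonempty ∧ 0 < eta q P ∧ eta q P ≤ 1 / 2 := by
  have hq : 0 < q := lt_of_lt_of_le (by norm_num) hp.thousand_le_q
  have hP := nonempty_of_le hq hn1
  have h0 := eta_pos hq hP
  have h1 := eta_le hq hn1
  have hc0 : (0 : ℝ) ≤ c := Nat.cast_nonneg c
  exact ⟨hP, h0, by nlinarith only [h1, h0, hc0]⟩

theorem Rec0_Zs {w : ℝ} {c : ℕ} (hp : Par0 q w c) {P : Finset Pt}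
    (hn1 : 4 * (c + 4) * q ≤ P.card) (hE : G.Ext (1 / 2 ^ 27) P w) :
    (q : ℝ) ^ 2 * sig q P / w ^ 2 ≤ G.Zs c P univ := by
  obtain ⟨hP, -, he⟩ := Rec0_basic hp hn1
  have hn : (0 : ℝ) < P.card := by exact_mod_cast hP.card_pos
  have hw := hp.w_pos
  have hc0 : (0 : ℝ) ≤ c := Nat.cast_nonneg c
  refine le_trans ?_ (G.Zs_lower hP he c (x := 1 / 2 ^ 27) (by norm_num) Subset.rfl
    (subset_univ _))
  have h1 : 1 / w ≤ Real.exp (-(2 * c * (1 / 2 ^ 27))) :=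
    hp.exp24.trans (Real.exp_le_exp.2 (by linarith only [hc0]))
  refine le_trans ?_ (mul_le_mul_of_nonneg_left h1 (Nat.cast_nonneg _))
  have h2 := hE.2
  unfold sig
  rw [div_le_iff₀ (by positivity), ← mul_div_assoc, div_le_iff₀ hn]
  refine le_trans (le_of_eq (by ring)) (h2.trans (le_of_eq ?_))
  field_simp

theorem Rec0_s {w : ℝ} {c : ℕ} (hp : Par0 q w c) {P : Finset Pt}
    (hn1 : 4 * (c + 4) * q ≤ P.card) (hE : G.Ext (1 / 2 ^ 27) P w) :
    sig q P * q / w ^ 3 ≤ G.Zs c P univ / (2 ^ 12 * q) := by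
  have hZ := G.Rec0_Zs hp hn1 hE
  have hw := hp.hw
  have w0 := hp.w_pos
  have q0 := hp.q_pos
  have s0 : 0 ≤ sig q P := Means_sig P
  rw [div_le_iff₀ (by positivity)] at hZ
  rw [div_le_div_iff₀ (by positivity) (by positivity)]
  have h1 : (2 : ℝ) ^ 12 ≤ w := le_trans (by norm_num) hw
  have h2 : 0 ≤ (q : ℝ) ^ 2 * sig q P := by positivity
  calc sig q P * q * (2 ^ 12 * q) = (q : ℝ) ^ 2 * sig q P * 2 ^ 12 := by ring
    _ ≤ (G.Zs c P univ * w ^ 2) * w := mul_le_mul hZ h1 (by positivity) (h2.trans hZ)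
    _ = _ := by ring

omit [Fintype Pt] [DecidableEq Pt] in
theorem Rec0_q {w : ℝ} {c : ℕ} (hp : Par0 q w c) {P : Finset Pt} (hP : P.Nonempty)
    (hn2 : (P.card : ℝ) ≤ q * Real.log q ^ 4) : (q : ℝ) ≤ sig q P * q / w ^ 3 := by
  have w0 := hp.w_pos
  have q0 := hp.q_pos
  have n0 : (0 : ℝ) < P.card := by exact_mod_cast hP.card_pos
  have L1 := hp.one_le_L
  have h1 : Real.log q ^ 4 * w ^ 3 ≤ q :=
    (mul_le_mul (pow_le_pow_right₀ L1 (by norm_num)) (pow_le_pow_right₀ hp.one_le_w (by norm_num))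
      (by positivity) (by positivity)).trans hp.Lw_le
  rw [le_div_iff₀ (by positivity), mul_comm (sig q P)]
  refine mul_le_mul_of_nonneg_left ?_ q0.le
  rw [sig, le_div_iff₀ n0]
  calc w ^ 3 * P.card ≤ w ^ 3 * (q * Real.log q ^ 4) :=
        mul_le_mul_of_nonneg_left hn2 (by positivity)
    _ = q * (Real.log q ^ 4 * w ^ 3) := by ring
    _ ≤ q * q := mul_le_mul_of_nonneg_left h1 q0.le
    _ = _ := by ring

theorem Rec0_low {w : ℝ} {c : ℕ} (hp : Par0 q w c) {P : Finset Pt}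
    (hn1 : 4 * (c + 4) * q ≤ P.card) (hE : G.Ext (1 / 2 ^ 27) P w) :
    10 / (G.Zs c P univ / (2 ^ 12 * q)) *
      ∑ a ∈ P, ∑ b ∈ G.pl a ∩ G.low (1 / 4) P, (1 - eta q P) ^ (c * G.cnt P b) ≤
      P.card / 40 := by
  obtain ⟨hP, e0, e1⟩ := Rec0_basic hp hn1
  have e2 : eta q P ≤ 1 := by linarith
  have w0 := hp.w_pos
  have q0 := hp.q_pos
  have n0 : (0 : ℝ) < P.card := by exact_mod_cast hP.card_pos
  have g0 : 0 < sig q P := by unfold sig; positivity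
  have hZ := G.Rec0_Zs hp hn1 hE
  have Z0 : 0 < G.Zs c P univ := lt_of_lt_of_le (by positivity) hZ
  have h1 := G.sum_tb_low hP e2 c univ
  have h2 := hp.exp21
  have h3 : eta q P * ∑ a ∈ P, ∑ b ∈ G.pl a ∩ G.low (1 / 4) P, (1 - eta q P) ^ (c * G.cnt P b) =
      ∑ b ∈ G.low (1 / 4) P ∩ univ, G.tb P b * (1 - eta q P) ^ (c * G.cnt P b) := by
    have := G.sum_sum_pl P fun b =>
      if b ∈ G.low (1 / 4) P then (1 - eta q P) ^ (c * G.cnt P b) else 0
    simp only [sum_ite_mem, mul_ite, mul_zero, univ_inter] at this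
    rw [this, inter_univ, mul_sum]
    exact sum_congr rfl fun b _ => by rw [tb, mul_assoc]
  have h4 := eta_mul_card (q := q) hP
  have h5 : (q : ℝ) ^ 2 * sig q P * Real.exp (-(c : ℝ) / 2 ^ 21) / 2 ≤ G.Zs c P univ / 2 ^ 30 := by
    have a1 : (q : ℝ) ^ 2 * sig q P * Real.exp (-(c : ℝ) / 2 ^ 21) ≤
        (q : ℝ) ^ 2 * sig q P * (1 / w ^ 4) := mul_le_mul_of_nonneg_left h2 (by positivity)
    have a2 : (q : ℝ) ^ 2 * sig q P * (1 / w ^ 4) = (q : ℝ) ^ 2 * sig q P / w ^ 2 / w ^ 2 := by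
      field_simp
    have a3 : (2 : ℝ) ^ 30 ≤ w ^ 2 := hp.hw.trans (le_self_pow₀ hp.one_le_w (by norm_num))
    have a4 : (q : ℝ) ^ 2 * sig q P / w ^ 2 / w ^ 2 ≤ G.Zs c P univ / 2 ^ 30 :=
      div_le_div₀ Z0.le hZ (by norm_num) a3
    have a5 : 0 ≤ G.Zs c P univ / 2 ^ 30 := by positivity
    linarith only [a1, a2, a4, a5]
  rw [← h3] at h1
  generalize ∑ a ∈ P, ∑ b ∈ G.pl a ∩ G.low (1 / 4) P, (1 - eta q P) ^ (c * G.cnt P b) = A at *
  generalize G.Zs c P univ = Z at *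
  have h6 : eta q P * A ≤ Z / (400 * 2 ^ 12) := by linarith only [h1, h5, Z0]
  have h7 : 10 / (Z / (2 ^ 12 * q)) * A = 10 * 2 ^ 12 * P.card / Z * (eta q P * A) := by
    rw [← h4]; field_simp
  rw [h7]
  calc _ ≤ 10 * 2 ^ 12 * P.card / Z * (Z / (400 * 2 ^ 12)) :=
        mul_le_mul_of_nonneg_left h6 (by positivity)
    _ = _ := by field_simp; ring

theorem Rec0_mean {P : Finset Pt} (hP : P.Nonempty) (he : eta q P ≤ 1) :
    ∑ a ∈ P, ∑ b ∈ G.pl a, G.om P b * G.ub P ∅ a b ^ 2 ≤ 33 * P.card * q * sig q P := by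
  have hq := G.Means_q
  have hn : (0 : ℝ) < P.card := by exact_mod_cast hP.card_pos
  have he0 := Means_eta (q := q) P
  have hs0 := Means_sig (q := q) P
  have h1 : ∑ a ∈ P, ∑ b ∈ G.pl a, G.om P b * G.ub P ∅ a b ^ 2 ≤
      ∑ a ∈ P, ∑ b ∈ G.pl a, G.om P b * (3 * (G.gb P b ^ 2 + 4 * eta q P ^ 2)) := by
    refine sum_le_sum fun a _ => sum_le_sum fun b _ =>
      mul_le_mul_of_nonneg_left ((G.ub_sq_le P ∅ a b).trans (le_of_eq ?_)) (G.om_nonneg P b)
    rw [th, empty_inter, biUnion_empty, G.hb_empty, zero_pow two_ne_zero, add_zero]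
  refine h1.trans ((G.Excep_cnt hP _ fun b => by positivity).trans ?_)
  have h3 := G.sum_gb_sq hP
  have h4 : (Fintype.card Pt : ℝ) * (4 * eta q P ^ 2) ≤ 8 * ((q : ℝ) ^ 2 * sig q P) :=
    calc (Fintype.card Pt : ℝ) * (4 * eta q P ^ 2) ≤ 2 * (q : ℝ) ^ 3 * (4 * eta q P ^ 2) :=
          mul_le_mul_of_nonneg_right G.card_pt_le (by positivity)
      _ = 8 * ((q : ℝ) ^ 2 * (eta q P * q)) * eta q P := by ring
      _ ≤ 8 * ((q : ℝ) ^ 2 * (eta q P * q)) := mul_le_of_le_one_right (by positivity) he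
      _ = _ := by rw [eta_mul_q]
  have h5 : 0 ≤ (q : ℝ) ^ 2 * sig q P := by positivity
  rw [← mul_sum, sum_add_distrib, sum_const, card_univ, nsmul_eq_mul]
  refine (mul_le_mul_of_nonneg_left (show _ ≤ 33 * ((q : ℝ) ^ 2 * sig q P) by
    linarith only [h3, h4, h5]) (by positivity)).trans (le_of_eq ?_)
  field_simp

theorem Rec0_tp {w : ℝ} {c : ℕ} (hp : Par0 q w c) {P : Finset Pt}
    (hn1 : 4 * (c + 4) * q ≤ P.card) (hn2 : (P.card : ℝ) ≤ q * Real.log q ^ 4)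
    (hE : G.Ext (1 / 2 ^ 27) P w) {v : ℕ} (hv : 0.4 * (G.Zs c P univ / (2 ^ 12 * q)) ≤ (v : ℝ)) :
    Ex (eta q P) (range (c + 4) ×ˢ P)
      (fun T => ((P \ G.dec c (1 - eta q P) (fun _ => P.card / q) ∅ v T).card : ℝ)) ≤
      P.card / 8 := by
  obtain ⟨hP, e0, e1⟩ := Rec0_basic hp hn1
  have e2 : eta q P ≤ 1 := by linarith
  have w0 := hp.w_pos
  have q0 := hp.q_pos
  have n0 : (0 : ℝ) < P.card := by exact_mod_cast hP.card_pos
  have hs := G.Rec0_s hp hn1 hE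
  have hlow := G.Rec0_low hp hn1 hE
  have s1 := Rec0_q hp hP hn2
  generalize G.Zs c P univ / (2 ^ 12 * q) = s at *
  have s0 : 0 < s := q0.trans_le (s1.trans hs)
  have q5 : 2 / (q : ℝ) ^ 5 ≤ 1 / 100 := by
    have a1 : (1000 : ℝ) ≤ q := by exact_mod_cast hp.thousand_le_q
    have a2 : (q : ℝ) ≤ (q : ℝ) ^ 5 := le_self_pow₀ (by linarith only [a1]) (by norm_num)
    rw [div_le_div_iff₀ (by positivity) (by norm_num)]
    linarith only [a1, a2]
  have hpt : ∀ a, Pr (eta q P) (range (c + 4) ×ˢ P) (fun T =>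
      ¬ (G.single ∅ a ∧ G.Sst c ((1 - eta q P) ^ (P.card / q)) ∅ univ a T < v)) ≤
      10 / (w ^ 20 * s) * (∑ b ∈ G.pl a, G.om P b * G.ub P ∅ a b ^ 2) +
      10 / s * (∑ b ∈ G.pl a ∩ G.low (1 / 4) P, (1 - eta q P) ^ (c * G.cnt P b)) + 1 / 100 := by
    intro a
    have hm : 0 ≤ ∑ b ∈ G.pl a, G.om P b * G.ub P ∅ a b ^ 2 :=
      sum_nonneg fun b _ => mul_nonneg (G.om_nonneg P b) (sq_nonneg _)
    have hA : 0 ≤ ∑ b ∈ G.pl a ∩ G.low (1 / 4) P, (1 - eta q P) ^ (c * G.cnt P b) :=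
      sum_nonneg fun b _ => pow_nonneg (by linarith only [e2]) _
    have hmean := (G.r0_mean hp hn1 a).2
    generalize ∑ b ∈ G.pl a, G.om P b * G.ub P ∅ a b ^ 2 = m at *
    generalize ∑ b ∈ G.pl a ∩ G.low (1 / 4) P, (1 - eta q P) ^ (c * G.cnt P b) = A at *
    have hme : 10 / (w ^ 20 * s) * m + 10 / s * A = (1 / w ^ 20 * m + A) / (s / 10) := by
      field_simp
    have m0 : 0 ≤ 1 / w ^ 20 * m := by positivity
    rw [hme]
    by_cases hb : s / 10 ≤ 1 / w ^ 20 * m + A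
    · have a1 := (one_le_div (show 0 < s / 10 by positivity)).2 hb
      exact (Pr_le_one e0.le e2 _).trans (by linarith only [a1])
    have a2 : 0 ≤ (1 / w ^ 20 * m + A) / (s / 10) := by positivity
    refine (Pr_mono e0.le e2 fun T _ hT => ?_).trans
      ((G.r0_tail hp hn1 hn2 a).trans (by linarith only [q5, a2]))
    have h1 : (v : ℝ) ≤ G.Sst c ((1 - eta q P) ^ (P.card / q)) ∅ univ a T :=
      not_lt.1 fun h => hT ⟨by simp [single], h⟩
    exact le_trans (by linarith only [h1, hmean, not_le.1 hb, m0, hv, hs, s0]) (le_abs_self _)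
  have h1 : (fun T => ((P \ G.dec c (1 - eta q P) (fun _ => P.card / q) ∅ v T).card : ℝ)) =
      fun T => ((selIn P fun a => ¬ (G.single ∅ a ∧
        G.Sst c ((1 - eta q P) ^ (P.card / q)) ∅ univ a T < v)).card : ℝ) := by
    funext T
    congr 2
    ext a
    rw [mem_sdiff, mem_selIn, dec, mem_sel]
  rw [h1, Ex_card_selIn]
  refine (sum_le_sum fun a _ => hpt a).trans ?_
  rw [sum_add_distrib, sum_add_distrib, ← mul_sum, ← mul_sum, sum_const, nsmul_eq_mul]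
  have b3 := mul_le_mul_of_nonneg_left (G.Rec0_mean hP e2)
    (show 0 ≤ 10 / (w ^ 20 * s) by positivity)
  have b4 : 10 / (w ^ 20 * s) * (33 * P.card * q * sig q P) ≤ P.card / 100 := by
    rw [div_le_iff₀ (by positivity)] at hs
    have c1 : (33000 : ℝ) ≤ w ^ 17 :=
      (le_trans (by norm_num) hp.hw).trans (le_self_pow₀ hp.one_le_w (by norm_num))
    have c2 : sig q P * q * 33000 ≤ s * w ^ 3 * w ^ 17 :=
      mul_le_mul hs c1 (by norm_num) (by positivity)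
    rw [div_mul_eq_mul_div, div_le_div_iff₀ (by positivity) (by norm_num)]
    calc 10 * (33 * (P.card : ℝ) * q * sig q P) * 100 = P.card * (sig q P * q * 33000) := by ring
      _ ≤ P.card * (s * w ^ 3 * w ^ 17) := mul_le_mul_of_nonneg_left c2 n0.le
      _ = _ := by ring
  linarith only [b3, b4, hlow, n0]

theorem Rec0_fp {w : ℝ} {c : ℕ} (hp : Par0 q w c) {P : Finset Pt}
    (hn1 : 4 * (c + 4) * q ≤ P.card) (hn2 : (P.card : ℝ) ≤ q * Real.log q ^ 4)
    (hE : G.Ext (1 / 2 ^ 27) P w) {v : ℕ} (hv : (v : ℝ) ≤ 0.6 * (G.Zs c P univ / (2 ^ 12 * q))) :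
    Ex (eta q P) (range (c + 4) ×ˢ P)
      (fun T => ((G.dec c (1 - eta q P) (fun _ => P.card / q) ∅ v T).card : ℝ)) ≤
      20 * w ^ 2 * P.card := by
  obtain ⟨hP, h0, hη⟩ := Rec0_basic hp hn1
  have hη1 : eta q P ≤ 1 := by linarith
  have hq := hp.q_pos
  have hw := hp.w_pos
  have hn : (1 : ℝ) ≤ P.card := by exact_mod_cast hP.card_pos
  have g0 : 0 < sig q P := by unfold sig; positivity
  have hZ := G.Rec0_Zs hp hn1 hE
  have hs := G.Rec0_s hp hn1 hE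
  have hc1 : ((sel fun a => ∑ b ∈ G.pl a ∩ (G.low (1 / 4) P ∩ univ),
      (1 - eta q P) ^ (c * G.cnt P b) ≤ 3 / 4 * (G.Zs c P univ / q)).card : ℝ) ≤
      16 * w ^ 2 * P.card := by
    have h := G.card_mean_small h0.le hη1 c univ
    have h' := le_trans (mul_le_mul_of_nonneg_left hZ (Nat.cast_nonneg _)) h
    have e : 16 * (q : ℝ) ^ 4 = 16 * w ^ 2 * P.card * ((q : ℝ) ^ 2 * sig q P / w ^ 2) := by
      have := sig_mul_card (q := q) hP
      field_simp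
      rw [mul_comm (P.card : ℝ), this]
    rw [e] at h'
    exact le_of_mul_le_mul_right h' (by positivity)
  have hc6 : ∑ _a : Pt, (2 : ℝ) / (q : ℝ) ^ 5 ≤ w ^ 2 * P.card := by
    rw [sum_const, card_univ, nsmul_eq_mul]
    have hq3 : (1000 : ℝ) ≤ q := by exact_mod_cast hp.thousand_le_q
    calc _ ≤ 2 * (q : ℝ) ^ 3 * (2 / (q : ℝ) ^ 5) :=
          mul_le_mul_of_nonneg_right G.card_pt_le (by positivity)
      _ = 4 / (q : ℝ) ^ 2 := by field_simp; norm_num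
      _ ≤ 1 := by rw [div_le_one (by positivity)]; nlinarith only [hq3]
      _ ≤ _ := one_le_mul_of_one_le_of_one_le (one_le_pow₀ hp.one_le_w) hn
  rw [card_sel] at hc1
  have key : Ex (eta q P) (range (c + 4) ×ˢ P)
      (fun T => ((G.dec c (1 - eta q P) (fun _ => P.card / q) ∅ v T).card : ℝ)) =
      ∑ a, Pr (eta q P) (range (c + 4) ×ˢ P) (fun T => G.single ∅ a ∧
        G.Sst c ((1 - eta q P) ^ (P.card / q)) ∅ univ a T < v) :=
    Ex_card_selIn univ fun a T => G.single ∅ a ∧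
      G.Sst c ((1 - eta q P) ^ (P.card / q)) ∅ univ a T < v
  have fin : 0 ≤ w ^ 2 * P.card := by positivity
  rw [key]
  refine le_trans ?_ ((add_le_add hc1 hc6).trans (by linarith only [fin]))
  rw [← sum_add_distrib]
  refine sum_le_sum fun a _ => ?_
  by_cases h1 : ∑ b ∈ G.pl a ∩ (G.low (1 / 4) P ∩ univ),
    (1 - eta q P) ^ (c * G.cnt P b) ≤ 3 / 4 * (G.Zs c P univ / q)
  · rw [ind_pos h1]
    exact (Pr_le_one h0.le hη1 _).trans (le_add_of_nonneg_right (by positivity))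
  rw [ind_neg h1, zero_add]
  refine (Pr_mono h0.le hη1 fun T _ hT => ?_).trans (G.r0_tail hp hn1 hn2 a)
  have e : G.Zs c P univ / q = 2 ^ 12 * (G.Zs c P univ / (2 ^ 12 * q)) := by field_simp
  have s0 : 0 ≤ sig q P * q / w ^ 3 := by positivity
  rw [inter_univ, not_le, e] at h1
  exact le_trans (by linarith only [h1, hT.2, (G.r0_mean hp hn1 a).1, hv, hs, s0]) (neg_le_abs _)

/-- `s = Zs / (2^12 q) ≥ s0`, `v = ⌈0.4 s⌉₊ ≤ 0.6 s`. Outside `card_mean_small` the mean exceeds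
`0.75 s`; for all but `0.04 n` points of `P` the mean is at most `0.25 s` (`sum_sum_pl`,
`sum_tb_low`, `exp21`; `∑ a ∈ P, ∑ b ∈ pl a, om ub^2 ≤ 33 n q σ`); `r0_tail`; three times
`markov` as in `main_rec`. -/
theorem rec0 {w : ℝ} {c : ℕ} (hp : Par0 q w c) {P : Finset Pt}
    (hn1 : 4 * (c + 4) * q ≤ P.card) (hn2 : (P.card : ℝ) ≤ q * Real.log q ^ 4)
    (hE : G.Ext (1 / 2 ^ 27) P w) :
    ∃ T ⊆ range (c + 4) ×ˢ P, T.card ≤ 10 * (c + 4) * q ∧ ∃ v ≤ 2 * q ^ 2,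
      P.card ≤ 2 * (P ∩ G.dec c (1 - eta q P) (fun _ => P.card / q) ∅ v T).card ∧
      ((G.dec c (1 - eta q P) (fun _ => P.card / q) ∅ v T).card : ℝ) ≤ 200 * w ^ 2 * P.card := by
  obtain ⟨hP, e0, e1⟩ := Rec0_basic hp hn1
  have e2 : eta q P ≤ 1 := by linarith
  have w0 := hp.w_pos
  have q0 := hp.q_pos
  have n0 : (0 : ℝ) < P.card := by exact_mod_cast hP.card_pos
  have s5 : 1000 ≤ G.Zs c P univ / (2 ^ 12 * q) :=
    le_trans (by exact_mod_cast hp.thousand_le_q) ((Rec0_q hp hP hn2).trans (G.Rec0_s hp hn1 hE))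
  have sq : G.Zs c P univ / (2 ^ 12 * q) ≤ (q : ℝ) ^ 2 := by
    have c1 := G.Zs_upper e0.le e2 c univ
    have c2 : ((G.low (1 / 4) P ∩ univ).card : ℝ) ≤ Fintype.card Pt := by
      exact_mod_cast card_le_univ _
    have c3 := G.card_pt_le
    have c4 : (0 : ℝ) < (q : ℝ) ^ 3 := by positivity
    rw [div_le_iff₀ (by positivity)]
    have c5 : (q : ℝ) ^ 2 * (2 ^ 12 * q) = 2 ^ 12 * (q : ℝ) ^ 3 := by ring
    linarith only [c1, c2, c3, c4, c5]
  obtain ⟨v, hv1, hv2⟩ : ∃ v : ℕ, 0.4 * (G.Zs c P univ / (2 ^ 12 * q)) ≤ (v : ℝ) ∧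
      (v : ℝ) ≤ 0.6 * (G.Zs c P univ / (2 ^ 12 * q)) := by
    refine ⟨⌈0.4 * (G.Zs c P univ / (2 ^ 12 * q))⌉₊, Nat.le_ceil _, ?_⟩
    have := Nat.ceil_lt_add_one
      (show 0 ≤ 0.4 * (G.Zs c P univ / (2 ^ 12 * q)) by linarith only [s5])
    linarith only [this, s5]
  have hv3 : v ≤ 2 * q ^ 2 := by
    have : (v : ℝ) ≤ 2 * (q : ℝ) ^ 2 := by linarith only [hv2, sq, s5]
    exact_mod_cast this
  have htp := G.Rec0_tp hp hn1 hn2 hE hv1
  have hfp := G.Rec0_fp hp hn1 hn2 hE hv2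
  have hc : Ex (eta q P) (range (c + 4) ×ˢ P) (fun T => (T.card : ℝ)) = (c + 4) * q := by
    rw [Ex_congr (g := fun T => ((T ∩ range (c + 4) ×ˢ P).card : ℝ))
      fun T hT => by rw [inter_eq_left.2 hT], Ex_card, inter_self, card_product, card_range,
      ← eta_mul_card (q := q) hP]
    push_cast
    ring
  have m1 := markov (Ω := range (c + 4) ×ˢ P) e0.le e2 (f := fun T => (T.card : ℝ))
    (fun T _ => Nat.cast_nonneg _) (t := 10 * ((c + 4) * q)) (by positivity)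
  have m2 := markov (Ω := range (c + 4) ×ˢ P) e0.le e2
    (f := fun T => ((P \ G.dec c (1 - eta q P) (fun _ => P.card / q) ∅ v T).card : ℝ))
    (fun T _ => Nat.cast_nonneg _) (t := P.card / 2) (by positivity)
  have m3 := markov (Ω := range (c + 4) ×ˢ P) e0.le e2
    (f := fun T => ((G.dec c (1 - eta q P) (fun _ => P.card / q) ∅ v T).card : ℝ))
    (fun T _ => Nat.cast_nonneg _) (t := 200 * w ^ 2 * P.card) (by positivity)
  replace m1 := m1.trans (show _ ≤ (1 : ℝ) / 10 by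
    rw [hc, div_le_iff₀ (by positivity)]; linarith only [])
  replace m2 := m2.trans (show _ ≤ (1 : ℝ) / 4 by
    rw [div_le_iff₀ (by positivity)]; linarith only [htp])
  replace m3 := m3.trans (show _ ≤ (1 : ℝ) / 10 by
    rw [div_le_iff₀ (by positivity)]; linarith only [hfp])
  obtain ⟨T, hT, h⟩ := exists_of_Pr_lt_one (((Pr_or e0.le e2 _ _).trans
    (add_le_add m1 ((Pr_or e0.le e2 _ _).trans (add_le_add m2 m3)))).trans_lt (by norm_num))
  rw [not_or, not_or, not_le, not_le, not_le] at h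
  obtain ⟨h1, h2, h3⟩ := h
  refine ⟨T, hT, ?_, v, hv3, ?_, h3.le⟩
  · have : (T.card : ℝ) ≤ 10 * (c + 4) * q := by linarith only [h1]
    exact_mod_cast this
  · have h4 : ((P \ G.dec c (1 - eta q P) (fun _ => P.card / q) ∅ v T).card : ℝ) +
        (P ∩ G.dec c (1 - eta q P) (fun _ => P.card / q) ∅ v T).card = P.card := by
      exact_mod_cast card_sdiff_add_card_inter _ _
    have : (P.card : ℝ) ≤ 2 * (P ∩ G.dec c (1 - eta q P) (fun _ => P.card / q) ∅ v T).card := by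
      linarith only [h2, h4]
    exact_mod_cast this

end PG
end Pool.Agent.Work.MP_e10cd8_co.Four
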