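import Pool.Agent.Work.MP_e10cd8_co.Exact.XNum
import Pool.Agent.Work.MP_e10cd8_co.Four.PointT

/-! Reconstruction of small sets with crude concentration (paper D). Compare `Four/PointT`,
`Four/PointD`, `Four/Excep`, `Four/MainFP`, `Four/MainTP`; here `H = ∅`, every point is single,
`th ∅ a = ∅` and `nuT P ∅ a = |P| / q`. -/

namespace Pool.Agent.Work.MP_e10cd8_co.Four
namespace PG
open Finset

variable {q : ℕ} {Pt : Type} [Fintype Pt] [DecidableEq Pt] (G : PG q Pt)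

/-- a function that is a bounded part plus a constant on the block -/
theorem Rec0A_block {ι : Type} [DecidableEq ι] {η : ℝ} (h0 : 0 ≤ η) (h1 : η ≤ 1) (B : Finset ι)
    (F g : Finset ι → ℝ) (r φ : ℝ) (h : ∀ S ⊆ B, F S = g S + r) (hg : ∀ S, |g S| ≤ φ) :
    Vr η B F ≤ 4 * φ ^ 2 * (η * B.card) ∧ ∀ S ⊆ B, -(2 * φ) ≤ F S - Ex η B F := by
  have hφ : 0 ≤ φ := (abs_nonneg _).trans (hg ∅)
  constructor
  · refine (Vr_le F (F ∅)).trans ?_
    calc _ ≤ Ex η B fun S => 4 * φ ^ 2 * ind (¬ Disjoint S B) := by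
          refine Ex_mono h0 h1 fun S hS => ?_
          rcases S.eq_empty_or_nonempty with rfl | hne
          · rw [sub_self, zero_pow two_ne_zero]
            have := ind_nonneg (¬ Disjoint (∅ : Finset ι) B)
            positivity
          · have hd : ¬ Disjoint S B := fun hd =>
              hne.ne_empty (disjoint_self.1 (hd.mono_right hS))
            rw [ind_pos hd, h S hS, h ∅ (empty_subset _)]
            have a1 := abs_le.1 (hg S)
            have a2 := abs_le.1 (hg ∅)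
            nlinarith
      _ ≤ _ := by
          rw [Ex_mul_left]
          refine mul_le_mul_of_nonneg_left ?_ (by positivity)
          have := Pr_not_disjoint (Ω := B) h0 h1 B
          rwa [inter_self] at this
  · intro S hS
    have a1 : Ex η B F ≤ φ + r := by
      refine (Ex_mono h0 h1 fun S' hS' => ?_).trans (Ex_const (φ + r)).le
      rw [h S' hS']
      linarith [(abs_le.1 (hg S')).2]
    rw [h S hS]
    linarith [(abs_le.1 (hg S)).1]

theorem Rec0A_one {ι κ : Type} [DecidableEq ι] [DecidableEq κ] {η : ℝ} (h0 : 0 ≤ η) (h1 : η ≤ 1)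
    (I : Finset κ) (B : κ → Finset ι)
    (hd : ∀ i ∈ I, ∀ j ∈ I, i ≠ j → Disjoint (B i) (B j)) (f : Finset ι → ℝ) {φ lam : ℝ}
    (hs : ∀ i ∈ I, ∀ T, ∃ (g : Finset ι → ℝ) (r : ℝ),
      (∀ S ⊆ B i, f (S ∪ T) = g S + r) ∧ ∀ S, |g S| ≤ φ)
    (hlam : 0 ≤ lam) (hl : lam * (2 * φ) ≤ 1) (t : ℝ) :
    Pr η (I.biUnion B) (fun T => f T ≤ Ex η (I.biUnion B) f - t) ≤
      Real.exp (-(lam * t) + lam ^ 2 * ∑ i ∈ I, 4 * φ ^ 2 * (η * (B i).card)) := by
  refine freedman0 h0 h1 I B hd f (M := 2 * φ) (fun i => 4 * φ ^ 2 * (η * (B i).card))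
    (fun i hi T _ => ?_) hlam hl t
  obtain ⟨g, r, e1, e2⟩ := hs i hi T
  exact Rec0A_block h0 h1 (B i) (fun S => f (S ∪ T)) g r φ e1 e2

theorem Rec0A_two {ι κ : Type} [DecidableEq ι] [DecidableEq κ] {η : ℝ} (h0 : 0 ≤ η) (h1 : η ≤ 1)
    (I : Finset κ) (B : κ → Finset ι)
    (hd : ∀ i ∈ I, ∀ j ∈ I, i ≠ j → Disjoint (B i) (B j)) (f : Finset ι → ℝ) {φ lam : ℝ}
    (hs : ∀ i ∈ I, ∀ T, ∃ (g : Finset ι → ℝ) (r : ℝ),
      (∀ S ⊆ B i, f (S ∪ T) = g S + r) ∧ ∀ S, |g S| ≤ φ)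
    (hlam : 0 ≤ lam) (hl : lam * (2 * φ) ≤ 1) (t : ℝ) :
    Pr η (I.biUnion B) (fun T => t ≤ |f T - Ex η (I.biUnion B) f|) ≤
      2 * Real.exp (-(lam * t) + lam ^ 2 * ∑ i ∈ I, 4 * φ ^ 2 * (η * (B i).card)) := by
  have k1 := Rec0A_one h0 h1 I B hd f hs hlam hl t
  have k2 := Rec0A_one h0 h1 I B hd (fun T => -1 * f T) (φ := φ) (fun i hi T => by
    obtain ⟨g, r, e1, e2⟩ := hs i hi T
    refine ⟨fun S => -g S, -r, fun S hS => ?_, fun S => ?_⟩
    · rw [e1 S hS]
      ring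
    · rw [abs_neg]
      exact e2 S) hlam hl t
  rw [Ex_mul_left] at k2
  refine le_trans (Pr_mono h0 h1 (p' := fun T => f T ≤ Ex η (I.biUnion B) f - t ∨
    -1 * f T ≤ -1 * Ex η (I.biUnion B) f - t) fun T _ k => ?_) ((Pr_or h0 h1 _ _).trans ?_)
  · rcases le_abs.1 k with k | k
    · exact Or.inr (by linarith)
    · exact Or.inl (by linarith)
  · linarith

theorem Rec0A_num {w L Q s V : ℝ} (hw : 2 ^ 30 ≤ w) (L1 : 1 ≤ L) (hq : L ^ 9 * w ^ 10 ≤ Q)
    (hs : Q ≤ s * L ^ 4) (hV : V ≤ 16 * w * Q ^ 3) :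
    100 * L / (s * Q / w ^ 3) * (2 * (2 * Q)) ≤ 1 ∧
    -(100 * L / (s * Q / w ^ 3) * (s * Q / w ^ 3 / 10)) + (100 * L / (s * Q / w ^ 3)) ^ 2 * V ≤
      -(5 * L) := by
  have w1 : 1 ≤ w := le_trans (by norm_num) hw
  have w0 : 0 < w := by linarith
  have L0 : 0 < L := by linarith
  have Q0 : 0 < Q := lt_of_lt_of_le (by positivity) hq
  have s0 : 0 < s := by
    by_contra h
    have := mul_nonpos_of_nonpos_of_nonneg (not_lt.1 h) (by positivity : 0 ≤ L ^ 4)
    linarith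
  have hl0 : 0 ≤ 100 * L / (s * Q / w ^ 3) := by positivity
  have hl1 : 100 * L / (s * Q / w ^ 3) ≤ 100 * L ^ 5 * w ^ 3 / Q ^ 2 := by
    rw [div_div_eq_mul_div, div_le_div_iff₀ (by positivity) (by positivity)]
    have e := mul_le_mul_of_nonneg_left hs (by positivity : 0 ≤ 100 * L * w ^ 3 * Q)
    calc 100 * L * w ^ 3 * Q ^ 2 = 100 * L * w ^ 3 * Q * Q := by ring
      _ ≤ 100 * L * w ^ 3 * Q * (s * L ^ 4) := e
      _ = _ := by ring
  have w3 : 32000 ≤ w ^ 3 := le_trans (by linarith) (le_self_pow₀ w1 (by norm_num))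
  have a1 : 32000 * (L ^ 9 * w ^ 7) ≤ Q := by
    calc 32000 * (L ^ 9 * w ^ 7) ≤ w ^ 3 * (L ^ 9 * w ^ 7) :=
          mul_le_mul_of_nonneg_right w3 (by positivity)
      _ = L ^ 9 * w ^ 10 := by ring
      _ ≤ Q := hq
  have a2 : L ^ 5 * w ^ 3 ≤ L ^ 9 * w ^ 7 :=
    mul_le_mul (pow_le_pow_right₀ L1 (by norm_num)) (pow_le_pow_right₀ w1 (by norm_num))
      (by positivity) (by positivity)
  have a3 : 0 ≤ L ^ 5 * w ^ 3 := by positivity
  constructor
  · refine (mul_le_mul_of_nonneg_right hl1 (by positivity)).trans ?_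
    have e : 100 * L ^ 5 * w ^ 3 / Q ^ 2 * (2 * (2 * Q)) = 400 * (L ^ 5 * w ^ 3) / Q := by
      field_simp
      norm_num
    rw [e, div_le_one Q0]
    linarith
  · have a5 : 100 * L / (s * Q / w ^ 3) * (s * Q / w ^ 3 / 10) = 10 * L := by
      field_simp
      norm_num
    have a6 := mul_le_mul_of_nonneg_left hV (sq_nonneg (100 * L / (s * Q / w ^ 3)))
    have a7 := mul_le_mul_of_nonneg_right (pow_le_pow_left₀ hl0 hl1 2)
      (by positivity : 0 ≤ 16 * w * Q ^ 3)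
    have a8 : (100 * L ^ 5 * w ^ 3 / Q ^ 2) ^ 2 * (16 * w * Q ^ 3) =
        5 * L * (32000 * (L ^ 9 * w ^ 7) / Q) := by
      field_simp
      norm_num
    have a9 : 5 * L * (32000 * (L ^ 9 * w ^ 7) / Q) ≤ 5 * L :=
      mul_le_of_le_one_right (by positivity) ((div_le_one Q0).2 a1)
    rw [a5]
    linarith

/-- `freedman0` for `Sst` and for its negative over the blocks `labs a (P.erase a)`: the pencil part
has absolute value at most `q + 1 ≤ 2 q`, block variance at most `(c+4) η |fib| (4 q)^2`, `M = 4 q`,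
`s0 = σ q / w^3 ≥ q^2 / (L^4 w^3)`, `lam = 100 L / s0`; `Lw_le` -/
theorem r0_tail {w : ℝ} {c : ℕ} (hp : Par0 q w c) {P : Finset Pt}
    (hn1 : 4 * (c + 4) * q ≤ P.card) (hn2 : (P.card : ℝ) ≤ q * Real.log q ^ 4) (a : Pt) :
    Pr (eta q P) (range (c + 4) ×ˢ P) (fun T => sig q P * q / w ^ 3 / 10 ≤
      |G.Sst c ((1 - eta q P) ^ (P.card / q)) ∅ univ a T -
        Ex (eta q P) (range (c + 4) ×ˢ P) (G.Sst c ((1 - eta q P) ^ (P.card / q)) ∅ univ a)|) ≤
      2 / (q : ℝ) ^ 5 := by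
  have q0 := hp.q_pos
  have w0 := hp.w_pos
  have L1 := hp.one_le_L
  have hq : 0 < q := by exact_mod_cast q0
  have hP := nonempty_of_le hq hn1
  have h0 := eta_pos hq hP
  have h1 : eta q P ≤ 1 := by
    have a := eta_le hq hn1
    have b : (0 : ℝ) ≤ c := Nat.cast_nonneg _
    nlinarith
  have hγ0 : 0 ≤ (1 - eta q P) ^ (P.card / q) := pow_nonneg (by linarith) _
  have hγ1 : (1 - eta q P) ^ (P.card / q) ≤ 1 := pow_le_one₀ (by linarith) (by linarith)
  generalize (1 - eta q P) ^ (P.card / q) = γ at hγ0 hγ1 ⊢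
  have haU : a ∉ P.erase a := notMem_erase a P
  have hσ : 0 ≤ sig q P := Means_sig P
  have hs : (q : ℝ) ≤ sig q P * Real.log q ^ 4 := by
    have a1 := mul_le_mul_of_nonneg_left hn2 hσ
    rw [sig_mul_card hP] at a1
    refine le_of_mul_le_mul_left ?_ q0
    linarith
  have hV : ∑ A ∈ G.labs a (P.erase a), 4 * (2 * (q : ℝ)) ^ 2 *
      (eta q P * (range (c + 4) ×ˢ G.fib (P.erase a) A).card) ≤ 16 * w * (q : ℝ) ^ 3 := by
    calc _ = 16 * ((c : ℝ) + 4) * (q : ℝ) ^ 2 * (eta q P * ∑ A ∈ G.labs a (P.erase a),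
          ((G.fib (P.erase a) A).card : ℝ) * 1) := by
          rw [mul_sum, mul_sum]
          refine sum_congr rfl fun A _ => ?_
          rw [card_product, card_range]
          push_cast
          ring
      _ ≤ 16 * w * (q : ℝ) ^ 2 * q := by
          rw [G.sum_labs haU fun _ => 1, sum_const, nsmul_eq_mul, mul_one]
          have e1 : ((P.erase a).card : ℝ) ≤ P.card := by exact_mod_cast card_erase_le
          have e2 := mul_le_mul_of_nonneg_left e1 h0.le
          rw [eta_mul_card hP] at e2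
          exact mul_le_mul (mul_le_mul_of_nonneg_right
            (mul_le_mul_of_nonneg_left hp.c_le (by norm_num)) (by positivity)) e2
            (by positivity) (by positivity)
      _ = _ := by ring
  obtain ⟨n1, n2⟩ := Rec0A_num hp.hw L1 hp.Lw_le hs hV
  have key := Rec0A_two h0.le h1 (G.labs a (P.erase a))
    (fun A => range (c + 4) ×ˢ G.fib (P.erase a) A) (G.fib_disjoint haU _)
    (G.Sst c γ ∅ univ a) (φ := 2 * q) (fun A hA T => ⟨_, _,
      fun S hS => G.Sst_split c γ ∅ univ haU hA hS T, fun S => by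
        refine (abs_sum_le_sum_abs _ _).trans ((sum_le_card_nsmul _ _ 1 fun b _ =>
          (abs_xi_le c hγ0 hγ1 _ _ _).trans (emp_le_one _ _)).trans ?_)
        rw [nsmul_eq_mul, mul_one, sdiff_empty, inter_univ,
          G.card_line (G.labs_subset_lines haU hA)]
        have : (1 : ℝ) ≤ q := by exact_mod_cast hq
        push_cast
        linarith⟩) (by positivity) n1 (sig q P * q / w ^ 3 / 10)
  rw [G.PointT_ex1]
  have e := G.PointT_ex c (eta q P) γ P ∅ univ a fun x => ind (sig q P * q / w ^ 3 / 10 ≤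
    |x - Ex (eta q P) ((G.labs a (P.erase a)).biUnion
      fun A => range (c + 4) ×ˢ G.fib (P.erase a) A) (G.Sst c γ ∅ univ a)|)
  refine (le_of_eq e).trans (key.trans ?_)
  have hexp : Real.exp (-(5 * Real.log q)) = 1 / (q : ℝ) ^ 5 := by
    rw [Real.exp_neg, one_div, ← Real.exp_log (pow_pos q0 5), Real.log_pow]
    norm_num
  have k1 := Real.exp_le_exp.2 n2
  rw [hexp] at k1
  rw [← mul_one_div 2]
  exact mul_le_mul_of_nonneg_left k1 (by norm_num)

end PG
end Pool.Agent.Work.MP_e10cd8_co.Four
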