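import Pool.Agent.Work.MP_e10cd8_co.Exact.Valid

/-! Valid samples and the three rounds (paper A, B). Compare `Four/Sparse1`. -/

namespace Pool.Agent.Work.MP_e10cd8_co.Four
namespace PG
open Finset

variable {q : ℕ} {Pt : Type} [Fintype Pt] [DecidableEq Pt] (G : PG q Pt)

theorem Rnd3_exp (j : ℕ) : Real.exp (j : ℝ) ^ 2 = Real.exp (2 * j) := by
  rw [← Real.exp_nat_mul]; norm_num

theorem Rnd3_mono {c a : ℝ} (hc : 0 ≤ c) (ha : 0 ≤ a) {i j : ℕ} (hij : i ≤ j) {y : ℝ}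
    (hy : y ≤ c * Real.exp (a * i) * (q : ℝ) ^ 3) : y ≤ c * Real.exp (a * j) * (q : ℝ) ^ 3 := by
  have h1 : (i : ℝ) ≤ j := by exact_mod_cast hij
  have h2 : Real.exp (a * i) ≤ Real.exp (a * j) :=
    Real.exp_le_exp.2 (mul_le_mul_of_nonneg_left h1 ha)
  exact hy.trans (mul_le_mul_of_nonneg_right (mul_le_mul_of_nonneg_left h2 hc) (by positivity))

/-- one round -/
theorem Rnd3_step {D k : ℕ} (h : XPar q D k) {Z : Finset (Pt × Pt)}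
    (hZ : G.sparse (xd1 q k) Z) (hk : Z.card ≤ k) (lev : Finset (Pt × Pt) → ℕ)
    (F : ℕ → Finset (Finset Pt × Finset Pt))
    (H : ∀ Z' ⊆ Z, ((Z \ Z').card : ℝ) ≤ k / 1000 → ∀ T, G.Valid (xd1 q k) Z Z' T →
      (q : ℝ) ^ 3 / Real.exp (lev T) ≤ (G.BB T).card ∧ ∃ XY ∈ F (lev T),
        ((G.pool XY.1 XY.2).card : ℝ) ≤ 3000 * Real.exp (4 * lev T) * (q : ℝ) ^ 3 ∧
        ((Z' \ G.pool XY.1 XY.2).card : ℝ) ≤ k / 20000)
    {Z' : Finset (Pt × Pt)} (h' : Z' ⊆ Z) (hl : ((Z \ Z').card : ℝ) ≤ k / 1000) :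
    ∃ (T W : Finset (Pt × Pt)) (XY : Finset Pt × Finset Pt), G.Valid (xd1 q k) Z Z' T ∧
      XY ∈ F (lev T) ∧
      ((G.pool XY.1 XY.2).card : ℝ) ≤ 3000 * Real.exp (4 * lev T) * (q : ℝ) ^ 3 ∧
      ((G.PP T).card : ℝ) * (G.QQ T).card ≤ 29 * Real.exp (2 * lev T) * (q : ℝ) ^ 4 ∧
      ((G.pool (G.PP T) (G.QQ T)).card : ℝ) ≤ 35 * Real.exp (2 * lev T) * (q : ℝ) ^ 3 ∧
      W ⊆ Z' ∧ W ⊆ G.BB T ∧ W ⊆ G.pool XY.1 XY.2 ∧ Disjoint W T ∧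
      ((Z \ W).card : ℝ) ≤ (Z \ Z').card + k / 9000 := by
  obtain ⟨T, hv⟩ := G.exists_valid h hZ hk h'
  obtain ⟨hB, XY, hXY, hp, hl'⟩ := H Z' h' hl T hv
  have hE : 1 ≤ Real.exp (lev T : ℝ) := Real.one_le_exp (Nat.cast_nonneg _)
  obtain ⟨-, -, -, e1, e2⟩ := G.ext_of_bad (x := 1 / 2 ^ 28) (m := 15 * Real.log q)
    (by norm_num) hE T hB
  rw [Rnd3_exp] at e1 e2
  refine ⟨T, (Z' ∩ G.BB T ∩ G.pool XY.1 XY.2) \ T, XY, hv, hXY, hp, e1, e2,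
    fun z hz => (mem_inter.1 (mem_inter.1 (mem_sdiff.1 hz).1).1).1,
    fun z hz => (mem_inter.1 (mem_inter.1 (mem_sdiff.1 hz).1).1).2,
    fun z hz => (mem_inter.1 (mem_sdiff.1 hz).1).2, sdiff_disjoint, ?_⟩
  have hs : Z \ ((Z' ∩ G.BB T ∩ G.pool XY.1 XY.2) \ T) ⊆
      (Z \ Z') ∪ (Z' \ G.BB T) ∪ (Z' \ G.pool XY.1 XY.2) ∪ T := by
    intro z hz
    simp only [mem_sdiff, mem_inter, mem_union] at hz ⊢
    tauto
  have c1 : (Z \ ((Z' ∩ G.BB T ∩ G.pool XY.1 XY.2) \ T)).card ≤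
      (Z \ Z').card + (Z' \ G.BB T).card + (Z' \ G.pool XY.1 XY.2).card + T.card :=
    (card_le_card hs).trans ((card_union_le _ _).trans (Nat.add_le_add_right
      ((card_union_le _ _).trans (Nat.add_le_add_right (card_union_le _ _) _)) _))
  have c2 : ((Z \ ((Z' ∩ G.BB T ∩ G.pool XY.1 XY.2) \ T)).card : ℝ) ≤
      (Z \ Z').card + (Z' \ G.BB T).card + (Z' \ G.pool XY.1 XY.2).card + T.card := by
    exact_mod_cast c1
  have c3 := G.valid_loss_bad h h' hv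
  have c4 := hv.card.trans h.xt0_le
  have k0 : (0 : ℝ) ≤ k := Nat.cast_nonneg _
  linarith

/-- `Z 0 = Z`, `Z (i+1) = (Z i ∩ BB (T i) ∩ pool (X i) (Y i)) \ T i`; each round loses at most
`k/20000 + k/20000 + k/10^6`. With `j i = lev (T i)`: if `j 1 ≤ j 2` take the pair of round `1`
and `T = Ts = T 2`; else if `j 0 ≤ j 1` the pair of round `0` and `T = Ts = T 1`; else the pair of
round `1`, `T = T 2 ∪ T 0`, `Ts = T 0` (`Valid.all` for `T 2`, `ext_of_bad`). `Zs = Z 3`. -/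
theorem three_rounds {D k : ℕ} (h : XPar q D k) {Z : Finset (Pt × Pt)}
    (hZ : G.sparse (xd1 q k) Z) (hk : Z.card ≤ k) (lev : Finset (Pt × Pt) → ℕ)
    (F : ℕ → Finset (Finset Pt × Finset Pt)) (hF : Monotone F)
    (H : ∀ Z' ⊆ Z, ((Z \ Z').card : ℝ) ≤ k / 1000 → ∀ T, G.Valid (xd1 q k) Z Z' T →
      (q : ℝ) ^ 3 / Real.exp (lev T) ≤ (G.BB T).card ∧ ∃ XY ∈ F (lev T),
        ((G.pool XY.1 XY.2).card : ℝ) ≤ 3000 * Real.exp (4 * lev T) * (q : ℝ) ^ 3 ∧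
        ((Z' \ G.pool XY.1 XY.2).card : ℝ) ≤ k / 20000) :
    ∃ (XY : Finset Pt × Finset Pt) (T Ts Zs Z' : Finset (Pt × Pt)), XY ∈ F (lev Ts) ∧ Z' ⊆ Z ∧
      ((Z \ Z').card : ℝ) ≤ k / 1000 ∧ G.Valid (xd1 q k) Z Z' Ts ∧
      G.Out k (lev Ts) XY.1 XY.2 Z T Ts Zs := by
  have k0 : (0 : ℝ) ≤ k := Nat.cast_nonneg _
  have l0 : ((Z \ Z).card : ℝ) = 0 := by simp
  obtain ⟨T0, Z1, P0, v0, m0, a0, b0, c0, s1, B1, Q1, d1, l1⟩ :=
    G.Rnd3_step h hZ hk lev F H (Subset.refl Z) (by rw [l0]; positivity)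
  rw [l0] at l1
  obtain ⟨T1, Z2, P1, v1, m1, a1, b1, c1, s2, B2, Q2, d2, l2⟩ :=
    G.Rnd3_step h hZ hk lev F H s1 (by linarith)
  obtain ⟨T2, Z3, P2, v2, m2, a2, b2, c2, s3, B3, Q3, d3, l3⟩ :=
    G.Rnd3_step h hZ hk lev F H (s2.trans s1) (by linarith)
  by_cases h12 : lev T1 ≤ lev T2
  · exact ⟨P1, T2, T2, Z3, Z2, hF h12 m1, s2.trans s1, by linarith, v2,
      ⟨⟨Rnd3_mono (by norm_num) (by norm_num) h12 a1, c2, v2.card, Or.inl ⟨rfl, v2.sub.trans Q2⟩⟩,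
        v2.sub.trans (s2.trans s1), b2, v2.all, s3.trans (s2.trans s1), d3, B3, s3.trans Q2,
        by linarith⟩⟩
  by_cases h01 : lev T0 ≤ lev T1
  · exact ⟨P0, T1, T1, Z2, Z1, hF h01 m0, s1, by linarith, v1,
      ⟨⟨Rnd3_mono (by norm_num) (by norm_num) h01 a0, c1, v1.card, Or.inl ⟨rfl, v1.sub.trans Q1⟩⟩,
        v1.sub.trans s1, b1, v1.all, s2.trans s1, d2, B2, s2.trans Q1, by linarith⟩⟩
  have g1 : lev T1 ≤ lev T0 := by omega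
  have g2 : lev T2 ≤ lev T0 := by omega
  exact ⟨P1, T2 ∪ T0, T0, Z3, Z, hF g1 m1, Subset.refl Z, by rw [l0]; positivity, v0,
    ⟨⟨Rnd3_mono (by norm_num) (by norm_num) g1 a1, c0, v0.card, Or.inr ⟨T2, v2.sub.trans Q2,
        v2.card, Rnd3_mono (by norm_num) (by norm_num) g2 c2, v0.sub.trans v2.all,
        d1.mono_left (v2.sub.trans s2), rfl⟩⟩,
      union_subset (v2.sub.trans (s2.trans s1)) v0.sub, b0, v0.all, s3.trans (s2.trans s1),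
      disjoint_union_right.2 ⟨d3, d1.mono_left (s3.trans s2)⟩, (s3.trans s2).trans B1,
      s3.trans Q2, by linarith⟩⟩

end PG
end Pool.Agent.Work.MP_e10cd8_co.Four
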