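import Pool.Agent.Work.MP_e10cd8_co.Exact.XNum
import Pool.Agent.Work.MP_e10cd8_co.Four.Sparse1

/-! Valid samples and the three rounds (paper A, B). Compare `Four/Sparse1`. -/

namespace Pool.Agent.Work.MP_e10cd8_co.Four
namespace PG
open Finset

variable {q : ℕ} {Pt : Type} [Fintype Pt] [DecidableEq Pt] (G : PG q Pt)

/-- as `sl`: sample `Z'` at rate `15 L / d1`; the points of all flags of `Z` lie on at most `d1`
planes of `Z'` -/
theorem exists_valid {D k : ℕ} (h : XPar q D k) {Z Z' : Finset (Pt × Pt)}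
    (hZ : G.sparse (xd1 q k) Z) (hk : Z.card ≤ k) (h' : Z' ⊆ Z) :
    ∃ T, G.Valid (xd1 q k) Z Z' T := by
  have q1 : (1000 : ℝ) ≤ q := by exact_mod_cast h.hq
  have q0 : (0 : ℝ) < q := by linarith
  have l0 : 0 < Real.log q := Real.log_pos (by linarith)
  have hm : 0 < 15 * Real.log q := mul_pos (by norm_num) l0
  have hd := h.L_le_xd1
  have hd2 := h.xd1_ge
  generalize xd1 q k = d at *
  have d0 : (0 : ℝ) < d := hm.trans_le hd
  have t0 : 0 < xt0 q := by unfold xt0; positivity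
  have h0 : 0 ≤ 15 * Real.log q / d := by positivity
  have h1 : 15 * Real.log q / d ≤ 1 := (div_le_one d0).2 hd
  have a1 := Sparse1_test Z' (fun (a : Pt) u => a ∈ G.pl u.2) hm hd
  have a2 := Sparse1_test Z' (fun (b : Pt) u => u.1 ∈ G.pl b) hm hd
  have a3 := markov h0 h1 (Ω := Z') (f := fun T => ((T ∩ Z').card : ℝ))
    (fun _ _ => Nat.cast_nonneg _) t0
  have a4 : 15 * Real.log q / d * Z'.card / xt0 q ≤ 1 / 10 := by
    have c1 : (Z'.card : ℝ) ≤ k := by exact_mod_cast (card_le_card h').trans hk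
    rw [div_le_iff₀ (by positivity)] at hd2
    rw [div_le_iff₀ t0, div_mul_eq_mul_div, div_le_iff₀ d0, xt0]
    have c2 := mul_le_mul_of_nonneg_left c1 l0.le
    have c3 := mul_le_mul_of_nonneg_left hd2 l0.le
    have c4 : 0 ≤ Real.log q * k := by positivity
    linarith
  rw [Ex_card, inter_self] at a3
  have a5 : Fintype.card Pt * Real.exp (-(15 * Real.log q) / 3) ≤ 1 / 10 := by
    rw [show -(15 * Real.log q) / 3 = -((5 : ℕ) * Real.log q) by push_cast; ring, Real.exp_neg,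
      Real.exp_nat_mul, Real.exp_log q0, ← div_eq_mul_inv, div_le_iff₀ (by positivity)]
    refine G.card_pt_le.trans ?_
    have : 0 ≤ (q : ℝ) ^ 3 * ((q : ℝ) ^ 2 - 20) := mul_nonneg (by positivity) (by nlinarith)
    linarith
  obtain ⟨T, hT, k0⟩ := exists_of_Pr_lt_one (((Pr_or h0 h1 _ _).trans (add_le_add
    ((Pr_or h0 h1 _ _).trans (add_le_add (a1.trans a5) (a2.trans a5))) (a3.trans a4))).trans_lt
      (by norm_num))
  obtain ⟨k1, k3⟩ := not_or.1 k0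
  obtain ⟨k1, k2⟩ := not_or.1 k1
  rw [not_not] at k1 k2
  rw [inter_eq_left.2 hT] at k3
  refine ⟨T, hT, (not_le.1 k3).le, fun z c => ?_, fun a ha => ?_, fun b hb => ?_⟩
  · exact G.Sparse1_pool.2 ⟨G.Sparse1_flag.1 (hZ.1 c),
      G.Sparse1_Pof.2 ((k1 z.1).1 (Nat.cast_le.2 ((Sparse1_sel h' _).trans (hZ.2 z c).1))),
      G.Sparse1_Pio.2 ((k2 z.2).1 (Nat.cast_le.2 ((Sparse1_sel h' _).trans (hZ.2 z c).2)))⟩
  · exact_mod_cast (k1 a).2 (G.Sparse1_Pof.1 ha)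
  · exact_mod_cast (k2 b).2 (G.Sparse1_Pio.1 hb)

theorem valid_loss_pls {d : ℕ} {Z Z' T : Finset (Pt × Pt)} (hv : G.Valid d Z Z' T)
    {P' : Finset Pt} (hP : P' ⊆ G.PP T) {x : ℝ} (hx : 0 < x) :
    ((selIn Z' fun z => z.2 ∉ G.low x P').card : ℝ) ≤ 4 * d * q / x := by
  exact G.Sparse1_cnt Z' Prod.snd hx (D := 4 * d) (by positivity) P' fun a ha => by
    exact_mod_cast hv.pts a (hP ha)

theorem valid_loss_pts {d : ℕ} {Z Z' T : Finset (Pt × Pt)} (hv : G.Valid d Z Z' T)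
    {Q' : Finset Pt} (hQ : Q' ⊆ G.QQ T) {x : ℝ} (hx : 0 < x) :
    ((selIn Z' fun z => z.1 ∉ G.low x Q').card : ℝ) ≤ 4 * d * q / x := by
  exact G.Sparse1_cnt Z' Prod.fst hx (D := 4 * d) (by positivity) Q' fun b hb => by
    have := hv.pls b (hQ hb)
    simp only [G.symm b]
    exact_mod_cast this

theorem valid_loss_bad {D k : ℕ} (h : XPar q D k) {Z Z' T : Finset (Pt × Pt)} (h' : Z' ⊆ Z)
    (hv : G.Valid (xd1 q k) Z Z' T) : ((Z' \ G.BB T).card : ℝ) ≤ k / 20000 := by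
  have q1 : (1000 : ℝ) ≤ q := by exact_mod_cast h.hq
  have q0 : (0 : ℝ) < q := by linarith
  have hx : (0 : ℝ) < 1 / 2 ^ 28 := by positivity
  have b1 := G.valid_loss_pls hv Subset.rfl hx
  have b2 := G.valid_loss_pts hv Subset.rfl hx
  have b3 : Z' \ G.BB T ⊆ (selIn Z' fun u => u.2 ∉ G.low (1 / 2 ^ 28) (G.PP T)) ∪
      selIn Z' fun u => u.1 ∉ G.low (1 / 2 ^ 28) (G.QQ T) := fun z hz => by
    have c := (mem_sdiff.1 hz).1
    by_contra n
    rw [mem_union, mem_selIn, mem_selIn, not_or] at n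
    obtain ⟨c1, c2, c3⟩ := G.Sparse1_pool.1 (hv.all (h' c))
    exact (mem_sdiff.1 hz).2 (G.Sparse1_mbad.2 ⟨c1, c2, c3,
      not_not.1 fun o => n.1 ⟨c, o⟩, not_not.1 fun o => n.2 ⟨c, o⟩⟩)
  have b4 := (Nat.cast_le (α := ℝ)).2 ((card_le_card b3).trans (card_union_le _ _))
  rw [Nat.cast_add] at b4
  have b5 := h.xd1_le
  rw [le_div_iff₀ (by positivity)] at b5
  have b6 : 4 * (xd1 q k : ℝ) * q / (1 / 2 ^ 28) = 2 ^ 30 * (xd1 q k * q) := by
    field_simp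
    ring
  rw [b6] at b1 b2
  have b7 : (0 : ℝ) ≤ k := Nat.cast_nonneg _
  linarith

theorem Valid_r {x m E : ℝ} (hx : x ≤ 1 / 4) (hE : 1 ≤ E) (T : Finset (Pt × Pt))
    (h : (q : ℝ) ^ 3 / E ≤ (G.bad x m T).card) :
    (q : ℝ) ^ 4 ≤ ((G.Pof m T ∩ G.low x (G.Pio m T)).card : ℝ) *
      (G.Pio m T ∩ G.low x (G.Pof m T)).card * (9 * E ^ 2) := by
  obtain ⟨r, r0, -, h2, h3⟩ := G.Sparse1_bad hx m T
  have q0 : (0 : ℝ) < q := Nat.cast_pos.2 (lt_of_lt_of_le two_pos G.two_le)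
  have e0 : 0 < E := by linarith
  have a1 : (q : ℝ) ^ 2 ≤ 3 * E * r := by
    have := (div_le_iff₀ e0).1 (h.trans h2)
    exact le_of_mul_le_mul_left (by linarith) q0
  have := pow_le_pow_left₀ (by positivity) a1 2
  rw [← h3]
  linarith

omit [Fintype Pt] [DecidableEq Pt] in
theorem Valid_c {A B A' B' : Finset Pt} (k : A ⊆ A') (l : B ⊆ B') :
    (A.card : ℝ) * B.card ≤ A'.card * B'.card :=
  mul_le_mul (Nat.cast_le.2 (card_le_card k)) (Nat.cast_le.2 (card_le_card l))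
    (Nat.cast_nonneg _) (Nat.cast_nonneg _)

theorem Valid_pool {X Y : Finset Pt} {E a b : ℝ} (hE : 1 ≤ E) (hb : 0 ≤ b) (hab : a ≤ b ^ 2)
    (h : (X.card : ℝ) * Y.card ≤ a * E ^ 2 * (q : ℝ) ^ 4) :
    ((G.pool X Y).card : ℝ) ≤ (a + b) * E ^ 2 * (q : ℝ) ^ 3 := by
  have q0 : (0 : ℝ) < q := Nat.cast_pos.2 (lt_of_lt_of_le two_pos G.two_le)
  have e0 : 0 < E := by linarith
  refine (G.card_pool_le X Y).trans ?_
  have a5 : (X.card : ℝ) * Y.card ≤ (b * E * (q : ℝ) ^ 2) ^ 2 := by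
    have := mul_le_mul_of_nonneg_right hab (show 0 ≤ E ^ 2 * (q : ℝ) ^ 4 by positivity)
    linarith
  have a6 : Real.sqrt (X.card * Y.card) ≤ b * E * (q : ℝ) ^ 2 :=
    Real.sqrt_le_iff.2 ⟨by positivity, a5⟩
  have a7 : (X.card : ℝ) * Y.card / q ≤ a * E ^ 2 * (q : ℝ) ^ 3 :=
    (div_le_iff₀ q0).2 (by linarith)
  have a8 : E * (b * (q : ℝ) ^ 3) ≤ E ^ 2 * (b * (q : ℝ) ^ 3) :=
    mul_le_mul_of_nonneg_right (by nlinarith) (by positivity)
  have a9 := mul_le_mul_of_nonneg_left a6 q0.le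
  linarith

theorem ext_of_bad {x m E : ℝ} (hx : x ≤ 1 / 4) (hE : 1 ≤ E) (T : Finset (Pt × Pt))
    (h : (q : ℝ) ^ 3 / E ≤ (G.bad x m T).card) :
    G.Ext x (G.Pof m T) (9 * E ^ 2) ∧ G.Ext x (G.Pio m T) (9 * E ^ 2) ∧
      (q : ℝ) ^ 4 ≤ 9 * E ^ 2 * ((G.Pof m T).card * (G.Pio m T).card) ∧
      ((G.Pof m T).card : ℝ) * (G.Pio m T).card ≤ 29 * E ^ 2 * (q : ℝ) ^ 4 ∧
      ((G.pool (G.Pof m T) (G.Pio m T)).card : ℝ) ≤ 35 * E ^ 2 * (q : ℝ) ^ 3 := by
  have a2 := G.Valid_r hx hE T h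
  have q0 : (0 : ℝ) < q := Nat.cast_pos.2 (lt_of_lt_of_le two_pos G.two_le)
  have e0 : 0 < E := by linarith
  have e9 : (0 : ℝ) ≤ 9 * E ^ 2 := by positivity
  have ext : ∀ P : Finset Pt, ((G.Pof m T ∩ G.low x (G.Pio m T)).card : ℝ) *
      (G.Pio m T ∩ G.low x (G.Pof m T)).card ≤ ((G.low x P).card : ℝ) * P.card →
      G.Ext x P (9 * E ^ 2) := fun P k => by
    have l := a2.trans (mul_le_mul_of_nonneg_right k e9)
    refine ⟨nonempty_iff_ne_empty.2 fun n => ?_, l⟩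
    rw [n, card_empty, Nat.cast_zero, mul_zero, zero_mul] at l
    exact l.not_gt (by positivity)
  have h6 : 9 / 16 ≤ (1 - x) ^ 2 := by nlinarith
  have lo : ∀ P W : Finset Pt, ((W ∩ G.low x P).card : ℝ) * P.card ≤ 16 / 9 * (q : ℝ) ^ 4 :=
    fun P W => by
      have k1 := G.card_low_le (x := x) (by linarith) P
      have k2 := mul_le_mul (Valid_c (inter_subset_right (s₁ := W) (s₂ := G.low x P))
        (Subset.refl P)) h6 (by norm_num) (by positivity)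
      linarith
  have b : ((G.Pof m T).card : ℝ) * (G.Pio m T).card ≤ 29 * E ^ 2 * (q : ℝ) ^ 4 := by
    have k := mul_le_mul (lo (G.Pio m T) (G.Pof m T)) (lo (G.Pof m T) (G.Pio m T))
      (by positivity) (by positivity)
    have l := mul_le_mul_of_nonneg_left a2
      (show (0 : ℝ) ≤ (G.Pof m T).card * (G.Pio m T).card by positivity)
    have n := mul_le_mul_of_nonneg_right k e9
    have o : 0 ≤ E ^ 2 * (q : ℝ) ^ 8 := by positivity
    exact le_of_mul_le_mul_right (by linarith) (pow_pos q0 4)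
  refine ⟨ext _ ?_, ext _ (Valid_c inter_subset_right inter_subset_left), ?_, b, ?_⟩
  · rw [mul_comm]
    exact Valid_c inter_subset_right inter_subset_left
  · rw [mul_comm]
    exact a2.trans (mul_le_mul_of_nonneg_right (Valid_c inter_subset_left inter_subset_left) e9)
  · refine (G.Valid_pool (b := 6) hE (by norm_num) (by norm_num) b).trans (le_of_eq ?_)
    norm_num

theorem pool_of_cont {x m E : ℝ} (hx : x ≤ 1 / 4) (hE : 1 ≤ E) (T : Finset (Pt × Pt))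
    (h : (q : ℝ) ^ 3 / E ≤ (G.bad x m T).card) {X Y : Finset Pt}
    (hX : G.low x (G.Pio m T) ⊆ X) (hX' : (X.card : ℝ) * (G.Pio m T).card ≤ 16 * (q : ℝ) ^ 4)
    (hY : G.low x (G.Pof m T) ⊆ Y) (hY' : (Y.card : ℝ) * (G.Pof m T).card ≤ 16 * (q : ℝ) ^ 4) :
    G.bad x m T ⊆ G.pool X Y ∧ ((G.pool X Y).card : ℝ) ≤ 2700 * E ^ 2 * (q : ℝ) ^ 3 := by
  have a2 := (G.ext_of_bad hx hE T h).2.2.1
  have q0 : (0 : ℝ) < q := Nat.cast_pos.2 (lt_of_lt_of_le two_pos G.two_le)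
  have e0 : 0 < E := by linarith
  refine ⟨fun z hz => ?_, ?_⟩
  · obtain ⟨a, -, -, d, e⟩ := G.Sparse1_mbad.1 hz
    exact G.Sparse1_pool.2 ⟨a, hX e, hY d⟩
  have a5 : (X.card : ℝ) * Y.card ≤ 2304 * E ^ 2 * (q : ℝ) ^ 4 := by
    have k := mul_le_mul hX' hY' (by positivity) (by positivity)
    have l := mul_le_mul_of_nonneg_left a2 (show (0 : ℝ) ≤ X.card * Y.card by positivity)
    have n := mul_le_mul_of_nonneg_right k (show (0 : ℝ) ≤ 9 * E ^ 2 by positivity)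
    exact le_of_mul_le_mul_right (by linarith) (pow_pos q0 4)
  refine (G.Valid_pool (b := 48) hE (by norm_num) (by norm_num) a5).trans ?_
  have : 0 ≤ E ^ 2 * (q : ℝ) ^ 3 := by positivity
  linarith

end PG
end Pool.Agent.Work.MP_e10cd8_co.Four
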