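import Pool.Agent.Work.MP_e10cd8_co.Exact.XNum
import Pool.Agent.Work.MP_e10cd8_co.Four.FinP

/-! Weights of the prefixes and of the covers (paper B, C). -/

namespace Pool.Agent.Work.MP_e10cd8_co.Four
namespace PG
open Finset

variable {q : ℕ} {Pt : Type} [Fintype Pt] [DecidableEq Pt] (G : PG q Pt)

theorem WtA_t0 {D k : ℕ} (h : XPar q D k) : 0 ≤ xt0 q := by
  have := h.le_xt0
  have k0 : (0 : ℝ) ≤ k := Nat.cast_nonneg k
  nlinarith

theorem WtA_small {φ : Type} [DecidableEq φ] {D k : ℕ} (h : XPar q D k) (j : ℕ) (Ω : Finset φ)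
    (hΩ : (Ω.card : ℝ) ≤ 3000 * Real.exp (4 * j) * (q : ℝ) ^ 3) :
    ∑ T ∈ selIn Ω.powerset (fun T => (T.card : ℝ) ≤ xt0 q), xp q k ^ T.card ≤
      Real.exp (xt0 q * (4 * j + 25)) := by
  have q0 : (0 : ℝ) < q := by exact_mod_cast (show 0 < q by have := h.hq; omega)
  have e0 := Real.exp_pos (4 * (j : ℝ))
  have e1 : 1 ≤ Real.exp (4 * (j : ℝ)) := Real.one_le_exp (by positivity)
  have p0 := XPar.xp_nonneg q k
  have t0 := WtA_t0 h
  have k0 : (0 : ℝ) ≤ k := Nat.cast_nonneg k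
  refine (sum_small_le Ω (x := 1 / Real.exp (4 * j)) p0 (by positivity)
    (div_le_one_of_le₀ e1 e0.le)).trans (Real.exp_le_exp.2 ?_)
  rw [one_div_one_div, Real.log_exp]
  have a : 1 / Real.exp (4 * j) * xp q k * Ω.card ≤ 3000 * k / 2 ^ 80 := by
    calc _ ≤ 1 / Real.exp (4 * j) * xp q k * (3000 * Real.exp (4 * j) * (q : ℝ) ^ 3) := by gcongr
      _ = _ := by unfold xp; field_simp
  have := h.le_xt0
  nlinarith

/-- `sum_small_le` with `x = t0 / (3000 exp (4 j) k)` bounds each fingerprint sum by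
`exp (t0 (4 j + 25))` (`le_xt0`); in the second alternative `T2 = T \ Ts` -/
theorem wt_pfx {D k : ℕ} (h : XPar q D k) (j : ℕ) (X Y : Finset Pt) :
    ∑ x ∈ sel (fun x : Finset (Pt × Pt) × Finset (Pt × Pt) => G.Pfx j X Y x.1 x.2),
      xp q k ^ x.1.card ≤ 2 * Real.exp (2 * xt0 q * (4 * j + 25)) := by
  classical
  have p0 := XPar.xp_nonneg q k
  have t0 := WtA_t0 h
  by_cases hΩ : ((G.pool X Y).card : ℝ) ≤ 3000 * Real.exp (4 * j) * (q : ℝ) ^ 3
  swap
  · rw [sum_eq_zero fun x hx => absurd (mem_sel.1 hx).1 hΩ]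
    positivity
  set E := Real.exp (xt0 q * (4 * j + 25)) with hE
  have E1 : 1 ≤ E := Real.one_le_exp (by positivity)
  have E2 : Real.exp (2 * xt0 q * (4 * j + 25)) = E * E := by
    rw [hE, ← Real.exp_add]; congr 1; ring
  set I := selIn (G.pool X Y).powerset (fun T => (T.card : ℝ) ≤ xt0 q) with hI
  have sI : ∑ T ∈ I, xp q k ^ T.card ≤ E := WtA_small h j _ hΩ
  set J := selIn I fun T2 =>
    ((G.pool (G.PP T2) (G.QQ T2)).card : ℝ) ≤ 35 * Real.exp (2 * j) * (q : ℝ) ^ 3 with hJ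
  set K := fun T2 : Finset (Pt × Pt) =>
    selIn (G.pool (G.PP T2) (G.QQ T2)).powerset (fun T => (T.card : ℝ) ≤ xt0 q) with hK
  have sK : ∀ T2 ∈ J, ∑ T ∈ K T2, xp q k ^ T.card ≤ E := fun T2 hT =>
    WtA_small h j _ ((mem_selIn.1 hT).2.trans (by
      have : Real.exp (2 * (j : ℝ)) ≤ Real.exp (4 * j) :=
        Real.exp_le_exp.2 (by nlinarith [Nat.cast_nonneg (α := ℝ) j])
      have := Real.exp_pos (2 * (j : ℝ))
      gcongr ?_ * _
      linarith))
  set A := I.image fun T => (T, T) with hA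
  set B := (J.sigma fun T2 => selIn (K T2) fun Ts => Disjoint T2 Ts).image
    fun y => (y.1 ∪ y.2, y.2) with hB
  have sub : sel (fun x : Finset (Pt × Pt) × Finset (Pt × Pt) => G.Pfx j X Y x.1 x.2) ⊆ A ∪ B := by
    rintro ⟨T, Ts⟩ hx
    obtain ⟨-, -, c, ⟨e, s⟩ | ⟨T2, s, c2, b, s2, d, e⟩⟩ := mem_sel.1 hx
    · refine mem_union_left _ (mem_image.2 ⟨Ts, mem_selIn.2 ⟨mem_powerset.2 s, c⟩, ?_⟩)
      exact Prod.ext e.symm rfl
    · refine mem_union_right _ (mem_image.2 ⟨⟨T2, Ts⟩, mem_sigma.2 ⟨mem_selIn.2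
        ⟨mem_selIn.2 ⟨mem_powerset.2 s, c2⟩, b⟩,
        mem_selIn.2 ⟨mem_selIn.2 ⟨mem_powerset.2 s2, c⟩, d⟩⟩, ?_⟩)
      exact Prod.ext e.symm rfl
  have sA : ∑ x ∈ A, xp q k ^ x.1.card ≤ E :=
    (sum_image_le_of_nonneg fun _ _ => by positivity).trans sI
  have sB : ∑ x ∈ B, xp q k ^ x.1.card ≤ E * E := by
    refine (sum_image_le_of_nonneg fun _ _ => by positivity).trans ?_
    rw [sum_sigma]
    calc _ ≤ ∑ T2 ∈ J, xp q k ^ T2.card * E := by
          refine sum_le_sum fun T2 hT => ?_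
          refine le_trans ?_ (mul_le_mul_of_nonneg_left (sK T2 hT) (by positivity))
          rw [mul_sum]
          refine le_trans (le_of_eq (sum_congr rfl fun Ts hs => ?_))
            (sum_le_sum_of_subset_of_nonneg (selIn_subset _ _) fun _ _ _ => by positivity)
          rw [card_union_of_disjoint (mem_selIn.1 hs).2, pow_add]
      _ ≤ E * E := by
          rw [← sum_mul]
          exact mul_le_mul_of_nonneg_right ((sum_le_sum_of_subset_of_nonneg (selIn_subset _ _)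
            fun _ _ _ => by positivity).trans sI) (by linarith)
  have u := sum_union_inter (s₁ := A) (s₂ := B) (f := fun x => xp q k ^ x.1.card)
  have n : 0 ≤ ∑ x ∈ A ∩ B, xp q k ^ x.1.card := sum_nonneg fun _ _ => by positivity
  have m := sum_le_sum_of_subset_of_nonneg (f := fun x => xp q k ^ x.1.card) sub
    fun _ _ _ => by positivity
  rw [E2]
  nlinarith

end PG
end Pool.Agent.Work.MP_e10cd8_co.Four
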