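import Pool.Agent.Work.MP_e10cd8_co.Exact.CapK
import Pool.Agent.Work.MP_e10cd8_co.Four.Cover

/-! The cover of all independent sets. Compare `Four/Cover`. -/

namespace Pool.Agent.Work.MP_e10cd8_co.Four
open Finset

theorem XCover_fam {φ κ : Type} [DecidableEq φ] {q D k : ℕ} (h : XPar q D k) (I : Finset κ)
    (f : κ → Finset φ) {A : ℝ} (hI : (I.card : ℝ) ≤ Real.exp A)
    (hf : ∀ i ∈ I, ((f i).card : ℝ) ≤ 2 ^ 52 * (q : ℝ) ^ 3) (hA : A ≤ (k : ℝ) / 200) :
    wtC (xp q k) (xw k) (I.image fun i => ((∅ : Finset φ), f i)) ≤ Real.exp (-(k : ℝ) / 30) := by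
  have k0 : (0 : ℝ) ≤ k := Nat.cast_nonneg _
  refine (wtC_image_le (XPar.xp_nonneg q k) _ I _).trans ?_
  refine (sum_le_card_nsmul _ _ (Real.exp (-((10 + 0) * k / 256))) fun i hi => ?_).trans ?_
  · rw [card_empty, pow_zero, one_mul]
    refine h.pool_factor le_rfl ?_
    rw [neg_zero, Real.exp_zero, mul_one]
    exact hf i hi
  · rw [nsmul_eq_mul]
    refine (mul_le_mul_of_nonneg_right hI (Real.exp_pos _).le).trans ?_
    rw [← Real.exp_add]
    exact Real.exp_le_exp.2 (by linarith)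

theorem XCover_q {q D k : ℕ} (h : XPar q D k) : (2 : ℝ) ^ 144 ≤ q := by
  have hL : (1 : ℝ) ≤ Real.log q := le_trans (by norm_num) h.L_ge
  have h1 : (2 : ℝ) ^ 36 ≤ 2 ^ 36 * Real.log q ^ 2 :=
    le_mul_of_one_le_right (by positivity) (one_le_pow₀ hL)
  have h2 : (1 : ℝ) ≤ 2 ^ 36 * Real.log q ^ 2 := le_trans (by norm_num) h1
  refine le_trans ?_ ((pow_le_pow_right₀ h2 (show 4 ≤ 100 by norm_num)).trans h.hbig)
  refine le_trans (le_of_eq ?_) (pow_le_pow_left₀ (by positivity) h1 4)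
  rw [← pow_mul]

namespace PG

variable {q : ℕ} {Pt : Type} [Fintype Pt] [DecidableEq Pt] (G : PG q Pt)

/-- `reduce` with `d = xd`; cases (a), (b) as in `cover_all` with `r = 2^50` and `pool_factor` with
`y = 0`; case (c) `sparse_cover2` (a subset of an independent set is independent) -/
theorem cover_all2 {D k : ℕ} (h : XPar q D k) :
    ∃ C : Finset (Finset (Pt × Pt) × Finset (Pt × Pt)),
      wtC (xp q k) (xw k) C * (4 * (q : ℝ) ^ 5) ≤ 1 ∧
      ∀ I, G.indep I → I.card = k → hits C (xw k) I := by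
  obtain ⟨C, hC, hC'⟩ := G.sparse_cover2 h
  have hL : (1 : ℝ) ≤ Real.log q := le_trans (by norm_num) h.L_ge
  have hk := h.hk1
  have q0 : (1000 : ℝ) ≤ q := by exact_mod_cast h.hq
  have q1 := XCover_q h
  have qp : (0 : ℝ) < q := by linarith
  have qL : 1000 * Real.log q ≤ q * Real.log q :=
    mul_le_mul_of_nonneg_right q0 (by linarith)
  have k16 : 16 ≤ k := le_trans (le_trans (by norm_num) h.hq) h.q_le_k
  have k0 : (0 : ℝ) ≤ k := Nat.cast_nonneg _
  have wa := XCover_fam h (selIn G.flags.powerset fun T => T.card ≤ 4 * (2 ^ 50 * q) + 4) G.det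
    (Cover_cnt _ qp 6 _ (by
      have h1 := G.card_flags.2
      have h2 : 1 ≤ (q : ℝ) ^ 5 := one_le_pow₀ (by linarith)
      have h3 := mul_le_mul_of_nonneg_left q0 (pow_pos qp 5).le
      rw [pow_succ]
      linarith))
    (fun T hT => by
      rw [mem_selIn, mem_powerset] at hT
      have h1 := G.card_det_le hT.1
      rw [← G.card_pt] at h1
      have h2 : ((G.det T).card : ℝ) ≤ 2 * Fintype.card Pt + (T.card : ℝ) ^ 2 := by
        exact_mod_cast h1
      have h3 : (T.card : ℝ) ≤ 4 * (2 ^ 50 * q) + 4 := by exact_mod_cast hT.2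
      have h4 : (T.card : ℝ) ^ 2 ≤ (2 ^ 53 * q) ^ 2 :=
        pow_le_pow_left₀ (Nat.cast_nonneg _) (by linarith) 2
      have h5 := mul_le_mul_of_nonneg_right q1 (pow_pos qp 2).le
      have h6 := G.card_pt_le
      have h7 := pow_pos qp 2
      have h8 := pow_pos qp 3
      linarith)
    (by
      push_cast
      linarith)
  have wb := XCover_fam h (selIn G.lines.powerset fun T => T.card ≤ 2 ^ 50 * q)
    (fun Ls => Ls.biUnion G.Fl)
    (Cover_cnt _ qp 7 _ (by
      have h1 := G.card_lines_le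
      rw [← G.card_pt] at h1
      have h2 : (G.lines.card : ℝ) ≤ (Fintype.card Pt : ℝ) ^ 2 := by exact_mod_cast h1
      have h3 := pow_le_pow_left₀ (Nat.cast_nonneg _) G.card_pt_le 2
      have h4 : 1 ≤ (q : ℝ) ^ 6 := one_le_pow₀ (by linarith)
      have h5 := mul_le_mul_of_nonneg_left q0 (pow_pos qp 6).le
      rw [pow_succ]
      linarith))
    (fun Ls hT => by
      rw [mem_selIn, mem_powerset] at hT
      have h1 := (card_biUnion_le_card_mul Ls G.Fl _ fun l hl => G.card_Fl_le (hT.1 hl)).trans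
        (Nat.mul_le_mul_right _ hT.2)
      have h2 : ((Ls.biUnion G.Fl).card : ℝ) ≤ 2 ^ 50 * q * (q + 1) ^ 2 := by exact_mod_cast h1
      have h3 : ((q : ℝ) + 1) ^ 2 ≤ (2 * q) ^ 2 := pow_le_pow_left₀ (by linarith) (by linarith) 2
      have h4 := mul_le_mul_of_nonneg_left h3 (show (0 : ℝ) ≤ 2 ^ 50 * q by positivity)
      linarith)
    (by
      push_cast
      linarith)
  have p0 := XPar.xp_nonneg q k
  refine ⟨_ ∪ _ ∪ C, le_trans (mul_le_mul_of_nonneg_right ((wtC_union_le p0 _ _ _).trans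
    (add_le_add ((wtC_union_le p0 _ _ _).trans (add_le_add wa wb)) hC)) (by positivity)) ?_,
    fun I hI hIk => ?_⟩
  · have h1 : Real.exp (-(k : ℝ) / 30) ≤ 1 / (q : ℝ) ^ 7 := by
      rw [one_div, ← Real.exp_log (pow_pos qp 7), ← Real.exp_neg, Real.log_pow]
      apply Real.exp_le_exp.2
      push_cast
      linarith
    rw [le_div_iff₀ (pow_pos qp 7)] at h1
    have h0 : ((xJ q : ℝ) + 1) ≤ q := by exact_mod_cast h.xJ_le
    have h4 := mul_le_mul_of_nonneg_right q0 qp.le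
    have h2 : (2 + 3 * ((xJ q : ℝ) + 1)) * 4 ≤ q * q := by linarith
    have h3 := mul_le_mul_of_nonneg_left h2
      (mul_pos (Real.exp_pos (-(k : ℝ) / 30)) (pow_pos qp 5)).le
    linarith
  have hd := h.div_xd_le
  rcases G.reduce hI (d := xd q k) (Nat.le_add_left _ _) with
    ⟨T, h1, h2, h3⟩ | ⟨Ls, h1, h2, h3⟩ | ⟨Z, h1, h2, h3⟩
  · refine ⟨(∅, G.det T), mem_union_left _ (mem_union_left _ (mem_image.2
      ⟨T, mem_selIn.2 ⟨mem_powerset.2 h1, ?_⟩, rfl⟩)), empty_subset _, ?_⟩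
    · rw [hIk] at h2
      exact h2.trans (Nat.add_le_add_right (Nat.mul_le_mul_left 4 hd) 4)
    · rw [sdiff_empty, xw]
      dsimp only
      omega
  · refine ⟨(∅, Ls.biUnion G.Fl), mem_union_left _ (mem_union_right _ (mem_image.2
      ⟨Ls, mem_selIn.2 ⟨mem_powerset.2 h1, ?_⟩, rfl⟩)), empty_subset _, ?_⟩
    · rw [hIk] at h2
      exact h2.trans hd
    · rw [sdiff_empty, xw]
      dsimp only
      omega
  · exact hits_mono subset_union_right h1 (hC' Z
      ⟨h1.trans hI.1, fun u hu v hv => hI.2 u (h1 hu) v (h1 hv)⟩ h3 (hIk ▸ h2)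
      (hIk ▸ card_le_card h1))

theorem host2 {D k : ℕ} (h : XPar q D k) :
    ∃ X ⊆ G.flags, (k : ℝ) * (q : ℝ) ^ 2 / 2 ^ 80 - 1 ≤ X.card ∧
      ∀ I ⊆ X, G.indep I → I.card ≠ k := by
  obtain ⟨C, h1, h2⟩ := G.cover_all2 h
  have p0 := XPar.xp_nonneg q k
  have q1 := XCover_q h
  have qp : (0 : ℝ) < q := lt_of_lt_of_le (by positivity) q1
  have w0 : 0 ≤ wtC (xp q k) (xw k) C := sum_nonneg fun x _ => by positivity
  have h3 : (k : ℝ) * (q : ℝ) ^ 2 / 2 ^ 80 ≤ xp q k * G.flags.card := by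
    refine le_trans (le_of_eq ?_) (mul_le_mul_of_nonneg_left G.card_flags.1 p0)
    rw [xp]
    field_simp
  have h4 : 1 < (k : ℝ) * (q : ℝ) ^ 2 / 2 ^ 80 := by
    rw [one_lt_div (by positivity)]
    have a1 : 1 ≤ (q : ℝ) ^ 2 := one_le_pow₀ (by linarith)
    have a2 := mul_le_mul_of_nonneg_left a1 (Nat.cast_nonneg (α := ℝ) k)
    have a3 : (q : ℝ) ≤ k := by exact_mod_cast h.q_le_k
    linarith
  obtain ⟨X, x1, x2, x3⟩ := sample G.flags p0 h.xp_le_one (xw k) C
    ((mul_le_mul_of_nonneg_left G.card_flags.2 w0).trans h1) (h4.trans_le h3)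
  exact ⟨X, x1, by linarith, fun I hI hi e => x3 I hI (h2 I hi e)⟩

end PG
end Pool.Agent.Work.MP_e10cd8_co.Four
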