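import Pool.Agent.Work.MP_e10cd8_co.Exact.XTop

namespace Pool.Agent.Work.MP_e10cd8_co.Four

theorem xfin : ∃ c C : ℝ, 0 < c ∧ ∃ n₀ : ℕ, ∀ n : ℕ, n₀ ≤ n → ∃ k : ℕ,
    IsLeast {N : ℕ | ∀ G : Digraph (Fin N), (∀ v, ¬ G.Adj v v) →
      (∃ S : Finset (Fin N), S.card = n ∧ ∀ u ∈ S, ∀ v ∈ S, ¬ G.Adj u v) ∨
        ∃ f : Fin 4 → Fin N, Function.Injective f ∧ ∀ i j, i < j → G.Adj (f i) (f j)} k ∧
    c * (n : ℝ) ^ 3 / Real.log n ^ 2 ≤ k ∧ (k : ℝ) ≤ C * (n : ℝ) ^ 3 / Real.log n ^ 2 := by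
  obtain ⟨c, C, hc, n₀, h⟩ := xtop
  refine ⟨c, |C| + 1, hc, max n₀ 2, fun n hn => ?_⟩
  have h0 : n₀ ≤ n := le_of_max_le_left hn
  have h2 : (2 : ℝ) ≤ n := by exact_mod_cast le_of_max_le_right hn
  have l0 : 0 < Real.log n := Real.log_pos (by linarith)
  have l1 : Real.log n ≤ n := (Real.log_le_sub_one_of_pos (by linarith)).trans (by linarith)
  have f1 : 1 ≤ (n : ℝ) ^ 3 / Real.log n ^ 2 := by
    rw [le_div_iff₀ (by positivity), one_mul]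
    have := pow_le_pow_left₀ l0.le l1 2
    nlinarith [sq_nonneg (n : ℝ)]
  set A := {N : ℕ | ∀ G : Digraph (Fin N), (∀ v, ¬ G.Adj v v) →
      (∃ S : Finset (Fin N), S.card = n ∧ ∀ u ∈ S, ∀ v ∈ S, ¬ G.Adj u v) ∨
        ∃ f : Fin 4 → Fin N, Function.Injective f ∧ ∀ i j, i < j → G.Adj (f i) (f j)} with hA
  have m1 : ⌈|C| * ((n : ℝ) ^ 3 / Real.log n ^ 2)⌉₊ ∈ A := by
    refine (h n _ h0).2 (le_trans ?_ (Nat.le_ceil _))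
    rw [mul_div_assoc]
    exact mul_le_mul_of_nonneg_right (le_abs_self C) (by linarith)
  have m2 : sInf A ∈ A := Nat.sInf_mem ⟨_, m1⟩
  refine ⟨sInf A, ⟨m2, fun N hN => Nat.sInf_le hN⟩, ?_, ?_⟩
  · by_contra k
    obtain ⟨G, g1, g2, g3⟩ := (h n _ h0).1 (not_le.1 k).le
    exact (m2 G g1).elim g2 g3
  · have a1 : ((sInf A : ℕ) : ℝ) ≤ (⌈|C| * ((n : ℝ) ^ 3 / Real.log n ^ 2)⌉₊ : ℕ) :=
      Nat.cast_le.2 (Nat.sInf_le m1)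
    have a2 := Nat.ceil_lt_add_one (a := |C| * ((n : ℝ) ^ 3 / Real.log n ^ 2)) (by positivity)
    rw [mul_div_assoc, add_mul]
    linarith

end Pool.Agent.Work.MP_e10cd8_co.Four
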