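import Pool.Agent.Work.MP_e10cd8_co.Exact.XDefs
import Pool.Agent.Work.MP_e10cd8_co.Four.ParF
import Pool.Agent.Work.MP_e10cd8_co.Four.Prob3

/-! Numerical consequences of the side conditions (compare `Four/ParF`, `Four/FinP`). -/

namespace Pool.Agent.Work.MP_e10cd8_co.Four

namespace Par0
variable {q c : ℕ} {w : ℝ}

theorem w_pos (h : Par0 q w c) : 0 < w := lt_of_lt_of_le (by norm_num) h.hw

theorem one_le_w (h : Par0 q w c) : 1 ≤ w := le_trans (by norm_num) h.hw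

theorem q_pos (h : Par0 q w c) : (0 : ℝ) < q := lt_of_lt_of_le (pow_pos h.w_pos _) h.hq

theorem twenty_le_log (h : Par0 q w c) : 20 ≤ Real.log w := by
  have h1 : Real.log ((2 : ℝ) ^ 30) ≤ Real.log w := Real.log_le_log (by norm_num) h.hw
  rw [Real.log_pow] at h1
  have h2 := Real.log_two_gt_d9
  push_cast at h1
  linarith

theorem c_le (h : Par0 q w c) : (c : ℝ) + 4 ≤ w := by
  have h0 := h.w_pos
  have h1 : Real.log (w / 2 ^ 30) ≤ w / 2 ^ 30 - 1 := Real.log_le_sub_one_of_pos (by positivity)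
  rw [Real.log_div h0.ne' (by norm_num), Real.log_pow] at h1
  have h2 := Real.log_two_lt_d9
  have h3 := h.hc2
  have h4 := h.hw
  push_cast at h1
  linarith

theorem le_c (h : Par0 q w c) : 1000 ≤ c := by
  have h1 := h.twenty_le_log
  have h2 := h.hc1
  have h3 : (1000 : ℝ) ≤ c := by linarith
  exact_mod_cast h3

theorem thousand_le_q (h : Par0 q w c) : 1000 ≤ q := by
  have h1 : w ≤ w ^ 100 := le_self_pow₀ h.one_le_w (by norm_num)
  have h2 := h.hq
  have h3 := h.hw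
  have h4 : (1000 : ℝ) ≤ q := by linarith
  exact_mod_cast h4

theorem one_le_L (h : Par0 q w c) : 1 ≤ Real.log q := by
  have h1 : (1000 : ℝ) ≤ q := by exact_mod_cast h.thousand_le_q
  rw [Real.le_log_iff_exp_le h.q_pos]
  have := Real.exp_one_lt_d9
  linarith

theorem exp20 (h : Par0 q w c) : Real.exp (-(c : ℝ) / 20) ≤ 1 / w ^ 20 := by
  have h1 := h.twenty_le_log
  have h2 := h.hc1
  rw [one_div, ← Real.exp_log (pow_pos h.w_pos 20), ← Real.exp_neg, Real.log_pow]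
  apply Real.exp_le_exp.2
  push_cast
  linarith

theorem exp21 (h : Par0 q w c) : Real.exp (-(c : ℝ) / 2 ^ 21) ≤ 1 / w ^ 4 := by
  have h2 := h.hc1
  rw [one_div, ← Real.exp_log (pow_pos h.w_pos 4), ← Real.exp_neg, Real.log_pow]
  apply Real.exp_le_exp.2
  push_cast
  linarith

theorem exp24 (h : Par0 q w c) : 1 / w ≤ Real.exp (-(c : ℝ) / 2 ^ 24) := by
  have h1 := h.twenty_le_log
  have h2 := h.hc2
  have h3 : 1 / w = Real.exp (-Real.log w) := by
    rw [Real.exp_neg, Real.exp_log h.w_pos, one_div]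
  rw [h3]
  apply Real.exp_le_exp.2
  linarith

/-- the hundredth power is at most `q ^ 45 * q ^ 10` -/
theorem Lw_le (h : Par0 q w c) : Real.log q ^ 9 * w ^ 10 ≤ q := by
  have q1 : (1 : ℝ) ≤ q := by
    have : (1000 : ℝ) ≤ q := by exact_mod_cast h.thousand_le_q
    linarith
  have L0 : 0 ≤ Real.log q := le_trans zero_le_one h.one_le_L
  have w0 := h.w_pos.le
  refine le_of_pow_le_pow_left₀ (n := 100) (by norm_num) (by linarith) ?_
  calc (Real.log q ^ 9 * w ^ 10) ^ 100 = (Real.log q ^ 20) ^ 45 * (w ^ 100) ^ 10 := by ring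
    _ ≤ (q : ℝ) ^ 45 * (q : ℝ) ^ 10 :=
        mul_le_mul (pow_le_pow_left₀ (by positivity) h.hL 45)
          (pow_le_pow_left₀ (by positivity) h.hq 10) (by positivity) (by positivity)
    _ = (q : ℝ) ^ 55 := by ring
    _ ≤ (q : ℝ) ^ 100 := pow_le_pow_right₀ q1 (by norm_num)

end Par0

namespace XPar
variable {q D k : ℕ}

theorem XNum_q1 (h : XPar q D k) : (1000 : ℝ) ≤ q := by exact_mod_cast h.hq

theorem XNum_L1 (h : XPar q D k) : 1 ≤ Real.log q := by
  have h1 := h.XNum_q1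
  rw [Real.le_log_iff_exp_le (by linarith)]
  have := Real.exp_one_lt_d9
  linarith

theorem XNum_qL (h : XPar q D k) : (q : ℝ) ≤ q * Real.log q :=
  le_mul_of_one_le_right (Nat.cast_nonneg q) h.XNum_L1

theorem XNum_big (h : XPar q D k) : 2 ^ 200 * Real.log q ^ 200 ≤ q := by
  have h1 : (0 : ℝ) ≤ Real.log q ^ 2 := by positivity
  calc 2 ^ 200 * Real.log q ^ 200 = (2 ^ 2 * Real.log q ^ 2) ^ 100 := by ring
    _ ≤ (2 ^ 36 * Real.log q ^ 2) ^ 100 := pow_le_pow_left₀ (by positivity) (by linarith) 100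
    _ ≤ q := h.hbig

theorem XNum_le (h : XPar q D k) : k ≤ xd q k * (2 ^ 50 * q) := by
  have h0 : 0 < 2 ^ 50 * q := Nat.mul_pos (by norm_num) (by have := h.hq; omega)
  have := Nat.lt_div_mul_add (a := k) h0
  unfold xd
  rw [add_mul, one_mul]
  exact this.le

theorem XNum_quot (h : XPar q D k) : 13 * 10 ^ 6 * Real.log q ≤ (k : ℝ) / (2 ^ 50 * q) := by
  have h0 : (0 : ℝ) < 2 ^ 50 * q := by have := h.XNum_q1; positivity
  rw [le_div_iff₀ h0]
  have := h.hk1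
  linarith

theorem D_ge (h : XPar q D k) : 10 ^ 11 ≤ D := by
  have h1 : 0 ≤ Real.log (Real.log q) := Real.log_nonneg h.XNum_L1
  have h2 := h.hD3
  have h3 : (10 : ℝ) ^ 11 ≤ D := by nlinarith
  exact_mod_cast h3

theorem L_ge (h : XPar q D k) : (10 : ℝ) ^ 22 ≤ Real.log q := by
  have h1 : (10 : ℝ) ^ 11 ≤ D := by exact_mod_cast h.D_ge
  have h2 := pow_le_pow_left₀ (by positivity) h1 2
  have h3 := h.hD1
  have h4 : ((10 : ℝ) ^ 11) ^ 2 = 10 ^ 22 := by norm_num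
  linarith

theorem ell_ge (h : XPar q D k) : 1 ≤ Real.log (Real.log q) := by
  have h1 := h.L_ge
  rw [Real.le_log_iff_exp_le (by linarith)]
  have := Real.exp_one_lt_d9
  linarith

theorem L20 (h : XPar q D k) : Real.log q ^ 20 ≤ q := by
  have h1 := h.XNum_big
  have h2 : Real.log q ^ 20 ≤ Real.log q ^ 200 := pow_le_pow_right₀ h.XNum_L1 (by norm_num)
  have h3 : 0 ≤ Real.log q ^ 200 := pow_nonneg (le_trans zero_le_one h.XNum_L1) _
  linarith

theorem q_le_k (h : XPar q D k) : q ≤ k := by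
  have h1 := h.XNum_qL
  have h2 := h.hk1
  have h3 := h.XNum_q1
  have h4 : (q : ℝ) ≤ k := by nlinarith
  exact_mod_cast h4

theorem k_sq_le (h : XPar q D k) : (k : ℝ) ^ 2 * Real.log q ≤ (q : ℝ) ^ 3 := by
  have L1 := h.XNum_L1
  have q1 := h.XNum_q1
  have h1 : (k : ℝ) ^ 2 ≤ (65 * 10 ^ 6 * 2 ^ 50 * q * Real.log q) ^ 2 :=
    pow_le_pow_left₀ (Nat.cast_nonneg k) h.hk2 2
  have h2 : Real.log q ^ 3 ≤ Real.log q ^ 200 := pow_le_pow_right₀ L1 (by norm_num)
  have h3 := h.XNum_big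
  have h4 : 0 ≤ Real.log q ^ 3 := by positivity
  have h5 : (65 * 10 ^ 6 * 2 ^ 50) ^ 2 * Real.log q ^ 3 ≤ q := by linarith
  calc (k : ℝ) ^ 2 * Real.log q ≤ (65 * 10 ^ 6 * 2 ^ 50 * q * Real.log q) ^ 2 * Real.log q :=
        mul_le_mul_of_nonneg_right h1 (by linarith)
    _ = ((65 * 10 ^ 6 * 2 ^ 50) ^ 2 * Real.log q ^ 3) * (q : ℝ) ^ 2 := by ring
    _ ≤ q * (q : ℝ) ^ 2 := mul_le_mul_of_nonneg_right h5 (by positivity)
    _ = (q : ℝ) ^ 3 := by ring

theorem xp_nonneg (q k : ℕ) : 0 ≤ xp q k := by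
  unfold xp
  positivity

theorem xp_le_one (h : XPar q D k) : xp q k ≤ 1 := by
  have L1 := h.XNum_L1
  have h1 := h.k_sq_le
  have h2 : (1000 : ℝ) ≤ k := le_trans h.XNum_q1 (by exact_mod_cast h.q_le_k)
  have h3 : (k : ℝ) ≤ (k : ℝ) ^ 2 := by nlinarith
  have h4 : (k : ℝ) ^ 2 ≤ (k : ℝ) ^ 2 * Real.log q := le_mul_of_one_le_right (by positivity) L1
  have h5 : (0 : ℝ) ≤ (q : ℝ) ^ 3 := by positivity
  exact div_le_one_of_le₀ (by linarith) (by positivity)

theorem xw_ge (k : ℕ) : (k : ℝ) / 256 ≤ xw k := by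
  have : k ≤ xw k * 256 := by unfold xw; omega
  rw [div_le_iff₀ (by norm_num)]
  exact_mod_cast this

theorem xw_le (h : XPar q D k) : (xw k : ℝ) ≤ k / 250 := by
  have h0 := Nat.cast_div_le (α := ℝ) (m := k) (n := 256)
  have h1 := h.XNum_qL
  have h2 := h.hk1
  have h3 := h.XNum_q1
  have h4 : (64000 : ℝ) ≤ k := by nlinarith
  unfold xw
  push_cast at h0 ⊢
  linarith

theorem div_xd_le (h : XPar q D k) : k / xd q k ≤ 2 ^ 50 * q := by
  exact Nat.div_le_of_le_mul h.XNum_le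

theorem xd1_ge (h : XPar q D k) : 12 * (k : ℝ) / (2 ^ 50 * q) ≤ xd1 q k := by
  have h0 : (0 : ℝ) < 2 ^ 50 * q := by have := h.XNum_q1; positivity
  have h1 : (k : ℝ) ≤ xd q k * (2 ^ 50 * q) := by exact_mod_cast h.XNum_le
  have h2 : (k : ℝ) / (2 ^ 50 * q) ≤ xd q k := (div_le_iff₀ h0).2 h1
  unfold xd1
  push_cast
  rw [mul_div_assoc]
  linarith

theorem xd1_le (h : XPar q D k) : (xd1 q k : ℝ) ≤ 13 * k / (2 ^ 50 * q) := by
  have h1 := Nat.cast_div_le (α := ℝ) (m := k) (n := 2 ^ 50 * q)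
  have h2 := h.XNum_quot
  have h3 := h.XNum_L1
  unfold xd1 xd
  rw [Nat.cast_mul, Nat.cast_pow, Nat.cast_ofNat] at h1
  rw [Nat.cast_add, Nat.cast_mul, Nat.cast_add, Nat.cast_one, Nat.cast_ofNat, mul_div_assoc]
  linarith

theorem L_le_xd1 (h : XPar q D k) : 15 * Real.log q ≤ xd1 q k := by
  have h1 := h.xd1_ge
  have h2 := h.XNum_quot
  have h3 := h.XNum_L1
  rw [mul_div_assoc] at h1
  linarith

theorem xt0_le (h : XPar q D k) : xt0 q ≤ k / 10 ^ 6 := by
  have := h.hk1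
  unfold xt0
  rw [le_div_iff₀ (by norm_num)]
  linarith

theorem le_xt0 (h : XPar q D k) : (k : ℝ) ≤ 5 * 10 ^ 6 * xt0 q := by
  have := h.hk2
  unfold xt0
  linarith

theorem xm2_le (h : XPar q D k) : xm2 q ≤ D := by
  have h1 := h.ell_ge
  have h2 := h.hD3
  unfold xm2
  nlinarith

theorem xt2_mul_le (h : XPar q D k) (j : ℕ) :
    xt2 q D k * (2 * j + Real.log (Real.log q) + 5) ≤ k * (j + 1) / 10 ^ 4 := by
  have h1 := h.ell_ge
  have h2 := h.hD3
  have D0 : (0 : ℝ) < D := by nlinarith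
  have j0 : (0 : ℝ) ≤ j := Nat.cast_nonneg j
  have k0 : (0 : ℝ) ≤ k := Nat.cast_nonneg k
  have a1 : xm2 q ≤ 200 * (Real.log (Real.log q) + 10) := by unfold xm2; linarith
  have a2 : 2 * j + Real.log (Real.log q) + 5 ≤ (j + 1) * (Real.log (Real.log q) + 10) := by
    nlinarith
  have a3 : xm2 q * (2 * j + Real.log (Real.log q) + 5) ≤
      200 * (Real.log (Real.log q) + 10) * ((j + 1) * (Real.log (Real.log q) + 10)) :=
    mul_le_mul a1 a2 (by linarith) (by linarith)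
  have a4 : 10 ^ 9 * (Real.log (Real.log q) + 10) ^ 2 * (j + 1) ≤ D * (j + 1) :=
    mul_le_mul_of_nonneg_right h2 (by linarith)
  have a5 : 0 ≤ (D : ℝ) * (j + 1) := by positivity
  have a6 : 10 ^ 5 * (xm2 q * (2 * j + Real.log (Real.log q) + 5)) ≤ D * (j + 1) := by nlinarith
  have a7 := mul_le_mul_of_nonneg_left a6 k0
  unfold xt2
  rw [div_mul_eq_mul_div, div_le_div_iff₀ D0 (by norm_num)]
  linarith

theorem xt2_le (h : XPar q D k) : xt2 q D k ≤ k / 10 ^ 4 := by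
  have h1 := h.xt2_mul_le 0
  have h2 := h.ell_ge
  have h3 : 0 ≤ xt2 q D k := by
    unfold xt2 xm2
    positivity
  rw [Nat.cast_zero, mul_zero, zero_add, zero_add, mul_one] at h1
  nlinarith

theorem le_xt2 (h : XPar q D k) : 1200 * (k : ℝ) / D + 4 ≤ xt2 q D k := by
  have h1 := h.ell_ge
  have D1 : (10 : ℝ) ^ 11 ≤ D := by exact_mod_cast h.D_ge
  have D0 : (0 : ℝ) < D := by linarith
  have h2 := h.hD1
  have h3 := h.L20
  have h4 : Real.log q ≤ Real.log q ^ 20 := le_self_pow₀ h.XNum_L1 (by norm_num)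
  have h5 : (q : ℝ) ≤ k := by exact_mod_cast h.q_le_k
  have h6 : (D : ℝ) ≤ k := by nlinarith
  have h7 : 1 ≤ (k : ℝ) / D := (one_le_div D0).2 h6
  unfold xt2 xm2
  rw [mul_div_assoc, mul_div_assoc]
  nlinarith

theorem log_k_div_q (h : XPar q D k) : Real.log ((k : ℝ) / q) ≤ Real.log (Real.log q) + 53 := by
  have q1 := h.XNum_q1
  have L1 := h.XNum_L1
  have q0 : (0 : ℝ) < q := by linarith
  have k0 : (0 : ℝ) < k := lt_of_lt_of_le q0 (by exact_mod_cast h.q_le_k)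
  have h1 : (k : ℝ) / q ≤ 2 ^ 76 * Real.log q := by
    rw [div_le_iff₀ q0]
    have := h.hk2
    have := h.XNum_qL
    nlinarith
  have h2 := Real.log_le_log (div_pos k0 q0) h1
  rw [Real.log_mul (by norm_num) (by linarith), Real.log_pow] at h2
  have h3 := Real.log_two_lt_d9
  push_cast at h2
  linarith

theorem cube_le_exp_xJ (h : XPar q D k) : (q : ℝ) ^ 3 ≤ Real.exp (xJ q) := by
  have q0 : (0 : ℝ) < q := lt_of_lt_of_le (by norm_num) h.XNum_q1
  rw [← Real.exp_log (pow_pos q0 3), Real.log_pow, Real.exp_le_exp]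
  have := Nat.lt_floor_add_one (3 * Real.log q)
  unfold xJ
  push_cast
  linarith

theorem xJ_le (h : XPar q D k) : xJ q + 1 ≤ q := by
  have h1 := h.L_ge
  have h2 := h.L20
  have h3 : Real.log q ^ 2 ≤ Real.log q ^ 20 := pow_le_pow_right₀ h.XNum_L1 (by norm_num)
  have h4 := Nat.floor_le (show 0 ≤ 3 * Real.log q by linarith)
  have h5 : ((xJ q + 1 : ℕ) : ℝ) ≤ q := by
    unfold xJ
    push_cast
    nlinarith
  exact_mod_cast h5

/-- `choose_mul_pow_le`, `256 e 2^52 / 2^80 ≤ exp (-10)` -/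
theorem pool_factor (h : XPar q D k) {B : ℕ} {y : ℝ} (hy : 0 ≤ y)
    (hB : (B : ℝ) ≤ 2 ^ 52 * Real.exp (-y) * (q : ℝ) ^ 3) :
    (B.choose (xw k) : ℝ) * xp q k ^ xw k ≤ Real.exp (-((10 + y) * k / 256)) := by
  have q0 : (0 : ℝ) < q := lt_of_lt_of_le (by norm_num) h.XNum_q1
  have w1 : 1 ≤ xw k := by unfold xw; omega
  have w0 : (0 : ℝ) < xw k := by exact_mod_cast w1
  have p0 := xp_nonneg q k
  have e1 : Real.exp 1 ≤ 3 := Real.exp_one_lt_d9.le.trans (by norm_num)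
  have e2 : Real.exp 10 ≤ 3 ^ 10 := by
    have e : Real.exp 10 = Real.exp 1 ^ 10 := by rw [← Real.exp_nat_mul]; norm_num
    rw [e]
    exact pow_le_pow_left₀ (Real.exp_pos 1).le e1 10
  have e3 : 3 / 2 ^ 20 ≤ Real.exp (-10) := by
    rw [Real.exp_neg, ← one_div, div_le_div_iff₀ (by norm_num) (Real.exp_pos _)]
    linarith
  have e4 : 3 / 2 ^ 20 * Real.exp (-y) ≤ Real.exp (-(10 + y)) := by
    rw [neg_add, Real.exp_add]
    exact mul_le_mul_of_nonneg_right e3 (Real.exp_pos _).le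
  have key : Real.exp 1 * B * xp q k / xw k ≤ Real.exp (-(10 + y)) := by
    rw [div_le_iff₀ w0]
    calc Real.exp 1 * B * xp q k ≤ 3 * (2 ^ 52 * Real.exp (-y) * (q : ℝ) ^ 3) * xp q k := by gcongr
      _ = 3 / 2 ^ 20 * Real.exp (-y) * (k / 256) := by unfold xp; field_simp; ring
      _ ≤ _ := mul_le_mul e4 (xw_ge k) (by positivity) (Real.exp_pos _).le
  refine (choose_mul_pow_le B _ w1 p0).trans ((pow_le_pow_left₀ (by positivity) key _).trans ?_)
  rw [← Real.exp_nat_mul, Real.exp_le_exp]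
  nlinarith [xw_ge k]

end XPar

end Pool.Agent.Work.MP_e10cd8_co.Four
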