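import Pool.Agent.Work.MP_e10cd8_co.Exact.XCover
import Pool.Agent.Work.MP_e10cd8_co.Exact.XAsym
import Pool.Agent.Work.MP_e10cd8_co.Upper.Main
import Pool.Agent.Work.MP_e10cd8_co.Four.Cover
import Pool.Agent.Work.MP_e10cd8_co.Four.Exist

namespace Pool.Agent.Work.MP_e10cd8_co.Four

theorem xtop : ∃ c C : ℝ, 0 < c ∧ ∃ n₀ : ℕ, ∀ n N : ℕ, n₀ ≤ n →
    ((N : ℝ) ≤ c * (n : ℝ) ^ 3 / Real.log n ^ 2 →
      ∃ G : Digraph (Fin N), (∀ v, ¬ G.Adj v v) ∧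
        (¬ ∃ S : Finset (Fin N), S.card = n ∧ ∀ u ∈ S, ∀ v ∈ S, ¬ G.Adj u v) ∧
        ¬ ∃ f : Fin 4 → Fin N, Function.Injective f ∧ ∀ i j, i < j → G.Adj (f i) (f j)) ∧
    (C * (n : ℝ) ^ 3 / Real.log n ^ 2 ≤ N →
      ∀ G : Digraph (Fin N), (∀ v, ¬ G.Adj v v) →
        (∃ S : Finset (Fin N), S.card = n ∧ ∀ u ∈ S, ∀ v ∈ S, ¬ G.Adj u v) ∨
          ∃ f : Fin 4 → Fin N, Function.Injective f ∧ ∀ i j, i < j → G.Adj (f i) (f j)) := by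
  obtain ⟨c, hc, n₀, h⟩ := xparams
  obtain ⟨C, n₁, h'⟩ := Upper.upper4
  refine ⟨c, C, hc, max n₀ n₁, fun n N hn => ⟨fun hN => ?_, h' n N (le_of_max_le_right hn)⟩⟩
  obtain ⟨q, D, hq, hF, hle⟩ := h n (le_of_max_le_left hn)
  obtain ⟨Pt, _, _, ⟨G⟩⟩ := exists_PG q hq
  obtain ⟨X, hX, hcard, hI⟩ := G.host2 hF
  exact G.digraph hX hI (by exact_mod_cast hN.trans (hle.trans hcard))

end Pool.Agent.Work.MP_e10cd8_co.Four
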